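import Pool.Agent.Lib.MP_81632f_ag.Lv.Tower3

/-!
# Levels: the action of the units
-/

set_option autoImplicit false

noncomputable section

namespace Pool.Agent.Lib.MP81632f.Lv

open Finset

/-- multiplication by an integer on the free group -/
def mulF (c : ℤ) : FQ →+ FQ := lft fun x => br (c * x)

@[simp] theorem mulF_br (c : ℤ) (x : ℚ) : mulF c (br x) = br (c * x) := lft_br _ _

theorem mulF_mem {m : ℕ} (c : ℤ) {w : FQ} (hw : w ∈ LevF m) : mulF c w ∈ LevF m := by
  unfold LevF at hw
  induction hw using AddSubgroup.closure_induction with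
  | mem w hw =>
    obtain ⟨x, hx, rfl⟩ := hw
    rw [mulF_br]
    exact br_mem_levF (hx.int_mul c)
  | zero => rw [map_zero]; exact zero_mem _
  | add v w _ _ hv hw => rw [map_add]; exact add_mem hv hw
  | neg v _ hv => rw [map_neg]; exact neg_mem hv

theorem fq_ext {A : Type*} [AddCommGroup A] (F G : FQ →+ A) (h : ∀ x, F (br x) = G (br x)) :
    F = G := by
  refine Finsupp.addHom_ext' fun x => ?_
  exact AddMonoidHom.ext_int (h x)

theorem mulE_eq (p : ℕ) (c : ℤ) (w : FQ) : mulE p c w = lft (e p) (mulF c w) := by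
  have h := fq_ext (mulE p c) ((lft (e p)).comp (mulF c)) fun x => by
    rw [AddMonoidHom.comp_apply, mulE_br, mulF_br, lft_br]
  exact DFunLike.congr_fun h w

theorem mulE_mul (p : ℕ) (c d : ℤ) (w : FQ) : mulE p (c * d) w = mulE p c (mulF d w) := by
  have h := fq_ext (mulE p (c * d)) ((mulE p c).comp (mulF d)) fun x => by
    rw [AddMonoidHom.comp_apply, mulE_br, mulF_br, mulE_br]
    congr 1
    push_cast
    ring
  exact DFunLike.congr_fun h w

theorem mulE_one (p : ℕ) (w : FQ) : mulE p 1 w = lft (e p) w := by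
  have h := fq_ext (mulE p 1) (lft (e p)) fun x => by
    rw [mulE_br, lft_br]
    congr 1
    push_cast
    ring
  exact DFunLike.congr_fun h w

section

variable {p m : ℕ}

/-- dependence on the class of the integer -/
theorem mulE_congr (hm : 0 < m) (hmp : m.Coprime p) {c d : ℤ} (h : (m : ℤ) ∣ c - d) {w : FQ}
    (hw : w ∈ LevF m) : mulE p c w = mulE p d w := by
  refine levF_ext _ _ (fun x hx => ?_) hw
  rw [mulE_br, mulE_br]
  refine e_congr ((Good.of_lev hm hmp hx).int_mul d) ?_
  obtain ⟨a, ha⟩ := hx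
  obtain ⟨t, ht⟩ := h
  refine ⟨t * a, ?_⟩
  have h1 : (c : ℚ) - d = m * t := by exact_mod_cast ht
  push_cast
  rw [← ha]
  linear_combination h1 * x

theorem mulE_neg_one (hm : 0 < m) (hmp : m.Coprime p) {w : FQ} (hw : w ∈ LevF m) :
    mulE p (-1) w = -lft (e p) w := by
  have h := levF_ext (mulE p (-1)) (-lft (e p)) (fun x hx => by
    rw [mulE_br, AddMonoidHom.neg_apply, lft_br, ← e_neg (Good.of_lev hm hmp hx)]
    congr 1
    push_cast
    ring) hw
  rw [h]
  rfl

/-- multiplication by an integer prime to the level preserves the relations -/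
theorem mulE_kill (hm : 0 < m) (hmp : m.Coprime p) {c : ℤ} (hc : IsCoprime c (m : ℤ)) {w : FQ}
    (hw : w ∈ R p m) : mulE p c w = 0 := by
  have key : ∀ r, Rel p m r → (1 : ℤ) • lft (fun x => e p (c * x)) r = 0 := by
    intro r hr
    rw [one_zsmul]
    cases hr with
    | per x hx =>
      have hg := (Good.of_lev hm hmp hx).int_mul c
      rw [map_sub, lft_br, lft_br, ← e_add_int hg c, sub_eq_zero]
      congr 1
      ring
    | odd x hx =>
      have hg := (Good.of_lev hm hmp hx).int_mul c
      rw [map_add, lft_br, lft_br, mul_neg, e_neg hg, neg_add_cancel]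
    | frob x hx =>
      have hg := (Good.of_lev hm hmp hx).int_mul c
      rw [map_sub, lft_br, lft_br, ← e_frob hg, sub_eq_zero]
      congr 1
      ring
    | dist l n x hl hln hx =>
      have : NeZero l := ⟨hl.ne_zero⟩
      have hlm : l ∣ m := (Dvd.intro n rfl).trans hln
      have hlp : l.Coprime p := hmp.coprime_dvd_left hlm
      have hl0 : (l : ℚ) ≠ 0 := by exact_mod_cast hl.ne_zero
      have hg : Good p x := Good.of_lev hm hmp (hx.mono ((dvd_mul_left n l).trans hln))
      have hgc : Good p ((c : ℚ) * x) := hg.int_mul c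
      rw [map_sub, map_sum]
      simp only [lft_br]
      have h1 : ∀ k ∈ range l, e p (c * ((x + k) / l)) =
          e p ((c * x + ((c * (k : ℤ) + 0 : ℤ) : ℚ)) / l) := by
        intro k _
        congr 1
        push_cast
        field_simp
        ring
      have h2 := sum_reindex (N := l) (g := fun k : ℤ => e p ((c * x + (k : ℚ)) / l)) (fun k => by
        rw [← e_add_int (((hgc.add (Good.int p k))).div hl.pos hlp) 1]
        congr 1
        push_cast
        field_simp
        ring) (c := c) (by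
          rw [ZMod.coe_int_isUnit_iff_isCoprime]
          exact (hc.of_isCoprime_of_dvd_right (by exact_mod_cast hlm)).symm) 0
      beta_reduce at h2
      simp only [Int.cast_natCast] at h2
      rw [Finset.sum_congr rfl h1, h2, e_dist hl hlp hgc, sub_self]
    | pure i n x hn hi hx =>
      rw [lft_br]
      exact e_pure hi (Nat.pos_of_dvd_of_pos hn hm) (hmp.coprime_dvd_left hn) (hx.int_mul c)
  have h1 := lft_kill (fun x => e p (c * x)) 1 key hw
  rwa [one_zsmul] at h1

/-- units lift to multiples of the level -/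
theorem exists_lift {n : ℕ} (hn : 0 < n) (hmn : m ∣ n) {c : ℤ} (hc : IsCoprime c (m : ℤ)) :
    ∃ d : ℤ, (m : ℤ) ∣ d - c ∧ IsCoprime d (n : ℤ) := by
  have : NeZero n := ⟨hn.ne'⟩
  have hu : IsUnit (c : ZMod m) := by
    rw [ZMod.coe_int_isUnit_iff_isCoprime]
    exact hc.symm
  obtain ⟨u, hu⟩ := hu
  obtain ⟨t, ht⟩ := ZMod.unitsMap_surjective hmn u
  refine ⟨((t : ZMod n).val : ℤ), ?_, ?_⟩
  · rw [← ZMod.intCast_eq_intCast_iff_dvd_sub, Int.cast_natCast, ← hu, ← ht]
    rw [ZMod.unitsMap_val, ZMod.cast_eq_val]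
  · exact (Nat.isCoprime_iff_coprime.mpr (ZMod.val_coe_unit_coprime t))

theorem mulE_zero_of (hm : 0 < m) (hmp : m.Coprime p) {c : ℤ} (hc : IsCoprime c (m : ℤ)) {w : FQ}
    (hw : w ∈ LevF m) (h : lft (e p) w = 0) : mulE p c w = 0 := by
  obtain ⟨n, hn, hnp, hmn, h1⟩ := mem_rinf_level (lft_eq_zero.mp h) hm hmp
  obtain ⟨d, hd, hdn⟩ := exists_lift hn hmn hc
  have h2 := mulE_kill hn hnp hdn h1
  rw [← mulE_congr hm hmp hd hw]
  exact h2

end

end Pool.Agent.Lib.MP81632f.Lv
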