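import Pool.Agent.Lib.MP_81632f_ag.Lv.Stmts

/-!
# Levels: the classes of the primes (CL-D)

The classes modulo `m` of the prime numbers `r` such that `q ^ T` divides the order of `p`
modulo `r` generate the group of units modulo `m`, if `q` does not divide `m`.
-/

set_option autoImplicit false

noncomputable section

namespace Pool.Agent.Lib.MP81632f.Lv

open Finset NumberField
open Pool.Agent.Lib.MP81632f.Diag

namespace CLAux

/-- divisibility of the order -/
theorem pow_dvd_ord {q T e d N : ℕ} (hq : q.Prime) (he : e ≤ T + 1)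
    (hN : 0 < N) (hqN : q ^ T ∣ N) (heN : q ^ e ∣ N) (hd : d ∣ N) (h : ¬ d ∣ N / q ^ e) :
    q ^ (T + 1 - e) ∣ d := by
  obtain ⟨w, rfl⟩ := hd
  have hd0 : d ≠ 0 := by
    rintro rfl
    simp at hN
  have hw0 : w ≠ 0 := by
    rintro rfl
    simp at hN
  have h1 : ¬ q ^ e ∣ w := by
    rintro ⟨v, rfl⟩
    apply h
    have h2 : d * (q ^ e * v) / q ^ e = d * v := by
      rw [mul_left_comm, Nat.mul_div_cancel_left _ (pow_pos hq.pos e)]
    rw [h2]
    exact dvd_mul_right _ _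
  rw [hq.pow_dvd_iff_le_factorization hw0] at h1
  rw [hq.pow_dvd_iff_le_factorization hN.ne', Nat.factorization_mul hd0 hw0,
    Finsupp.add_apply] at hqN
  rw [hq.pow_dvd_iff_le_factorization hd0]
  omega

/-- the order of `p` modulo `r` -/
theorem ord_dvd {p q r T e : ℕ} (hp : p.Prime) (hr : r.Prime) (hrp : r ≠ p) (hq : q.Prime)
    (he : e ≤ T) (hrT : r ≡ 1 [MOD q ^ T])
    (h : (p : ZMod r) ^ ((r - 1) / q ^ e) ≠ 1) : q ^ (T + 1 - e) ∣ orderOf (p : ZMod r) := by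
  have : Fact r.Prime := ⟨hr⟩
  have hp0 : (p : ZMod r) ≠ 0 := by
    intro h1
    rw [ZMod.natCast_eq_zero_iff] at h1
    exact hrp ((Nat.prime_dvd_prime_iff_eq hr hp).1 h1)
  have hN : 0 < r - 1 := by
    have := hr.two_le
    omega
  have hqN : q ^ T ∣ r - 1 := (Nat.modEq_iff_dvd' hr.one_le).1 hrT.symm
  refine pow_dvd_ord hq (by omega) hN hqN ((pow_dvd_pow q he).trans hqN) ?_ ?_
  · exact orderOf_dvd_of_pow_eq_one (ZMod.pow_card_sub_one_eq_one hp0)
  · rw [orderOf_dvd_iff_pow_eq_one]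
    exact h

/-- the classes outside of a proper subgroup -/
theorem card_compl {m : ℕ} [NeZero m] (H : Subgroup (ZMod m)ˣ) (hH : H ≠ ⊤)
    [DecidablePred fun v : (ZMod m)ˣ => v ∉ H] :
    m.totient ≤ 2 * (univ.filter fun v : (ZMod m)ˣ => v ∉ H).card := by
  classical
  have h1 := H.card_mul_index
  have h2 : 2 ≤ H.index := by
    have h3 : H.index ≠ 0 := Subgroup.index_ne_zero_of_finite
    have h4 : H.index ≠ 1 := fun h => hH (Subgroup.index_eq_one.1 h)
    omega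
  have h3 := card_filter_add_card_filter_not (s := (univ : Finset (ZMod m)ˣ)) fun v => v ∈ H
  have h4 : Nat.card H = (univ.filter fun v : (ZMod m)ˣ => v ∈ H).card := by
    rw [Nat.card_eq_fintype_card, Fintype.card_subtype]
  have h5 : Nat.card (ZMod m)ˣ = m.totient := by
    rw [Nat.card_eq_fintype_card, ZMod.card_units_eq_totient]
  rw [Finset.card_univ, ZMod.card_units_eq_totient] at h3
  rw [h5, h4] at h1
  have h6 : (univ.filter fun v : (ZMod m)ˣ => v ∉ H).card =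
      (univ.filter fun v : (ZMod m)ˣ => ¬ v ∈ H).card := by
    congr 1
  rw [h6]
  nlinarith

/-- the counting argument -/
theorem count (hA : StDens) {F : Type} [Field F] [NumberField F] {p q m T B n : ℕ} [NeZero m]
    (hq : q.Prime) (hqm : ¬ q ∣ m) (H : Subgroup (ZMod m)ˣ) (hH : H ≠ ⊤)
    (hn : 3 * (q ^ T).totient ≤ n)
    (h : ∀ r : ℕ, r.Prime → B < r → r ≡ 1 [MOD q ^ T] →
      (∃ u : (ZMod m)ˣ, (u : ZMod m) = r ∧ u ∉ H) → r ≠ p →
      ∃ S : Finset (Ideal (𝓞 F)), n ≤ S.card ∧ ∀ P ∈ S, Ideal.absNorm P = r) : False := by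
  classical
  have hco : m.Coprime (q ^ T) := ((Nat.Prime.coprime_iff_not_dvd hq).2 hqm).symm.pow_right T
  have : NeZero (q ^ T) := ⟨pow_ne_zero _ hq.ne_zero⟩
  have : NeZero (m * q ^ T) := ⟨mul_ne_zero (NeZero.ne m) (NeZero.ne _)⟩
  set e : (ZMod (m * q ^ T))ˣ ≃* (ZMod m)ˣ × (ZMod (q ^ T))ˣ :=
    (Units.mapEquiv (ZMod.chineseRemainder hco).toMulEquiv).trans MulEquiv.prodUnits with he
  have he' : ∀ u : (ZMod (m * q ^ T))ˣ, (((e u).1 : (ZMod m)ˣ) : ZMod m) =
      (ZMod.chineseRemainder hco (u : ZMod (m * q ^ T))).1 ∧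
      (((e u).2 : (ZMod (q ^ T))ˣ) : ZMod (q ^ T)) =
      (ZMod.chineseRemainder hco (u : ZMod (m * q ^ T))).2 := fun u => ⟨rfl, rfl⟩
  set A : Finset (ZMod (m * q ^ T))ˣ :=
    (univ.filter fun v : (ZMod m)ˣ => v ∉ H).image fun v => e.symm (v, 1) with hAdef
  have hcard : A.card = (univ.filter fun v : (ZMod m)ˣ => v ∉ H).card := by
    refine card_image_of_injective _ fun v w hvw => ?_
    have h1 := e.symm.injective hvw
    exact congrArg Prod.fst h1
  have h1 := hA F n (m * q ^ T) (max B p) A ?_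
  · have h2 := card_compl H hH
    rw [← hcard] at h2
    rw [Nat.totient_mul hco] at h1
    have h3 : 3 * (m.totient * (q ^ T).totient) ≤ 2 * n * A.card := by
      calc 3 * (m.totient * (q ^ T).totient) = m.totient * (3 * (q ^ T).totient) := by ring
        _ ≤ (2 * A.card) * n := Nat.mul_le_mul h2 hn
        _ = 2 * n * A.card := by ring
    omega
  · rintro r hr hBr ⟨u, hu, hur⟩
    obtain ⟨v, hv, rfl⟩ := mem_image.1 hu
    have hvH : v ∉ H := (mem_filter.1 hv).2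
    obtain ⟨h2, h3⟩ := he' (e.symm (v, 1))
    rw [MulEquiv.apply_symm_apply, hur, map_natCast] at h2 h3
    refine h r hr (lt_of_le_of_lt (le_max_left _ _) hBr) ?_ ⟨v, ?_, hvH⟩ ?_
    · rw [← ZMod.natCast_eq_natCast_iff, Nat.cast_one]
      exact h3.symm
    · exact h2
    · rintro rfl
      exact absurd (lt_of_le_of_lt (le_max_right B r) hBr) (lt_irrefl r)

/-- `q = 2`, `p` odd: Dirichlet's theorem and quadratic reciprocity -/
theorem two_odd {p m T : ℕ} [NeZero m] (hp : p.Prime) (hp2 : p ≠ 2) (hm : ¬ 2 ∣ m)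
    (hpm : p.Coprime m) (H : Subgroup (ZMod m)ˣ) (hH : H ≠ ⊤) :
    ∃ (r : ℕ) (u : (ZMod m)ˣ), r.Prime ∧ r ≠ p ∧ (u : ZMod m) = r ∧ u ∉ H ∧
      2 ^ T ∣ orderOf (p : ZMod r) := by
  have : Fact p.Prime := ⟨hp⟩
  have : NeZero p := ⟨hp.ne_zero⟩
  obtain ⟨c, hc⟩ : ∃ c : (ZMod m)ˣ, c ∉ H := by
    by_contra h
    push Not at h
    exact hH ((Subgroup.eq_top_iff' H).2 h)
  obtain ⟨b, hb⟩ : ∃ b : ZMod p, ¬ IsSquare b := by
    refine FiniteField.exists_nonsquare ?_
    rw [ZMod.ringChar_zmod_n]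
    exact hp2
  have hb0 : b ≠ 0 := by
    rintro rfl
    exact hb ⟨0, by simp⟩
  have hpodd : p.Coprime 2 := (Nat.coprime_primes hp Nat.prime_two).2 hp2
  have h2m : Nat.Coprime 2 m := (Nat.Prime.coprime_iff_not_dvd Nat.prime_two).2 hm
  have hco1 : (2 ^ (T + 2)).Coprime p := (hpodd.symm).pow_left _
  have hco2 : m.Coprime (2 ^ (T + 2) * p) :=
    Nat.Coprime.mul_right (h2m.symm.pow_right _) hpm.symm
  obtain ⟨k', hk1, hk2⟩ := Nat.chineseRemainder hco1 1 b.val
  obtain ⟨k, hk3, hk4⟩ := Nat.chineseRemainder hco2 (c : ZMod m).val k'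
  have : NeZero (m * (2 ^ (T + 2) * p)) :=
    ⟨mul_ne_zero (NeZero.ne m) (mul_ne_zero (pow_ne_zero _ two_ne_zero) hp.ne_zero)⟩
  have hkm : (k : ZMod m) = c := by
    have h1 := (ZMod.natCast_eq_natCast_iff k (c : ZMod m).val m).2 hk3
    rw [h1, ZMod.natCast_zmod_val]
  have hkp : (k : ZMod p) = b := by
    have h1 : k ≡ b.val [MOD p] := (Nat.ModEq.of_mul_left _ hk4).trans hk2
    have h2 := (ZMod.natCast_eq_natCast_iff k b.val p).2 h1
    rw [h2, ZMod.natCast_zmod_val]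
  have hk2' : k ≡ 1 [MOD 2 ^ (T + 2)] := (Nat.ModEq.of_mul_right _ hk4).trans hk1
  have hunit : IsUnit ((k : ℕ) : ZMod (m * (2 ^ (T + 2) * p))) := by
    rw [ZMod.isUnit_iff_coprime]
    refine Nat.Coprime.mul_right ?_ (Nat.Coprime.mul_right ?_ ?_)
    · rw [← ZMod.isUnit_iff_coprime, hkm]
      exact c.isUnit
    · refine Nat.Coprime.pow_right _ ?_
      have h1 : k ≡ 1 [MOD 2] := hk2'.of_dvd (dvd_pow_self 2 (by omega))
      rw [Nat.coprime_comm, Nat.coprime_two_left, Nat.odd_iff]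
      exact h1
    · rw [← ZMod.isUnit_iff_coprime, hkp]
      exact hb0.isUnit
  obtain ⟨r, hrk, hr, hrM⟩ := Nat.forall_exists_prime_gt_and_eq_mod hunit p
  have hmod : r ≡ k [MOD (m * (2 ^ (T + 2) * p))] := (ZMod.natCast_eq_natCast_iff _ _ _).1 hrM
  have hr1 : r ≡ k [MOD m] := Nat.ModEq.of_mul_right _ hmod
  have hr2 : r ≡ 1 [MOD 2 ^ (T + 2)] :=
    (Nat.ModEq.of_mul_right _ (Nat.ModEq.of_mul_left _ hmod)).trans hk2'
  have hr3 : r ≡ k [MOD p] := Nat.ModEq.of_mul_left _ (Nat.ModEq.of_mul_left _ hmod)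
  have hrp : r ≠ p := by
    rintro rfl
    exact absurd hrk (lt_irrefl _)
  have : Fact r.Prime := ⟨hr⟩
  refine ⟨r, c, hr, hrp, ?_, hc, ?_⟩
  · rw [← hkm]
    exact ((ZMod.natCast_eq_natCast_iff _ _ _).2 hr1).symm
  have hr4 : r % 4 = 1 := by
    have h1 : r ≡ 1 [MOD 4] := hr2.of_dvd ⟨2 ^ T, by ring⟩
    exact h1
  have hsq : ¬ IsSquare (p : ZMod r) := by
    rw [ZMod.exists_sq_eq_prime_iff_of_mod_four_eq_one hr4 hp2,
      (ZMod.natCast_eq_natCast_iff _ _ _).2 hr3, hkp]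
    exact hb
  have hp0 : (p : ZMod r) ≠ 0 := by
    intro h1
    rw [ZMod.natCast_eq_zero_iff] at h1
    exact hrp ((Nat.prime_dvd_prime_iff_eq hr hp).1 h1)
  have hne : (p : ZMod r) ^ ((r - 1) / 2 ^ 1) ≠ 1 := by
    rw [pow_one]
    have h1 : (r - 1) / 2 = r / 2 := by omega
    rw [h1]
    intro h2
    exact hsq ((ZMod.euler_criterion r hp0).2 h2)
  have h1 := ord_dvd hp hr hrp Nat.prime_two (by omega : 1 ≤ T + 2) hr2 hne
  exact (pow_dvd_pow 2 (by omega)).trans h1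

end CLAux

open CLAux in
/-- CL-D. -/
theorem stCL (hA : StDens) (hB : StSplit) (hC : StSplitTwo) : StCL := by
  intro p q m T _ hp hq hqm hpm H hH
  by_contra hcon
  push Not at hcon
  by_cases hq2 : q = 2
  · subst hq2
    by_cases hp2 : p = 2
    · subst hp2
      obtain ⟨F, iF, iN, B, hS⟩ := hC (T + 3) (by omega)
      refine count hA (F := F) (p := 2) (T := T + 3) (B := B)
        (n := 4 * (2 ^ (T + 3)).totient) hq hqm H hH (by omega) ?_
      rintro r hr hBr hr1 ⟨u, hu, huH⟩ hrp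
      refine hS r hr hBr hr1 ?_
      by_contra hne
      have h1 := ord_dvd (p := 2) (q := 2) (e := 3) (T := T + 3) hp hr hrp hq
        (by omega) hr1 (by simpa using hne)
      exact hcon r u hr hrp hu huH ((pow_dvd_pow 2 (by omega)).trans h1)
    · obtain ⟨r, u, h1, h2, h3, h4, h5⟩ := two_odd (T := T) hp hp2 hqm hpm H hH
      exact hcon r u h1 h2 h3 h4 h5
  · obtain ⟨F, iF, iN, B, hS⟩ := hB p q (T + 1) hp hq hq2 (by omega)
    have hq3 : 3 ≤ q := by
      have := hq.two_le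
      omega
    refine count hA (F := F) (p := p) (T := T + 1) (B := B)
      (n := q * (q ^ (T + 1)).totient) hq hqm H hH (Nat.mul_le_mul_right _ hq3) ?_
    rintro r hr hBr hr1 ⟨u, hu, huH⟩ hrp
    refine hS r hr hBr hr1 ?_
    by_contra hne
    have h1 := ord_dvd (p := p) (q := q) (e := 1) (T := T + 1) hp hr hrp hq
      (by omega) hr1 (by rw [pow_one]; exact hne)
    exact hcon r u hr hrp hu huH ((pow_dvd_pow q (by omega)).trans h1)

end Pool.Agent.Lib.MP81632f.Lv
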