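import Pool.Agent.Lib.MP_81632f_ag.Diag.Stmts2

/-!
# Levels: statements of some modules

Statements used for the general theorem on levels: primes `r` in given classes modulo `m` such that
the order of `p` modulo `r` is divisible by a given power of the prime `q` (`StCL`; the proof for odd
`q` uses the pole of the zeta function of the field of the `q ^ T`-th roots of unity and of a `q`-th
root of `p`), and the rank of the group of distributions (`StTor`).
-/

set_option autoImplicit false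

noncomputable section

namespace Pool.Agent.Lib.MP81632f.Lv

open Finset NumberField
open Pool.Agent.Lib.MP81632f.Diag

/-- CL-A (density).  If all large prime numbers `r` in the classes `A` modulo `M` are norms of at
least `n` ideals of the number field `F`, then `n |A| < (3 / 2) φ(M)` (in fact `n |A| ≤ φ(M)`). -/
def StDens : Prop :=
  ∀ (F : Type) [Field F] [NumberField F] (n M B : ℕ) [NeZero M] (A : Finset (ZMod M)ˣ),
    (∀ r : ℕ, r.Prime → B < r → (∃ u ∈ A, (u : ZMod M) = r) →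
      ∃ S : Finset (Ideal (𝓞 F)), n ≤ S.card ∧ ∀ P ∈ S, Ideal.absNorm P = r) →
    2 * n * A.card < 3 * M.totient

/-- CL-B (`q` odd).  The field of the `q ^ T`-th roots of unity and of the `q`-th roots of `p`. -/
def StSplit : Prop :=
  ∀ p q T : ℕ, p.Prime → q.Prime → q ≠ 2 → 0 < T →
    ∃ (F : Type) (_ : Field F) (_ : NumberField F) (B : ℕ), ∀ r : ℕ, r.Prime → B < r →
      r ≡ 1 [MOD q ^ T] → (p : ZMod r) ^ ((r - 1) / q) = 1 →
      ∃ S : Finset (Ideal (𝓞 F)), q * (q ^ T).totient ≤ S.card ∧ ∀ P ∈ S, Ideal.absNorm P = r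

/-- CL-C (`p = q = 2`).  The field of the `2 ^ T`-th roots of unity and of the `8`-th roots of `2`
has degree at least `4 φ(2 ^ T)`. -/
def StSplitTwo : Prop :=
  ∀ T : ℕ, 3 ≤ T →
    ∃ (F : Type) (_ : Field F) (_ : NumberField F) (B : ℕ), ∀ r : ℕ, r.Prime → B < r →
      r ≡ 1 [MOD 2 ^ T] → (2 : ZMod r) ^ ((r - 1) / 8) = 1 →
      ∃ S : Finset (Ideal (𝓞 F)), 4 * (2 ^ T).totient ≤ S.card ∧ ∀ P ∈ S, Ideal.absNorm P = r

/-- CL.  The classes modulo `m` of the prime numbers `r` such that `q ^ T` divides the order of `p`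
modulo `r` generate the group of units modulo `m`, if `q` does not divide `m`. -/
def StCL : Prop :=
  ∀ (p q m T : ℕ) [NeZero m], p.Prime → q.Prime → ¬ q ∣ m → p.Coprime m →
    ∀ H : Subgroup (ZMod m)ˣ, H ≠ ⊤ →
    ∃ (r : ℕ) (u : (ZMod m)ˣ), r.Prime ∧ r ≠ p ∧ (u : ZMod m) = r ∧ u ∉ H ∧
      q ^ T ∣ orderOf (p : ZMod r)

/-- the group generated by the relations of level `M`: `[0]`, `[-x] + [x]`, `[p x] - [x]` and
`∑_{l y = l x} [y] - [l x]` for the prime divisors `l` of `M` -/
def RelZ (M p : ℕ) [NeZero M] : AddSubgroup (ZMod M → ℤ) :=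
  AddSubgroup.closure
    ({v | v = Pi.single 0 1} ∪ {v | ∃ x : ZMod M, v = Pi.single (-x) 1 + Pi.single x 1} ∪
      {v | ∃ x : ZMod M, v = Pi.single ((p : ZMod M) * x) 1 - Pi.single x 1} ∪
      {v | ∃ (l : ℕ) (x : ZMod M), l.Prime ∧ l ∣ M ∧
        v = ∑ y with (l : ZMod M) * y = (l : ZMod M) * x, Pi.single y 1 -
          Pi.single ((l : ZMod M) * x) 1})

/-- TOR.  A function with zero pairings is a torsion element modulo the relations. -/
def StTor : Prop :=
  ∀ (M p f : ℕ) [NeZero M], 1 < M → 0 < f → (p : ZMod M) ^ f = 1 → ∀ v : ZMod M → ℤ, v 0 = 0 →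
    (∀ t : (ZMod M)ˣ, ∑ x, v x * saw M p f t x = 0) →
    ∃ k : ℕ, 0 < k ∧ (k : ℤ) • v ∈ RelZ M p

end Pool.Agent.Lib.MP81632f.Lv
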