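import Pool.Agent.Lib.MP_81632f_ag.Diag.Push
import Pool.Agent.Lib.MP_81632f_ag.Lv.Stmts

/-!
# Levels: finite extensions of finite fields, statements of some modules
-/

set_option autoImplicit false

noncomputable section

namespace Pool.Agent.Lib.MP81632f.Lv

open Finset
open Pool.Agent.Lib.MP81632f.Diag

/-- The character `χ ∘ N` of the extension `E` of `F`, where `N` is the norm. -/
def normChar (F E : Type) [Field F] [Field E] [Finite E] [Algebra F E] (χ : MulChar F ℂ) :
    MulChar E ℂ where
  toMonoidHom := χ.toMonoidHom.comp (Algebra.norm F)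
  map_nonunit' a ha := by
    have h1 : a = 0 := by
      by_contra h
      exact ha (isUnit_iff_ne_zero.mpr h)
    subst h1
    have : Module.Finite F E := Module.Finite.of_finite
    change χ (Algebra.norm F (0 : E)) = 0
    rw [Algebra.norm_zero]
    exact χ.map_zero

/-- EXT.  A finite extension such that `N` divides the order of the multiplicative group. -/
def StExt : Prop :=
  ∀ (p : ℕ) [Fact p.Prime] (F : Type) [Field F] [Fintype F] [CharP F p] (N : ℕ), N.Coprime p →
    ∃ (E : Type) (_ : Field E) (_ : Fintype E) (_ : Algebra F E), N ∣ Fintype.card E - 1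

/-- CHAR.  The powers of a character of order `M` of `F`, lifted to `E`, as powers of a character
of order `N` of `E` (`M ∣ N ∣ |E| - 1`). -/
def StChar : Prop :=
  ∀ (F E : Type) [Field F] [Fintype F] [Field E] [Fintype E] [Algebra F E] (M N : ℕ) [NeZero M]
    [NeZero N], M ∣ N → N ∣ Fintype.card E - 1 → ∀ θ : MulChar F ℂ, orderOf θ = M →
    ∃ θ' : MulChar E ℂ, orderOf θ' = N ∧
      ∀ x : ZMod M, normChar F E (θ ^ x.val) = θ' ^ (Push.inc N M x).val

/-- DOWN.  If the lift of `s` to `E` is a Tate set, then `s` is a Tate set. -/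
def StDown : Prop :=
  ∀ (p : ℕ) [Fact p.Prime] (F E : Type) [Field F] [Fintype F] [CharP F p] [Field E] [Fintype E]
    [Algebra F E] (ψ : AddChar F ℂ) (ψ' : AddChar E ℂ), ψ ≠ 1 → ψ' ≠ 1 →
    ∀ s : Multiset (MulChar F ℂ), IsTateSet ψ' (s.map (normChar F E)) → IsTateSet ψ s

end Pool.Agent.Lib.MP81632f.Lv
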