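import Pool.Agent.Lib.MP_81632f_ag.Diag.Final
import Pool.Agent.Lib.MP_81632f_ag.Lv.StmtsF

/-!
# Levels: characters of a finite extension of a finite field
-/

set_option autoImplicit false

noncomputable section

namespace Pool.Agent.Lib.MP81632f.Lv

open Finset
open Pool.Agent.Lib.MP81632f.Diag

namespace CharAux

section

variable {F E : Type} [Field F] [Finite F] [Field E] [Finite E] [Algebra F E]

omit [Finite F] in
theorem normChar_apply (χ : MulChar F ℂ) (a : E) :
    normChar F E χ a = χ (Algebra.norm F a) := rfl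

omit [Finite F] in
theorem normChar_mul (χ χ' : MulChar F ℂ) :
    normChar F E (χ * χ') = normChar F E χ * normChar F E χ' := by
  ext a
  rw [MulChar.mul_apply, normChar_apply, normChar_apply, normChar_apply, MulChar.mul_apply]

omit [Finite F] in
theorem normChar_one : normChar F E (1 : MulChar F ℂ) = 1 := by
  ext a
  have : Module.Finite F E := Module.Finite.of_finite
  rw [normChar_apply, MulChar.one_apply_coe, MulChar.one_apply]
  exact isUnit_iff_ne_zero.2 (Algebra.norm_ne_zero_iff.2 a.ne_zero)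

variable (F E) in
/-- the map `χ ↦ χ ∘ N` -/
def nh : MulChar F ℂ →* MulChar E ℂ where
  toFun := normChar F E
  map_one' := normChar_one
  map_mul' := normChar_mul

omit [Finite F] in
theorem nh_injective : Function.Injective (nh F E) := by
  rw [injective_iff_map_eq_one]
  intro χ hχ
  ext b
  obtain ⟨a, ha⟩ := FiniteField.norm_surjective F E (b : F)
  have ha0 : a ≠ 0 := by
    rintro rfl
    have : Module.Finite F E := Module.Finite.of_finite
    rw [Algebra.norm_zero] at ha
    exact b.ne_zero ha.symm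
  have h1 : normChar F E χ a = 1 := by
    change nh F E χ a = 1
    rw [hχ, MulChar.one_apply (isUnit_iff_ne_zero.2 ha0)]
  rw [normChar_apply, ha] at h1
  rw [h1, MulChar.one_apply_coe]

end

/-- a unit modulo `M` can be lifted to a unit modulo `N` -/
theorem lift_coprime {M N k : ℕ} [NeZero N] (h : M ∣ N) (hk : k.Coprime M) :
    ∃ k' : ℕ, k'.Coprime N ∧ k' ≡ k [MOD M] := by
  obtain ⟨w, hw⟩ := ZMod.unitsMap_surjective h (ZMod.unitOfCoprime k hk)
  refine ⟨(w : ZMod N).val, ZMod.val_coe_unit_coprime w, ?_⟩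
  rw [← ZMod.natCast_eq_natCast_iff, ZMod.natCast_val]
  have e := congrArg (fun u : (ZMod M)ˣ => (u : ZMod M)) hw
  simp only [ZMod.coe_unitOfCoprime] at e
  rw [← e, ZMod.unitsMap_val]

/-- extraction of a root of a given order in a cyclic group -/
theorem root {G : Type*} [CommGroup G] {M N : ℕ} [NeZero M] [NeZero N] (h : M ∣ N) {g t : G}
    (hg : orderOf g = N) (ht : orderOf t = M) (hgt : ∃ k : ℕ, t = g ^ k) :
    ∃ g' : G, orderOf g' = N ∧ g' ^ (N / M) = t := by
  obtain ⟨k, rfl⟩ := hgt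
  obtain ⟨d, hd⟩ := h
  have hM : 0 < M := NeZero.pos M
  have hN : 0 < N := NeZero.pos N
  have hd0 : 0 < d := Nat.pos_of_ne_zero (by
    rintro rfl
    omega)
  have hNd : N / M = d := by rw [hd, Nat.mul_div_cancel_left d hM]
  have hfin : IsOfFinOrder g := orderOf_pos_iff.1 (by rw [hg]; exact hN)
  have h1 : N / N.gcd k = M := by
    rw [← ht, IsOfFinOrder.orderOf_pow g k hfin, hg]
  have h2 : N.gcd k = d := by
    have e1 : M * N.gcd k = M * d := by
      rw [← hd, ← h1, Nat.div_mul_cancel (Nat.gcd_dvd_left N k)]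
    exact Nat.eq_of_mul_eq_mul_left hM e1
  obtain ⟨k1, hk1⟩ : d ∣ k := h2 ▸ Nat.gcd_dvd_right N k
  have h3 : k1.Coprime M := by
    have e1 : d * (M.gcd k1) = d * 1 := by
      rw [← Nat.gcd_mul_left, mul_comm d M, ← hd, ← hk1, h2, mul_one]
    rw [Nat.coprime_comm]
    exact Nat.eq_of_mul_eq_mul_left hd0 e1
  obtain ⟨k', hk', hk''⟩ := lift_coprime (N := N) (Dvd.intro d hd.symm) h3
  refine ⟨g ^ k', ?_, ?_⟩
  · rw [IsOfFinOrder.orderOf_pow g k' hfin, hg, Nat.coprime_comm.1 hk', Nat.div_one]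
  · rw [hNd, ← pow_mul, hk1, mul_comm d k1, pow_eq_pow_iff_modEq, hg, hd]
    exact Nat.ModEq.mul_right' d hk''

end CharAux

open CharAux

/-- CHAR. -/
theorem stChar : StChar := by
  intro F E _ _ _ _ _ M N _ _ hMN hN θ hθ
  obtain ⟨θ0, h0, hgen⟩ := Final.exists_order (F := E) N hN
  have h1 : orderOf (normChar F E θ) = M := by
    rw [← hθ]
    exact orderOf_injective (nh F E) nh_injective θ
  have h2 : normChar F E θ ^ N = 1 := by
    rw [← orderOf_dvd_iff_pow_eq_one, h1]
    exact hMN
  obtain ⟨θ', h3, h4⟩ := root hMN h0 h1 (hgen _ h2)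
  refine ⟨θ', h3, fun x => ?_⟩
  have e1 : normChar F E (θ ^ x.val) = normChar F E θ ^ x.val := map_pow (nh F E) θ x.val
  have e2 : (Push.inc N M x).val = (N / M * x.val) % N := by
    unfold Push.inc
    rw [← Nat.cast_mul, ZMod.val_natCast]
  have e3 := pow_mod_orderOf θ' (N / M * x.val)
  rw [h3] at e3
  rw [e1, ← h4, e2, e3, ← pow_mul]

end Pool.Agent.Lib.MP81632f.Lv
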