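import Pool.Agent.Lib.MP_81632f_ag.Lv.Desc
import Pool.Agent.Lib.MP_81632f_ag.Diag.TPf

/-!
# Levels: functions on `ZMod M` and elements of the free group on the rational numbers
-/

set_option autoImplicit false

noncomputable section

namespace Pool.Agent.Lib.MP81632f.Lv

open Finset
open Pool.Agent.Lib.MP81632f.Diag
open Crit Two Push TP
open Red (ev)

/-! ### From functions on `ZMod M` to `FQ` -/

/-- the rational number `x / M` -/
def fr (M : ℕ) (x : ZMod M) : ℚ := (x.val : ℚ) / M

/-- a function as an element of `FQ` -/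
def iota (M : ℕ) [NeZero M] : (ZMod M → ℤ) →+ FQ where
  toFun v := ∑ x, v x • br (fr M x)
  map_zero' := by simp
  map_add' v w := by simp [add_smul, Finset.sum_add_distrib]

section Iota

variable {M p : ℕ} [NeZero M]

theorem m_ne (M : ℕ) [NeZero M] : (M : ℚ) ≠ 0 := by exact_mod_cast NeZero.ne M

theorem iota_ev (x : ZMod M) : iota M (ev x) = br (fr M x) := by
  change ∑ y, (Pi.single x 1 : ZMod M → ℤ) y • br (fr M y) = _
  rw [Finset.sum_eq_single x]
  · simp
  · intro b _ hb
    simp [Pi.single_eq_of_ne hb]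
  · simp

theorem fr_lev (x : ZMod M) : IsLev M (fr M x) := by
  refine ⟨x.val, ?_⟩
  have := m_ne M
  unfold fr
  push_cast
  field_simp

theorem iota_mem (v : ZMod M → ℤ) : iota M v ∈ LevF M :=
  AddSubgroup.sum_mem _ fun x _ => AddSubgroup.zsmul_mem _ (br_mem_levF (fr_lev x)) _

omit [NeZero M] in
theorem br_nat {x : ℚ} (hx : IsLev M x) (n : ℕ) : br (x + n) - br x ∈ R p M := by
  induction n with
  | zero => rw [Nat.cast_zero, add_zero, sub_self]; exact zero_mem _
  | succ n ih =>
    have h1 : br (x + ((n + 1 : ℕ) : ℚ)) - br x =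
        (br (x + n + 1) - br (x + n)) + (br (x + n) - br x) := by
      rw [sub_add_sub_cancel]
      congr 2
      push_cast
      ring
    rw [h1]
    exact add_mem (AddSubgroup.subset_closure (Rel.per _ (hx.add_nat n))) ih

omit [NeZero M] in
theorem br_int {x : ℚ} (hx : IsLev M x) (n : ℤ) : br (x + n) - br x ∈ R p M := by
  obtain ⟨k, rfl | rfl⟩ := n.eq_nat_or_neg
  · exact_mod_cast br_nat hx k
  · have h1 := br_nat (p := p) (hx.add_int (-(k : ℤ))) k
    have h2 : x + ((-(k : ℤ) : ℤ) : ℚ) + (k : ℚ) = x := by push_cast; ring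
    rw [h2] at h1
    have h3 := neg_mem h1
    rw [neg_sub] at h3
    exact h3

theorem fr_congr (p : ℕ) {x : ZMod M} {a : ℤ} (h : (a : ZMod M) = x) :
    br ((a : ℚ) / M) - br (fr M x) ∈ R p M := by
  have h0 := m_ne M
  have h1 : (M : ℤ) ∣ a - (x.val : ℤ) := by
    rw [← ZMod.intCast_zmod_eq_zero_iff_dvd]
    push_cast
    rw [ZMod.natCast_zmod_val, h, sub_self]
  obtain ⟨t, ht⟩ := h1
  have h2 : (a : ℚ) / M = fr M x + t := by
    have h3 : (a : ℚ) = x.val + M * t := by
      have : a = (x.val : ℤ) + M * t := by linarith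
      rw [this]
      push_cast
      ring
    unfold fr
    rw [h3]
    field_simp
  rw [h2]
  exact br_int (fr_lev x) t

/-- sums over a fibre of the multiplication by `l` -/
theorem sum_fib {A : Type*} [AddCommGroup A] (F : ZMod M → A) {l : ℕ} (hl : l.Prime) (hd : l ∣ M)
    (x : ZMod M) : ∑ y with (l : ZMod M) * y = (l : ZMod M) * x, F y =
      ∑ j ∈ range l, F (x + (j : ZMod M) * ((M / l : ℕ) : ZMod M)) := by
  symm
  refine Finset.sum_bij (fun j _ => x + (j : ZMod M) * ((M / l : ℕ) : ZMod M)) ?_ ?_ ?_ ?_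
  · intro j _
    rw [mem_filter]
    exact ⟨mem_univ _, by rw [mul_add, mul_left_comm, Red.mul_quot hd, mul_zero, add_zero]⟩
  · intro i hi j hj hij
    rw [mem_range] at hi hj
    have hij := add_left_cancel hij
    by_contra hne
    rcases lt_or_gt_of_ne hne with h | h
    · refine Red.quot_ne (M := M) hl hd (j := j - i) (by omega) (by omega) ?_
      rw [Nat.cast_sub h.le, sub_mul, ← hij, sub_self]
    · refine Red.quot_ne (M := M) hl hd (j := i - j) (by omega) (by omega) ?_
      rw [Nat.cast_sub h.le, sub_mul, ← hij, sub_self]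
  · intro y hy
    rw [mem_filter] at hy
    have h1 : (l : ZMod M) * (y - x) = 0 := by rw [mul_sub, hy.2, sub_self]
    obtain ⟨j, hj, h⟩ := exists_mul hd hl.ne_zero h1
    exact ⟨j, mem_range.mpr hj, by rw [← h]; abel⟩
  · intro j _
    rfl

/-- the relations of level `M` -/
theorem iota_rel {v : ZMod M → ℤ} (hv : v ∈ RelZ M p) : iota M v ∈ R p M := by
  have h0 := m_ne M
  unfold RelZ at hv
  induction hv using AddSubgroup.closure_induction with
  | mem v hv =>
    rcases hv with ((h | h) | h) | h
    · obtain rfl : v = ev 0 := h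
      rw [iota_ev]
      have h1 : fr M 0 = 0 := by unfold fr; rw [ZMod.val_zero]; simp
      rw [h1]
      refine AddSubgroup.subset_closure (Rel.pure 0 1 0 (one_dvd _) (one_dvd _) ?_)
      exact ⟨0, by simp⟩
    · obtain ⟨x, rfl⟩ := h
      have e1 : iota M (Pi.single (-x) 1 + Pi.single x 1) = br (fr M (-x)) + br (fr M x) := by
        rw [map_add]
        exact congrArg₂ _ (iota_ev _) (iota_ev _)
      rw [e1]
      have h1 := fr_congr p (x := -x) (a := -(x.val : ℤ)) (by push_cast; rw [ZMod.natCast_zmod_val])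
      have h2 : ((-(x.val : ℤ) : ℤ) : ℚ) / M = -fr M x := by
        unfold fr
        push_cast
        ring
      rw [h2] at h1
      have h3 : Rel p M (br (-fr M x) + br (fr M x)) := Rel.odd _ (fr_lev x)
      have h4 : br (fr M (-x)) + br (fr M x) =
          (br (-fr M x) + br (fr M x)) - (br (-fr M x) - br (fr M (-x))) := by abel
      rw [h4]
      exact sub_mem (AddSubgroup.subset_closure h3) h1
    · obtain ⟨x, rfl⟩ := h
      have e1 : iota M (Pi.single ((p : ZMod M) * x) 1 - Pi.single x 1) =
          br (fr M ((p : ZMod M) * x)) - br (fr M x) := by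
        rw [map_sub]
        exact congrArg₂ _ (iota_ev _) (iota_ev _)
      rw [e1]
      have h1 := fr_congr p (x := (p : ZMod M) * x) (a := ((p * x.val : ℕ) : ℤ))
        (by push_cast; rw [ZMod.natCast_zmod_val])
      have h2 : ((((p * x.val : ℕ) : ℤ) : ℤ) : ℚ) / M = p * fr M x := by
        unfold fr
        push_cast
        ring
      rw [h2] at h1
      have h3 : Rel p M (br (p * fr M x) - br (fr M x)) := Rel.frob _ (fr_lev x)
      have h4 : br (fr M ((p : ZMod M) * x)) - br (fr M x) =
          (br (p * fr M x) - br (fr M x)) - (br (p * fr M x) - br (fr M ((p : ZMod M) * x))) := by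
        abel
      rw [h4]
      exact sub_mem (AddSubgroup.subset_closure h3) h1
    · obtain ⟨l, x, hl, hd, rfl⟩ := h
      have hl0 : (l : ℚ) ≠ 0 := by exact_mod_cast hl.ne_zero
      have hq : l * (M / l) = M := Nat.mul_div_cancel' hd
      have hqQ : (l : ℚ) * ((M / l : ℕ) : ℚ) = M := by exact_mod_cast hq
      have hq0 : ((M / l : ℕ) : ℚ) ≠ 0 := by
        intro h
        rw [h, mul_zero] at hqQ
        exact h0 hqQ.symm
      have e1 : iota M (∑ y with (l : ZMod M) * y = (l : ZMod M) * x, Pi.single y 1 -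
          Pi.single ((l : ZMod M) * x) 1) =
          ∑ j ∈ range l, br (fr M (x + (j : ZMod M) * ((M / l : ℕ) : ZMod M))) -
            br (fr M ((l : ZMod M) * x)) := by
        rw [map_sub, map_sum]
        refine congrArg₂ _ ?_ (iota_ev _)
        rw [← sum_fib (fun y => br (fr M y)) hl hd x]
        exact Finset.sum_congr rfl fun y _ => iota_ev y
      rw [e1]
      -- the rational number `l x / M`
      have hz : IsLev (M / l) ((l : ℚ) * fr M x) := by
        refine ⟨x.val, ?_⟩
        unfold fr
        rw [← hqQ]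
        push_cast
        field_simp
      have h1 : ∑ k ∈ range l, br (((l : ℚ) * fr M x + k) / l) - br ((l : ℚ) * fr M x) ∈ R p M :=
        AddSubgroup.subset_closure (Rel.dist l (M / l) _ hl (by rw [hq]) hz)
      have h2 := fr_congr p (x := (l : ZMod M) * x) (a := ((l * x.val : ℕ) : ℤ))
        (by push_cast; rw [ZMod.natCast_zmod_val])
      have h3 : ((((l * x.val : ℕ) : ℤ) : ℤ) : ℚ) / M = l * fr M x := by
        unfold fr
        push_cast
        ring
      rw [h3] at h2
      have h4 : ∀ k ∈ range l, br (((l : ℚ) * fr M x + k) / l) -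
          br (fr M (x + (k : ZMod M) * ((M / l : ℕ) : ZMod M))) ∈ R p M := by
        intro k _
        have h5 := fr_congr p (x := x + (k : ZMod M) * ((M / l : ℕ) : ZMod M))
          (a := ((x.val + k * (M / l) : ℕ) : ℤ)) (by
            rw [Int.cast_natCast, Nat.cast_add, Nat.cast_mul, ZMod.natCast_zmod_val])
        have h6 : ((((x.val + k * (M / l) : ℕ) : ℤ) : ℤ) : ℚ) / M = ((l : ℚ) * fr M x + k) / l := by
          unfold fr
          rw [Int.cast_natCast, Nat.cast_add, Nat.cast_mul, ← hqQ]
          field_simp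
        rwa [h6] at h5
      have h5 := AddSubgroup.sum_mem _ h4
      rw [Finset.sum_sub_distrib] at h5
      have h6 : ∑ j ∈ range l, br (fr M (x + (j : ZMod M) * ((M / l : ℕ) : ZMod M))) -
            br (fr M ((l : ZMod M) * x)) =
          (∑ k ∈ range l, br (((l : ℚ) * fr M x + k) / l) - br ((l : ℚ) * fr M x)) -
          (∑ k ∈ range l, br (((l : ℚ) * fr M x + k) / l) -
            ∑ k ∈ range l, br (fr M (x + (k : ZMod M) * ((M / l : ℕ) : ZMod M)))) +
          (br ((l : ℚ) * fr M x) - br (fr M ((l : ZMod M) * x))) := by abel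
      rw [h6]
      exact add_mem (sub_mem h1 h5) h2
  | zero => rw [map_zero]; exact zero_mem _
  | add v w _ _ hv hw => rw [map_add]; exact add_mem hv hw
  | neg v _ hv => rw [map_neg]; exact neg_mem hv

/-- every element of level `M` is a function modulo the relations -/
theorem exists_fun (p : ℕ) {w : FQ} (hw : w ∈ LevF M) :
    ∃ v : ZMod M → ℤ, v 0 = 0 ∧ w - iota M v ∈ R p M := by
  have h0 := m_ne M
  unfold LevF at hw
  induction hw using AddSubgroup.closure_induction with
  | mem w hw =>
    obtain ⟨x, ⟨a, ha⟩, rfl⟩ := hw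
    have hx : x = (a : ℚ) / M := by
      rw [← ha]
      field_simp
    by_cases hz : (a : ZMod M) = 0
    · refine ⟨0, rfl, ?_⟩
      rw [map_zero, sub_zero]
      have h1 := fr_congr p hz
      have h2 : fr M 0 = 0 := by unfold fr; rw [ZMod.val_zero]; simp
      rw [h2, ← hx] at h1
      have h3 : br 0 ∈ R p M := AddSubgroup.subset_closure
        (Rel.pure 0 1 0 (one_dvd _) (one_dvd _) ⟨0, by simp⟩)
      have h4 := add_mem h1 h3
      rwa [sub_add_cancel] at h4
    · refine ⟨ev (a : ZMod M), Pi.single_eq_of_ne (Ne.symm hz) _, ?_⟩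
      rw [iota_ev, hx]
      exact fr_congr p rfl
  | zero => exact ⟨0, rfl, by rw [map_zero, sub_zero]; exact zero_mem _⟩
  | add v w _ _ hv hw =>
    obtain ⟨a, ha, ha'⟩ := hv
    obtain ⟨b, hb, hb'⟩ := hw
    refine ⟨a + b, by rw [Pi.add_apply, ha, hb, add_zero], ?_⟩
    rw [map_add, add_sub_add_comm]
    exact add_mem ha' hb'
  | neg v _ hv =>
    obtain ⟨a, ha, ha'⟩ := hv
    refine ⟨-a, by rw [Pi.neg_apply, ha, neg_zero], ?_⟩
    rw [map_neg, ← neg_sub']
    exact neg_mem ha'

end Iota

/-! ### From `FQ` to classes of functions -/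

/-- the numerator of `x` for the denominator `N` -/
def co (N : ℕ) (x : ℚ) : ZMod N := ((⌊x * N⌋ : ℤ) : ZMod N)

theorem co_of {N : ℕ} {x : ℚ} {a : ℤ} (h : x * N = a) : co N x = a := by
  unfold co
  rw [h, Int.floor_intCast]

open Classical in
/-- the class of level `N` -/
def LQ (N p f : ℕ) [NeZero N] : FQ →+ QA N p f :=
  lft fun x => if IsLev N x then E N p f (co N x) else 0

section LevelMap

variable {N p f : ℕ} [NeZero N]

theorem LQ_br {x : ℚ} (hx : IsLev N x) : LQ N p f (br x) = E N p f (co N x) := by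
  unfold LQ
  rw [lft_br, if_pos hx]

omit [NeZero N] in
theorem co_int_mul {x : ℚ} (hx : IsLev N x) (c : ℤ) : co N (c * x) = (c : ZMod N) * co N x := by
  obtain ⟨a, ha⟩ := hx
  rw [co_of (a := c * a) (by rw [mul_assoc, ha]; push_cast; ring), co_of ha]
  push_cast
  ring

/-- the class map kills the relations -/
theorem LQ_rel (hB : StBasic) (hN : 1 < N) (hf : 0 < f) (hp : (p : ZMod N) ^ f = 1) {w : FQ}
    (hw : w ∈ R p N) : LQ N p f w = 0 := by
  classical
  have hD := E_isD hB hN hf hp
  have hN0 := m_ne N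
  have key := lft_kill (p := p) (m := N)
    (fun x => if IsLev N x then E N p f (co N x) else 0) 1 (fun r hr => by
    rw [one_zsmul]
    change LQ N p f r = 0
    cases hr with
    | per x hx =>
      rw [map_sub, LQ_br hx, LQ_br (by exact_mod_cast hx.add_int 1)]
      obtain ⟨a, ha⟩ := hx
      rw [co_of (a := a + N) (by rw [add_mul, ha]; push_cast; ring), co_of ha]
      push_cast
      rw [ZMod.natCast_self, add_zero, sub_self]
    | odd x hx =>
      rw [map_add, LQ_br hx, LQ_br hx.neg]
      have h1 := co_int_mul hx (-1)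
      push_cast at h1
      rw [neg_one_mul, neg_one_mul] at h1
      rw [h1, hD.neg, neg_add_cancel]
    | frob x hx =>
      rw [map_sub, LQ_br hx, LQ_br (hx.nat_mul p)]
      have h1 := co_int_mul hx (p : ℤ)
      push_cast at h1
      rw [h1, hD.frob, sub_self]
    | dist l n x hl hln hx =>
      have hl0 : (l : ℚ) ≠ 0 := by exact_mod_cast hl.ne_zero
      have hlN : l ∣ N := (Dvd.intro n rfl).trans hln
      have hq : l * (N / l) = N := Nat.mul_div_cancel' hlN
      have hqQ : (l : ℚ) * ((N / l : ℕ) : ℚ) = N := by exact_mod_cast hq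
      -- `x N = l b`
      obtain ⟨b, hb⟩ : ∃ b : ℤ, x * N = l * b := by
        obtain ⟨a, ha⟩ := hx
        obtain ⟨c, hc⟩ := hln
        refine ⟨a * c, ?_⟩
        rw [hc]
        push_cast
        rw [← ha]
        ring
      have hxN : IsLev N x := ⟨l * b, by rw [hb]; push_cast; ring⟩
      have hk : ∀ k : ℕ, ((x + k) / l) * N = ((b + k * (N / l : ℕ) : ℤ) : ℚ) := by
        intro k
        have h1 : ((x + k) / l) * N = (x * N + k * N) / l := by ring
        rw [h1, hb, ← hqQ, Int.cast_add, Int.cast_mul, Int.cast_natCast, Int.cast_natCast]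
        field_simp
      rw [map_sub, map_sum, LQ_br hxN, co_of (a := l * b) (by rw [hb]; push_cast; ring)]
      have h1 : ∀ k ∈ range l, LQ N p f (br ((x + k) / l)) =
          E N p f ((b : ZMod N) + (k : ZMod N) * ((N / l : ℕ) : ZMod N)) := by
        intro k _
        rw [LQ_br ⟨_, hk k⟩, co_of (hk k), Int.cast_add, Int.cast_mul, Int.cast_natCast,
          Int.cast_natCast]
      rw [Finset.sum_congr rfl h1, hD.dist l hl hlN]
      push_cast
      exact sub_self _
    | pure i n x hn hi hx =>
      have hxN : IsLev N x := hx.mono hn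
      rw [LQ_br hxN]
      by_cases h0 : co N x = 0
      · rw [h0, E_zero]
      refine E_ss (ss_of_pow hf hp h0 (i := i) ?_)
      obtain ⟨a, ha⟩ := hx
      obtain ⟨c, hc⟩ := hn
      obtain ⟨d, hd⟩ := hi
      have h1 : x * N = ((a * c : ℤ) : ℚ) := by
        rw [hc]
        push_cast
        rw [← ha]
        ring
      rw [co_of h1]
      have h2 : ((p ^ i + 1 : ℕ) : ZMod N) * ((a * c : ℤ) : ZMod N) = 0 := by
        have h3 : ((p ^ i + 1 : ℕ) : ZMod N) * ((a * c : ℤ) : ZMod N) =
            ((n * c : ℕ) : ZMod N) * ((d : ZMod N) * (a : ZMod N)) := by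
          rw [hd]
          push_cast
          ring
        rw [h3, ← hc, ZMod.natCast_self, zero_mul]
      push_cast at h2 ⊢
      linear_combination h2) hw
  rw [one_zsmul] at key
  exact key

theorem co_fr {M : ℕ} [NeZero M] (h : M ∣ N) (x : ZMod M) : co N (fr M x) = inc N M x := by
  have h0 := m_ne M
  obtain ⟨c, rfl⟩ := h
  have hM : 0 < M := NeZero.pos M
  rw [co_of (a := ((c * x.val : ℕ) : ℤ)) (by
    unfold fr
    push_cast
    field_simp)]
  unfold inc
  rw [Nat.mul_div_cancel_left _ hM]
  push_cast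
  rfl

/-- the class of a function of lower level -/
theorem LQ_iota {M : ℕ} [NeZero M] (h : M ∣ N) {v : ZMod M → ℤ} (h0 : v 0 = 0) :
    LQ N p f (iota M v) = QuotientAddGroup.mk (push N M v) := by
  change LQ N p f (∑ x, v x • br (fr M x)) = (QuotientAddGroup.mk (∑ y, v y • ev (inc N M y)) :
    QA N p f)
  rw [map_sum, mk_sum]
  refine Finset.sum_congr rfl fun y _ => ?_
  rw [map_zsmul, LQ_br ((fr_lev y).mono h), co_fr h]
  by_cases hy : y = 0
  · rw [hy, h0, zero_smul, zero_smul]
    rfl
  · rw [E_of (inc_ne h hy)]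
    rfl

end LevelMap

end Pool.Agent.Lib.MP81632f.Lv
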