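import Pool.Agent.Lib.MP_81632f_ag.Lv.Stmts

/-!
# Levels: the density lemma (CL-A)

If all large prime numbers in the classes `A` modulo `M` are norms of at least `n` ideals of a
number field then `2 n |A| < 3 φ(M)`.
-/

set_option autoImplicit false

noncomputable section

namespace Pool.Agent.Lib.MP81632f.Lv

open Finset NumberField Filter Topology
open ArithmeticFunction.vonMangoldt (residueClass)

namespace DensAux

/-! ### Primes in a residue class -/

section Lower

variable {M : ℕ} (B : ℕ) (a : ZMod M)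

/-- the indicator function of the primes greater than `B` in a residue class -/
def W (n : ℕ) : ℝ := if n.Prime ∧ B < n ∧ (n : ZMod M) = a then 1 else 0

theorem W_nonneg (n : ℕ) : 0 ≤ W B a n := by
  unfold W
  split_ifs <;> norm_num

theorem W_le (n : ℕ) : W B a n ≤ 1 := by
  unfold W
  split_ifs <;> norm_num

theorem summable_G {s : ℝ} (hs : 1 < s) : Summable fun n : ℕ => W B a n / (n : ℝ) ^ s := by
  refine (Real.summable_one_div_nat_rpow.2 hs).of_nonneg_of_le (fun n => ?_) (fun n => ?_)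
  · exact div_nonneg (W_nonneg B a n) (Real.rpow_nonneg (Nat.cast_nonneg n) s)
  · exact div_le_div_of_nonneg_right (W_le B a n) (Real.rpow_nonneg (Nat.cast_nonneg n) s)

/-- comparison of the values at two points -/
theorem point_le {s t : ℝ} (n : ℕ) :
    (t - s) * (W B a n * Real.log n / (n : ℝ) ^ t) ≤
      W B a n / (n : ℝ) ^ s - W B a n / (n : ℝ) ^ t := by
  by_cases hn : n.Prime ∧ B < n ∧ (n : ZMod M) = a
  · have hW : W B a n = 1 := by
      unfold W
      rw [if_pos hn]
    have hn0 : (0 : ℝ) < n := by exact_mod_cast hn.1.pos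
    rw [hW, one_mul]
    have h1 : (n : ℝ) ^ t = (n : ℝ) ^ s * Real.exp ((t - s) * Real.log n) := by
      rw [Real.rpow_def_of_pos hn0, Real.rpow_def_of_pos hn0, ← Real.exp_add]
      congr 1
      ring
    have h2 : (0 : ℝ) < (n : ℝ) ^ t := Real.rpow_pos_of_pos hn0 t
    have h3 : (0 : ℝ) < (n : ℝ) ^ s := Real.rpow_pos_of_pos hn0 s
    have h4 : 1 / (n : ℝ) ^ s = Real.exp ((t - s) * Real.log n) / (n : ℝ) ^ t := by
      rw [h1]
      field_simp
    rw [h4, ← sub_div, ← mul_div_assoc]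
    refine div_le_div_of_nonneg_right ?_ h2.le
    have := Real.add_one_le_exp ((t - s) * Real.log n)
    linarith
  · have hW : W B a n = 0 := by
      unfold W
      rw [if_neg hn]
    rw [hW]
    simp

theorem summable_L {t : ℝ} (ht : 1 < t) :
    Summable fun n : ℕ => W B a n * Real.log n / (n : ℝ) ^ t := by
  have hs : 1 < (1 + t) / 2 := by linarith
  have hpos : 0 < t - (1 + t) / 2 := by linarith
  have h1 := ((summable_G B a hs).sub (summable_G B a ht)).mul_left (t - (1 + t) / 2)⁻¹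
  refine h1.of_nonneg_of_le (fun n => ?_) (fun n => ?_)
  · exact div_nonneg (mul_nonneg (W_nonneg B a n) (Real.log_natCast_nonneg n))
      (Real.rpow_nonneg (Nat.cast_nonneg n) t)
  · rw [le_inv_mul_iff₀ hpos]
    exact point_le B a n

/-- the lower bound for the sum of the logarithms -/
theorem lower_L [NeZero M] {a : ZMod M} (ha : IsUnit a) :
    ∃ C : ℝ, ∀ t : ℝ, 1 < t → t ≤ 2 →
      (M.totient : ℝ)⁻¹ / (t - 1) - C ≤ ∑' n : ℕ, W B a n * Real.log n / (n : ℝ) ^ t := by
  classical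
  obtain ⟨C, hC⟩ := ArithmeticFunction.vonMangoldt.LSeries_residueClass_lower_bound ha
  have hnp := ArithmeticFunction.vonMangoldt.summable_residueClass_non_primes_div a
  set C₁ : ℝ := ∑' n : ℕ, (if n.Prime then 0 else residueClass a n) / n with hC₁
  let b : ℕ → ℝ := fun n => if n ≤ B then Real.log n else 0
  have hb : Summable b := by
    refine summable_of_ne_finset_zero (s := Finset.range (B + 1)) fun n hn => ?_
    rw [Finset.mem_range, not_lt] at hn
    exact if_neg (by omega)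
  refine ⟨C + C₁ + ∑' n, b n, fun t ht ht2 => ?_⟩
  have h1 := hC (x := t) ⟨ht, ht2⟩
  have hsum : Summable fun n : ℕ => W B a n * Real.log n / (n : ℝ) ^ t +
      (if n.Prime then 0 else residueClass a n) / n + b n :=
    ((summable_L B a ht).add hnp).add hb
  have hle : ∀ n : ℕ, residueClass a n / (n : ℝ) ^ t ≤ W B a n * Real.log n / (n : ℝ) ^ t +
      (if n.Prime then 0 else residueClass a n) / n + b n := by
    intro n
    have hb0 : 0 ≤ b n := by
      change 0 ≤ (if n ≤ B then Real.log n else 0)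
      split_ifs
      · exact Real.log_natCast_nonneg n
      · exact le_rfl
    have hW0 : 0 ≤ W B a n * Real.log n / (n : ℝ) ^ t :=
      div_nonneg (mul_nonneg (W_nonneg B a n) (Real.log_natCast_nonneg n))
        (Real.rpow_nonneg (Nat.cast_nonneg n) t)
    rcases Nat.eq_zero_or_pos n with rfl | hn
    · have : residueClass a 0 / ((0 : ℕ) : ℝ) ^ t = 0 := by
        rw [ArithmeticFunction.vonMangoldt.residueClass_apply_zero, zero_div]
      rw [this]
      have h3 : (if (0 : ℕ).Prime then 0 else residueClass a 0) / ((0 : ℕ) : ℝ) = 0 := by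
        simp
      rw [h3, add_zero]
      positivity
    · have hn1 : (1 : ℝ) ≤ n := by exact_mod_cast hn
      have hnt : (n : ℝ) ≤ (n : ℝ) ^ t := by
        conv_lhs => rw [← Real.rpow_one n]
        exact Real.rpow_le_rpow_of_exponent_le hn1 ht.le
      have hnt1 : (1 : ℝ) ≤ (n : ℝ) ^ t := hn1.trans hnt
      have hr0 := ArithmeticFunction.vonMangoldt.residueClass_nonneg a n
      by_cases hp : n.Prime
      · rw [if_pos hp, zero_div, add_zero]
        by_cases hna : (n : ZMod M) = a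
        · have hr : residueClass a n = Real.log n := by
            rw [residueClass, Set.indicator_of_mem (by exact hna)]
            exact ArithmeticFunction.vonMangoldt_apply_prime hp
          rw [hr]
          by_cases hB : B < n
          · have hW : W B a n = 1 := by
              unfold W
              rw [if_pos ⟨hp, hB, hna⟩]
            rw [hW, one_mul]
            linarith
          · have h4 : b n = Real.log n := if_pos (by omega)
            rw [h4]
            have h5 : Real.log n / (n : ℝ) ^ t ≤ Real.log n :=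
              div_le_self (Real.log_natCast_nonneg n) hnt1
            linarith
        · have hr : residueClass a n = 0 := by
            rw [residueClass, Set.indicator_of_notMem (by exact hna)]
          rw [hr, zero_div]
          linarith
      · rw [if_neg hp]
        have h6 : residueClass a n / (n : ℝ) ^ t ≤ residueClass a n / n :=
          div_le_div_of_nonneg_left hr0 (by linarith) hnt
        linarith
  have hsum' : Summable fun n : ℕ => residueClass a n / (n : ℝ) ^ t :=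
    hsum.of_nonneg_of_le (fun n => div_nonneg
      (ArithmeticFunction.vonMangoldt.residueClass_nonneg a n)
      (Real.rpow_nonneg (Nat.cast_nonneg n) t)) hle
  have h2 := hsum'.tsum_le_tsum hle hsum
  rw [((summable_L B a ht).add hnp).tsum_add hb, (summable_L B a ht).tsum_add hnp] at h2
  linarith

/-- the points -/
abbrev sk (k : ℕ) : ℝ := 1 + (1 / 2) ^ k

theorem one_lt_sk (k : ℕ) : 1 < sk k := by
  unfold sk
  have : (0 : ℝ) < (1 / 2) ^ k := by positivity
  linarith

theorem sk_le (k : ℕ) : sk k ≤ 2 := by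
  unfold sk
  have : ((1 : ℝ) / 2) ^ k ≤ 1 := pow_le_one₀ (by norm_num) (by norm_num)
  linarith

/-- the lower bound for the sums over the primes in a residue class -/
theorem lower_G [NeZero M] {a : ZMod M} (ha : IsUnit a) :
    ∃ C : ℝ, ∀ k : ℕ, (k : ℝ) * ((M.totient : ℝ)⁻¹ / 2) - C ≤
      ∑' n : ℕ, W B a n / (n : ℝ) ^ sk k := by
  obtain ⟨C, hC⟩ := lower_L B ha
  refine ⟨|C|, ?_⟩
  have key : ∀ k : ℕ, (k : ℝ) * ((M.totient : ℝ)⁻¹ / 2) - |C| * (1 - (1 / 2) ^ k) ≤
      ∑' n : ℕ, W B a n / (n : ℝ) ^ sk k := by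
    intro k
    induction k with
    | zero =>
      simp only [Nat.cast_zero, zero_mul, pow_zero, sub_self, mul_zero]
      exact tsum_nonneg fun n => div_nonneg (W_nonneg B a n)
        (Real.rpow_nonneg (Nat.cast_nonneg n) _)
    | succ k ih =>
      have h1 := hC (sk k) (one_lt_sk k) (sk_le k)
      have h2 : ((1 : ℝ) / 2) ^ (k + 1) * ∑' n : ℕ, W B a n * Real.log n / (n : ℝ) ^ sk k ≤
          ∑' n : ℕ, W B a n / (n : ℝ) ^ sk (k + 1) - ∑' n : ℕ, W B a n / (n : ℝ) ^ sk k := by
        rw [← tsum_mul_left, ← (summable_G B a (one_lt_sk (k + 1))).tsum_sub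
          (summable_G B a (one_lt_sk k))]
        refine Summable.tsum_le_tsum (fun n => ?_) ((summable_L B a (one_lt_sk k)).mul_left _)
          ((summable_G B a (one_lt_sk (k + 1))).sub (summable_G B a (one_lt_sk k)))
        have h3 := point_le B a (s := sk (k + 1)) (t := sk k) n
        have h4 : sk k - sk (k + 1) = (1 / 2) ^ (k + 1) := by
          unfold sk
          rw [pow_succ]
          ring
        rwa [h4] at h3
      have h5 : ((1 : ℝ) / 2) ^ (k + 1) * ((M.totient : ℝ)⁻¹ / (sk k - 1) - C) =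
          (M.totient : ℝ)⁻¹ / 2 - C * (1 / 2) ^ (k + 1) := by
        have h6 : sk k - 1 = (1 / 2) ^ k := by
          unfold sk
          ring
        rw [h6, pow_succ]
        field_simp
      have h7 : ((1 : ℝ) / 2) ^ (k + 1) * ((M.totient : ℝ)⁻¹ / (sk k - 1) - C) ≤
          (1 / 2) ^ (k + 1) * ∑' n : ℕ, W B a n * Real.log n / (n : ℝ) ^ sk k :=
        mul_le_mul_of_nonneg_left h1 (by positivity)
      rw [h5] at h7
      have h8 : C * (1 / 2) ^ (k + 1) ≤ |C| * (1 / 2) ^ (k + 1) :=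
        mul_le_mul_of_nonneg_right (le_abs_self C) (by positivity)
      have h9 : ((1 : ℝ) / 2) ^ k = 2 * (1 / 2) ^ (k + 1) := by
        rw [pow_succ]
        ring
      push_cast
      rw [h9] at ih
      linarith
  intro k
  have h1 := key k
  have h2 : |C| * (1 - (1 / 2) ^ k) ≤ |C| := by
    have : (0 : ℝ) ≤ |C| * (1 / 2) ^ k := by positivity
    linarith
  linarith

end Lower

/-! ### The zeta function -/

section Upper

variable (F : Type) [Field F] [NumberField F]

/-- the coefficients -/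
def an (n : ℕ) : ℕ := Nat.card {I : Ideal (𝓞 F) // Ideal.absNorm I = n}

theorem tendsto_sk : Tendsto sk atTop (𝓝[>] 1) := by
  refine tendsto_nhdsWithin_iff.2 ⟨?_, Eventually.of_forall fun k => one_lt_sk k⟩
  have h := (tendsto_pow_atTop_nhds_zero_of_lt_one (r := (1 / 2 : ℝ)) (by norm_num)
    (by norm_num)).const_add 1
  rwa [add_zero] at h

/-- the upper bound for the zeta function -/
theorem zeta_bound : ∃ C : ℝ, 0 < C ∧ ∀ᶠ k : ℕ in atTop,
    (Summable fun n : ℕ => (an F n : ℝ) / (n : ℝ) ^ sk k) ∧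
      ∑' n : ℕ, (an F n : ℝ) / (n : ℝ) ^ sk k ≤ C * 2 ^ k := by
  have h := (NumberField.tendsto_sub_one_mul_dedekindZeta_nhdsGT F).comp tendsto_sk
  have hpos := NumberField.dedekindZeta_residue_pos F
  have hn := h.norm
  have hres : ‖((NumberField.dedekindZeta_residue F : ℝ) : ℂ)‖ =
      NumberField.dedekindZeta_residue F := by
    rw [Complex.norm_real, Real.norm_of_nonneg hpos.le]
  rw [hres] at hn
  have e1 := hn.eventually (lt_mem_nhds hpos)
  have e2 := hn.eventually (gt_mem_nhds (lt_add_one (NumberField.dedekindZeta_residue F)))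
  refine ⟨NumberField.dedekindZeta_residue F + 1, by linarith, ?_⟩
  filter_upwards [e1, e2] with k h1 h2
  simp only [Function.comp_apply] at h1 h2
  have hs0 : sk k ≠ 0 := by
    have := one_lt_sk k
    linarith
  -- the terms
  have hterm : ∀ n : ℕ, LSeries.term (fun n : ℕ => (Nat.card {I : Ideal (𝓞 F) //
      Ideal.absNorm I = n} : ℂ)) (sk k : ℂ) n = (((an F n : ℝ) / (n : ℝ) ^ sk k : ℝ) : ℂ) := by
    intro n
    rcases Nat.eq_zero_or_pos n with rfl | hn
    · rw [LSeries.term_zero, Nat.cast_zero, Real.zero_rpow hs0, div_zero, Complex.ofReal_zero]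
    · rw [LSeries.term_of_ne_zero hn.ne', Complex.ofReal_div,
        Complex.ofReal_cpow (Nat.cast_nonneg n), Complex.ofReal_natCast, Complex.ofReal_natCast]
      rfl
  have hz : NumberField.dedekindZeta F (sk k : ℂ) =
      ∑' n : ℕ, (((an F n : ℝ) / (n : ℝ) ^ sk k : ℝ) : ℂ) := by
    unfold NumberField.dedekindZeta LSeries
    exact tsum_congr hterm
  have hsum : Summable fun n : ℕ => (an F n : ℝ) / (n : ℝ) ^ sk k := by
    by_contra hns
    have hns' : ¬ Summable fun n : ℕ => (((an F n : ℝ) / (n : ℝ) ^ sk k : ℝ) : ℂ) := by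
      rw [Complex.summable_ofReal]
      exact hns
    rw [hz, tsum_eq_zero_of_not_summable hns', mul_zero, norm_zero] at h1
    exact lt_irrefl _ h1
  refine ⟨hsum, ?_⟩
  rw [hz, ← Complex.ofReal_tsum, norm_mul] at h2
  have h3 : ‖(sk k : ℂ) - 1‖ = (1 / 2) ^ k := by
    have : (sk k : ℂ) - 1 = (((1 / 2) ^ k : ℝ) : ℂ) := by
      unfold sk
      push_cast
      ring
    rw [this, Complex.norm_real, Real.norm_of_nonneg (by positivity)]
  have h4 : 0 ≤ ∑' n : ℕ, (an F n : ℝ) / (n : ℝ) ^ sk k :=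
    tsum_nonneg fun n => by positivity
  rw [h3, Complex.norm_real, Real.norm_of_nonneg h4] at h2
  have h5 : ((1 : ℝ) / 2) ^ k * 2 ^ k = 1 := by
    rw [← mul_pow]
    norm_num
  have h6 : (0 : ℝ) < 2 ^ k := by positivity
  calc ∑' n : ℕ, (an F n : ℝ) / (n : ℝ) ^ sk k
      = ((1 / 2) ^ k * ∑' n : ℕ, (an F n : ℝ) / (n : ℝ) ^ sk k) * 2 ^ k := by
        rw [mul_right_comm, h5, one_mul]
    _ ≤ (NumberField.dedekindZeta_residue F + 1) * 2 ^ k :=
        mul_le_mul_of_nonneg_right h2.le h6.le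

variable {F}

/-- finite sums over ideals -/
theorem sum_ideal_le {s : ℝ} (hs : Summable fun n : ℕ => (an F n : ℝ) / (n : ℝ) ^ s)
    (U : Finset (Ideal (𝓞 F))) :
    ∑ I ∈ U, 1 / (Ideal.absNorm I : ℝ) ^ s ≤ ∑' n : ℕ, (an F n : ℝ) / (n : ℝ) ^ s := by
  classical
  have h1 : ∑ I ∈ U, 1 / (Ideal.absNorm I : ℝ) ^ s =
      ∑ n ∈ U.image (fun I => Ideal.absNorm I),
        (#{I ∈ U | Ideal.absNorm I = n}) • (1 / (n : ℝ) ^ s) :=
    Finset.sum_comp (fun n : ℕ => 1 / (n : ℝ) ^ s) (fun I => Ideal.absNorm I)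
  rw [h1]
  refine le_trans (Finset.sum_le_sum fun n _ => ?_)
    (hs.sum_le_tsum (U.image (fun I => Ideal.absNorm I)) fun n _ => by positivity)
  rw [nsmul_eq_mul, mul_one_div]
  refine div_le_div_of_nonneg_right ?_ (Real.rpow_nonneg (Nat.cast_nonneg n) s)
  have hfin : {I : Ideal (𝓞 F) | Ideal.absNorm I = n}.Finite :=
    Ideal.finite_setOfPred_absNorm_eq n
  have h2 : #{I ∈ U | Ideal.absNorm I = n} ≤ an F n := by
    unfold an
    rw [← Set.ncard_coe_finset]
    have h3 : Nat.card {I : Ideal (𝓞 F) // Ideal.absNorm I = n} =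
        {I : Ideal (𝓞 F) | Ideal.absNorm I = n}.ncard := rfl
    rw [h3]
    refine Set.ncard_le_ncard (fun I hI => ?_) hfin
    simp only [Finset.coe_filter, Set.mem_ofPred_eq] at hI
    exact hI.2
  exact_mod_cast h2

/-- products over prime ideals -/
theorem prod_le {s : ℝ} (hs : Summable fun n : ℕ => (an F n : ℝ) / (n : ℝ) ^ s)
    (T : Finset (Ideal (𝓞 F))) (hT : ∀ P ∈ T, P.IsPrime ∧ P ≠ ⊥) :
    ∏ P ∈ T, (1 + 1 / (Ideal.absNorm P : ℝ) ^ s) ≤ ∑' n : ℕ, (an F n : ℝ) / (n : ℝ) ^ s := by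
  classical
  rw [Finset.prod_one_add]
  have h1 : ∀ t ∈ T.powerset, ∏ P ∈ t, 1 / (Ideal.absNorm P : ℝ) ^ s =
      1 / (Ideal.absNorm (∏ P ∈ t, P) : ℝ) ^ s := by
    intro t _
    rw [map_prod, Nat.cast_prod, ← Real.finsetProd_rpow _ _ (fun _ _ => Nat.cast_nonneg _),
      Finset.prod_div_distrib, Finset.prod_const_one]
  rw [Finset.sum_congr rfl h1]
  have hinj : Set.InjOn (fun t : Finset (Ideal (𝓞 F)) => ∏ P ∈ t, P) (T.powerset : Set _) := by
    have hmem : ∀ t ⊆ T, ∀ P ∈ T, P ∈ t ↔ P ∣ ∏ Q ∈ t, Q := by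
      intro t ht P hP
      constructor
      · intro h
        exact Finset.dvd_prod_of_mem _ h
      · intro h
        obtain ⟨hPp, hP0⟩ := hT P hP
        have hPrime : Prime P := Ideal.prime_of_isPrime hP0 hPp
        obtain ⟨Q, hQ, hPQ⟩ := hPrime.exists_mem_finset_dvd h
        obtain ⟨hQp, hQ0⟩ := hT Q (ht hQ)
        have hQm : Q.IsMaximal := hQp.isMaximal hQ0
        have : Q = P := hQm.eq_of_le hPp.ne_top (Ideal.dvd_iff_le.1 hPQ)
        rwa [← this]
    intro t ht t' ht' h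
    have ht1 : t ⊆ T := Finset.mem_powerset.1 ht
    have ht1' : t' ⊆ T := Finset.mem_powerset.1 ht'
    ext P
    constructor
    · intro hP
      have h2 := (hmem t ht1 P (ht1 hP)).1 hP
      rw [show ∏ Q ∈ t, Q = ∏ Q ∈ t', Q from h] at h2
      exact (hmem t' ht1' P (ht1 hP)).2 h2
    · intro hP
      have h2 := (hmem t' ht1' P (ht1' hP)).1 hP
      rw [← show ∏ Q ∈ t, Q = ∏ Q ∈ t', Q from h] at h2
      exact (hmem t ht1 P (ht1' hP)).2 h2
  rw [← Finset.sum_image (f := fun I : Ideal (𝓞 F) => 1 / (Ideal.absNorm I : ℝ) ^ s) hinj]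
  exact sum_ideal_le hs _

theorem log_lower {x : ℝ} (hx : 0 ≤ x) : x - x ^ 2 / 2 ≤ Real.log (1 + x) := by
  refine le_trans ?_ (Real.le_log_one_add_of_nonneg hx)
  rw [le_div_iff₀ (by linarith)]
  nlinarith [pow_nonneg hx 3]

/-- the upper bound for finite sums over primes -/
theorem upper {n : ℕ} {s : ℝ} (hs1 : 1 < s)
    (hs : Summable fun n : ℕ => (an F n : ℝ) / (n : ℝ) ^ s) (R : Finset ℕ)
    (hR : ∀ r ∈ R, r.Prime ∧ ∃ S : Finset (Ideal (𝓞 F)), n ≤ S.card ∧
      ∀ P ∈ S, Ideal.absNorm P = r) :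
    (n : ℝ) * ∑ r ∈ R, 1 / (r : ℝ) ^ s ≤
      Real.log (∑' n : ℕ, (an F n : ℝ) / (n : ℝ) ^ s) + n * ∑' m : ℕ, 1 / (m : ℝ) ^ 2 := by
  classical
  have hS : ∀ r ∈ R, ∃ S : Finset (Ideal (𝓞 F)), S.card = n ∧ ∀ P ∈ S, Ideal.absNorm P = r := by
    intro r hr
    obtain ⟨-, S, hS, hS'⟩ := hR r hr
    obtain ⟨S', hS1, hS2⟩ := Finset.exists_subset_card_eq hS
    exact ⟨S', hS2, fun P hP => hS' P (hS1 hP)⟩
  choose! S hSc hSn using hS
  have hprod := prod_le hs (R.biUnion S) (by
    intro P hP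
    obtain ⟨r, hr, hPr⟩ := Finset.mem_biUnion.1 hP
    have h1 := hSn r hr P hPr
    have hrp := (hR r hr).1
    refine ⟨Ideal.isPrime_of_irreducible_absNorm (by rw [h1]; exact hrp), ?_⟩
    rintro rfl
    rw [Ideal.absNorm_bot] at h1
    exact hrp.ne_zero h1.symm)
  rw [Finset.prod_biUnion (by
    intro r hr r' hr' hne
    rw [Function.onFun, Finset.disjoint_left]
    intro P hP hP'
    exact hne ((hSn r hr P hP).symm.trans (hSn r' hr' P hP')))] at hprod
  have h2 : ∏ r ∈ R, ∏ P ∈ S r, (1 + 1 / (Ideal.absNorm P : ℝ) ^ s) =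
      ∏ r ∈ R, (1 + 1 / (r : ℝ) ^ s) ^ n := by
    refine Finset.prod_congr rfl fun r hr => ?_
    rw [Finset.prod_congr rfl (fun P hP => by rw [hSn r hr P hP]), Finset.prod_const, hSc r hr]
  rw [h2] at hprod
  have hpos : ∀ r ∈ R, (0 : ℝ) < (1 + 1 / (r : ℝ) ^ s) ^ n := by
    intro r hr
    have : (0 : ℝ) < r := by exact_mod_cast (hR r hr).1.pos
    positivity
  have h3 := Real.log_le_log (Finset.prod_pos hpos) hprod
  rw [Real.log_prod (fun r hr => (hpos r hr).ne')] at h3
  have h4 : (n : ℝ) * ∑ r ∈ R, (1 / (r : ℝ) ^ s - (1 / (r : ℝ) ^ s) ^ 2 / 2) ≤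
      ∑ r ∈ R, Real.log ((1 + 1 / (r : ℝ) ^ s) ^ n) := by
    rw [Finset.mul_sum]
    refine Finset.sum_le_sum fun r hr => ?_
    rw [Real.log_pow]
    exact mul_le_mul_of_nonneg_left (log_lower (by positivity)) (Nat.cast_nonneg n)
  have h5 : ∑ r ∈ R, (1 / (r : ℝ) ^ s) ^ 2 / 2 ≤ ∑' m : ℕ, 1 / (m : ℝ) ^ 2 := by
    refine le_trans (Finset.sum_le_sum fun r hr => ?_)
      ((Real.summable_one_div_nat_pow.2 (by norm_num : 1 < 2)).sum_le_tsum R
        fun n _ => by positivity)
    have hr1 : (1 : ℝ) ≤ r := by exact_mod_cast (hR r hr).1.one_lt.le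
    have hr0 : (0 : ℝ) < r := by linarith
    have h6 : (r : ℝ) ≤ (r : ℝ) ^ s := by
      conv_lhs => rw [← Real.rpow_one (r : ℝ)]
      exact Real.rpow_le_rpow_of_exponent_le hr1 hs1.le
    have h7 : 1 / (r : ℝ) ^ s ≤ 1 / r := one_div_le_one_div_of_le hr0 h6
    have h8 : (0 : ℝ) ≤ 1 / (r : ℝ) ^ s := by positivity
    calc (1 / (r : ℝ) ^ s) ^ 2 / 2 ≤ (1 / (r : ℝ) ^ s) ^ 2 := half_le_self (by positivity)
      _ ≤ (1 / (r : ℝ)) ^ 2 := pow_le_pow_left₀ h8 h7 2
      _ = 1 / (r : ℝ) ^ 2 := by rw [one_div_pow]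
  rw [Finset.sum_sub_distrib, mul_sub] at h4
  have h9 := mul_le_mul_of_nonneg_left h5 (Nat.cast_nonneg (α := ℝ) n)
  linarith

end Upper

end DensAux

open DensAux in
/-- CL-A -/
theorem stDens : StDens := by
  intro F _ _ n M B _ A hA
  classical
  by_contra hcon
  rw [not_lt] at hcon
  have hφ : 0 < M.totient := Nat.totient_pos.2 (NeZero.pos M)
  have hφ' : (0 : ℝ) < M.totient := by exact_mod_cast hφ
  -- lower bounds for the classes
  have hlow : ∀ u : (ZMod M)ˣ, ∃ C : ℝ, ∀ k : ℕ, (k : ℝ) * ((M.totient : ℝ)⁻¹ / 2) - C ≤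
      ∑' m : ℕ, W B (u : ZMod M) m / (m : ℝ) ^ sk k := fun u => lower_G B u.isUnit
  choose C hC using hlow
  obtain ⟨D, hD0, hD⟩ := zeta_bound F
  set K : ℝ := ∑' m : ℕ, 1 / (m : ℝ) ^ 2 with hK
  -- the upper bound
  have hup : ∀ k : ℕ, (Summable fun n : ℕ => (an F n : ℝ) / (n : ℝ) ^ sk k) →
      ∑' n : ℕ, (an F n : ℝ) / (n : ℝ) ^ sk k ≤ D * 2 ^ k →
      (n : ℝ) * ∑ u ∈ A, ∑' m : ℕ, W B (u : ZMod M) m / (m : ℝ) ^ sk k ≤
        Real.log D + k * Real.log 2 + n * K := by
    intro k hs hle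
    have hsumm : ∀ u ∈ A, Summable fun m : ℕ => W B (u : ZMod M) m / (m : ℝ) ^ sk k :=
      fun u _ => summable_G B _ (one_lt_sk k)
    rw [← Summable.tsum_finsetSum hsumm, ← tsum_mul_left]
    refine Real.tsum_le_of_sum_le (fun m => ?_) (fun R => ?_)
    · exact mul_nonneg (Nat.cast_nonneg n) (Finset.sum_nonneg fun u _ =>
        div_nonneg (W_nonneg B _ m) (Real.rpow_nonneg (Nat.cast_nonneg m) _))
    · set R' : Finset ℕ := R.filter fun r => r.Prime ∧ B < r ∧ ∃ u ∈ A, (u : ZMod M) = r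
        with hR'
      have h1 : ∑ m ∈ R, (n : ℝ) * ∑ u ∈ A, W B (u : ZMod M) m / (m : ℝ) ^ sk k ≤
          (n : ℝ) * ∑ r ∈ R', 1 / (r : ℝ) ^ sk k := by
        rw [← Finset.mul_sum]
        refine mul_le_mul_of_nonneg_left ?_ (Nat.cast_nonneg n)
        rw [hR', Finset.sum_filter]
        refine Finset.sum_le_sum fun m _ => ?_
        rw [← Finset.sum_div]
        split_ifs with hm
        · refine div_le_div_of_nonneg_right ?_ (Real.rpow_nonneg (Nat.cast_nonneg m) _)
          obtain ⟨-, -, u, hu, hum⟩ := hm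
          rw [Finset.sum_eq_single_of_mem u hu (fun v _ hvu => ?_)]
          · exact W_le B _ m
          · unfold W
            rw [if_neg]
            rintro ⟨-, -, h⟩
            exact hvu (Units.ext (h.symm.trans hum.symm))
        · have : ∑ u ∈ A, W B (u : ZMod M) m = 0 := by
            refine Finset.sum_eq_zero fun u hu => ?_
            unfold W
            rw [if_neg]
            rintro ⟨h1, h2, h3⟩
            exact hm ⟨h1, h2, u, hu, h3.symm⟩
          rw [this, zero_div]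
      refine h1.trans ?_
      have h2 := upper (F := F) (n := n) (one_lt_sk k) hs R' (by
        intro r hr
        rw [hR', Finset.mem_filter] at hr
        exact ⟨hr.2.1, hA r hr.2.1 hr.2.2.1 hr.2.2.2⟩)
      refine h2.trans ?_
      have hpos : 0 < ∑' n : ℕ, (an F n : ℝ) / (n : ℝ) ^ sk k := by
        have h3 := prod_le hs ∅ (by simp)
        rw [Finset.prod_empty] at h3
        linarith
      have h4 := Real.log_le_log hpos hle
      rw [Real.log_mul hD0.ne' (by positivity), Real.log_pow] at h4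
      linarith
  -- comparison
  have hall : ∀ᶠ k : ℕ in atTop, (k : ℝ) * ((n : ℝ) * (A.card * ((M.totient : ℝ)⁻¹ / 2)) -
      Real.log 2) ≤ Real.log D + n * K + n * ∑ u ∈ A, C u := by
    filter_upwards [hD] with k hk
    have h1 := hup k hk.1 hk.2
    have h2 : ∑ u ∈ A, ((k : ℝ) * ((M.totient : ℝ)⁻¹ / 2) - C u) ≤
        ∑ u ∈ A, ∑' m : ℕ, W B (u : ZMod M) m / (m : ℝ) ^ sk k :=
      Finset.sum_le_sum fun u _ => hC u k
    rw [Finset.sum_sub_distrib, Finset.sum_const, nsmul_eq_mul] at h2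
    have h3 := mul_le_mul_of_nonneg_left h2 (Nat.cast_nonneg (α := ℝ) n)
    linarith
  have hlog : Real.log 2 < 0.6931471808 := Real.log_two_lt_d9
  have hgap : (3 : ℝ) / 4 ≤ (n : ℝ) * (A.card * ((M.totient : ℝ)⁻¹ / 2)) := by
    have h1 : (3 : ℝ) * M.totient ≤ 2 * n * A.card := by exact_mod_cast hcon
    have h2 : (n : ℝ) * (A.card * ((M.totient : ℝ)⁻¹ / 2)) =
        (2 * n * A.card) / (4 * M.totient) := by
      field_simp
      ring
    rw [h2, le_div_iff₀ (by positivity)]
    linarith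
  obtain ⟨N, hN⟩ := eventually_atTop.1 hall
  obtain ⟨k, hk⟩ := exists_nat_gt (max (N : ℝ)
    ((|Real.log D + n * K + n * ∑ u ∈ A, C u|) * 100))
  have hkN : N ≤ k := by exact_mod_cast ((le_max_left _ _).trans_lt hk).le
  have h1 := hN k hkN
  have h2 := (le_max_right _ _).trans_lt hk
  have h3 : (1 : ℝ) / 100 ≤ (n : ℝ) * (A.card * ((M.totient : ℝ)⁻¹ / 2)) - Real.log 2 := by
    have : (0.6931471808 : ℝ) ≤ 3 / 4 - 1 / 100 := by norm_num
    linarith
  have hk0 : (0 : ℝ) ≤ k := Nat.cast_nonneg k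
  have h4 := mul_le_mul_of_nonneg_left h3 hk0
  have h5 := le_abs_self (Real.log D + n * K + n * ∑ u ∈ A, C u)
  linarith


end Pool.Agent.Lib.MP81632f.Lv
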