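import Pool.Agent.Lib.MP_81632f_ag.Lv.Tors2

/-!
# Levels: descent of torsion elements at odd prime numbers, and the levels `2 ^ a R`
-/

set_option autoImplicit false

noncomputable section

namespace Pool.Agent.Lib.MP81632f.Lv

open Finset

open Classical in
/-- the trace from level `l m` to level `m` (`l` divides `m`) -/
def trF (l m : ℕ) : FQ →+ FQ := lft fun x => if IsLev m x then (l : ℤ) • br x else br (l * x)

theorem trF_mem {l m : ℕ} {w : FQ} (hw : w ∈ LevF (l * m)) : trF l m w ∈ LevF m := by
  unfold LevF at hw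
  induction hw using AddSubgroup.closure_induction with
  | mem w hw =>
    obtain ⟨x, hx, rfl⟩ := hw
    unfold trF
    rw [lft_br]
    split_ifs with h
    · exact AddSubgroup.zsmul_mem _ (br_mem_levF h) _
    · refine br_mem_levF ?_
      obtain ⟨a, ha⟩ := hx
      refine ⟨a, ?_⟩
      rw [← ha]
      push_cast
      ring
  | zero => rw [map_zero]; exact zero_mem _
  | add v w _ _ hv hw => rw [map_add]; exact add_mem hv hw
  | neg v _ hv => rw [map_neg]; exact neg_mem hv

theorem tr_sum {p l m : ℕ} (hl : l.Prime) (hm : 0 < m) (hmp : (l * m).Coprime p) {w : FQ}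
    (hw : w ∈ LevF (l * m)) :
    ∑ i ∈ range l, mulE p (1 + i * m : ℤ) w = lft (e p) (trF l m w) := by
  have hl0 : (l : ℚ) ≠ 0 := by exact_mod_cast hl.ne_zero
  have : NeZero l := ⟨hl.ne_zero⟩
  have : Fact l.Prime := ⟨hl⟩
  have hlp : l.Coprime p := hmp.coprime_dvd_left (dvd_mul_right l m)
  have h := levF_ext (∑ i ∈ range l, mulE p (1 + i * m : ℤ)) ((lft (e p)).comp (trF l m))
    (fun x hx => by
      have hg : Good p x := Good.of_lev (Nat.mul_pos hl.pos hm) hmp hx
      rw [AddMonoidHom.comp_apply, AddMonoidHom.finsetSum_apply]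
      simp only [mulE_br]
      unfold trF
      rw [lft_br]
      by_cases h : IsLev m x
      · rw [if_pos h, map_zsmul, lft_br]
        have h1 : ∀ i ∈ range l, e p ((((1 + i * m : ℤ)) : ℚ) * x) = e p x := by
          intro i _
          refine e_congr hg ?_
          obtain ⟨a, ha⟩ := h
          refine ⟨i * a, ?_⟩
          push_cast
          rw [← ha]
          ring
        rw [Finset.sum_congr rfl h1, Finset.sum_const, card_range, natCast_zsmul]
      · rw [if_neg h, lft_br]
        obtain ⟨a, ha⟩ := hx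
        have hal : IsCoprime (l : ℤ) a := by
          rw [(Nat.prime_iff_prime_int.mp hl).coprime_iff_not_dvd]
          rintro ⟨t, rfl⟩
          apply h
          refine ⟨t, ?_⟩
          have h2 : (l : ℚ) * (x * m) = l * t := by
            push_cast at ha
            rw [← ha]
            ring
          exact mul_left_cancel₀ hl0 h2
        have hmx : (m : ℚ) * x = a / l := by
          rw [← ha]
          push_cast
          field_simp
        have h1 : ∀ i ∈ range l, e p ((((1 + i * m : ℤ)) : ℚ) * x) =
            e p (x + ((a * (i : ℤ) + 0 : ℤ) : ℚ) / l) := by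
          intro i _
          congr 1
          push_cast
          have : ((1 : ℚ) + i * m) * x = x + i * (m * x) := by ring
          rw [this, hmx]
          ring
        have hgk : ∀ k : ℤ, Good p (x + (k : ℚ) / l) := fun k =>
          hg.add ((Good.int p k).div hl.pos hlp)
        have h2 := sum_reindex (N := l) (g := fun k : ℤ => e p (x + (k : ℚ) / l)) (fun k => by
          rw [← e_add_int (hgk k) 1]
          congr 1
          push_cast
          field_simp
          ring) (c := a) (by
            rw [ZMod.coe_int_isUnit_iff_isCoprime]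
            exact hal) 0
        beta_reduce at h2
        simp only [Int.cast_natCast] at h2
        rw [Finset.sum_congr rfl h1, h2, ← e_dist hl hlp (hg.nat_mul l)]
        refine Finset.sum_congr rfl fun k _ => ?_
        congr 1
        field_simp) hw
  rw [AddMonoidHom.comp_apply, AddMonoidHom.finsetSum_apply] at h
  exact h

/-- **Descent at an odd prime number.** -/
theorem descend (hCL : StCL) {p m l : ℕ} (hp : p.Prime) (hl : l.Prime) (hl2 : l ≠ 2)
    (hlm : l ∣ m) (hm : 0 < m) (hmp : m.Coprime p) {w : FQ} (hw : w ∈ LevF (l * m))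
    (h : IsTor p w) : lft (e p) w = lft (e p) (trF l m w) := by
  have hpos : 0 < l * m := Nat.mul_pos hl.pos hm
  have hlmp : (l * m).Coprime p := Nat.Coprime.mul_left (hmp.coprime_dvd_left hlm) hmp
  obtain ⟨m', v, hv, hm', hm'0⟩ := level_form Nat.prime_two hm
  have hlo : Odd l := hl.odd_of_ne_two hl2
  have hodd : Odd m' := Nat.odd_iff.mpr (Nat.two_dvd_ne_zero.mp hm')
  have hdiv : l * m / 2 ^ v = l * m' := by
    rw [hv, ← mul_assoc]
    exact Nat.mul_div_cancel _ (by positivity)
  have h1 : ∀ i ∈ range l, mulE p (1 + i * m : ℤ) w = lft (e p) w := by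
    intro i _
    refine fix_two hCL hp hpos hlmp hw h (v := v) ?_ ?_ ?_ ?_
    · rw [hdiv, hv]
      ring
    · rw [hdiv]
      exact hlo.mul hodd
    · -- `1 + i m` is prime to `l m`
      have h2 : IsCoprime (1 + i * m : ℤ) (m : ℤ) := ⟨1, -i, by ring⟩
      have h3 : IsCoprime (1 + i * m : ℤ) (l : ℤ) :=
        h2.of_isCoprime_of_dvd_right (by exact_mod_cast hlm)
      push_cast
      exact h3.mul_right h2
    · refine ⟨i * m', ?_⟩
      rw [hv]
      push_cast
      ring
  have h2 := tr_sum hl hm hlmp hw
  rw [Finset.sum_congr rfl h1, Finset.sum_const, card_range] at h2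
  rw [← h2]
  have h3 := two_tors hCL hp hpos hlmp hw h
  rw [← lft_eq_zero, map_zsmul] at h3
  obtain ⟨k, hk⟩ := hlo
  rw [hk, add_smul, one_smul, mul_comm, mul_smul]
  have h4 : (2 : ℕ) • lft (e p) w = 0 := by
    rw [← natCast_zsmul]
    exact h3
  rw [h4, smul_zero, zero_add]

theorem isTor_of_eq {p : ℕ} {w w' : FQ} (h : IsTor p w) (h1 : lft (e p) w = lft (e p) w') :
    IsTor p w' := by
  obtain ⟨k, hk, h2⟩ := h
  refine ⟨k, hk, ?_⟩
  rw [← lft_eq_zero, map_zsmul] at h2 ⊢
  rw [← h1, h2]

/-- **Descent to a divisor with the same prime factors.** -/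
theorem descend_all (hCL : StCL) {p m : ℕ} (hp : p.Prime) (hm : 0 < m) (hmp : m.Coprime p)
    (n : ℕ) (hn : Odd n) (hnm : ∀ l : ℕ, l.Prime → l ∣ n → l ∣ m) : ∀ {w : FQ},
    w ∈ LevF (n * m) → IsTor p w → ∃ w' ∈ LevF m, lft (e p) w = lft (e p) w' := by
  induction n using Nat.strong_induction_on with
  | _ n ih =>
    intro w hw h
    by_cases h1 : n = 1
    · subst h1
      rw [one_mul] at hw
      exact ⟨w, hw, rfl⟩
    have hl := Nat.minFac_prime h1
    obtain ⟨n', hn'⟩ := Nat.minFac_dvd n
    have hln : n.minFac ∣ n := Nat.minFac_dvd n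
    set l := n.minFac with hldef
    have hn0 : n ≠ 0 := by
      rintro rfl
      exact absurd hn (by decide)
    have hodd : Odd l ∧ Odd n' := by
      rw [hn', Nat.odd_mul] at hn
      exact hn
    have hl2 : l ≠ 2 := by
      rintro h2
      rw [h2] at hodd
      exact absurd hodd.1 (by decide)
    have hn'0 : 0 < n' := Nat.pos_of_ne_zero (by rintro rfl; exact hn0 (by rw [hn', mul_zero]))
    have hlt : n' < n := by
      rw [hn']
      exact (Nat.lt_mul_iff_one_lt_left hn'0).mpr hl.one_lt
    have hn'p : n'.Coprime p := by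
      rw [Nat.coprime_comm, Nat.Prime.coprime_iff_not_dvd hp]
      intro h3
      have h4 : p ∣ m := hnm p hp (h3.trans (by rw [hn']; exact dvd_mul_left _ _))
      have h5 := (Nat.Prime.coprime_iff_not_dvd hp).mp hmp.symm
      exact h5 h4
    have hw' : w ∈ LevF (l * (n' * m)) := by rwa [← mul_assoc, ← hn']
    have hnmp : (n' * m).Coprime p := Nat.Coprime.mul_left hn'p hmp
    have h2 := descend hCL hp hl hl2 ((hnm l hl hln).trans (dvd_mul_left m n'))
      (Nat.mul_pos hn'0 hm) hnmp hw' h
    obtain ⟨w', hw1, hw2⟩ := ih n' hlt hodd.2 (fun q hq hqn => hnm q hq (by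
      rw [hn']; exact hqn.mul_left l)) (trF_mem hw') (isTor_of_eq h h2)
    exact ⟨w', hw1, h2.trans hw2⟩

end Pool.Agent.Lib.MP81632f.Lv
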