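import Pool.Agent.Lib.MP_81632f_ag.Lv.Lim

/-!
# Levels: the universal group modulo `2`
-/

set_option autoImplicit false

noncomputable section

namespace Pool.Agent.Lib.MP81632f.Lv

open Finset

/-! ### The part of the universal group generated by the elements of level prime to `p` -/

/-- the classes of the elements of the levels prime to `p` -/
def GoodV (p : ℕ) : AddSubgroup (V p) where
  carrier := {v | ∃ m : ℕ, 0 < m ∧ m.Coprime p ∧ ∃ w ∈ LevF m, lft (e p) w = v}
  zero_mem' := ⟨1, Nat.one_pos, Nat.coprime_one_left _, 0, zero_mem _, map_zero _⟩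
  add_mem' := by
    rintro _ _ ⟨m, hm, hmp, w, hw, rfl⟩ ⟨n, hn, hnp, w', hw', rfl⟩
    exact ⟨m * n, Nat.mul_pos hm hn, Nat.Coprime.mul_left hmp hnp, w + w',
      add_mem (levF_mono (dvd_mul_right m n) hw) (levF_mono (dvd_mul_left n m) hw'),
      map_add _ _ _⟩
  neg_mem' := by
    rintro _ ⟨m, hm, hmp, w, hw, rfl⟩
    exact ⟨m, hm, hmp, -w, neg_mem hw, map_neg _ _⟩

/-- the multiples of `2` -/
def T2 (p : ℕ) : AddSubgroup (V p) := (GoodV p).map (zsmulAddGroupHom (2 : ℤ))

section Basic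

variable {p : ℕ}

theorem e_goodV {x : ℚ} (hx : Good p x) : e p x ∈ GoodV p := by
  obtain ⟨m, hm, hmp, h⟩ := hx
  exact ⟨m, hm, hmp, br x, br_mem_levF h, lft_br _ _⟩

theorem two_mem {u : V p} (hu : u ∈ GoodV p) : (2 : ℤ) • u ∈ T2 p := ⟨u, hu, rfl⟩

theorem even_mem {u : V p} (hu : u ∈ GoodV p) {n : ℤ} (hn : Even n) : n • u ∈ T2 p := by
  obtain ⟨k, rfl⟩ := hn
  rw [← two_mul, mul_smul]
  exact two_mem (AddSubgroup.zsmul_mem _ hu k)

theorem even_mem_nat {u : V p} (hu : u ∈ GoodV p) {n : ℕ} (hn : 2 ∣ n) : n • u ∈ T2 p := by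
  rw [← natCast_zsmul]
  exact even_mem hu (by exact_mod_cast even_iff_two_dvd.mpr hn)

end Basic

/-! ### Elements of even order -/

theorem tpsi_goodV {p q m' C i v : ℕ} (D : TD p q m' C i) {x : ℚ} (hx : IsLev (m' * q ^ v) x) :
    tpsi p q m' C i x ∈ GoodV p := by
  by_cases h : IsLev m' x
  · rw [tpsi_of_lev h]
    exact zero_mem _
  · rw [tpsi_of_not h]
    exact AddSubgroup.sum_mem _ fun n _ => e_goodV
      ((D.good (hx.add_nat n)).div (pow_pos D.hq.pos _) (D.hqp.pow_left _))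

/-- elements whose denominator is even -/
theorem even_T2 {p : ℕ} (hp : p.Prime) (hp2 : p ≠ 2) {m' v : ℕ} (hm' : 0 < m')
    (hodd : Odd m') (hmp : m'.Coprime p) {x : ℚ} (hx : IsLev (m' * 2 ^ v) x)
    (hx' : ¬ IsLev m' x) : e p x ∈ T2 p := by
  obtain ⟨C, i, hi, D⟩ := td_exists hp.one_lt Nat.prime_two
    ((Nat.coprime_primes Nat.prime_two hp).mpr (Ne.symm hp2)) hm' hmp
    (Nat.coprime_two_right.mpr hodd) 1
  rw [← D.tpsi_mul hx hx']
  exact even_mem_nat (tpsi_goodV D hx) (dvd_pow_self 2 (by omega))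

/-! ### The action of the units -/

section Units

variable {p n : ℕ}

theorem psi_goodV {r o : ℕ} (hrp : r.Coprime p) [NeZero r] {x : ℚ} (hx : Good p x) :
    psi o hrp x ∈ GoodV p := by
  unfold psi
  refine AddSubgroup.sum_mem _ fun q _ => ?_
  unfold FF
  refine e_goodV (hx.add ?_)
  have h1 := good_div_r (NeZero.pos r) hrp (((q.out : (ZMod r)ˣ) : ZMod r).val : ℤ)
  rwa [Int.cast_natCast] at h1

theorem e_mul_congr (hn : 0 < n) (hnp : n.Coprime p) {x : ℚ} (hx : IsLev n x) {c d : ℤ}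
    (h : (c : ZMod n) = d) : e p (c * x) = e p (d * x) := by
  have h1 : (n : ℤ) ∣ c - d := by
    rw [← ZMod.intCast_zmod_eq_zero_iff_dvd]
    push_cast
    rw [h, sub_self]
  obtain ⟨t, ht⟩ := h1
  obtain ⟨a, ha⟩ := hx
  refine e_congr ((Good.of_lev hn hnp ⟨a, ha⟩).int_mul d) ⟨t * a, ?_⟩
  have h2 : (c : ℚ) = d + n * t := by
    have : c = d + n * t := by linarith
    rw [this]
    push_cast
    ring
  push_cast
  rw [h2, ← ha]
  ring

/-- the units which act trivially modulo `2` -/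
def triv (hn : 0 < n) (hnp : n.Coprime p) : Subgroup (ZMod n)ˣ where
  carrier := {u | ∀ c : ℤ, (c : ZMod n) = u → ∀ x : ℚ, IsLev n x → e p (c * x) - e p x ∈ T2 p}
  one_mem' := by
    intro c hc x hx
    rw [Units.val_one, ← Int.cast_one] at hc
    rw [e_mul_congr hn hnp hx hc, Int.cast_one, one_mul, sub_self]
    exact zero_mem _
  mul_mem' := by
    intro u v hu hv c hc x hx
    have : NeZero n := ⟨hn.ne'⟩
    have h1 := hv (((v : ZMod n).val : ℕ) : ℤ) (by
      rw [Int.cast_natCast, ZMod.natCast_zmod_val]) x hx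
    have h2 := hu (((u : ZMod n).val : ℕ) : ℤ) (by
      rw [Int.cast_natCast, ZMod.natCast_zmod_val]) _ (hx.int_mul (((v : ZMod n).val : ℕ) : ℤ))
    have h3 : e p (c * x) = e p (((((u : ZMod n).val : ℕ) : ℤ) : ℚ) *
        (((((v : ZMod n).val : ℕ) : ℤ) : ℚ) * x)) := by
      rw [← mul_assoc]
      have h4 := e_mul_congr hn hnp hx (c := c)
        (d := (((u : ZMod n).val : ℕ) : ℤ) * (((v : ZMod n).val : ℕ) : ℤ)) (by
          rw [hc, Units.val_mul]
          push_cast
          rw [ZMod.natCast_zmod_val, ZMod.natCast_zmod_val])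
      rw [h4]
      push_cast
      rfl
    rw [h3]
    have h5 := add_mem h2 h1
    rwa [sub_add_sub_cancel] at h5
  inv_mem' := by
    intro u hu c hc x hx
    have : NeZero n := ⟨hn.ne'⟩
    have h2 := hu (((u : ZMod n).val : ℕ) : ℤ) (by
      rw [Int.cast_natCast, ZMod.natCast_zmod_val]) _ (hx.int_mul c)
    have h3 : e p (((((u : ZMod n).val : ℕ) : ℤ) : ℚ) * (c * x)) = e p x := by
      rw [← mul_assoc]
      have h4 := e_mul_congr hn hnp hx (c := (((u : ZMod n).val : ℕ) : ℤ) * c) (d := 1) (by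
          push_cast
          rw [ZMod.natCast_zmod_val, hc, Units.mul_inv])
      rw [Int.cast_one, one_mul] at h4
      rw [← h4]
      push_cast
      rfl
    rw [h3] at h2
    have h5 := neg_mem h2
    rwa [neg_sub] at h5

theorem triv_top (hCL : StCL) (hp : p.Prime) (hn : 0 < n) (hnp : n.Coprime p) (hodd : Odd n) :
    triv hn hnp = ⊤ := by
  by_contra hne
  have : NeZero n := ⟨hn.ne'⟩
  have h2n : ¬ 2 ∣ n := by
    rw [← even_iff_two_dvd, Nat.not_even_iff_odd]
    exact hodd
  obtain ⟨r, u, hr, hrp, hur, huH, hord⟩ := hCL p 2 n (1 + n.totient) hp Nat.prime_two h2n hnp.symm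
    (triv hn hnp) hne
  apply huH
  have : Fact r.Prime := ⟨hr⟩
  have hrp' : r.Coprime p := (Nat.coprime_primes hr hp).mpr hrp
  have hcard := card_hh Nat.prime_two (Nat.totient_pos.mpr hn) hr hrp' hord
  rw [pow_one] at hcard
  intro c hc x hx
  have h1 := e_mul_congr hn hnp hx (c := c) (d := (r : ℤ)) (by rw [hc, hur, Int.cast_natCast])
  rw [h1, Int.cast_natCast, psi_card hn hnp (Nat.ModEq.pow_totient hnp.symm) hrp' hx]
  exact even_mem_nat (psi_goodV hrp' (Good.of_lev hn hnp hx)) hcard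

/-- modulo `2` the units act trivially on the elements of odd order -/
theorem unit_T2 (hCL : StCL) (hp : p.Prime) (hn : 0 < n) (hnp : n.Coprime p) (hodd : Odd n)
    {c : ℤ} (hc : IsCoprime c (n : ℤ)) {x : ℚ} (hx : IsLev n x) : e p (c * x) - e p x ∈ T2 p := by
  have hcu : IsUnit (c : ZMod n) := by
    rw [ZMod.coe_int_isUnit_iff_isCoprime]
    exact hc.symm
  obtain ⟨u, hu⟩ := hcu
  have h1 : u ∈ triv hn hnp := by
    rw [triv_top hCL hp hn hnp hodd]
    exact Subgroup.mem_top u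
  exact h1 c hu.symm x hx

end Units

/-! ### The radical -/

/-- the product of the prime divisors -/
def rad (n : ℕ) : ℕ := ∏ q ∈ n.primeFactors, q

theorem rad_dvd (n : ℕ) : rad n ∣ n := Nat.prod_primeFactors_dvd n

theorem rad_of_squarefree {n : ℕ} (h : Squarefree n) : rad n = n :=
  Nat.prod_primeFactors_of_squarefree h

theorem rad_pos (n : ℕ) : 0 < rad n := Finset.prod_pos fun _ hq => (Nat.prime_of_mem_primeFactors hq).pos

theorem rad_squarefree (n : ℕ) : Squarefree (rad n) := by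
  unfold rad
  refine Finset.squarefree_prod_of_pairwise_isCoprime (fun a ha b hb hab => ?_) fun a ha =>
    (Nat.prime_of_mem_primeFactors ha).squarefree
  change IsRelPrime a b
  rw [← Nat.coprime_iff_isRelPrime]
  exact (Nat.coprime_primes (Nat.prime_of_mem_primeFactors ha)
    (Nat.prime_of_mem_primeFactors hb)).mpr hab

theorem rad_mul {q n : ℕ} (hq : q.Prime) (hn : 0 < n) (hqn : q ∣ n) : rad (q * n) = rad n := by
  unfold rad
  congr 1
  rw [Nat.primeFactors_mul hq.ne_zero hn.ne', hq.primeFactors, Finset.union_eq_right,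
    Finset.singleton_subset_iff, Nat.mem_primeFactors]
  exact ⟨hq, hqn, hn.ne'⟩

section Rad

variable {p : ℕ}

/-- a new factor `q` of the order, `q` a divisor of the order -/
theorem raise_T2 (hCL : StCL) (hp : p.Prime) {n q : ℕ} (hn : 0 < n) (hnp : n.Coprime p)
    (hodd : Odd n) (hq : q.Prime) (hqn : q ∣ n) :
    e p (1 / (q * n : ℕ)) - e p (1 / n) ∈ T2 p := by
  have hn0 : (n : ℚ) ≠ 0 := by exact_mod_cast hn.ne'
  have hq0 : (q : ℚ) ≠ 0 := by exact_mod_cast hq.ne_zero
  have hqp : q.Coprime p := hnp.coprime_dvd_left hqn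
  have hqodd : Odd q := hodd.of_dvd_nat hqn
  have hqn0 : 0 < q * n := Nat.mul_pos hq.pos hn
  have hqnp : (q * n).Coprime p := Nat.Coprime.mul_left hqp hnp
  have hlev : IsLev (q * n) (1 / (q * n : ℕ)) := by
    have := isLev_div_self 1 hqn0.ne'
    rwa [Int.cast_one] at this
  have hlevn : IsLev n (1 / n) := by
    have := isLev_div_self 1 hn.ne'
    rwa [Int.cast_one] at this
  have h1 := e_dist hq hqp (Good.of_lev hn hnp hlevn)
  have h2 : ∀ k ∈ range q, e p ((1 / n + k) / q) - e p (1 / (q * n : ℕ)) ∈ T2 p := by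
    intro k _
    have h3 : ((1 : ℚ) / n + k) / q = ((1 + k * n : ℤ) : ℚ) * (1 / (q * n : ℕ)) := by
      push_cast
      field_simp
    rw [h3]
    refine unit_T2 hCL hp hqn0 hqnp (hqodd.mul hodd) ?_ hlev
    have h4 : IsCoprime (1 + k * n : ℤ) (n : ℤ) := ⟨1, -k, by ring⟩
    have h5 : IsCoprime (1 + k * n : ℤ) (q : ℤ) :=
      h4.of_isCoprime_of_dvd_right (by exact_mod_cast hqn)
    push_cast
    exact h5.mul_right h4
  have h3 := AddSubgroup.sum_mem _ h2
  rw [Finset.sum_sub_distrib, h1, Finset.sum_const, card_range] at h3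
  obtain ⟨k, hk⟩ := hqodd
  have h4 : (2 * k) • e p (1 / (q * n : ℕ)) ∈ T2 p :=
    even_mem_nat (e_goodV (Good.of_lev hqn0 hqnp hlev)) (dvd_mul_right 2 k)
  have h5 : e p (1 / (q * n : ℕ)) - e p (1 / n) =
      -((e p (1 / n) - q • e p (1 / (q * n : ℕ))) + (2 * k) • e p (1 / (q * n : ℕ))) := by
    have h6 : q • e p (1 / (q * n : ℕ)) = (2 * k) • e p (1 / (q * n : ℕ)) +
        e p (1 / (q * n : ℕ)) := by
      have h7 : ∀ u : V p, q • u = (2 * k) • u + u := by
        intro u
        rw [hk, add_smul, one_smul]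
      exact h7 _
    rw [h6]
    abel
  rw [h5]
  exact neg_mem (add_mem h3 h4)

/-- only the radical of the order matters -/
theorem rad_T2 (hCL : StCL) (hp : p.Prime) (n : ℕ) : 0 < n → n.Coprime p → Odd n →
    e p (1 / n) - e p (1 / (rad n : ℕ)) ∈ T2 p := by
  induction n using Nat.strong_induction_on with
  | _ n ih =>
    intro hn hnp hodd
    by_cases hsq : Squarefree n
    · rw [rad_of_squarefree hsq, sub_self]
      exact zero_mem _
    · rw [Nat.squarefree_iff_prime_squarefree] at hsq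
      push Not at hsq
      obtain ⟨q, hq, n', hn'⟩ := hsq
      have e1 : n = q * (q * n') := by rw [hn']; ring
      have hpos : 0 < q * n' := by
        rcases Nat.eq_zero_or_pos (q * n') with h | h
        · rw [h, mul_zero] at e1
          omega
        · exact h
      have hqq : q ∣ q * n' := dvd_mul_right q n'
      have hdvd : q * n' ∣ n := by rw [e1]; exact dvd_mul_left _ _
      have hlt : q * n' < n := by
        rw [e1]
        exact (Nat.lt_mul_iff_one_lt_left hpos).mpr hq.one_lt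
      have h1 := ih _ hlt hpos (hnp.coprime_dvd_left hdvd) (hodd.of_dvd_nat hdvd)
      have h2 := raise_T2 hCL hp hpos (hnp.coprime_dvd_left hdvd) (hodd.of_dvd_nat hdvd) hq hqq
      rw [← e1] at h2
      have h3 : rad n = rad (q * n') := by
        conv_lhs => rw [e1]
        exact rad_mul hq hpos hqq
      rw [h3]
      have h4 := add_mem h2 h1
      rwa [sub_add_sub_cancel] at h4

/-- elements of odd order -/
theorem odd_T2 (hCL : StCL) (hp : p.Prime) {n : ℕ} (hn : 0 < n) (hnp : n.Coprime p) (hodd : Odd n)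
    {a : ℤ} (ha : IsCoprime a (n : ℤ)) : e p ((a : ℚ) / n) - e p (1 / (rad n : ℕ)) ∈ T2 p := by
  have hlevn : IsLev n (1 / n) := by
    have := isLev_div_self 1 hn.ne'
    rwa [Int.cast_one] at this
  have h1 := unit_T2 hCL hp hn hnp hodd ha hlevn
  have h2 : (a : ℚ) * (1 / n) = a / n := by ring
  rw [h2] at h1
  have h3 := add_mem h1 (rad_T2 hCL hp n hn hnp hodd)
  rwa [sub_add_sub_cancel] at h3

end Rad

/-- **The torsion injects into the group modulo `2`.** -/
theorem tors_T2 (hCL : StCL) {p : ℕ} (hp : p.Prime) {w : FQ}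
    (h : IsTor p w) (h2 : lft (e p) w ∈ T2 p) : w ∈ Rinf p := by
  obtain ⟨u, ⟨n, hn, hnp, w', hw', rfl⟩, hu⟩ := h2
  have hu : (2 : ℤ) • lft (e p) w' = lft (e p) w := hu
  have h3 : IsTor p w' := by
    obtain ⟨k, hk, h4⟩ := h
    refine ⟨k * 2, by omega, ?_⟩
    rw [← lft_eq_zero, map_zsmul] at h4 ⊢
    rw [← hu, smul_smul] at h4
    push_cast
    exact h4
  have h5 := two_tors hCL hp hn hnp hw' h3
  rw [← lft_eq_zero, map_zsmul, hu] at h5
  exact lft_eq_zero.mp h5

end Pool.Agent.Lib.MP81632f.Lv
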