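import Pool.Agent.Lib.MP_81632f_ag.Lv.Det

/-!
# Levels: detection of the torsion elements by parities
-/

set_option autoImplicit false

noncomputable section

namespace Pool.Agent.Lib.MP81632f.Lv

open Finset
open Pool.Agent.Lib.MP81632f.Diag
open Crit Two Push TP
open Red (ev)

/-- the sum of the values at the elements of odd order with radical `R` -/
def nR (M : ℕ) [NeZero M] (R : ℕ) (v : ZMod M → ℤ) : ℤ :=
  ∑ x with Odd (addOrderOf x) ∧ rad (addOrderOf x) = R, v x

section

variable {M p : ℕ} [NeZero M]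

/-- an element in lowest terms -/
theorem fr_lowest (x : ZMod M) : ∃ a : ℤ, fr M x = (a : ℚ) / (addOrderOf x : ℕ) ∧
    IsCoprime a ((addOrderOf x : ℕ) : ℤ) := by
  have h1 : addOrderOf x = M / M.gcd x.val := by
    conv_lhs => rw [← ZMod.natCast_zmod_val x]
    exact ZMod.addOrderOf_coe _ (NeZero.ne M)
  have hg : 0 < M.gcd x.val := Nat.gcd_pos_of_pos_left _ (NeZero.pos M)
  have hgM : M.gcd x.val ∣ M := Nat.gcd_dvd_left _ _
  have hgx : M.gcd x.val ∣ x.val := Nat.gcd_dvd_right _ _
  refine ⟨((x.val / M.gcd x.val : ℕ) : ℤ), ?_, ?_⟩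
  · rw [h1]
    unfold fr
    have hg0 : ((M.gcd x.val : ℕ) : ℚ) ≠ 0 := by exact_mod_cast hg.ne'
    rw [Int.cast_natCast, Nat.cast_div hgx hg0, Nat.cast_div hgM hg0]
    have := m_ne M
    field_simp
  · rw [h1]
    exact Nat.isCoprime_iff_coprime.mpr (Nat.coprime_div_gcd_div_gcd hg).symm

/-- the class of an element modulo `2` -/
theorem fr_T2 (hCL : StCL) (hp : p.Prime) (hMp : M.Coprime p) (x : ZMod M) :
    e p (fr M x) - (if Odd (addOrderOf x) then e p (1 / (rad (addOrderOf x) : ℕ)) else 0) ∈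
      T2 p := by
  obtain ⟨a, ha, hac⟩ := fr_lowest x
  have hn : 0 < addOrderOf x := addOrderOf_pos x
  have hnM : addOrderOf x ∣ M := order_dvd x
  have hnp : (addOrderOf x).Coprime p := hMp.coprime_dvd_left hnM
  split_ifs with hodd
  · rw [ha]
    exact odd_T2 hCL hp hn hnp hodd hac
  · rw [sub_zero]
    rw [Nat.not_odd_iff_even, even_iff_two_dvd] at hodd
    have hp2 : p ≠ 2 := by
      rintro rfl
      have h1 := hnp.coprime_dvd_left hodd
      rw [Nat.coprime_self] at h1
      exact absurd h1 (by norm_num)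
    obtain ⟨m', v, hv, hm', hm'0⟩ := level_form Nat.prime_two (NeZero.pos M)
    have hm'odd : Odd m' := Nat.odd_iff.mpr (Nat.two_dvd_ne_zero.mp hm')
    refine even_T2 (v := v) hp hp2 hm'0 hm'odd
      (hMp.coprime_dvd_left (by rw [hv]; exact dvd_mul_right _ _)) (by rw [← hv]; exact fr_lev x) ?_
    rintro ⟨b, hb⟩
    apply hm'
    have hn0 : ((addOrderOf x : ℕ) : ℚ) ≠ 0 := by exact_mod_cast hn.ne'
    have h1 : a * (m' : ℤ) = b * (addOrderOf x : ℕ) := by
      have h2 : (a : ℚ) * m' = b * (addOrderOf x : ℕ) := by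
        rw [← hb, ha]
        field_simp
      exact_mod_cast h2
    have h2 : ((addOrderOf x : ℕ) : ℤ) ∣ (m' : ℤ) :=
      hac.symm.dvd_of_dvd_mul_left ⟨b, by rw [h1, mul_comm]⟩
    exact hodd.trans (by exact_mod_cast h2)

/-- **The class of a function modulo `2`.** -/
theorem iota_T2 (hCL : StCL) (hp : p.Prime) (hMp : M.Coprime p) (v : ZMod M → ℤ) :
    lft (e p) (iota M v) - ∑ R ∈ M.divisors, nR M R v • e p (1 / R) ∈ T2 p := by
  have e1 : lft (e p) (iota M v) = ∑ x, v x • e p (fr M x) := by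
    change lft (e p) (∑ x, v x • br (fr M x)) = _
    rw [map_sum]
    exact Finset.sum_congr rfl fun x _ => by rw [map_zsmul, lft_br]
  have e2 : ∑ R ∈ M.divisors, nR M R v • e p (1 / R) =
      ∑ x, v x • (if Odd (addOrderOf x) then e p (1 / (rad (addOrderOf x) : ℕ)) else 0) := by
    have h1 : ∀ R ∈ M.divisors, nR M R v • e p (1 / R) =
        ∑ x, if Odd (addOrderOf x) ∧ rad (addOrderOf x) = R then v x • e p (1 / R) else 0 := by
      intro R _
      unfold nR
      have h2 := map_sum (zmultiplesHom (V p) (e p (1 / R))) v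
        (univ.filter fun x : ZMod M => Odd (addOrderOf x) ∧ rad (addOrderOf x) = R)
      simp only [zmultiplesHom_apply] at h2
      rw [h2, Finset.sum_filter]
    rw [Finset.sum_congr rfl h1, Finset.sum_comm]
    refine Finset.sum_congr rfl fun x _ => ?_
    split_ifs with hodd
    · have hR : rad (addOrderOf x) ∈ M.divisors := by
        rw [Nat.mem_divisors]
        exact ⟨(rad_dvd _).trans (order_dvd x), NeZero.ne M⟩
      rw [Finset.sum_eq_single (rad (addOrderOf x))]
      · rw [if_pos ⟨hodd, rfl⟩]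
      · intro R _ hR'
        rw [if_neg fun h => hR' h.2.symm]
      · exact fun h => absurd hR h
    · rw [smul_zero]
      exact Finset.sum_eq_zero fun R _ => if_neg fun h => hodd h.1
  rw [e1, e2, ← Finset.sum_sub_distrib]
  refine AddSubgroup.sum_mem _ fun x _ => ?_
  rw [← zsmul_sub]
  exact AddSubgroup.zsmul_mem _ (fr_T2 hCL hp hMp x) _

/-- **Detection by parities.** -/
theorem detect (hB : StBasic) (hCL : StCL) (hTor : StTor) (hp : p.Prime) {v : ZMod M → ℤ}
    (hv : Bal M p v)
    (hpar : ∀ R : ℕ, Odd R → Squarefree R → R ∣ M → (∀ i : ℕ, ¬ R ∣ p ^ i + 1) →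
      Even (nR M R v)) : LimP M p v := by
  obtain ⟨h0, f, hf, hpf, hb⟩ := hv
  have hMp := coprime_of_pow hf hpf
  by_cases hM : M = 1
  · subst hM
    rw [bal_one h0]
    exact limP_zero hp hMp
  have hM1 : 1 < M := by
    have := NeZero.pos M
    omega
  have hT := iota_tor hTor hM1 hf hpf h0 hb
  refine limP_of_rinf hB hp hMp h0 (tors_T2 hCL hp hT ?_)
  have h1 := iota_T2 hCL hp hMp v
  have h2 : ∑ R ∈ M.divisors, nR M R v • e p (1 / R) ∈ T2 p := by
    refine AddSubgroup.sum_mem _ fun R hR => ?_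
    have hRM : R ∣ M := Nat.dvd_of_mem_divisors hR
    have hR0 : 0 < R := Nat.pos_of_dvd_of_pos hRM (NeZero.pos M)
    have hRp : R.Coprime p := hMp.coprime_dvd_left hRM
    have hlev : IsLev R (1 / R) := by
      have := isLev_div_self 1 hR0.ne'
      rwa [Int.cast_one] at this
    by_cases hpure : ∃ i : ℕ, R ∣ p ^ i + 1
    · obtain ⟨i, hi⟩ := hpure
      rw [e_pure hi hR0 hRp hlev, smul_zero]
      exact zero_mem _
    push Not at hpure
    by_cases hRs : Odd R ∧ Squarefree R
    · exact even_mem (e_goodV (Good.of_lev hR0 hRp hlev)) (hpar R hRs.1 hRs.2 hRM hpure)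
    · have h3 : nR M R v = 0 := by
        unfold nR
        rw [Finset.filter_eq_empty_iff.mpr, Finset.sum_empty]
        rintro x - ⟨h4, h5⟩
        apply hRs
        rw [← h5]
        exact ⟨h4.of_dvd_nat (rad_dvd _), rad_squarefree _⟩
      rw [h3, zero_zsmul]
      exact zero_mem _
  have h3 := add_mem h1 h2
  rwa [sub_add_cancel] at h3

end

end Pool.Agent.Lib.MP81632f.Lv
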