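import Pool.Agent.Lib.MP_81632f_ag.Lv.StmtsF
import Pool.Agent.Lib.MP_81632f_ag.Diag.Final

/-!
# Levels: descent of Tate sets from a finite extension
-/

set_option autoImplicit false

noncomputable section

namespace Pool.Agent.Lib.MP81632f.Lv

open Finset
open Pool.Agent.Lib.MP81632f.Diag

namespace DownAux

theorem saw_mul (M p f k : ℕ) (h : (p : ZMod M) ^ f = 1) (t x : ZMod M) :
    saw M p (f * k) t x = (k : ℤ) * saw M p f t x := by
  induction k with
  | zero => simp [saw]
  | succ k ih =>
    have h1 : saw M p (f * (k + 1)) t x = saw M p (f * k) t x + saw M p f t x := by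
      unfold saw
      rw [mul_add, mul_one, Finset.sum_range_add]
      congr 1
      refine Finset.sum_congr rfl fun j _ => ?_
      rw [pow_add, pow_mul, h, one_pow, one_mul]
    rw [h1, ih]
    push_cast
    ring

end DownAux

open DownAux

theorem stDown (hC : StChar) (hT : StTrans) (hK : StKron) : StDown := by
  intro p _ F E _ _ _ _ _ _ ψ ψ' hψ hψ' s hs
  have hp : p.Prime := Fact.out
  have hCE : CharP E p := charP_of_injective_algebraMap (algebraMap F E).injective p
  obtain ⟨⟨f, hf⟩, -, hcard⟩ := FiniteField.card F p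
  change Fintype.card F = p ^ f at hcard
  have hfin : Module.Finite F E := Module.Finite.of_finite
  set k := Module.finrank F E with hk
  have hk0 : 0 < k := Module.finrank_pos
  have hcardE : Fintype.card E = Fintype.card F ^ k := Module.card_eq_pow_finrank
  have hcardE' : Fintype.card E = p ^ (f * k) := by rw [hcardE, hcard, pow_mul]
  have hq : 1 < Fintype.card F := Fintype.one_lt_card
  have hqE : 1 < Fintype.card E := Fintype.one_lt_card
  obtain ⟨M, hM⟩ : ∃ M, M = Fintype.card F - 1 := ⟨_, rfl⟩
  obtain ⟨N, hN⟩ : ∃ N, N = Fintype.card E - 1 := ⟨_, rfl⟩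
  have hM0 : NeZero M := ⟨by omega⟩
  have hN0 : NeZero N := ⟨by omega⟩
  have hMN : M ∣ N := by
    rw [hM, hN, hcardE]
    have := Nat.sub_dvd_pow_sub_pow (Fintype.card F) 1 k
    rwa [one_pow] at this
  have hp1 : (p : ZMod M) ^ f = 1 := by
    rw [← Nat.cast_pow, ← hcard]
    have h1 : Fintype.card F = M + 1 := by omega
    rw [h1, Nat.cast_add, ZMod.natCast_self, zero_add, Nat.cast_one]
  obtain ⟨θ, hθ, hgen⟩ := Final.exists_gen (F := F)
  rw [← hM] at hθ
  obtain ⟨X, hX⟩ := Final.exists_map M θ hθ s fun χ _ => hgen χ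
  obtain ⟨θ', hθ', hchar⟩ := hC F E M N hMN (by rw [hN]) θ hθ
  have hmap : s.map (normChar F E) = (X.map (Push.inc N M)).map fun y => θ' ^ y.val := by
    rw [hX, Multiset.map_map, Multiset.map_map]
    exact Multiset.map_congr rfl fun x _ => hchar x
  have h0 : (0 : ZMod M) ∉ X := by
    intro h0
    apply hs.1 1 _ rfl
    rw [hmap, Multiset.mem_map]
    refine ⟨Push.inc N M 0, Multiset.mem_map_of_mem _ h0, ?_⟩
    rw [Push.inc_zero hMN, ZMod.val_zero, pow_zero]
  have hb : BalM N p (f * k) (X.map (Push.inc N M)) :=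
    hT p E (f * k) hcardE' N θ' hθ' ψ' hψ' (X.map (Push.inc N M)) (by rw [← hmap]; exact hs)
  have hNM : 0 < N / M := Nat.div_pos (Nat.le_of_dvd (NeZero.pos N) hMN) (NeZero.pos M)
  have hbal : BalM M p f X := by
    intro t
    obtain ⟨t', rfl⟩ := ZMod.unitsMap_surjective hMN t
    have h1 := hb t'
    rw [Multiset.map_map] at h1
    have h2 : X.map ((fun x => saw N p (f * k) t' x) ∘ Push.inc N M) =
        X.map (fun x => ((N / M : ℕ) : ℤ) * ((k : ℤ) *
          saw M p f ((ZMod.unitsMap hMN t' : (ZMod M)ˣ) : ZMod M) x)) :=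
      Multiset.map_congr rfl fun x _ => by
        rw [Function.comp_apply, Push.saw_inc hMN, saw_mul M p f k hp1]
    rw [h2, Multiset.sum_map_mul_left, Multiset.sum_map_mul_left] at h1
    rcases mul_eq_zero.mp h1 with h3 | h3
    · exfalso
      have : N / M = 0 := by exact_mod_cast h3
      omega
    · rcases mul_eq_zero.mp h3 with h4 | h4
      · exfalso
        have : k = 0 := by exact_mod_cast h4
        omega
      · exact h4
  rw [hX]
  exact hK p F f hcard M θ hθ ψ hψ X h0 hbal

end Pool.Agent.Lib.MP81632f.Lv
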