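import Pool.Agent.Lib.MP_81632f_ag.Lv.StmtsF

/-!
# Levels: a finite extension such that `N` divides the order of the multiplicative group
-/

set_option autoImplicit false

noncomputable section

namespace Pool.Agent.Lib.MP81632f.Lv

/-- EXT. -/
theorem stExt : StExt := by
  intro p _ F _ _ _ N hN
  have hp : p.Prime := Fact.out
  have hN0 : N ≠ 0 := by
    rintro rfl
    rw [Nat.coprime_zero_left] at hN
    exact hp.one_lt.ne' hN
  have : NeZero N.totient := ⟨(Nat.totient_pos.2 (Nat.pos_of_ne_zero hN0)).ne'⟩
  have hq : (Fintype.card F).Coprime N := by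
    obtain ⟨n, -, hn⟩ := FiniteField.card F p
    rw [hn]
    exact Nat.Coprime.pow_left _ hN.symm
  refine ⟨FiniteField.Extension F p N.totient, inferInstance, Fintype.ofFinite _, inferInstance, ?_⟩
  have h1 : (@Fintype.card (FiniteField.Extension F p N.totient) (Fintype.ofFinite _)) =
      Fintype.card F ^ N.totient := by
    rw [← @Nat.card_eq_fintype_card _ (Fintype.ofFinite _), FiniteField.natCard_extension,
      Nat.card_eq_fintype_card]
  rw [h1]
  have h2 : Fintype.card F ^ N.totient ≡ 1 [MOD N] := Nat.ModEq.pow_totient hq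
  exact (Nat.modEq_iff_dvd' (Nat.one_le_pow _ _ Fintype.card_pos)).1 h2.symm

end Pool.Agent.Lib.MP81632f.Lv
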