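import Pool.Agent.Lib.MP_81632f_ag.Lv.Fam35

/-!
# Levels: the prime factors `3, 11`
-/

set_option autoImplicit false

noncomputable section

namespace Pool.Agent.Lib.MP81632f.Lv

open Finset
open Pool.Agent.Lib.MP81632f.Diag

section

variable {p : ℕ}

/-- **Closure** for odd levels -/
theorem limLP_clo (hB : StBasic) (hCL : StCL) (hTor : StTor) (hp : p.Prime) {K₀ : ℕ} (hK : Odd K₀)
    (hKp : K₀.Coprime p) (h : LimLP (2 ^ 0 * K₀) p) {m : ℕ}
    (hm : ∀ l : ℕ, l.Prime → l ∣ m → l ∣ K₀) : LimLP m p := by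
  intro hm0 v hv
  have hmp : m.Coprime p := by
    obtain ⟨-, f, hf, hpf, -⟩ := hv
    exact coprime_of_pow hf hpf
  have hmo : Odd m := by
    by_contra h1
    rw [Nat.not_odd_iff_even, even_iff_two_dvd] at h1
    exact absurd (hK.of_dvd_nat (hm 2 Nat.prime_two h1)) (by decide)
  have hK0 : 0 < K₀ := hK.pos
  rw [pow_zero, one_mul] at h
  have h1 : LimLP (m * K₀) p := limLP_odd hB hCL hTor hp hmo hm h
  exact LimLP.dvd hp (dvd_mul_right m K₀) (Nat.mul_ne_zero (NeZero.ne m) hK0.ne')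
    (Nat.Coprime.mul_left hmp hKp) h1 v hv

/-- powers of one odd prime -/
theorem limLP_one (hB : StBasic) (hCL : StCL) (hTor : StTor) (hp : p.Prime) {r : ℕ} (hr : r.Prime)
    (hr2 : r ≠ 2) {m : ℕ} (hm : ∀ l : ℕ, l.Prime → l ∣ m → l = r) : LimLP m p := by
  refine limLP_of_cop fun hmp => ?_
  by_cases hpr : p = r
  · refine limLP_two_pow hB hCL hTor hp fun l hl hlm => ?_
    exact absurd ((hm l hl hlm).trans hpr.symm) (ne_of_cop hp hmp hlm)
  have hrodd : Odd r := hr.odd_of_ne_two hr2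
  have hrp : r.Coprime p := (Nat.coprime_primes hr hp).mpr (Ne.symm hpr)
  refine limLP_clo hB hCL hTor hp hrodd hrp (limLP_K hB hCL hTor hp hrodd fun {_} v hv => ?_)
    fun l hl hlm => dvd_of_eq (hm l hl hlm)
  have h3 : r.divisors.erase 1 = {r} := by
    rw [hr.divisors, Finset.erase_insert]
    rw [mem_singleton]
    exact hr.one_lt.ne
  rw [h3, sum_singleton]
  by_cases hpo : Odd (orderOf (p : ZMod r))
  · refine even_smul_mem hp (rel_prime hTor hr.squarefree hrodd hr dvd_rfl hpo ?_ hv) r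
    intro l hl hlm hlr
    rw [pow_zero, one_mul] at hlm
    exact absurd ((Nat.prime_dvd_prime_iff_eq hl hr).mp hlm) hlr
  · obtain ⟨i, hi⟩ := neg_pow_of_even hr hrp.symm hpo
    exact AddSubgroup.zsmul_mem _ (eR_pure hp hi) _

/-- **The levels `3 ^ a * 11 ^ b`.** -/
theorem limLP_311 (hB : StBasic) (hCL : StCL) (hTor : StTor) (hp : p.Prime) {m : ℕ}
    (hm : ∀ l : ℕ, l.Prime → l ∣ m → l = 3 ∨ l = 11) : LimLP m p := by
  obtain h11' : Nat.Prime 11 := by norm_num
  refine limLP_of_cop fun hmp => ?_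
  by_cases h3 : p = 3
  · refine limLP_one hB hCL hTor hp h11' (by norm_num) fun l hl hlm => ?_
    exact (hm l hl hlm).resolve_left fun h => ne_of_cop hp hmp hlm (h.trans h3.symm)
  by_cases h11 : p = 11
  · refine limLP_23 hB hCL hTor hp fun l hl hlm => Or.inr ?_
    exact (hm l hl hlm).resolve_right fun h => ne_of_cop hp hmp hlm (h.trans h11.symm)
  have hK : Odd 33 := by decide
  have hsq : Squarefree 33 := sqf_of (by decide) (by norm_num)
  have h33p : (33 : ℕ).Coprime p := by
    rw [show (33 : ℕ) = 3 * 11 by norm_num]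
    exact Nat.Coprime.mul_left ((Nat.coprime_primes Nat.prime_three hp).mpr (Ne.symm h3))
      ((Nat.coprime_primes h11' hp).mpr (Ne.symm h11))
  refine limLP_clo hB hCL hTor hp hK h33p (limLP_K hB hCL hTor hp hK fun {_} v hv => ?_)
    fun l hl hlm => by
      rcases hm l hl hlm with rfl | rfl <;> norm_num
  have e1 : (33 : ℕ).divisors.erase 1 = {3, 11, 33} := by decide
  rw [e1, sum_insert (by decide), sum_insert (by decide), sum_singleton]
  have e3 := e3_mem hp h3
  have e33 : eR 33 ∈ VecG p hp := by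
    have h9 := sub_mem (e3_33_mem hp h3 h11) e3
    rwa [add_sub_cancel_left] at h9
  refine add_mem (AddSubgroup.zsmul_mem _ e3 _)
    (add_mem ?_ (AddSubgroup.zsmul_mem _ e33 _))
  by_cases hpo : Odd (orderOf (p : ZMod 11))
  · refine even_smul_mem hp (rel_prime (r := 11) hTor hsq hK h11' (by norm_num) hpo ?_ hv) 11
    intro l hl hlm hlr
    rw [pow_zero, one_mul, show (33 : ℕ) = 3 * 11 by norm_num] at hlm
    rcases prime_dvd_two (a := 3) (b := 11) hl (by norm_num) (by norm_num) hlm with h5 | h5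
    · have : Fact (Nat.Prime 5) := ⟨Nat.prime_five⟩
      have h1 : orderOf (3 : ZMod 11) = 5 := orderOf_eq_prime (by decide) (by decide)
      rw [h5, Nat.cast_ofNat, h1]
      decide
    · exact absurd h5 hlr
  · obtain ⟨i, hi⟩ := neg_pow_of_even h11'
      ((Nat.coprime_primes h11' hp).mpr (Ne.symm h11)).symm hpo
    exact AddSubgroup.zsmul_mem _ (eR_pure hp hi) _

end

end Pool.Agent.Lib.MP81632f.Lv
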