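import Pool.Agent.Lib.MP_81632f_ag.Lv.TabF

/-!
# Levels: the prime factors `2, 3, 5` and `2, 3, 7`
-/

set_option autoImplicit false

noncomputable section

namespace Pool.Agent.Lib.MP81632f.Lv

open Finset
open Pool.Agent.Lib.MP81632f.Diag

section Cl

variable {p : ℕ}

/-- levels which the prime `p` may divide -/
theorem limLP_of_cop {m : ℕ} (h : m.Coprime p → LimLP m p) : LimLP m p := by
  intro hm0 v hv
  have hmp : m.Coprime p := by
    obtain ⟨-, f, hf, hpf, -⟩ := hv
    exact coprime_of_pow hf hpf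
  exact h hmp v hv

theorem ne_of_cop {m l : ℕ} (hp : p.Prime) (h : m.Coprime p) (hl : l ∣ m) : l ≠ p := by
  rintro rfl
  have h3 := Nat.dvd_gcd hl dvd_rfl
  rw [h] at h3
  exact hp.one_lt.ne' (Nat.dvd_one.mp h3)

/-- the levels `2 ^ a * 3 ^ b` -/
theorem limLP_23 (hB : StBasic) (hCL : StCL) (hTor : StTor) (hp : p.Prime) {m : ℕ}
    (hm : ∀ l : ℕ, l.Prime → l ∣ m → l = 2 ∨ l = 3) : LimLP m p := by
  refine limLP_of_cop fun hmp => ?_
  by_cases h3 : p = 3
  · exact limLP_two_pow hB hCL hTor hp fun l hl hlm => (hm l hl hlm).resolve_right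
      fun h => ne_of_cop hp hmp hlm (h.trans h3.symm)
  have hK : Odd 3 := by decide
  refine limLP_cl hB hCL hTor hp hK ((Nat.coprime_primes Nat.prime_three hp).mpr (Ne.symm h3))
    (fun a _ => limLP_K hB hCL hTor hp hK fun {_} v _ => ?_) (fun l hl hlm => by
      rcases hm l hl hlm with rfl | rfl <;> norm_num)
  have e1 : (3 : ℕ).divisors.erase 1 = {3} := by decide
  rw [e1, sum_singleton]
  exact AddSubgroup.zsmul_mem _ (e3_mem hp h3) _

/-- the levels `2 ^ a * 5 ^ b` -/
theorem limLP_25 (hB : StBasic) (hCL : StCL) (hTor : StTor) (hp : p.Prime) {m : ℕ}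
    (hm : ∀ l : ℕ, l.Prime → l ∣ m → l = 2 ∨ l = 5) : LimLP m p := by
  refine limLP_of_cop fun hmp => ?_
  by_cases h5 : p = 5
  · exact limLP_two_pow hB hCL hTor hp fun l hl hlm => (hm l hl hlm).resolve_right
      fun h => ne_of_cop hp hmp hlm (h.trans h5.symm)
  have hK : Odd 5 := by decide
  refine limLP_cl hB hCL hTor hp hK ((Nat.coprime_primes Nat.prime_five hp).mpr (Ne.symm h5))
    (fun a _ => limLP_K hB hCL hTor hp hK fun {_} v _ => ?_) (fun l hl hlm => by
      rcases hm l hl hlm with rfl | rfl <;> norm_num)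
  have e1 : (5 : ℕ).divisors.erase 1 = {5} := by decide
  rw [e1, sum_singleton]
  exact AddSubgroup.zsmul_mem _ (e5_mem hp h5) _

end Cl

section Fifteen

variable {p : ℕ}

/-- the quadratic character modulo `15` -/
theorem odd15 {a c : ℕ} (hc : (p : ZMod 15) = c) (h : c = 1 ∨ c = 2 ∨ c = 4 ∨ c = 8) :
    OddF p (2 ^ a * 15) 15 (tabF 15 [0, 1, 1, 0, 1, 0, 0, -1, 1, 0, 0, -1, 0, -1, -1]) fun _ => 1 := by
  refine oddF_tab (c := c) (E := [(2, 1)]) ?_ hc ?_
  · rcases h with rfl | rfl | rfl | rfl <;> decide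
  · intro l hl hlM hlR
    rcases hl.dvd_mul.mp hlM with h4 | h4
    · have h5 : l = 2 := (Nat.prime_dvd_prime_iff_eq hl Nat.prime_two).mp (hl.dvd_of_dvd_pow h4)
      rw [h5]
      decide
    · exact absurd h4 hlR

theorem e15_of {c f : ℕ} (hp : p.Prime) (hp60 : (60 : ℕ).Coprime p) (hc : (p : ZMod 60) = c)
    {A B : List ℕ} (hck : ck 60 c f A B = true) (hO : oddO 60 (A ++ B) = [15]) :
    eR 15 ∈ VecG p hp := by
  have h := vec_ck (M := 60) hp (by norm_num) hp60 hck hc
  have h15 : rad 15 = 15 := rad_of_squarefree (sqf_of (by decide) (by norm_num))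
  rw [vecL_eq, hO, List.map_cons, List.map_nil, List.sum_cons, List.sum_nil, add_zero, h15] at h
  exact h

/-- the classes of `p` for which `15` occurs -/
theorem e15_mem (hp : p.Prime) (hp60 : (60 : ℕ).Coprime p)
    (h : p % 15 = 7 ∨ p % 15 = 11 ∨ p % 15 = 13) : eR 15 ∈ VecG p hp := by
  have h2 : p % 2 = 1 := by
    have h3 : p ≠ 2 := (ne_of_cop hp hp60 (by norm_num : 2 ∣ 60)).symm
    exact (hp.eq_two_or_odd).resolve_left h3
  have hc : (p : ZMod 60) = ((p % 60 : ℕ) : ZMod 60) := by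
    rw [ZMod.natCast_mod]
  have h5 : p % 60 = 7 ∨ p % 60 = 37 ∨ p % 60 = 11 ∨ p % 60 = 41 ∨ p % 60 = 13 ∨ p % 60 = 43 := by
    omega
  rcases h5 with h5 | h5 | h5 | h5 | h5 | h5 <;> rw [h5] at hc
  · exact e15_of (f := 4) (A := [1]) (B := [8]) hp hp60 hc (by decide) (by decide)
  · exact e15_of (f := 4) (A := [1]) (B := [8]) hp hp60 hc (by decide) (by decide)
  · exact e15_of (f := 2) (A := [3]) (B := [32]) hp hp60 hc (by decide) (by decide)
  · exact e15_of (f := 2) (A := [1, 1, 58]) (B := [1, 7, 52]) hp hp60 hc (by decide) (by decide)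
  · exact e15_of (f := 4) (A := [1]) (B := [8]) hp hp60 hc (by decide) (by decide)
  · exact e15_of (f := 4) (A := [1]) (B := [8]) hp hp60 hc (by decide) (by decide)

/-- **The levels `2 ^ a * 3 ^ b * 5 ^ c`.** -/
theorem limLP_235 (hB : StBasic) (hCL : StCL) (hTor : StTor) (hp : p.Prime) {m : ℕ}
    (hm : ∀ l : ℕ, l.Prime → l ∣ m → l = 2 ∨ l = 3 ∨ l = 5) : LimLP m p := by
  refine limLP_of_cop fun hmp => ?_
  by_cases h3 : p = 3
  · refine limLP_25 hB hCL hTor hp fun l hl hlm => ?_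
    rcases hm l hl hlm with h | h | h
    · exact Or.inl h
    · exact absurd (h.trans h3.symm) (ne_of_cop hp hmp hlm)
    · exact Or.inr h
  by_cases h5 : p = 5
  · refine limLP_23 hB hCL hTor hp fun l hl hlm => ?_
    rcases hm l hl hlm with h | h | h
    · exact Or.inl h
    · exact Or.inr h
    · exact absurd (h.trans h5.symm) (ne_of_cop hp hmp hlm)
  have hK : Odd 15 := by decide
  have hsq : Squarefree 15 := sqf_of (by decide) (by norm_num)
  have h15p : (15 : ℕ).Coprime p := by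
    rw [show (15 : ℕ) = 3 * 5 by norm_num]
    exact Nat.Coprime.mul_left ((Nat.coprime_primes Nat.prime_three hp).mpr (Ne.symm h3))
      ((Nat.coprime_primes Nat.prime_five hp).mpr (Ne.symm h5))
  refine limLP_cl hB hCL hTor hp hK h15p
    (fun a _ => limLP_K hB hCL hTor hp hK fun {_} v hv => ?_) (fun l hl hlm => by
      rcases hm l hl hlm with rfl | rfl | rfl <;> norm_num)
  have e1 : (15 : ℕ).divisors.erase 1 = {3, 5, 15} := by decide
  rw [e1, sum_insert (by decide), sum_insert (by decide), sum_singleton]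
  refine add_mem (AddSubgroup.zsmul_mem _ (e3_mem hp h3) _)
    (add_mem (AddSubgroup.zsmul_mem _ (e5_mem hp h5) _) ?_)
  have hc : (p : ZMod 15) = ((p % 15 : ℕ) : ZMod 15) := by
    rw [ZMod.natCast_mod]
  have h6 : p % 3 ≠ 0 := fun h => h3 (((Nat.prime_dvd_prime_iff_eq Nat.prime_three hp).mp
    (Nat.dvd_of_mod_eq_zero h)).symm)
  have h7 : p % 5 ≠ 0 := fun h => h5 (((Nat.prime_dvd_prime_iff_eq Nat.prime_five hp).mp
    (Nat.dvd_of_mod_eq_zero h)).symm)
  have h8 : (p % 15 = 1 ∨ p % 15 = 2 ∨ p % 15 = 4 ∨ p % 15 = 8) ∨ p % 15 = 14 ∨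
      (p % 15 = 7 ∨ p % 15 = 11 ∨ p % 15 = 13) := by omega
  rcases h8 with h8 | h8 | h8
  · exact even_smul_mem hp (rel_one hTor hsq hK dvd_rfl (odd15 hc h8) hv) 15
  · exact AddSubgroup.zsmul_mem _ (eR_pure hp (i := 1) (by
      rw [pow_one]
      omega)) _
  · have h2 : p ≠ 2 := by
      rintro rfl
      omega
    have h60 : (60 : ℕ).Coprime p := by
      rw [show (60 : ℕ) = 2 ^ 2 * 15 by norm_num]
      exact Nat.Coprime.mul_left (((Nat.coprime_primes Nat.prime_two hp).mpr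
        (Ne.symm h2)).pow_left 2) h15p
    exact AddSubgroup.zsmul_mem _ (e15_mem hp h60 h8) _

end Fifteen

/-- the relation when all new primes are `≡ 3` modulo `4` -/
theorem fam_three {R₀ K₀ : ℕ} (h : ∀ l : ℕ, l.Prime → l ∣ K₀ → l % 4 = 1 → l ∣ R₀) :
    Fam R₀ K₀ = K₀.divisors.filter fun R => R₀ ∣ R := by
  unfold Fam
  refine Finset.filter_congr fun R _ => ?_
  constructor
  · exact fun h1 => h1.1
  · exact fun h1 => ⟨h1, fun l hl h4 => (h l (Nat.prime_of_mem_primeFactors hl)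
      (Nat.dvd_of_mem_primeFactors hl) h4).trans h1⟩

theorem prime_dvd_two {l a b : ℕ} (hl : l.Prime) (ha : a.Prime) (hb : b.Prime) (h : l ∣ a * b) :
    l = a ∨ l = b := by
  rcases hl.dvd_mul.mp h with h | h
  · exact Or.inl ((Nat.prime_dvd_prime_iff_eq hl ha).mp h)
  · exact Or.inr ((Nat.prime_dvd_prime_iff_eq hl hb).mp h)

section TwentyOne

variable {p : ℕ}

/-- the quadratic character modulo `7` -/
theorem odd7 {a c : ℕ} (hc : (p : ZMod 7) = c) (h : c = 1 ∨ c = 2 ∨ c = 4) :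
    OddF p (2 ^ a * 21) 7 (tabF 7 [0, 1, 1, -1, 1, -1, -1]) fun l => if l = 3 then -1 else 1 := by
  refine oddF_tab (c := c) (E := [(2, 1), (3, -1)]) ?_ hc ?_
  · rcases h with rfl | rfl | rfl <;> decide
  · intro l hl hlM hlR
    rcases hl.dvd_mul.mp hlM with h4 | h4
    · have h5 : l = 2 := (Nat.prime_dvd_prime_iff_eq hl Nat.prime_two).mp (hl.dvd_of_dvd_pow h4)
      rw [h5]
      decide
    · rcases prime_dvd_two (a := 3) (b := 7) hl (by norm_num) (by norm_num) h4 with h5 | h5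
      · rw [h5]
        decide
      · exact absurd (dvd_of_eq h5) hlR

/-- **The levels `2 ^ a * 3 ^ b * 7 ^ c`.** -/
theorem limLP_237 (hB : StBasic) (hCL : StCL) (hTor : StTor) (hp : p.Prime) {m : ℕ}
    (hm : ∀ l : ℕ, l.Prime → l ∣ m → l = 2 ∨ l = 3 ∨ l = 7) : LimLP m p := by
  refine limLP_of_cop fun hmp => ?_
  obtain h7' : Nat.Prime 7 := by norm_num
  by_cases h3 : p = 3
  · refine limLP_prime hB hCL hTor hp h7' (by norm_num) ?_ fun l hl hlm => ?_
    · have h1 : orderOf (2 : ZMod 7) = 3 := orderOf_eq_prime (by decide) (by decide)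
      rw [h1]
      decide
    · rcases hm l hl hlm with h | h | h
      · exact Or.inl h
      · exact absurd (h.trans h3.symm) (ne_of_cop hp hmp hlm)
      · exact Or.inr h
  by_cases h7 : p = 7
  · refine limLP_23 hB hCL hTor hp fun l hl hlm => ?_
    rcases hm l hl hlm with h | h | h
    · exact Or.inl h
    · exact Or.inr h
    · exact absurd (h.trans h7.symm) (ne_of_cop hp hmp hlm)
  have hK : Odd 21 := by decide
  have hsq : Squarefree 21 := sqf_of (by decide) (by norm_num)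
  have h21p : (21 : ℕ).Coprime p := by
    rw [show (21 : ℕ) = 3 * 7 by norm_num]
    exact Nat.Coprime.mul_left ((Nat.coprime_primes Nat.prime_three hp).mpr (Ne.symm h3))
      ((Nat.coprime_primes h7' hp).mpr (Ne.symm h7))
  refine limLP_cl hB hCL hTor hp hK h21p
    (fun a _ => limLP_K hB hCL hTor hp hK fun {_} v hv => ?_) (fun l hl hlm => by
      rcases hm l hl hlm with rfl | rfl | rfl <;> norm_num)
  have e1 : (21 : ℕ).divisors.erase 1 = {3, 7, 21} := by decide
  rw [e1, sum_insert (by decide), sum_insert (by decide), sum_singleton]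
  refine add_mem (AddSubgroup.zsmul_mem _ (e3_mem hp h3) _) ?_
  have e7 := e7_21_mem hp h3 h7
  have hc : (p : ZMod 7) = ((p % 7 : ℕ) : ZMod 7) := by
    rw [ZMod.natCast_mod]
  have h6 : p % 7 ≠ 0 := fun h => h7 (((Nat.prime_dvd_prime_iff_eq h7' hp).mp
    (Nat.dvd_of_mod_eq_zero h)).symm)
  have h8 : (p % 7 = 1 ∨ p % 7 = 2 ∨ p % 7 = 4) ∨ ∃ i : ℕ, 7 ∣ p ^ i + 1 := by
    have h9 : (p % 7 = 1 ∨ p % 7 = 2 ∨ p % 7 = 4) ∨ (p % 7 = 3 ∨ p % 7 = 5 ∨ p % 7 = 6) := by omega
    refine h9.imp_right fun h9 => ⟨3, ?_⟩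
    have h10 : (p ^ 3 + 1) % 7 = ((p % 7) ^ 3 + 1) % 7 := by
      rw [Nat.add_mod, Nat.pow_mod, ← Nat.add_mod]
    rw [Nat.dvd_iff_mod_eq_zero, h10]
    rcases h9 with h9 | h9 | h9 <;> rw [h9] <;> norm_num
  have key : ∀ x y : ℤ, Even (x + y) → x • eR 7 + y • eR 21 ∈ VecG p hp := by
    intro x y hxy
    have h9 : x • eR 7 + y • eR 21 = x • (eR 7 + eR 21) + (y - x) • eR 21 := by
      rw [smul_add, sub_smul]
      abel
    rw [h9]
    refine add_mem (AddSubgroup.zsmul_mem _ e7 _) (even_smul_mem hp ?_ 21)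
    have h10 : y - x = x + y - 2 * x := by ring
    rw [h10]
    exact hxy.sub (even_two_mul x)
  rcases h8 with h8 | ⟨i, h8⟩
  · have h9 := rel_K hTor hsq hK (K := 21) dvd_rfl (odd7 hc h8) (fun l hl h1 h2 _ => by
      rcases hl.dvd_mul.mp h1 with h | h
      · rw [(Nat.prime_dvd_prime_iff_eq hl Nat.prime_two).mp h]
        rfl
      · exact absurd h h2) (fun l hl h1 h2 => by
      rcases prime_dvd_two (a := 3) (b := 7) hl (by norm_num) (by norm_num) h1 with h5 | h5
      · rw [h5]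
        rfl
      · exact absurd (dvd_of_eq h5) h2) hv
    have e2 : Fam 7 21 = {7, 21} := by
      rw [fam_three]
      · decide
      · intro l hl h1 h2
        rcases prime_dvd_two (a := 3) (b := 7) hl (by norm_num) (by norm_num) h1 with h5 | h5
        · omega
        · omega
    rw [e2, sum_insert (by decide), sum_singleton] at h9
    exact key _ _ h9
  · have e7' := eR_pure hp h8
    have e21 : eR 21 ∈ VecG p hp := by
      have h9 := sub_mem e7 e7'
      rwa [add_sub_cancel_left] at h9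
    exact add_mem (AddSubgroup.zsmul_mem _ e7' _) (AddSubgroup.zsmul_mem _ e21 _)

end TwentyOne

end Pool.Agent.Lib.MP81632f.Lv
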