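import Pool.Agent.Lib.MP_81632f_ag.Lv.OddE

/-!
# Levels: families of levels with the lattice property
-/

set_option autoImplicit false

noncomputable section

namespace Pool.Agent.Lib.MP81632f.Lv

open Finset
open Pool.Agent.Lib.MP81632f.Diag
open Crit Two Push TP
open Red (ev)

section Sub

variable {p M R₀ : ℕ} [NeZero R₀]

open Classical in
/-- existence of the odd functions from a subgroup which does not contain `-1` -/
theorem exists_oddF_sub (hR : Squarefree R₀) {ε : ℕ → ℤ} (H : Subgroup (ZMod R₀)ˣ)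
    (hneg : -1 ∉ H) (hp : ∃ u ∈ H, (u : ZMod R₀) = p)
    (hl : ∀ l : ℕ, l.Prime → l ∣ M → ¬ l ∣ R₀ → (∃ u ∈ H, (u : ZMod R₀) = l ∧ ε l = 1) ∨
      ∃ u, -u ∈ H ∧ (u : ZMod R₀) = l ∧ ε l = -1)
    (hprim : ∀ l : ℕ, l.Prime → l ∣ R₀ → ∃ u : (ZMod R₀)ˣ, -u ∈ H ∧ (l : ZMod R₀) * u = l) :
    ∃ F, OddF p M R₀ F ε := by
  have hnot : ∀ x, -x ∈ H → x ∉ H := by
    intro x h1 h2
    have h3 := H.mul_mem h1 (H.inv_mem h2)
    rw [neg_mul, mul_inv_cancel] at h3
    exact hneg h3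
  let H' : Subgroup (ZMod R₀)ˣ :=
    { carrier := {x | x ∈ H ∨ -x ∈ H}
      one_mem' := Or.inl H.one_mem
      mul_mem' := by
        rintro x y (hx | hx) (hy | hy)
        · exact Or.inl (H.mul_mem hx hy)
        · right
          rw [← mul_neg]
          exact H.mul_mem hx hy
        · right
          rw [← neg_mul]
          exact H.mul_mem hx hy
        · left
          rw [← neg_mul_neg]
          exact H.mul_mem hx hy
      inv_mem' := by
        rintro x (hx | hx)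
        · exact Or.inl (H.inv_mem hx)
        · right
          rw [← inv_neg]
          exact H.inv_mem hx }
  have hmem : ∀ x, x ∈ H' ↔ x ∈ H ∨ -x ∈ H := fun x => Iff.rfl
  let χ : (ZMod R₀)ˣ → ℤ := fun x => if x ∈ H then 1 else -1
  have hχ1 : ∀ x ∈ H, χ x = 1 := fun x hx => if_pos hx
  have hχ2 : ∀ x, -x ∈ H → χ x = -1 := fun x hx => if_neg (hnot x hx)
  refine ⟨ofChar H' χ, exists_oddF hR H' χ ?_ ?_ ?_ ?_ ?_ ?_ ?_⟩
  · intro x hx y hy
    rw [hmem] at hx hy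
    rcases hx with hx | hx <;> rcases hy with hy | hy
    · rw [hχ1 _ (H.mul_mem hx hy), hχ1 x hx, hχ1 y hy, one_mul]
    · rw [hχ2 (x * y) (by rw [← mul_neg]; exact H.mul_mem hx hy), hχ1 x hx, hχ2 y hy, one_mul]
    · rw [hχ2 (x * y) (by rw [← neg_mul]; exact H.mul_mem hx hy), hχ2 x hx, hχ1 y hy, mul_one]
    · rw [hχ1 (x * y) (by rw [← neg_mul_neg]; exact H.mul_mem hx hy), hχ2 x hx, hχ2 y hy]
      norm_num
  · intro x hx
    rw [hmem] at hx
    rcases hx with hx | hx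
    · exact Or.inl (hχ1 x hx)
    · exact Or.inr (hχ2 x hx)
  · rw [hmem, neg_neg]
    exact Or.inr H.one_mem
  · exact hχ2 (-1) (by rw [neg_neg]; exact H.one_mem)
  · obtain ⟨u, hu, e1⟩ := hp
    exact ⟨u, Or.inl hu, e1, hχ1 u hu⟩
  · intro l hlp hlM hlR
    rcases hl l hlp hlM hlR with ⟨u, hu, e1, e2⟩ | ⟨u, hu, e1, e2⟩
    · exact ⟨u, Or.inl hu, e1, by rw [hχ1 u hu, e2]⟩
    · exact ⟨u, Or.inr hu, e1, by rw [hχ2 u hu, e2]⟩
  · intro l hlp hlR
    obtain ⟨u, hu, e1⟩ := hprim l hlp hlR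
    exact ⟨u, Or.inr hu, hχ2 u hu, e1⟩

end Sub

section RelK

variable {p a K₀ R₀ : ℕ}

/-- the relation at the level `2 ^ a * K₀` -/
theorem rel_K (hTor : StTor) (hsq : Squarefree K₀) (hodd : Odd K₀) {K : ℕ} (hK : K ∣ K₀)
    {F : ZMod R₀ → ℤ} {ε : ℕ → ℤ} (hF : OddF p (2 ^ a * K₀) R₀ F ε)
    (h1 : ∀ l : ℕ, l.Prime → l ∣ 2 * K₀ → ¬ l ∣ K → ¬ l ∣ R₀ → ε l = 1)
    (h2 : ∀ l : ℕ, l.Prime → l ∣ K → ¬ l ∣ R₀ → ε l = -1) [NeZero (2 ^ a * K₀)]
    {v : ZMod (2 ^ a * K₀) → ℤ} (hv : Bal (2 ^ a * K₀) p v) :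
    Even (∑ R ∈ Fam R₀ K, nR (2 ^ a * K₀) R v) := by
  have hK1 : Odd K := hodd.of_dvd_nat hK
  have hcop : K.Coprime (K₀ / K) := by
    obtain ⟨t, ht⟩ := hK
    rw [ht, Nat.mul_div_cancel_left _ hK1.pos]
    rw [ht] at hsq
    exact Nat.coprime_of_squarefree_mul hsq
  have e1 : 2 ^ a * K₀ = K * (2 ^ a * (K₀ / K)) := by
    obtain ⟨t, ht⟩ := hK
    rw [ht, Nat.mul_div_cancel_left _ hK1.pos]
    ring
  have h3 := rel_std (K := K) (L := 2 ^ a * (K₀ / K)) hTor e1 hK1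
    (Nat.Coprime.mul_right (Nat.Coprime.pow_right a (Nat.coprime_two_right.mpr hK1)) hcop) hF
    (fun l hl hlL hlR => ?_) (fun l hl hlK hlR => h2 l hl hlK hlR) hv
  · rwa [rad_of_squarefree (hsq.squarefree_of_dvd hK)] at h3
  · refine h1 l hl ?_ ?_ hlR
    · rcases hl.dvd_mul.mp hlL with h4 | h4
      · exact (hl.dvd_of_dvd_pow h4).mul_right _
      · exact (h4.trans (Nat.div_dvd_of_dvd hK)).mul_left _
    · intro h5
      rcases hl.dvd_mul.mp hlL with h4 | h4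
      · have h6 : l = 2 := (Nat.prime_dvd_prime_iff_eq hl Nat.prime_two).mp (hl.dvd_of_dvd_pow h4)
        rw [h6] at h5
        have h7 := hK1.of_dvd_nat h5
        exact absurd h7 (by decide)
      · have h6 := Nat.dvd_gcd h5 h4
        rw [hcop] at h6
        exact hl.one_lt.ne' (Nat.dvd_one.mp h6)

/-- the relation when all new primes have `ε = 1` -/
theorem rel_one (hTor : StTor) (hsq : Squarefree K₀) (hodd : Odd K₀) (hR : R₀ ∣ K₀)
    {F : ZMod R₀ → ℤ} (hF : OddF p (2 ^ a * K₀) R₀ F fun _ => 1) [NeZero (2 ^ a * K₀)]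
    {v : ZMod (2 ^ a * K₀) → ℤ} (hv : Bal (2 ^ a * K₀) p v) : Even (nR (2 ^ a * K₀) R₀ v) := by
  have h1 := rel_K hTor hsq hodd hR hF (fun _ _ _ _ _ => rfl)
    (fun l _ h3 h4 => absurd h3 h4) hv
  have h2 : Fam R₀ R₀ = {R₀} := by
    have hR0 : R₀ ≠ 0 := (hodd.of_dvd_nat hR).pos.ne'
    unfold Fam
    ext R
    rw [mem_filter, mem_singleton, Nat.mem_divisors]
    constructor
    · rintro ⟨⟨h3, -⟩, h4, -⟩
      exact Nat.dvd_antisymm h3 h4
    · rintro rfl
      exact ⟨⟨dvd_rfl, hR0⟩, dvd_rfl, fun l hl _ => Nat.dvd_of_mem_primeFactors hl⟩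
  rwa [h2, sum_singleton] at h1

end RelK

/-! ### One odd prime -/

section OnePrime

variable {p r : ℕ}

/-- the elements of odd order -/
def oddSub (r : ℕ) [NeZero r] : Subgroup (ZMod r)ˣ where
  carrier := {x | Odd (orderOf x)}
  one_mem' := by
    change Odd (orderOf (1 : (ZMod r)ˣ))
    rw [orderOf_one]
    exact odd_one
  mul_mem' := by
    intro x y hx hy
    have h1 : orderOf (x * y) ∣ orderOf x * orderOf y := (Commute.all x y).orderOf_mul_dvd_mul_orderOf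
    exact (Odd.mul hx hy).of_dvd_nat h1
  inv_mem' := by
    intro x hx
    change Odd (orderOf x⁻¹)
    rw [orderOf_inv]
    exact hx

theorem neg_not_odd (r : ℕ) [NeZero r] (hr : 2 < r) : -1 ∉ oddSub r := by
  intro h
  change Odd (orderOf (-1 : (ZMod r)ˣ)) at h
  have h1 : (-1 : (ZMod r)ˣ) ^ 2 = 1 := by rw [neg_one_sq]
  have h2 := orderOf_dvd_of_pow_eq_one h1
  rcases (Nat.dvd_prime Nat.prime_two).mp h2 with h3 | h3
  · rw [orderOf_eq_one_iff] at h3
    have h4 : ((-1 : (ZMod r)ˣ) : ZMod r) = 1 := by rw [h3, Units.val_one]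
    rw [Units.val_neg, Units.val_one] at h4
    have h5 : ((2 : ℕ) : ZMod r) = 0 := by
      rw [Nat.cast_two, ← one_add_one_eq_two]
      nth_rewrite 1 [← h4]
      ring
    rw [ZMod.natCast_eq_zero_iff] at h5
    have := Nat.le_of_dvd (by norm_num) h5
    omega
  · rw [h3] at h
    exact absurd h (by decide)

/-- the parity for one prime -/
theorem rel_prime (hTor : StTor) {a K₀ : ℕ} (hsq : Squarefree K₀) (hodd : Odd K₀) (hr : r.Prime)
    (hrK : r ∣ K₀) (hpr : Odd (orderOf (p : ZMod r)))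
    (h : ∀ l : ℕ, l.Prime → l ∣ 2 ^ a * K₀ → l ≠ r → Odd (orderOf (l : ZMod r)))
    [NeZero (2 ^ a * K₀)] {v : ZMod (2 ^ a * K₀) → ℤ} (hv : Bal (2 ^ a * K₀) p v) :
    Even (nR (2 ^ a * K₀) r v) := by
  have : NeZero r := ⟨hr.ne_zero⟩
  have hr2 : 2 < r := by
    have h1 : Odd r := hodd.of_dvd_nat hrK
    have h2 := hr.two_le
    obtain ⟨t, ht⟩ := h1
    omega
  have hun : ∀ n : ℕ, Odd (orderOf (n : ZMod r)) → ∃ u ∈ oddSub r, (u : ZMod r) = n := by
    intro n hn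
    have h1 : IsUnit (n : ZMod r) := by
      have h2 := pow_orderOf_eq_one (n : ZMod r)
      exact IsUnit.of_pow_eq_one h2 hn.pos.ne'
    obtain ⟨u, hu⟩ := h1
    refine ⟨u, ?_, hu⟩
    change Odd (orderOf u)
    rw [← orderOf_units, hu]
    exact hn
  obtain ⟨F, hF⟩ := exists_oddF_sub (p := p) (M := 2 ^ a * K₀) (R₀ := r) (ε := fun _ => 1)
    hr.squarefree (oddSub r) (neg_not_odd r hr2) (hun p hpr)
    (fun l hl hlM hlr => Or.inl (by
      obtain ⟨u, hu, e1⟩ := hun l (h l hl hlM fun h1 => hlr (by rw [h1]))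
      exact ⟨u, hu, e1, rfl⟩))
    (fun l hl hlr => by
      have h1 : l = r := (Nat.prime_dvd_prime_iff_eq hl hr).mp hlr
      refine ⟨-1, by rw [neg_neg]; exact one_mem _, ?_⟩
      rw [h1, ZMod.natCast_self, zero_mul])
  exact rel_one hTor hsq hodd hrK hF hv

/-- in the group of a prime, `-1` is a power of every element of even order -/
theorem neg_pow_of_even (hr : r.Prime) (hpr : p.Coprime r) (h : ¬ Odd (orderOf (p : ZMod r))) :
    ∃ i : ℕ, r ∣ p ^ i + 1 := by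
  have : Fact r.Prime := ⟨hr⟩
  have hp0 : (p : ZMod r) ≠ 0 := by
    rw [Ne, ZMod.natCast_eq_zero_iff]
    intro h1
    have h2 := Nat.dvd_gcd h1 dvd_rfl
    rw [hpr] at h2
    exact hr.one_lt.ne' (Nat.dvd_one.mp h2)
  rw [Nat.not_odd_iff_even] at h
  obtain ⟨k, hk⟩ := h
  have hfin : 0 < orderOf (p : ZMod r) := by
    have h1 : (p : ZMod r) ^ (r - 1) = 1 := ZMod.pow_card_sub_one_eq_one hp0
    exact orderOf_pos_iff.mpr (isOfFinOrder_iff_pow_eq_one.mpr ⟨r - 1, by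
      have := hr.two_le
      omega, h1⟩)
  refine ⟨k, ?_⟩
  rw [← ZMod.natCast_eq_zero_iff]
  push_cast
  have h1 : (p : ZMod r) ^ k * (p : ZMod r) ^ k = 1 := by
    rw [← pow_add, ← hk, pow_orderOf_eq_one]
  rcases mul_self_eq_one_iff.mp h1 with h2 | h2
  · exfalso
    have h3 := orderOf_dvd_of_pow_eq_one h2
    have h4 := Nat.le_of_dvd (by omega) h3
    omega
  · rw [h2]
    ring

/-- **The levels `2 ^ a * r ^ b`, `2` of odd order modulo `r`.** -/
theorem limLP_prime (hB : StBasic) (hCL : StCL) (hTor : StTor) (hp : p.Prime) (hr : r.Prime)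
    (hr2 : r ≠ 2) (h2 : Odd (orderOf (2 : ZMod r))) {m : ℕ}
    (hm : ∀ l : ℕ, l.Prime → l ∣ m → l = 2 ∨ l = r) : LimLP m p := by
  intro hm0 v hv
  have hrodd : Odd r := hr.odd_of_ne_two hr2
  by_cases hpr : p = r
  · have hmp : m.Coprime p := by
      obtain ⟨-, f, hf, hpf, -⟩ := hv
      exact coprime_of_pow hf hpf
    refine limLP_two_pow hB hCL hTor hp (fun l hl hlm => (hm l hl hlm).resolve_right ?_) v hv
    rintro rfl
    have h3 := Nat.dvd_gcd hlm (dvd_of_eq hpr.symm)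
    rw [hmp] at h3
    exact hl.one_lt.ne' (Nat.dvd_one.mp h3)
  have hrp : r.Coprime p := (Nat.coprime_primes hr hp).mpr (Ne.symm hpr)
  refine limLP_cl hB hCL hTor hp hrodd hrp (fun a _ => ?_) (fun l hl hlm => by
    rcases hm l hl hlm with h3 | h3
    · rw [h3]
      exact dvd_mul_right _ _
    · rw [h3]
      exact dvd_mul_left _ _) v hv
  clear hv v
  refine limLP_K hB hCL hTor hp hrodd fun {_} v hv => ?_
  have h3 : r.divisors.erase 1 = {r} := by
    rw [hr.divisors, Finset.erase_insert]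
    rw [mem_singleton]
    exact hr.one_lt.ne
  rw [h3, sum_singleton]
  by_cases hpo : Odd (orderOf (p : ZMod r))
  · refine even_smul_mem hp (rel_prime hTor hr.squarefree hrodd hr dvd_rfl hpo ?_ hv) r
    intro l hl hlm hlr
    rcases hl.dvd_mul.mp hlm with h4 | h4
    · have h5 : l = 2 := (Nat.prime_dvd_prime_iff_eq hl Nat.prime_two).mp (hl.dvd_of_dvd_pow h4)
      rw [h5, Nat.cast_two]
      exact h2
    · exact absurd ((Nat.prime_dvd_prime_iff_eq hl hr).mp h4) hlr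
  · obtain ⟨i, hi⟩ := neg_pow_of_even hr hrp.symm hpo
    exact AddSubgroup.zsmul_mem _ (eR_pure hp hi) _

end OnePrime

end Pool.Agent.Lib.MP81632f.Lv
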