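import Pool.Agent.Lib.MP_81632f_ag.Lv.Lim2
import Pool.Agent.Lib.MP_81632f_ag.Lv.StmtsF
import Pool.Agent.Lib.MP_81632f_ag.Diag.TateFam
import Pool.Agent.Lib.MP_81632f_ag.Diag.Final

/-!
# Levels: the lift of a Tate set to a finite extension
-/

set_option autoImplicit false

noncomputable section

namespace Pool.Agent.Lib.MP81632f.Lv

open Finset
open Pool.Agent.Lib.MP81632f.Diag
open Crit Two Push TP
open Red (ev)

/-- the lift of `s` to some finite extension belongs to every cycle family -/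
def PotAlg (F : Type) [Field F] (s : Multiset (MulChar F ℂ)) : Prop :=
  ∃ (E : Type) (_ : Field E) (_ : Fintype E) (_ : Algebra F E), ∀ ψ : AddChar E ℂ, ψ ≠ 1 →
    ∀ 𝒜 : Set (Multiset (MulChar E ℂ)), IsCycleFamily ψ 𝒜 → s.map (normChar F E) ∈ 𝒜

section

variable {p : ℕ} [Fact p.Prime] {F : Type} [Field F] [Fintype F] [CharP F p]

theorem potAlg_zero : PotAlg F 0 :=
  ⟨F, inferInstance, inferInstance, inferInstance, fun ψ _ 𝒜 h => by
    rw [Multiset.map_zero]; exact h.zero⟩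

/-- from the lattice to the cycle families -/
theorem potAlg_of (hB : StBasic) (hC : StClose) (hE : StExt) (hCh : StChar) {M : ℕ} [NeZero M]
    (θ : MulChar F ℂ) (hθ : orderOf θ = M) {X : Multiset (ZMod M)} (h0 : 0 ∉ X)
    (hX : LimP M p (cnt X)) (he : Even (Multiset.card X)) :
    PotAlg F (X.map fun x => θ ^ x.val) := by
  obtain ⟨N, hN0, hN1, hNp, hMN, hN⟩ := hX
  obtain ⟨E, iE, iE', iA, hdvd⟩ := hE p F N hNp
  refine ⟨E, iE, iE', iA, fun ψ hψ 𝒜 h𝒜 => ?_⟩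
  have : CharP E p := charP_of_injective_algebraMap (algebraMap F E).injective p
  obtain ⟨θ', hθ', hθ1⟩ := hCh F E M N hMN hdvd θ hθ
  obtain ⟨n, -, hcard⟩ := FiniteField.card E p
  obtain ⟨f, hf⟩ := n
  change Fintype.card E = p ^ f at hcard
  have hq : 1 < Fintype.card E := Fintype.one_lt_card
  have hpf : (p : ZMod N) ^ f = 1 := by
    have h1 : ((Fintype.card E - 1 : ℕ) : ZMod N) = 0 := (ZMod.natCast_eq_zero_iff _ _).mpr hdvd
    rw [Nat.cast_sub hq.le, hcard, Nat.cast_pow, Nat.cast_one, sub_eq_zero] at h1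
    exact h1
  have e1 : (X.map fun x => θ ^ x.val).map (normChar F E) =
      (X.map (inc N M)).map fun x => θ' ^ x.val := by
    rw [Multiset.map_map, Multiset.map_map]
    exact Multiset.map_congr rfl fun x _ => hθ1 x
  rw [e1]
  refine hC p E f hcard N θ' hθ' ψ hψ 𝒜 h𝒜 (X.map (inc N M)) ?_ ?_
  · intro h
    rw [Multiset.mem_map] at h
    obtain ⟨x, hx, h1⟩ := h
    have hx0 : x ≠ 0 := fun h2 => h0 (h2 ▸ hx)
    exact inc_ne hMN hx0 h1
  · rw [← push_cnt]
    refine ws_even hB hN1 hf hpf (hN f hf hpf) ?_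
    rw [tot_push]
    change Even (∑ x, cnt X x)
    rw [Basic.sum_cnt]
    exact_mod_cast he

/-- characters as powers -/
theorem exists_bal (hT : StTrans) {ψ : AddChar F ℂ} (hψ : ψ ≠ 1) {s : Multiset (MulChar F ℂ)}
    (hs : IsTateSet ψ s) (f : ℕ) (hcard : Fintype.card F = p ^ f)
    [NeZero (Fintype.card F - 1)] :
    ∃ (θ : MulChar F ℂ) (X : Multiset (ZMod (Fintype.card F - 1))),
      orderOf θ = Fintype.card F - 1 ∧ s = X.map (fun x => θ ^ x.val) ∧ 0 ∉ X ∧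
      (p : ZMod (Fintype.card F - 1)) ^ f = 1 ∧
      ∀ t : (ZMod (Fintype.card F - 1))ˣ, pair (Fintype.card F - 1) p f t (cnt X) = 0 := by
  obtain ⟨θ, hθ, hgen⟩ := Final.exists_gen (F := F)
  obtain ⟨X, hX'⟩ := Final.exists_map (Fintype.card F - 1) θ hθ s fun χ _ => hgen χ
  have hq : 1 < Fintype.card F := Fintype.one_lt_card
  have h0 : (0 : ZMod (Fintype.card F - 1)) ∉ X := by
    intro h0
    apply hs.1 1 _ rfl
    rw [hX', Multiset.mem_map]
    exact ⟨0, h0, by rw [ZMod.val_zero, pow_zero]⟩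
  refine ⟨θ, X, hθ, hX', h0, ?_, fun t => ?_⟩
  · have h1 : ((Fintype.card F - 1 + 1 : ℕ) : ZMod (Fintype.card F - 1)) = 1 := by
      rw [Nat.cast_add, ZMod.natCast_self, zero_add, Nat.cast_one]
    rw [← Nat.cast_pow, ← hcard]
    rw [Nat.sub_add_cancel hq.le] at h1
    exact h1
  · have hb : BalM (Fintype.card F - 1) p f X :=
      hT p F f hcard _ θ hθ ψ hψ X (by rw [← hX']; exact hs)
    change ∑ x, cnt X x * saw (Fintype.card F - 1) p f t x = 0
    rw [Basic.sum_cnt_mul]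
    exact hb t

theorem empty_of_two {ψ : AddChar F ℂ} {s : Multiset (MulChar F ℂ)} (hs : IsTateSet ψ s)
    (hM1 : Fintype.card F - 1 = 1) : s = 0 := by
  rw [Multiset.eq_zero_iff_forall_notMem]
  intro χ hχ
  obtain ⟨θ, hθ, hgen⟩ := Final.exists_gen (F := F)
  rw [hM1, orderOf_eq_one_iff] at hθ
  obtain ⟨k, hk⟩ := hgen χ
  exact hs.1 χ hχ (by rw [hk, hθ, one_pow])

variable (p) in
include p in
/-- **The squares of the Tate sets.** -/
theorem potAlg_two (hB : StBasic) (hCL : StCL) (hTor : StTor) (hT : StTrans) (hC : StClose)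
    (hE : StExt) (hCh : StChar) {ψ : AddChar F ℂ} (hψ : ψ ≠ 1) {s : Multiset (MulChar F ℂ)}
    (hs : IsTateSet ψ s) : PotAlg F (s + s) := by
  obtain ⟨n, -, hcard⟩ := FiniteField.card F p
  obtain ⟨f, hf⟩ := n
  change Fintype.card F = p ^ f at hcard
  have hq : 1 < Fintype.card F := Fintype.one_lt_card
  have : NeZero (Fintype.card F - 1) := ⟨by omega⟩
  by_cases hM1 : Fintype.card F - 1 = 1
  · rw [empty_of_two hs hM1, add_zero]
    exact potAlg_zero
  obtain ⟨θ, X, hθ, rfl, h0, hpf, hb⟩ := exists_bal hT hψ hs f hcard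
  rw [← Multiset.map_add]
  refine potAlg_of hB hC hE hCh θ hθ ?_ ?_ ?_
  · rw [Multiset.mem_add]
    exact fun h => h.elim h0 h0
  · rw [Basic.cnt_add, ← two_zsmul]
    exact limP_two hB hCL hTor Fact.out ⟨Basic.cnt_apply_zero h0, f, hf, hpf, hb⟩
  · rw [Multiset.card_add]
    exact ⟨_, rfl⟩

/-- **Several coprime degrees.** -/
theorem potAlg_multi (hB : StBasic) (hT : StTrans) (hC : StClose)
    (hE : StExt) (hCh : StChar) {ψ : AddChar F ℂ} (hψ : ψ ≠ 1) {s : Multiset (MulChar F ℂ)}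
    (hs : IsTateSet ψ s) (hev : Even (Multiset.card s)) (D : Finset ℕ)
    (hD : ∀ d ∈ D, d ∣ Fintype.card F - 1 ∧ LimLP d p)
    (hcop : ∀ d ∈ D, ∀ e ∈ D, d ≠ e → Nat.Coprime d e)
    (h : ∀ χ ∈ s, ∃ d ∈ D, χ ^ d = 1 ∨ (Odd d ∧ χ ^ (2 * d) = 1)) : PotAlg F s := by
  obtain ⟨n, -, hcard⟩ := FiniteField.card F p
  obtain ⟨f, hf⟩ := n
  change Fintype.card F = p ^ f at hcard
  have hq : 1 < Fintype.card F := Fintype.one_lt_card
  have : NeZero (Fintype.card F - 1) := ⟨by omega⟩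
  by_cases hM1 : Fintype.card F - 1 = 1
  · rw [empty_of_two hs hM1]
    exact potAlg_zero
  obtain ⟨θ, X, hθ, rfl, h0, hpf, hb⟩ := exists_bal hT hψ hs f hcard
  rw [Multiset.card_map] at hev
  refine potAlg_of hB hC hE hCh θ hθ h0 ?_ hev
  have hpow : ∀ (x : ZMod (Fintype.card F - 1)) (d : ℕ), (θ ^ x.val) ^ d = 1 → d • x = 0 := by
    intro x d hd
    rw [← pow_mul] at hd
    have h1 := orderOf_dvd_of_pow_eq_one hd
    rw [hθ] at h1
    have h2 := (ZMod.natCast_eq_zero_iff (x.val * d) (Fintype.card F - 1)).mpr h1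
    rw [Nat.cast_mul, ZMod.natCast_zmod_val, mul_comm, ← nsmul_eq_mul] at h2
    exact h2
  refine lim_multi hB Fact.out (by omega) hf hpf D hD hcop (Basic.cnt_apply_zero h0) ?_ hb
  intro x hx
  have hxX : x ∈ X := by
    by_contra hn
    apply hx
    change ((X.count x : ℕ) : ℤ) = 0
    rw [Multiset.count_eq_zero_of_notMem hn, Nat.cast_zero]
  obtain ⟨d, hd, h1 | ⟨h1, h2⟩⟩ := h _ (Multiset.mem_map_of_mem _ hxX)
  · exact ⟨d, hd, Or.inl (hpow x d h1)⟩
  · exact ⟨d, hd, Or.inr ⟨h1, hpow x (2 * d) h2⟩⟩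

variable (p) in
include p in
/-- the converse -/
theorem tate_of_potAlg (hK : StKron) (hDn : StDown) {ψ : AddChar F ℂ} (hψ : ψ ≠ 1)
    {s : Multiset (MulChar F ℂ)} (h : PotAlg F s) :
    IsTateSet ψ s ∧ Even (Multiset.card s) := by
  obtain ⟨E, iE, iE', iA, hE⟩ := h
  have : CharP E p := charP_of_injective_algebraMap (algebraMap F E).injective p
  obtain ⟨ψ', hψ'⟩ : ∃ ψ' : AddChar E ℂ, ψ' ≠ 1 := by
    obtain ⟨ψ', h1⟩ := (AddChar.exists_apply_ne_zero (a := (1 : E))).mpr one_ne_zero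
    refine ⟨ψ', fun h2 => h1 ?_⟩
    rw [h2, AddChar.one_apply]
  have h1 := hE ψ' hψ' _ (TateFam.family hK (p := p) hψ')
  refine ⟨hDn p F E ψ ψ' hψ hψ' s h1.1, ?_⟩
  have h2 : Even (Multiset.card (s.map (normChar F E))) := h1.2
  rwa [Multiset.card_map] at h2

omit [CharP F p] [Fact p.Prime] in
/-- a half of a Tate set -/
theorem tate_half {ψ : AddChar F ℂ} {s : Multiset (MulChar F ℂ)} (h : IsTateSet ψ (s + s)) :
    IsTateSet ψ s := by
  obtain ⟨h1, N, hN, h2⟩ := h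
  refine ⟨fun χ hχ => h1 χ (Multiset.mem_add.mpr (Or.inl hχ)), 2 * N, by omega, ?_⟩
  rw [Multiset.map_add, Multiset.prod_add, Multiset.card_add, ← two_mul, ← pow_two, ← pow_mul] at h2
  have e2 : 2 * N * Multiset.card s = N * (2 * Multiset.card s) := by ring
  rw [e2, ← h2]

end

end Pool.Agent.Lib.MP81632f.Lv
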