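import Pool.Agent.Lib.MP_81632f_ag.Lv.Stmts

/-!
# Levels: the universal group

`FQ` is the free abelian group on the rational numbers; `Rinf p` is the subgroup generated by the
relations of all levels prime to `p`, and `V p` the quotient.
-/

set_option autoImplicit false

noncomputable section

namespace Pool.Agent.Lib.MP81632f.Lv

open Finset

/-- the free abelian group on the rational numbers -/
abbrev FQ : Type := ℚ →₀ ℤ

/-- the generators -/
def br (x : ℚ) : FQ := Finsupp.single x 1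

/-- `x` is a rational number with denominator `m` -/
def IsLev (m : ℕ) (x : ℚ) : Prop := ∃ a : ℤ, x * m = a

/-- the relations of level `m` -/
inductive Rel (p m : ℕ) : FQ → Prop
  | per (x : ℚ) : IsLev m x → Rel p m (br (x + 1) - br x)
  | odd (x : ℚ) : IsLev m x → Rel p m (br (-x) + br x)
  | frob (x : ℚ) : IsLev m x → Rel p m (br (p * x) - br x)
  | dist (l n : ℕ) (x : ℚ) : l.Prime → l * n ∣ m → IsLev n x →
      Rel p m (∑ k ∈ range l, br ((x + k) / l) - br x)
  | pure (i n : ℕ) (x : ℚ) : n ∣ m → n ∣ p ^ i + 1 → IsLev n x → Rel p m (br x)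

/-- the group of the relations of level `m` -/
def R (p m : ℕ) : AddSubgroup FQ := AddSubgroup.closure {w | Rel p m w}

/-! ### Levels -/

theorem IsLev.mono {m n : ℕ} {x : ℚ} (h : IsLev m x) (hmn : m ∣ n) : IsLev n x := by
  obtain ⟨a, ha⟩ := h
  obtain ⟨c, rfl⟩ := hmn
  refine ⟨a * c, ?_⟩
  push_cast
  rw [← ha]
  ring

theorem IsLev.add {m : ℕ} {x y : ℚ} (hx : IsLev m x) (hy : IsLev m y) : IsLev m (x + y) := by
  obtain ⟨a, ha⟩ := hx
  obtain ⟨b, hb⟩ := hy
  exact ⟨a + b, by rw [add_mul, ha, hb, Int.cast_add]⟩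

theorem IsLev.neg {m : ℕ} {x : ℚ} (hx : IsLev m x) : IsLev m (-x) := by
  obtain ⟨a, ha⟩ := hx
  exact ⟨-a, by rw [neg_mul, ha, Int.cast_neg]⟩

theorem IsLev.sub {m : ℕ} {x y : ℚ} (hx : IsLev m x) (hy : IsLev m y) : IsLev m (x - y) := by
  rw [sub_eq_add_neg]
  exact hx.add hy.neg

theorem isLev_int (m : ℕ) (n : ℤ) : IsLev m n := ⟨n * m, by push_cast; ring⟩

theorem isLev_nat (m : ℕ) (n : ℕ) : IsLev m n := by exact_mod_cast isLev_int m n

theorem isLev_one_iff {x : ℚ} : IsLev 1 x ↔ ∃ a : ℤ, x = a := by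
  unfold IsLev
  simp

theorem IsLev.int_mul {m : ℕ} {x : ℚ} (hx : IsLev m x) (c : ℤ) : IsLev m (c * x) := by
  obtain ⟨a, ha⟩ := hx
  exact ⟨c * a, by rw [mul_assoc, ha, Int.cast_mul]⟩

theorem IsLev.nat_mul {m : ℕ} {x : ℚ} (hx : IsLev m x) (c : ℕ) : IsLev m (c * x) := by
  exact_mod_cast hx.int_mul c

theorem IsLev.add_int {m : ℕ} {x : ℚ} (hx : IsLev m x) (n : ℤ) : IsLev m (x + n) :=
  hx.add (isLev_int m n)

theorem IsLev.add_nat {m : ℕ} {x : ℚ} (hx : IsLev m x) (n : ℕ) : IsLev m (x + n) :=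
  hx.add (isLev_nat m n)

theorem IsLev.div {m l : ℕ} {x : ℚ} (hx : IsLev m x) (hl : l ≠ 0) : IsLev (l * m) (x / l) := by
  obtain ⟨a, ha⟩ := hx
  refine ⟨a, ?_⟩
  rw [← ha]
  have h : (l : ℚ) ≠ 0 := by exact_mod_cast hl
  push_cast
  field_simp

theorem isLev_div_self (a : ℤ) {l : ℕ} (hl : l ≠ 0) : IsLev l ((a : ℚ) / l) := by
  refine ⟨a, ?_⟩
  have h : (l : ℚ) ≠ 0 := by exact_mod_cast hl
  field_simp

/-! ### Homomorphisms from the free group -/

section Lift

variable {A : Type*} [AddCommGroup A]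

/-- the homomorphism given by a function -/
def lft (ψ : ℚ → A) : FQ →+ A := Finsupp.liftAddHom fun x => (zmultiplesHom A) (ψ x)

@[simp] theorem lft_br (ψ : ℚ → A) (x : ℚ) : lft ψ (br x) = ψ x := by
  unfold lft br
  simp

theorem lft_apply (ψ : ℚ → A) (w : FQ) : lft ψ w = w.sum fun x n => n • ψ x := by
  unfold lft
  rw [Finsupp.liftAddHom_apply]
  rfl

/-- two homomorphisms which agree on the generators of a closure -/
theorem lft_kill {p m : ℕ} (ψ : ℚ → A) (c : ℤ) (h : ∀ r, Rel p m r → c • lft ψ r = 0) {w : FQ}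
    (hw : w ∈ R p m) : c • lft ψ w = 0 := by
  unfold R at hw
  induction hw using AddSubgroup.closure_induction with
  | mem w hw => exact h w hw
  | zero => rw [map_zero, smul_zero]
  | add v w _ _ hv hw => rw [map_add, smul_add, hv, hw, add_zero]
  | neg v _ hv => rw [map_neg, smul_neg, hv, neg_zero]

end Lift

/-- the elements of level `m` -/
def LevF (m : ℕ) : AddSubgroup FQ := AddSubgroup.closure {w | ∃ x, IsLev m x ∧ w = br x}

theorem br_mem_levF {m : ℕ} {x : ℚ} (h : IsLev m x) : br x ∈ LevF m :=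
  AddSubgroup.subset_closure ⟨x, h, rfl⟩

theorem levF_mono {m n : ℕ} (h : m ∣ n) : LevF m ≤ LevF n := by
  unfold LevF
  rw [AddSubgroup.closure_le]
  rintro _ ⟨x, hx, rfl⟩
  exact br_mem_levF (hx.mono h)

/-- homomorphisms which agree on the elements of level `m` -/
theorem levF_ext {A : Type*} [AddCommGroup A] {m : ℕ} (F G : FQ →+ A)
    (h : ∀ x, IsLev m x → F (br x) = G (br x)) {w : FQ} (hw : w ∈ LevF m) : F w = G w := by
  unfold LevF at hw
  induction hw using AddSubgroup.closure_induction with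
  | mem w hw =>
    obtain ⟨x, hx, rfl⟩ := hw
    exact h x hx
  | zero => rw [map_zero, map_zero]
  | add v w _ _ hv hw => rw [map_add, map_add, hv, hw]
  | neg v _ hv => rw [map_neg, map_neg, hv]

/-! ### The relations of all levels -/

theorem rel_mono {p m n : ℕ} (h : m ∣ n) {w : FQ} (hw : Rel p m w) : Rel p n w := by
  cases hw with
  | per x hx => exact Rel.per x (hx.mono h)
  | odd x hx => exact Rel.odd x (hx.mono h)
  | frob x hx => exact Rel.frob x (hx.mono h)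
  | dist l k x hl hk hx => exact Rel.dist l k x hl (hk.trans h) hx
  | pure i k x hk hi hx => exact Rel.pure i k x (hk.trans h) hi hx

theorem r_mono (p : ℕ) {m n : ℕ} (h : m ∣ n) : R p m ≤ R p n := by
  unfold R
  rw [AddSubgroup.closure_le]
  intro w hw
  exact AddSubgroup.subset_closure (rel_mono h hw)

/-- the relations of all levels prime to `p` -/
def Rinf (p : ℕ) : AddSubgroup FQ where
  carrier := {w | ∃ m : ℕ, 0 < m ∧ m.Coprime p ∧ w ∈ R p m}
  zero_mem' := ⟨1, Nat.one_pos, Nat.coprime_one_left _, zero_mem _⟩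
  add_mem' := by
    rintro v w ⟨m, hm, hmp, hv⟩ ⟨n, hn, hnp, hw⟩
    exact ⟨m * n, Nat.mul_pos hm hn, Nat.Coprime.mul_left hmp hnp,
      add_mem (r_mono p (dvd_mul_right m n) hv) (r_mono p (dvd_mul_left n m) hw)⟩
  neg_mem' := by
    rintro v ⟨m, hm, hmp, hv⟩
    exact ⟨m, hm, hmp, neg_mem hv⟩

theorem mem_rinf {p : ℕ} {w : FQ} :
    w ∈ Rinf p ↔ ∃ m : ℕ, 0 < m ∧ m.Coprime p ∧ w ∈ R p m := Iff.rfl

/-- the level of a relation can be enlarged -/
theorem mem_rinf_level {p : ℕ} {w : FQ} (h : w ∈ Rinf p) {m : ℕ} (hm : 0 < m) (hmp : m.Coprime p) :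
    ∃ n : ℕ, 0 < n ∧ n.Coprime p ∧ m ∣ n ∧ w ∈ R p n := by
  obtain ⟨k, hk, hkp, hw⟩ := h
  exact ⟨m * k, Nat.mul_pos hm hk, Nat.Coprime.mul_left hmp hkp, dvd_mul_right m k,
    r_mono p (dvd_mul_left k m) hw⟩

/-- the universal group -/
abbrev V (p : ℕ) : Type := FQ ⧸ Rinf p

/-- the generators of the universal group -/
def e (p : ℕ) (x : ℚ) : V p := QuotientAddGroup.mk (br x)

theorem mk_eq_lft (p : ℕ) (w : FQ) : (QuotientAddGroup.mk w : V p) = lft (e p) w := by
  have h : (QuotientAddGroup.mk' (Rinf p)) = lft (e p) := by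
    refine Finsupp.addHom_ext' fun x => ?_
    refine AddMonoidHom.ext_int ?_
    change QuotientAddGroup.mk' (Rinf p) (br x) = lft (e p) (br x)
    rw [lft_br]
    rfl
  exact DFunLike.congr_fun h w

theorem lft_eq_zero {p : ℕ} {w : FQ} : lft (e p) w = 0 ↔ w ∈ Rinf p := by
  rw [← mk_eq_lft, QuotientAddGroup.eq_zero_iff]

/-- rational numbers with denominator prime to `p` -/
def Good (p : ℕ) (x : ℚ) : Prop := ∃ m : ℕ, 0 < m ∧ m.Coprime p ∧ IsLev m x

namespace Good

variable {p : ℕ} {x y : ℚ}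

theorem add (hx : Good p x) (hy : Good p y) : Good p (x + y) := by
  obtain ⟨m, hm, hmp, h1⟩ := hx
  obtain ⟨n, hn, hnp, h2⟩ := hy
  exact ⟨m * n, Nat.mul_pos hm hn, Nat.Coprime.mul_left hmp hnp,
    (h1.mono (dvd_mul_right m n)).add (h2.mono (dvd_mul_left n m))⟩

theorem neg (hx : Good p x) : Good p (-x) := by
  obtain ⟨m, hm, hmp, h1⟩ := hx
  exact ⟨m, hm, hmp, h1.neg⟩

theorem int (p : ℕ) (n : ℤ) : Good p n := ⟨1, Nat.one_pos, Nat.coprime_one_left _, isLev_int 1 n⟩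

theorem nat (p : ℕ) (n : ℕ) : Good p n := ⟨1, Nat.one_pos, Nat.coprime_one_left _, isLev_nat 1 n⟩

theorem int_mul (hx : Good p x) (c : ℤ) : Good p (c * x) := by
  obtain ⟨m, hm, hmp, h1⟩ := hx
  exact ⟨m, hm, hmp, h1.int_mul c⟩

theorem nat_mul (hx : Good p x) (c : ℕ) : Good p (c * x) := by exact_mod_cast hx.int_mul c

theorem div (hx : Good p x) {l : ℕ} (hl : 0 < l) (hlp : l.Coprime p) : Good p (x / l) := by
  obtain ⟨m, hm, hmp, h1⟩ := hx
  exact ⟨l * m, Nat.mul_pos hl hm, Nat.Coprime.mul_left hlp hmp, h1.div hl.ne'⟩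

theorem of_lev {m : ℕ} (hm : 0 < m) (hmp : m.Coprime p) (h : IsLev m x) : Good p x :=
  ⟨m, hm, hmp, h⟩

end Good

section Elem

variable {p : ℕ} {x : ℚ}

theorem mem_rinf_of {w : FQ} {m : ℕ} (hm : 0 < m) (hmp : m.Coprime p) (h : Rel p m w) :
    w ∈ Rinf p := ⟨m, hm, hmp, AddSubgroup.subset_closure h⟩

theorem e_add_one (hx : Good p x) : e p (x + 1) = e p x := by
  obtain ⟨m, hm, hmp, h⟩ := hx
  rw [← sub_eq_zero]
  exact (QuotientAddGroup.eq_zero_iff _).mpr (mem_rinf_of hm hmp (Rel.per x h))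

theorem e_add_nat (hx : Good p x) (n : ℕ) : e p (x + n) = e p x := by
  induction n with
  | zero => simp
  | succ n ih =>
    have h1 : x + ((n + 1 : ℕ) : ℚ) = x + n + 1 := by push_cast; ring
    rw [h1, e_add_one (hx.add (Good.nat p n)), ih]

theorem e_add_int (hx : Good p x) (n : ℤ) : e p (x + n) = e p x := by
  obtain ⟨k, rfl | rfl⟩ := n.eq_nat_or_neg
  · exact_mod_cast e_add_nat hx k
  · have h1 := e_add_nat (hx.add (Good.int p (-(k : ℤ)))) k
    have h2 : x + ((-(k : ℤ) : ℤ) : ℚ) + (k : ℚ) = x := by push_cast; ring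
    rw [h2] at h1
    exact h1.symm

/-- congruent rational numbers -/
theorem e_congr {y : ℚ} (hx : Good p x) (h : ∃ n : ℤ, y = x + n) : e p y = e p x := by
  obtain ⟨n, rfl⟩ := h
  exact e_add_int hx n

theorem e_neg (hx : Good p x) : e p (-x) = -e p x := by
  obtain ⟨m, hm, hmp, h⟩ := hx
  rw [eq_neg_iff_add_eq_zero]
  exact (QuotientAddGroup.eq_zero_iff _).mpr (mem_rinf_of hm hmp (Rel.odd x h))

theorem e_frob (hx : Good p x) : e p (p * x) = e p x := by
  obtain ⟨m, hm, hmp, h⟩ := hx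
  rw [← sub_eq_zero]
  exact (QuotientAddGroup.eq_zero_iff _).mpr (mem_rinf_of hm hmp (Rel.frob x h))

theorem e_frob_pow (hx : Good p x) (n : ℕ) : e p ((p : ℚ) ^ n * x) = e p x := by
  induction n with
  | zero => simp
  | succ n ih =>
    have h1 : (p : ℚ) ^ (n + 1) * x = p * ((p : ℚ) ^ n * x) := by ring
    have h2 : Good p ((p : ℚ) ^ n * x) := by
      have := hx.nat_mul (p ^ n)
      push_cast at this
      exact this
    rw [h1, e_frob h2, ih]

theorem e_pure {n i : ℕ} (hn : n ∣ p ^ i + 1) (hn0 : 0 < n) (hnp : n.Coprime p) (hx : IsLev n x) :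
    e p x = 0 :=
  (QuotientAddGroup.eq_zero_iff _).mpr (mem_rinf_of hn0 hnp (Rel.pure i n x (dvd_refl n) hn hx))

theorem e_int (p : ℕ) (n : ℤ) : e p n = 0 :=
  e_pure (p := p) (n := 1) (i := 0) (one_dvd _) Nat.one_pos (Nat.coprime_one_left _) (isLev_int 1 n)

theorem e_dist {l : ℕ} (hl : l.Prime) (hlp : l.Coprime p) (hx : Good p x) :
    ∑ k ∈ range l, e p ((x + k) / l) = e p x := by
  obtain ⟨m, hm, hmp, h⟩ := hx
  rw [← sub_eq_zero]
  have h1 := mem_rinf_of (p := p) (Nat.mul_pos hl.pos hm) (Nat.Coprime.mul_left hlp hmp)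
    (Rel.dist l m x hl (dvd_refl _) h)
  rw [← lft_eq_zero, map_sub, map_sum, lft_br] at h1
  simpa using h1

end Elem

end Pool.Agent.Lib.MP81632f.Lv
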