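import Pool.Agent.Lib.MP_81632f_ag.Lv.Par
import Pool.Agent.Lib.MP_81632f_ag.Lv.Detect
import Pool.Agent.Lib.MP_81632f_ag.Lv.FinalE
import Pool.Agent.Lib.MP_81632f_ag.Lv.Char

/-!
# Levels: the criterion for potential algebraicity by parities
-/

set_option autoImplicit false

noncomputable section

namespace Pool.Agent.Lib.MP81632f.Lv

open Finset
open Pool.Agent.Lib.MP81632f.Diag
open Crit Two Push TP
open Red (ev)

/-- the number of the characters in `s` whose order is odd with radical `R` -/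
def par {F : Type} [Field F] (R : ℕ) (s : Multiset (MulChar F ℂ)) : ℕ :=
  s.countP fun χ => Odd (orderOf χ) ∧ rad (orderOf χ) = R

/-- sums of Tate sets `A + B` with atoms `A` and `B` -/
def Dec {F : Type} [Field F] [Fintype F] (ψ : AddChar F ℂ) :
    AddSubmonoid (Multiset (MulChar F ℂ)) :=
  AddSubmonoid.closure {t | ∃ A B, Diag.IsAtom A ∧ Diag.IsAtom B ∧ IsTateSet ψ (A + B) ∧ t = A + B}

section Par

variable {F : Type} [Field F]

theorem par_eq (R : ℕ) (s : Multiset (MulChar F ℂ)) : par R s = (s.map (PP R)).sum := by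
  induction s using Multiset.induction_on with
  | empty => rfl
  | cons a s ih =>
    unfold par at ih ⊢
    rw [Multiset.countP_cons, ih, Multiset.map_cons, Multiset.sum_cons, add_comm]
    rfl

theorem par_add (R : ℕ) (s t : Multiset (MulChar F ℂ)) : par R (s + t) = par R s + par R t := by
  unfold par
  exact Multiset.countP_add _ _ _

theorem par_zero (R : ℕ) : par R (0 : Multiset (MulChar F ℂ)) = 0 := rfl

theorem par_pair (R : ℕ) (χ : MulChar F ℂ) : par R {χ, χ⁻¹} = 2 * PP R χ := by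
  rw [par_eq]
  simp only [Multiset.insert_eq_cons, Multiset.map_cons, Multiset.map_singleton,
    Multiset.sum_cons, Multiset.sum_singleton]
  rw [pp_inv, two_mul]

end Par

section Family

variable {F : Type} [Field F] [Fintype F]

theorem finite_order (χ : MulChar F ℂ) : 0 < orderOf χ := by
  obtain ⟨θ, hθ, hgen⟩ := Final.exists_gen (F := F)
  obtain ⟨k, rfl⟩ := hgen χ
  have hq : 1 < Fintype.card F := Fintype.one_lt_card
  have h1 : 0 < orderOf θ := by omega
  rw [orderOf_pos_iff] at h1 ⊢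
  exact h1.pow

theorem par_dh (R : ℕ) {ℓ : ℕ} {ρ χ : MulChar F ℂ} (hℓ : ℓ.Prime) (hρ : orderOf ρ = ℓ) :
    par R (dhSet ℓ ρ χ) ≡ 0 [MOD 2] := by
  obtain ⟨hd, θ, hθ, hθρ, hgen⟩ := TateFam.exists_theta ℓ hℓ ρ hρ
  have hM : 0 < Fintype.card F - 1 := by
    have := Fintype.one_lt_card (α := F)
    omega
  have hcyc : ∀ y : MulChar F ℂ, y ^ ℓ = 1 → ∃ j : ℕ, y = ρ ^ j := by
    intro y hy
    obtain ⟨k, rfl⟩ := hgen y
    rw [← pow_mul] at hy
    have h1 := orderOf_dvd_of_pow_eq_one hy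
    rw [hθ] at h1
    have h2 : (Fintype.card F - 1) / ℓ ∣ k := by
      have h3 : (Fintype.card F - 1) / ℓ * ℓ ∣ k * ℓ := by rwa [Nat.div_mul_cancel hd]
      exact Nat.dvd_of_mul_dvd_mul_right hℓ.pos h3
    obtain ⟨j, rfl⟩ := h2
    exact ⟨j, by rw [pow_mul, hθρ]⟩
  have h1 := pp_sum R hℓ hρ hcyc (χ := χ) (finite_order _)
  have h2 := pp_third R hℓ hρ
  have e1 : par R (dhSet ℓ ρ χ) = ∑ j ∈ range ℓ, PP R (χ * ρ ^ j) + PP R (χ ^ ℓ) +
      ∑ j ∈ range (ℓ - 1), PP R (ρ ^ (j + 1)) := by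
    unfold dhSet
    rw [par_add, par_add, par_eq, par_eq, par_eq, Multiset.map_map, Multiset.map_map,
      Multiset.map_singleton, Multiset.sum_singleton, pp_inv]
    rfl
  rw [e1]
  have h3 := (h1.add_right (PP R (χ ^ ℓ))).add h2
  refine h3.trans ?_
  rw [add_zero, ← two_mul]
  exact (Nat.modEq_zero_iff_dvd).mpr (dvd_mul_right 2 _)

/-- the multisets with the parities of a sum of Tate sets `A + B` form a cycle family -/
theorem par_family (ψ : AddChar F ℂ) :
    IsCycleFamily ψ {s | ∃ t ∈ Dec ψ, ∀ R : ℕ, par R s ≡ par R t [MOD 2]} where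
  zero := ⟨0, zero_mem _, fun R => rfl⟩
  atoms A B hA hB hAB := ⟨A + B, AddSubmonoid.subset_closure ⟨A, B, hA, hB, hAB, rfl⟩, fun R => rfl⟩
  dh ℓ ρ χ hℓ hρ _ := ⟨0, zero_mem _, fun R => by rw [par_zero]; exact par_dh R hℓ hρ⟩
  add := by
    rintro s ⟨t, ht, h⟩ s' ⟨t', ht', h'⟩
    refine ⟨t + t', add_mem ht ht', fun R => ?_⟩
    rw [par_add, par_add]
    exact (h R).add (h' R)
  remove := by
    rintro s χ - ⟨t, ht, h⟩
    refine ⟨t, ht, fun R => ?_⟩
    have h1 := h R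
    rw [par_add, par_pair] at h1
    have h2 : par R s ≡ par R s + 2 * PP R χ [MOD 2] := by
      rw [Nat.ModEq, Nat.add_mul_mod_self_left]
    exact h2.trans h1

end Family

section Exp

variable {F : Type} [Field F] [Fintype F]

/-- the parities in terms of the exponents -/
theorem nR_cnt {N : ℕ} [NeZero N] {θ : MulChar F ℂ} (hθ : orderOf θ = N) (R : ℕ)
    (X : Multiset (ZMod N)) : nR N R (cnt X) = (par R (X.map fun x => θ ^ x.val) : ℕ) := by
  have h1 : nR N R (cnt X) = ∑ x, cnt X x * (PP R (θ ^ x.val) : ℕ) := by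
    unfold nR
    rw [Finset.sum_filter]
    refine Finset.sum_congr rfl fun x _ => ?_
    unfold PP
    rw [Final.orderOf_pow_val N θ hθ x]
    split_ifs <;> simp
  rw [h1, Basic.sum_cnt_mul (fun x => ((PP R (θ ^ x.val) : ℕ) : ℤ)) X, par_eq, Multiset.map_map]
  clear h1
  induction X using Multiset.induction_on with
  | empty => simp
  | cons a s ih =>
    rw [Multiset.map_cons, Multiset.sum_cons, ih, Multiset.map_cons, Multiset.sum_cons]
    push_cast
    rfl

/-- atoms in terms of the exponents -/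
theorem atom_exp {N : ℕ} [NeZero N] {θ : MulChar F ℂ} (hθ : orderOf θ = N) {X : Multiset (ZMod N)}
    (h0 : 0 ∉ X) (hA : Diag.IsAtom (X.map fun x => θ ^ x.val)) : IsAtomZ X := by
  rcases hA with ⟨χ, h⟩ | ⟨χ₁, χ₂, χ₃, h, hp⟩
  · rw [Multiset.map_eq_singleton] at h
    obtain ⟨a, rfl, -⟩ := h
    exact Or.inl ⟨a, fun h => h0 (by rw [h]; exact Multiset.mem_singleton_self _), rfl⟩
  · right
    have hcard : Multiset.card X = 3 := by
      have := congrArg Multiset.card h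
      rw [Multiset.card_map] at this
      rw [this]
      rfl
    obtain ⟨a, b, c, rfl⟩ := Multiset.card_eq_three.mp hcard
    refine ⟨a, b, c, ?_, ?_, ?_, ?_, rfl⟩
    · rintro rfl
      exact h0 (by simp)
    · rintro rfl
      exact h0 (by simp)
    · rintro rfl
      exact h0 (by simp)
    · have h1 := congrArg Multiset.prod h
      simp only [Multiset.insert_eq_cons, Multiset.map_cons, Multiset.map_singleton,
        Multiset.prod_cons, Multiset.prod_singleton] at h1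
      rw [← mul_assoc χ₁, hp, ← pow_add, ← pow_add] at h1
      have h2 := orderOf_dvd_of_pow_eq_one h1
      rw [hθ, ← ZMod.natCast_eq_zero_iff] at h2
      push_cast at h2
      rw [ZMod.natCast_zmod_val, ZMod.natCast_zmod_val, ZMod.natCast_zmod_val] at h2
      rw [add_assoc]
      exact h2

end Exp

section Main

variable {p : ℕ} [Fact p.Prime]

/-- the sums of Tate sets `A + B` in terms of the exponents -/
theorem dec_exp (hT : StTrans) {E : Type} [Field E] [Fintype E] [CharP E p] {ψ : AddChar E ℂ}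
    (hψ : ψ ≠ 1) {N f : ℕ} [NeZero N] (hcard : Fintype.card E = p ^ f)
    {θ : MulChar E ℂ} (hθ : orderOf θ = N) (hgen : ∀ χ : MulChar E ℂ, ∃ k : ℕ, χ = θ ^ k)
    {t : Multiset (MulChar E ℂ)} (ht : t ∈ Dec ψ) :
    ∃ Z : Multiset (ZMod N), t = Z.map (fun x => θ ^ x.val) ∧ 0 ∉ Z ∧ cnt Z ∈ Sub N p f := by
  unfold Dec at ht
  induction ht using AddSubmonoid.closure_induction with
  | mem t ht =>
    obtain ⟨A, B, hA, hB, hAB, rfl⟩ := ht
    obtain ⟨X, rfl⟩ := Final.exists_map N θ hθ A fun χ _ => hgen χ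
    obtain ⟨Y, rfl⟩ := Final.exists_map N θ hθ B fun χ _ => hgen χ
    have h0 : ∀ W : Multiset (ZMod N), (∀ χ ∈ W.map (fun x => θ ^ x.val), χ ≠ 1) → 0 ∉ W := by
      intro W hW h0
      refine hW 1 ?_ rfl
      rw [Multiset.mem_map]
      exact ⟨0, h0, by rw [ZMod.val_zero, pow_zero]⟩
    have hX0 := h0 X fun χ hχ => hAB.1 χ (Multiset.mem_add.mpr (Or.inl hχ))
    have hY0 := h0 Y fun χ hχ => hAB.1 χ (Multiset.mem_add.mpr (Or.inr hχ))
    have hXY : IsTateSet ψ ((X + Y).map fun x => θ ^ x.val) := by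
      rw [Multiset.map_add]
      exact hAB
    refine ⟨X + Y, by rw [Multiset.map_add], ?_, ?_⟩
    · rw [Multiset.mem_add]
      exact fun h => h.elim hX0 hY0
    · refine AddSubgroup.subset_closure ⟨X + Y, Or.inl ⟨X, Y, atom_exp hθ hX0 hA,
        atom_exp hθ hY0 hB, rfl, ?_⟩, rfl⟩
      exact hT p E f hcard N θ hθ ψ hψ (X + Y) hXY
  | zero => exact ⟨0, by rw [Multiset.map_zero], Multiset.notMem_zero _, by
      rw [Basic.cnt_zero]; exact zero_mem _⟩
  | add t t' _ _ h h' =>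
    obtain ⟨Z, rfl, h0, hZ⟩ := h
    obtain ⟨Z', rfl, h0', hZ'⟩ := h'
    refine ⟨Z + Z', by rw [Multiset.map_add], ?_, ?_⟩
    · rw [Multiset.mem_add]
      exact fun h => h.elim h0 h0'
    · rw [Basic.cnt_add]
      exact add_mem hZ hZ'

theorem LimP.neg {M : ℕ} [NeZero M] {v : ZMod M → ℤ} (h : LimP M p v) : LimP M p (-v) := by
  obtain ⟨N, hN0, hN1, hNp, hMN, hN⟩ := h
  exact ⟨N, hN0, hN1, hNp, hMN, fun f hf hp => by rw [map_neg]; exact neg_mem (hN f hf hp)⟩

theorem LimP.of_push {M N : ℕ} [NeZero M] [NeZero N] (h : M ∣ N) {v : ZMod M → ℤ}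
    (hv : LimP N p (Push.push N M v)) : LimP M p v := by
  obtain ⟨K, hK0, hK1, hKp, hNK, hK⟩ := hv
  refine ⟨K, hK0, hK1, hKp, h.trans hNK, fun f hf hp => ?_⟩
  rw [← push_push h hNK]
  exact hK f hf hp

theorem par_norm {F E : Type} [Field F] [Field E] [Fintype E] [Algebra F E] (R : ℕ)
    (s : Multiset (MulChar F ℂ)) : par R (s.map (normChar F E)) = par R s := by
  rw [par_eq, par_eq, Multiset.map_map]
  congr 1
  refine Multiset.map_congr rfl fun χ _ => ?_
  have h3 : orderOf (normChar F E χ) = orderOf χ :=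
    orderOf_injective (CharAux.nh F E) CharAux.nh_injective χ
  rw [Function.comp_apply]
  exact pp_congr R (by rw [h3]) (by rw [h3])

theorem nR_add {N : ℕ} [NeZero N] (R : ℕ) (v w : ZMod N → ℤ) :
    nR N R (v + w) = nR N R v + nR N R w := by
  unfold nR
  rw [← Finset.sum_add_distrib]
  rfl

/-- the main step in terms of the exponents -/
theorem core (hB : StBasic) (hCL : StCL) (hTor : StTor) {F E : Type} [Field F] [Field E]
    [Fintype E] [Algebra F E] {M N f g : ℕ} [NeZero M] [NeZero N] (hMN : M ∣ N) (hN1 : 1 < N)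
    (hf : 0 < f) (hpf : (p : ZMod M) ^ f = 1) (hg : 0 < g) (hpg : (p : ZMod N) ^ g = 1)
    {θ : MulChar F ℂ} {θ' : MulChar E ℂ} (hθ' : orderOf θ' = N)
    (hθ1 : ∀ x : ZMod M, normChar F E (θ ^ x.val) = θ' ^ (inc N M x).val) {X : Multiset (ZMod M)}
    (h0 : 0 ∉ X) (hbX : BalM M p f X) {Z : Multiset (ZMod N)} (hZ0 : 0 ∉ Z)
    (hZ : cnt Z ∈ Sub N p g)
    (hpar : ∀ R : ℕ, Odd R → Squarefree R → (∀ i : ℕ, ¬ R ∣ p ^ i + 1) →
      par R (X.map fun x => θ ^ x.val) ≡ par R (Z.map fun x => θ' ^ x.val) [MOD 2]) :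
    LimP M p (cnt X) := by
  have hbX : ∀ u : (ZMod N)ˣ, pair N p g u (push N M (cnt X)) = 0 := by
    intro u
    rw [pair_push hMN]
    have h2 := bal_f hf hpf (pow_of_dvd hMN hpg) hbX (ZMod.unitsMap hMN u)
    have h3 : pair M p g (ZMod.unitsMap hMN u) (cnt X) = 0 := by
      change ∑ x, cnt X x * saw M p g _ x = 0
      rw [Basic.sum_cnt_mul]
      exact h2
    rw [h3, mul_zero]
  have hbal : Bal N p (push N M (cnt X) + cnt Z) := by
    refine ⟨?_, g, hg, hpg, fun u => ?_⟩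
    · rw [Pi.add_apply, push_zero' hMN (Basic.cnt_apply_zero h0), Basic.cnt_apply_zero hZ0,
        add_zero]
    · rw [map_add, hbX u, pair_sub hB hN1 hg hpg u hZ, add_zero]
  have h1 := detect hB hCL hTor Fact.out hbal (fun R hR1 hR2 _ hR3 => by
    rw [push_cnt, nR_add, nR_cnt hθ', nR_cnt hθ']
    have e2 : (X.map (inc N M)).map (fun x => θ' ^ x.val) =
        (X.map fun x => θ ^ x.val).map (normChar F E) := by
      rw [Multiset.map_map, Multiset.map_map]
      exact Multiset.map_congr rfl fun x _ => (hθ1 x).symm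
    rw [e2, par_norm]
    have h4 := hpar R hR1 hR2 hR3
    have h5 : Even (par R (X.map fun x => θ ^ x.val) + par R (Z.map fun x => θ' ^ x.val)) := by
      rw [Nat.even_iff, Nat.add_mod, h4, ← Nat.add_mod, ← two_mul, Nat.mul_mod_right]
    exact_mod_cast h5)
  have h2 : LimP N p (cnt Z) :=
    limP_of_ws hN1 hg hpg ((le_sup_left : Sub N p g ≤ _) hZ)
  have h3 := h1.add h2.neg
  rw [add_neg_cancel_right] at h3
  exact LimP.of_push hMN h3

theorem gen_of_order {E : Type} [Field E] [Fintype E] {N : ℕ} (hN : N = Fintype.card E - 1)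
    {θ' : MulChar E ℂ} (hθ' : orderOf θ' = N) (χ : MulChar E ℂ) : ∃ k : ℕ, χ = θ' ^ k := by
  have hqE : 1 < Fintype.card E := Fintype.one_lt_card
  obtain ⟨θ₀, hθ₀, hgen₀⟩ := Final.exists_gen (F := E)
  rw [← hN] at hθ₀
  have hN0 : 0 < N := by omega
  have : NeZero N := ⟨hN0.ne'⟩
  obtain ⟨k, hk⟩ := hgen₀ θ'
  -- `θ'` is a generator
  have hk' : N.Coprime k := by
    have h1 : orderOf (θ₀ ^ k) = orderOf θ₀ / (orderOf θ₀).gcd k :=
      IsOfFinOrder.orderOf_pow θ₀ k (orderOf_pos_iff.mp (by rw [hθ₀]; exact hN0))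
    rw [← hk, hθ', hθ₀] at h1
    have h3 : N.gcd k ∣ N := Nat.gcd_dvd_left _ _
    have h4 := Nat.div_mul_cancel h3
    rw [← h1] at h4
    exact Nat.eq_of_mul_eq_mul_left hN0 (by rw [mul_one]; exact h4)
  obtain ⟨j, hj⟩ := hgen₀ χ
  obtain ⟨l, hl⟩ : ∃ l : ℕ, k * l ≡ 1 [MOD N] := by
    obtain ⟨u, hu⟩ := (ZMod.isUnit_iff_coprime k N).mpr hk'.symm
    refine ⟨((u⁻¹ : (ZMod N)ˣ) : ZMod N).val, ?_⟩
    rw [← ZMod.natCast_eq_natCast_iff]
    push_cast
    rw [ZMod.natCast_zmod_val, ← hu, Units.mul_inv]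
  refine ⟨l * j, ?_⟩
  rw [hj, hk, ← pow_mul, ← mul_assoc, pow_eq_pow_iff_modEq, hθ₀]
  have h3 := (hl.mul_right j).symm
  rwa [one_mul] at h3

/-- characters as powers -/
theorem exists_bal' (hT : StTrans) {F : Type} [Field F] [Fintype F] [CharP F p] {ψ : AddChar F ℂ}
    (hψ : ψ ≠ 1) {s : Multiset (MulChar F ℂ)} (hs : IsTateSet ψ s) {f : ℕ}
    (hcard : Fintype.card F = p ^ f) {M : ℕ} (hM : M = Fintype.card F - 1) [NeZero M] :
    ∃ (θ : MulChar F ℂ) (X : Multiset (ZMod M)), orderOf θ = M ∧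
      s = X.map (fun x => θ ^ x.val) ∧ 0 ∉ X ∧ (p : ZMod M) ^ f = 1 ∧ BalM M p f X := by
  subst hM
  obtain ⟨θ, X, hθ, h1, h0, hpf, hb⟩ := exists_bal hT hψ hs f hcard
  refine ⟨θ, X, hθ, h1, h0, hpf, fun t => ?_⟩
  have h2 := hb t
  change ∑ x, cnt X x * saw (Fintype.card F - 1) p f t x = 0 at h2
  rwa [Basic.sum_cnt_mul] at h2

/-- **The criterion.** -/
theorem potAlg_iff (hB : StBasic) (hCL : StCL) (hTor : StTor) (hT : StTrans) (hC : StClose)
    (hK : StKron) (hE : StExt) (hCh : StChar) (hDn : StDown) {F : Type} [Field F] [Fintype F]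
    [CharP F p] {ψ : AddChar F ℂ} (hψ : ψ ≠ 1) (s : Multiset (MulChar F ℂ)) :
    PotAlg F s ↔ IsTateSet ψ s ∧ Even (Multiset.card s) ∧
      ∃ (E : Type) (_ : Field E) (_ : Fintype E) (_ : Algebra F E) (ψ' : AddChar E ℂ), ψ' ≠ 1 ∧
        ∃ t ∈ Dec ψ', ∀ R : ℕ, Odd R → Squarefree R → (∀ i : ℕ, ¬ R ∣ p ^ i + 1) →
          par R s ≡ par R t [MOD 2] := by
  constructor
  · intro h
    have h0 := tate_of_potAlg p hK hDn hψ h
    refine ⟨h0.1, h0.2, ?_⟩
    obtain ⟨E, iE, iE', iA, hE⟩ := h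
    obtain ⟨ψ', hψ'⟩ : ∃ ψ' : AddChar E ℂ, ψ' ≠ 1 := by
      obtain ⟨ψ', h1⟩ := (AddChar.exists_apply_ne_zero (a := (1 : E))).mpr one_ne_zero
      refine ⟨ψ', fun h2 => h1 ?_⟩
      rw [h2, AddChar.one_apply]
    obtain ⟨t, ht, h1⟩ := hE ψ' hψ' _ (par_family ψ')
    refine ⟨E, iE, iE', iA, ψ', hψ', t, ht, fun R _ _ _ => ?_⟩
    rw [← par_norm (E := E)]
    exact h1 R
  · rintro ⟨hs, hev, E, iE, iE', iA, ψ', hψ', t, ht, hpar⟩
    have : CharP E p := charP_of_injective_algebraMap (algebraMap F E).injective p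
    obtain ⟨n, -, hcard⟩ := FiniteField.card F p
    obtain ⟨f, hf⟩ := n
    change Fintype.card F = p ^ f at hcard
    obtain ⟨n', -, hcardE⟩ := FiniteField.card E p
    obtain ⟨g, hg⟩ := n'
    change Fintype.card E = p ^ g at hcardE
    have hq : 1 < Fintype.card F := Fintype.one_lt_card
    have hqE : 1 < Fintype.card E := Fintype.one_lt_card
    by_cases hM1 : Fintype.card F - 1 = 1
    · rw [empty_of_two hs hM1]
      exact potAlg_zero
    obtain ⟨M, hM⟩ : ∃ M, M = Fintype.card F - 1 := ⟨_, rfl⟩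
    obtain ⟨N, hN⟩ : ∃ N, N = Fintype.card E - 1 := ⟨_, rfl⟩
    have hMN : M ∣ N := by
      have hfin : Module.Finite F E := Module.Finite.of_finite
      have h1 : Fintype.card E = Fintype.card F ^ Module.finrank F E :=
        Module.card_eq_pow_finrank
      rw [hM, hN, h1]
      have := Nat.sub_dvd_pow_sub_pow (Fintype.card F) 1 (Module.finrank F E)
      rwa [one_pow] at this
    have hM0 : NeZero M := ⟨by omega⟩
    have hN0 : NeZero N := ⟨by omega⟩
    have hN1 : 1 < N := by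
      have := Nat.le_of_dvd (NeZero.pos N) hMN
      omega
    obtain ⟨θ, X, hθ, rfl, h0, hpf, hbX⟩ := exists_bal' hT hψ hs hcard hM
    rw [Multiset.card_map] at hev
    refine potAlg_of hB hC hE hCh θ hθ h0 ?_ hev
    obtain ⟨θ', hθ', hθ1⟩ := hCh F E M N hMN (by rw [hN]) θ hθ
    obtain ⟨Z, rfl, hZ0, hZ⟩ := dec_exp hT hψ' hcardE hθ' (gen_of_order hN hθ') ht
    have hpg : (p : ZMod N) ^ g = 1 := by
      have h1 : ((Fintype.card E - 1 : ℕ) : ZMod N) = 0 := by rw [← hN, ZMod.natCast_self]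
      rw [Nat.cast_sub hqE.le, hcardE, Nat.cast_pow, Nat.cast_one, sub_eq_zero] at h1
      exact h1
    exact core hB hCL hTor hMN hN1 hf hpf hg hpg hθ' hθ1 h0 hbX hZ0 hZ hpar

end Main

end Pool.Agent.Lib.MP81632f.Lv
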