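import Pool.Agent.Lib.MP_81632f_ag.Lv.Conv

/-!
# Levels: functions which are in the lattice after an enlargement of the level
-/

set_option autoImplicit false

noncomputable section

namespace Pool.Agent.Lib.MP81632f.Lv

open Finset
open Pool.Agent.Lib.MP81632f.Diag
open Crit Two Push TP
open Red (ev)

/-! ### The inclusions of levels -/

section PushPush

variable {M N N' p f : ℕ} [NeZero M] [NeZero N] [NeZero N']

omit [NeZero M] [NeZero N'] in
theorem inc_inc (h : M ∣ N) (h' : N ∣ N') (x : ZMod M) : inc N' N (inc N M x) = inc N' M x := by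
  have h1 : inc N M x = (((N / M) * x.val : ℕ) : ZMod N) := by
    unfold inc
    push_cast
    rfl
  rw [h1, inc_nat h', ← Nat.cast_mul, ← mul_assoc]
  unfold inc
  rw [← Nat.cast_mul]
  congr 2
  obtain ⟨a, rfl⟩ := h
  obtain ⟨b, rfl⟩ := h'
  have hN : 0 < M * a := NeZero.pos _
  have hM : 0 < M := Nat.pos_of_mul_pos_right hN
  rw [Nat.mul_div_cancel_left _ hN, Nat.mul_div_cancel_left _ hM, mul_assoc,
    Nat.mul_div_cancel_left _ hM, mul_comm]

omit [NeZero N'] in
theorem push_push (h : M ∣ N) (h' : N ∣ N') (v : ZMod M → ℤ) :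
    push N' N (push N M v) = push N' M v := by
  have h1 : v = ∑ x, v x • ev x := Transfer.sum_ev v
  rw [h1]
  simp only [map_sum, map_zsmul, push_ev]
  exact Finset.sum_congr rfl fun x _ => by rw [inc_inc h h']

theorem push_ws (h : M ∣ N) {v : ZMod M → ℤ} (hv : v ∈ WS M p f) : push N M v ∈ WS N p f := by
  obtain ⟨a, ha, b, hb, rfl⟩ := AddSubgroup.mem_sup.mp hv
  rw [map_add]
  refine add_mem ((le_sup_left : Sub N p f ≤ _) (push_sub h ha)) ?_
  refine (le_sup_right : SS N p f ≤ _) ?_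
  clear hv
  induction hb using AddSubgroup.closure_induction with
  | mem v hv =>
    obtain ⟨y, hy, rfl⟩ := hv
    rw [push_ev]
    refine ss_mem ⟨inc_ne h hy.1, fun t => ?_⟩
    rw [saw_inc h, hy.2, mul_zero]
  | zero => rw [map_zero]; exact zero_mem _
  | add v w _ _ hv hw => rw [map_add]; exact add_mem hv hw
  | neg v _ hv => rw [map_neg]; exact neg_mem hv

theorem push_zero' (h : M ∣ N) {v : ZMod M → ℤ} (h0 : v 0 = 0) : push N M v 0 = 0 := by
  change (∑ y, v y • ev (inc N M y)) 0 = 0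
  rw [Finset.sum_apply]
  refine Finset.sum_eq_zero fun y _ => ?_
  by_cases hy : y = 0
  · rw [hy, h0, zero_smul, Pi.zero_apply]
  · have h1 : (ev (inc N M y) : ZMod N → ℤ) 0 = 0 := Pi.single_eq_of_ne (inc_ne h hy).symm _
    rw [Pi.smul_apply, h1, smul_zero]

theorem fr_inc (h : M ∣ N) (x : ZMod M) : fr N (inc N M x) = fr M x := by
  have hN0 := m_ne N
  have hM0 := m_ne M
  have hM : 0 < M := NeZero.pos M
  have hN : 0 < N := NeZero.pos N
  obtain ⟨c, rfl⟩ := h
  have hc : 0 < c := Nat.pos_of_mul_pos_left hN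
  have h1 : inc (M * c) M x = ((c * x.val : ℕ) : ZMod (M * c)) := by
    unfold inc
    rw [Nat.mul_div_cancel_left _ hM]
    push_cast
    rfl
  have h2 : (inc (M * c) M x).val = c * x.val := by
    rw [h1, ZMod.val_natCast, Nat.mod_eq_of_lt]
    rw [mul_comm M c]
    exact Nat.mul_lt_mul_of_pos_left (ZMod.val_lt x) hc
  have hc0 : (c : ℚ) ≠ 0 := by exact_mod_cast hc.ne'
  unfold fr
  rw [h2]
  push_cast
  field_simp

theorem iota_push (h : M ∣ N) (v : ZMod M → ℤ) : iota N (push N M v) = iota M v := by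
  have h1 : v = ∑ x, v x • ev x := Transfer.sum_ev v
  rw [h1]
  simp only [map_sum, map_zsmul, push_ev, iota_ev]
  exact Finset.sum_congr rfl fun x _ => by rw [fr_inc h]

end PushPush

/-! ### Functions in the lattice of some level -/

/-- the image of `v` at some level prime to `p` is in the lattice -/
def LimP (M p : ℕ) [NeZero M] (v : ZMod M → ℤ) : Prop :=
  ∃ (N : ℕ) (_ : NeZero N), 1 < N ∧ N.Coprime p ∧ M ∣ N ∧
    ∀ f : ℕ, 0 < f → (p : ZMod N) ^ f = 1 → push N M v ∈ WS N p f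

section Lim

variable {M p : ℕ} [NeZero M]

omit [NeZero M] in
theorem pow_of_dvd {N : ℕ} (h : M ∣ N) {f : ℕ} (hp : (p : ZMod N) ^ f = 1) :
    (p : ZMod M) ^ f = 1 := by
  have h1 := congrArg (ZMod.castHom h (ZMod M)) hp
  rwa [map_pow, map_natCast, map_one] at h1

theorem LimP.add {v w : ZMod M → ℤ} (hv : LimP M p v) (hw : LimP M p w) : LimP M p (v + w) := by
  obtain ⟨N, hN0, hN1, hNp, hMN, hN⟩ := hv
  obtain ⟨K, hK0, hK1, hKp, hMK, hK⟩ := hw
  have : NeZero (N * K) := ⟨Nat.mul_ne_zero hN0.out hK0.out⟩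
  refine ⟨N * K, this, ?_, Nat.Coprime.mul_left hNp hKp, hMN.mul_right K, fun f hf hp => ?_⟩
  · exact Nat.lt_of_lt_of_le hN1 (Nat.le_mul_of_pos_right N (NeZero.pos K))
  · rw [map_add]
    have h1 := push_ws (N := N * K) (dvd_mul_right N K) (hN f hf (pow_of_dvd (dvd_mul_right N K) hp))
    have h2 := push_ws (N := N * K) (dvd_mul_left K N) (hK f hf (pow_of_dvd (dvd_mul_left K N) hp))
    rw [push_push hMN (dvd_mul_right N K)] at h1
    rw [push_push hMK (dvd_mul_left K N)] at h2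
    exact add_mem h1 h2

theorem LimP.push {N : ℕ} [NeZero N] (h : M ∣ N) (hNp : N.Coprime p) {v : ZMod M → ℤ}
    (hv : LimP M p v) : LimP N p (Push.push N M v) := by
  obtain ⟨K, hK0, hK1, hKp, hMK, hK⟩ := hv
  have : NeZero (N * K) := ⟨Nat.mul_ne_zero (NeZero.ne N) hK0.out⟩
  refine ⟨N * K, this, ?_, Nat.Coprime.mul_left hNp hKp, dvd_mul_right N K, fun f hf hp => ?_⟩
  · exact Nat.lt_of_lt_of_le hK1 (Nat.le_mul_of_pos_left K (NeZero.pos N))
  · have h2 := push_ws (N := N * K) (dvd_mul_left K N) (hK f hf (pow_of_dvd (dvd_mul_left K N) hp))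
    rw [push_push hMK (dvd_mul_left K N)] at h2
    rw [push_push h (dvd_mul_right N K)]
    exact h2

theorem limP_zero (hpp : p.Prime) (hMp : M.Coprime p) : LimP M p 0 := by
  have : NeZero (M * (p + 1)) := ⟨Nat.mul_ne_zero (NeZero.ne M) (Nat.succ_ne_zero p)⟩
  have h2 := hpp.two_le
  refine ⟨M * (p + 1), this, ?_, ?_, dvd_mul_right _ _, fun f _ _ => ?_⟩
  · exact Nat.lt_of_lt_of_le (by omega) (Nat.le_mul_of_pos_left (p + 1) (NeZero.pos M))
  · exact Nat.Coprime.mul_left hMp (by simp)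
  · rw [map_zero]
    exact zero_mem _

/-- elements of the relations of all levels -/
theorem limP_of_rinf (hB : StBasic) (hpp : p.Prime) (hMp : M.Coprime p) {v : ZMod M → ℤ}
    (h0 : v 0 = 0) (h : iota M v ∈ Rinf p) : LimP M p v := by
  obtain ⟨K, hK, hKp, hMK, hw⟩ := mem_rinf_level h (NeZero.pos M) hMp
  have h2 := hpp.two_le
  have hlt : 1 < K * (p + 1) :=
    Nat.lt_of_lt_of_le (by omega) (Nat.le_mul_of_pos_left (p + 1) hK)
  have : NeZero (K * (p + 1)) := ⟨by omega⟩
  refine ⟨K * (p + 1), this, hlt, Nat.Coprime.mul_left hKp (by simp), hMK.mul_right _,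
    fun f hf hp => ?_⟩
  have h3 := LQ_rel hB hlt hf hp (r_mono p (dvd_mul_right K (p + 1)) hw)
  rw [LQ_iota (hMK.mul_right _) h0] at h3
  exact TP.mk_zero.mp h3

theorem limP_of_eq (hB : StBasic) (hpp : p.Prime) (hMp : M.Coprime p) {v v' : ZMod M → ℤ}
    (h0 : v 0 = 0) (h0' : v' 0 = 0) (h : lft (e p) (iota M v) = lft (e p) (iota M v'))
    (hv' : LimP M p v') : LimP M p v := by
  have h1 : LimP M p (v - v') := limP_of_rinf hB hpp hMp (by
    rw [Pi.sub_apply, h0, h0', sub_zero]) (by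
    rw [← lft_eq_zero, map_sub, map_sub, h, sub_self])
  have h2 := h1.add hv'
  rwa [sub_add_cancel] at h2

theorem iota_smul (k : ℤ) (v : ZMod M → ℤ) : iota M (k • v) = k • iota M v := map_zsmul _ _ _

omit [NeZero M] in
theorem coprime_of_pow {f : ℕ} (hf : 0 < f) (hp : (p : ZMod M) ^ f = 1) : M.Coprime p := by
  have h1 : IsUnit (p : ZMod M) := IsUnit.of_pow_eq_one hp hf.ne'
  rw [ZMod.isUnit_iff_coprime] at h1
  exact h1.symm

/-- balanced functions are torsion elements -/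
theorem iota_tor (hTor : StTor) {f : ℕ} (hM : 1 < M) (hf : 0 < f) (hp : (p : ZMod M) ^ f = 1)
    {v : ZMod M → ℤ} (h0 : v 0 = 0) (hb : ∀ t : (ZMod M)ˣ, pair M p f t v = 0) :
    IsTor p (iota M v) := by
  obtain ⟨k, hk, h1⟩ := hTor M p f hM hf hp v h0 hb
  refine ⟨k, hk, M, NeZero.pos M, coprime_of_pow hf hp, ?_⟩
  rw [← iota_smul]
  exact iota_rel h1

/-- functions in the lattice of some level are balanced -/
theorem pair_of_limP (hB : StBasic) {v : ZMod M → ℤ} (h : LimP M p v) {f : ℕ}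
    (hp : (p : ZMod M) ^ f = 1) (t : (ZMod M)ˣ) : pair M p f t v = 0 := by
  obtain ⟨N, hN0, hN1, hNp, hMN, hN⟩ := h
  -- an exponent for the level `N`
  obtain ⟨g, hg, hpg⟩ : ∃ g : ℕ, 0 < g ∧ (p : ZMod N) ^ g = 1 := by
    refine ⟨N.totient, Nat.totient_pos.mpr (NeZero.pos N), ?_⟩
    have h1 := (ZMod.natCast_eq_natCast_iff _ _ _).mpr (Nat.ModEq.pow_totient hNp.symm)
    rwa [Nat.cast_pow, Nat.cast_one] at h1
  have hpM : (p : ZMod M) ^ g = 1 := pow_of_dvd hMN hpg
  have h1 : pair M p g t v = 0 :=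
    bal_of_push hMN (fun t => pair_ws hB hN1 hg hpg t (hN g hg hpg)) t
  have h2 : (g : ℤ) * pair M p f t v = (f : ℤ) * pair M p g t v := by
    change (g : ℤ) * ∑ x, v x * saw M p f t x = (f : ℤ) * ∑ x, v x * saw M p g t x
    rw [Finset.mul_sum, Finset.mul_sum]
    refine Finset.sum_congr rfl fun x _ => ?_
    have h3 := Transfer.saw_mul hp (t : ZMod M) x g
    have h4 := Transfer.saw_mul hpM (t : ZMod M) x f
    rw [mul_comm f g, h3] at h4
    linear_combination v x * h4
  rw [h1, mul_zero] at h2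
  rcases mul_eq_zero.mp h2 with h3 | h3
  · exfalso
    have : g = 0 := by exact_mod_cast h3
    omega
  · exact h3

/-- torsion elements are balanced -/
theorem pair_of_tor (hB : StBasic) (hpp : p.Prime) {v : ZMod M → ℤ} (h0 : v 0 = 0)
    (h : IsTor p (iota M v)) {f : ℕ} (hf : 0 < f) (hp : (p : ZMod M) ^ f = 1) (t : (ZMod M)ˣ) :
    pair M p f t v = 0 := by
  obtain ⟨k, hk, h1⟩ := h
  rw [← iota_smul] at h1
  have h2 := limP_of_rinf hB hpp (coprime_of_pow hf hp) (by
    rw [Pi.smul_apply, h0, smul_zero]) h1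
  have h3 := pair_of_limP hB h2 hp t
  rw [map_zsmul, smul_eq_mul] at h3
  rcases mul_eq_zero.mp h3 with h4 | h4
  · exfalso
    have : k = 0 := by exact_mod_cast h4
    omega
  · exact h4

/-- balanced functions of level `M` -/
def Bal (M p : ℕ) [NeZero M] (v : ZMod M → ℤ) : Prop :=
  v 0 = 0 ∧ ∃ f : ℕ, 0 < f ∧ (p : ZMod M) ^ f = 1 ∧ ∀ t : (ZMod M)ˣ, pair M p f t v = 0

/-- the lattice property after an enlargement of the level -/
def LimLP (M p : ℕ) : Prop := ∀ [NeZero M] (v : ZMod M → ℤ), Bal M p v → LimP M p v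

end Lim

theorem bal_one {v : ZMod 1 → ℤ} (h0 : v 0 = 0) : v = 0 := by
  funext x
  have hx : x = 0 := Subsingleton.elim _ _
  rw [hx, h0, Pi.zero_apply]

/-- `2` times a balanced function -/
theorem limP_two (hB : StBasic) (hCL : StCL) (hTor : StTor) {M p : ℕ} [NeZero M] (hpp : p.Prime)
    {v : ZMod M → ℤ} (hv : Bal M p v) : LimP M p ((2 : ℤ) • v) := by
  obtain ⟨h0, f, hf, hp, hb⟩ := hv
  have hMp := coprime_of_pow hf hp
  by_cases hM : M = 1
  · subst hM
    rw [bal_one h0, smul_zero]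
    exact limP_zero hpp hMp
  have hM1 : 1 < M := by
    have := NeZero.pos M
    omega
  refine limP_of_rinf hB hpp hMp (by rw [Pi.smul_apply, h0, smul_zero]) ?_
  rw [iota_smul]
  exact two_tors hCL hpp (NeZero.pos M) hMp (iota_mem v) (iota_tor hTor hM1 hf hp h0 hb)

/-- levels with the lattice property for a multiple -/
theorem limLP_of_lpa (hB : StBasic) {m k p : ℕ} (hpp : p.Prime) (hk : 0 < k)
    (hkp : (k * m).Coprime p) (h : LPA (k * m) p) : LimLP m p := by
  intro hm0 v hv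
  obtain ⟨h0, f, hf, hp, hb⟩ := hv
  have : NeZero (k * m) := ⟨Nat.mul_ne_zero hk.ne' (NeZero.ne m)⟩
  have hmk : m ∣ k * m := dvd_mul_left m k
  by_cases hM : k * m = 1
  · have hm1 : m = 1 := Nat.eq_one_of_mul_eq_one_left hM
    subst hm1
    rw [bal_one h0]
    exact limP_zero hpp (coprime_of_pow hf hp)
  have hM1 : 1 < k * m := by
    have := NeZero.pos (k * m)
    omega
  refine ⟨k * m, this, hM1, hkp, hmk, fun g hg hpg => ?_⟩
  refine ws_of_bal hB hM1 hg hpg (h g hg hpg) (push_zero' hmk h0) fun t => ?_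
  rw [pair_push hmk]
  have hpm : (p : ZMod m) ^ g = 1 := pow_of_dvd hmk hpg
  have h2 : (f : ℤ) * pair m p g (ZMod.unitsMap hmk t) v =
      (g : ℤ) * pair m p f (ZMod.unitsMap hmk t) v := by
    change (f : ℤ) * ∑ x, v x * saw m p g _ x = (g : ℤ) * ∑ x, v x * saw m p f _ x
    rw [Finset.mul_sum, Finset.mul_sum]
    refine Finset.sum_congr rfl fun x _ => ?_
    have h3 := Transfer.saw_mul hp ((ZMod.unitsMap hmk t : (ZMod m)ˣ) : ZMod m) x g
    have h4 := Transfer.saw_mul hpm ((ZMod.unitsMap hmk t : (ZMod m)ˣ) : ZMod m) x f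
    rw [mul_comm f g, h3] at h4
    linear_combination (-v x) * h4
  rw [hb, mul_zero] at h2
  rcases mul_eq_zero.mp h2 with h3 | h3
  · exfalso
    have : f = 0 := by exact_mod_cast h3
    omega
  · rw [h3, mul_zero]

/-- the torsion elements of level `M` which are elements of a lower level with the lattice
property -/
theorem limP_of_lower (hB : StBasic) {M m p : ℕ} [NeZero M] [NeZero m] (hpp : p.Prime)
    (hmM : m ∣ M) (hMp : M.Coprime p) (h : LimLP m p) {v : ZMod M → ℤ} (h0 : v 0 = 0)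
    (hT : IsTor p (iota M v)) {w : FQ} (hw : w ∈ LevF m)
    (hvw : lft (e p) (iota M v) = lft (e p) w) : LimP M p v := by
  have hmp : m.Coprime p := hMp.coprime_dvd_left hmM
  obtain ⟨v', h0', hv'⟩ := exists_fun p hw
  have h1 : lft (e p) w = lft (e p) (iota m v') := by
    rw [← sub_eq_zero, ← map_sub, lft_eq_zero]
    exact ⟨m, NeZero.pos m, hmp, hv'⟩
  have h2 : IsTor p (iota m v') := isTor_of_eq hT (hvw.trans h1)
  have h3 : Bal m p v' := by
    obtain ⟨g, hg, hpg⟩ : ∃ g : ℕ, 0 < g ∧ (p : ZMod m) ^ g = 1 := by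
      refine ⟨m.totient, Nat.totient_pos.mpr (NeZero.pos m), ?_⟩
      have h1 := (ZMod.natCast_eq_natCast_iff _ _ _).mpr (Nat.ModEq.pow_totient hmp.symm)
      rwa [Nat.cast_pow, Nat.cast_one] at h1
    exact ⟨h0', g, hg, hpg, pair_of_tor hB hpp h0' h2 hg hpg⟩
  refine limP_of_eq hB hpp hMp h0 (push_zero' hmM h0') ?_ ((h v' h3).push hmM hMp)
  rw [iota_push hmM, hvw, h1]

/-- **Descent to a divisor with the same prime factors.** -/
theorem limLP_odd (hB : StBasic) (hCL : StCL) (hTor : StTor) {m n p : ℕ} (hpp : p.Prime)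
    (hn : Odd n) (hnm : ∀ l : ℕ, l.Prime → l ∣ n → l ∣ m) (h : LimLP m p) :
    LimLP (n * m) p := by
  intro hM0 v hv
  obtain ⟨h0, f, hf, hp, hb⟩ := hv
  have hMp := coprime_of_pow hf hp
  have hm0 : m ≠ 0 := by
    rintro rfl
    exact hM0.out (mul_zero n)
  have : NeZero m := ⟨hm0⟩
  by_cases hM : n * m = 1
  · have h1 : m = 1 := Nat.eq_one_of_mul_eq_one_left hM
    have h2 : n = 1 := Nat.eq_one_of_mul_eq_one_right hM
    subst h1
    subst h2
    rw [bal_one h0]
    exact limP_zero hpp hMp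
  have hM1 : 1 < n * m := by
    have := NeZero.pos (n * m)
    omega
  have hT := iota_tor hTor hM1 hf hp h0 hb
  obtain ⟨w, hw, hvw⟩ := descend_all hCL hpp (NeZero.pos m)
    (hMp.coprime_dvd_left (dvd_mul_left m n)) n hn hnm (iota_mem v) hT
  exact limP_of_lower hB hpp (dvd_mul_left m n) hMp h h0 hT hw hvw

end Pool.Agent.Lib.MP81632f.Lv
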