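import Pool.Agent.Lib.MP_81632f_ag.Lv.Lim
import Pool.Agent.Lib.MP_81632f_ag.Diag.Multi

/-!
# Levels: several coprime levels
-/

set_option autoImplicit false

noncomputable section

namespace Pool.Agent.Lib.MP81632f.Lv

open Finset
open Pool.Agent.Lib.MP81632f.Diag
open Crit Two Push TP
open Red (ev)

section Indep

variable {M p f g : ℕ} [NeZero M]

omit [NeZero M] in
/-- the balanced multisets do not depend on the exponent -/
theorem bal_f (hf : 0 < f) (hpf : (p : ZMod M) ^ f = 1) (hpg : (p : ZMod M) ^ g = 1)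
    {X : Multiset (ZMod M)} (h : BalM M p f X) : BalM M p g X := by
  intro t
  have h1 : (f : ℤ) * (X.map fun x => saw M p g t x).sum =
      (g : ℤ) * (X.map fun x => saw M p f t x).sum := by
    rw [← Multiset.sum_map_mul_left, ← Multiset.sum_map_mul_left]
    refine congrArg _ (Multiset.map_congr rfl fun x _ => ?_)
    have h3 := Transfer.saw_mul hpf (t : ZMod M) x g
    have h4 := Transfer.saw_mul hpg (t : ZMod M) x f
    rw [mul_comm f g, h3] at h4
    exact h4.symm
  rw [h t, mul_zero] at h1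
  rcases mul_eq_zero.mp h1 with h2 | h2
  · exfalso
    have : f = 0 := by exact_mod_cast h2
    omega
  · exact h2

omit [NeZero M] in
theorem sub_f (hf : 0 < f) (hpf : (p : ZMod M) ^ f = 1) (hpg : (p : ZMod M) ^ g = 1) :
    Sub M p f ≤ Sub M p g := by
  refine AddSubgroup.closure_mono (Set.image_mono ?_)
  rintro s (⟨A, B, hA, hB, rfl, hbal⟩ | h)
  · exact Or.inl ⟨A, B, hA, hB, rfl, bal_f hf hpf hpg hbal⟩
  · exact Or.inr h

omit [NeZero M] in
theorem ss_f (hf : 0 < f) (hpf : (p : ZMod M) ^ f = 1) (hpg : (p : ZMod M) ^ g = 1) :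
    SS M p f ≤ SS M p g := by
  refine AddSubgroup.closure_mono ?_
  rintro v ⟨y, ⟨hy0, hy⟩, rfl⟩
  refine ⟨y, ⟨hy0, fun t => ?_⟩, rfl⟩
  have h3 := Transfer.saw_mul hpf (t : ZMod M) y g
  have h4 := Transfer.saw_mul hpg (t : ZMod M) y f
  rw [mul_comm f g, h3, hy t, mul_zero] at h4
  rcases mul_eq_zero.mp h4.symm with h2 | h2
  · exfalso
    have : f = 0 := by exact_mod_cast h2
    omega
  · exact h2

theorem ws_f (hf : 0 < f) (hpf : (p : ZMod M) ^ f = 1) (hpg : (p : ZMod M) ^ g = 1) :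
    WS M p f ≤ WS M p g := sup_le_sup (sub_f hf hpf hpg) (ss_f hf hpf hpg)

theorem push_self (v : ZMod M → ℤ) : push M M v = v := by
  have h1 : v = ∑ x, v x • ev x := Transfer.sum_ev v
  conv_rhs => rw [h1]
  change ∑ y, v y • ev (inc M M y) = _
  refine Finset.sum_congr rfl fun y _ => ?_
  congr 2
  unfold inc
  rw [Nat.div_self (NeZero.pos M), Nat.cast_one, one_mul, ZMod.natCast_zmod_val]

theorem limP_of_ws (hM : 1 < M) (hf : 0 < f) (hpf : (p : ZMod M) ^ f = 1) {v : ZMod M → ℤ}
    (hv : v ∈ WS M p f) : LimP M p v := by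
  refine ⟨M, inferInstance, hM, coprime_of_pow hf hpf, dvd_refl M, fun g _ hpg => ?_⟩
  rw [push_self]
  exact ws_f hf hpf hpg hv

end Indep

section Several

variable {M p f : ℕ} [NeZero M]

open Multi New in
/-- several levels -/
theorem lim_levels (hB : StBasic) (hpp : p.Prime) (hM : 1 < M) (hf : 0 < f)
    (hp : (p : ZMod M) ^ f = 1) (D : Finset ℕ) (hD : ∀ d ∈ D, d ∣ M ∧ LimLP d p)
    (hcop : ∀ d ∈ D, ∀ e ∈ D, d ≠ e → Nat.Coprime d e) {v : ZMod M → ℤ} (hv0 : v 0 = 0)
    (hv : ∀ x, v x ≠ 0 → ∃ d ∈ D, d • x = 0) (hvb : ∀ t : (ZMod M)ˣ, pair M p f t v = 0) :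
    LimP M p v := by
  classical
  have hMp := coprime_of_pow hf hp
  induction D using Finset.induction_on generalizing v with
  | empty =>
    have h0 : v = 0 := by
      funext x
      by_contra h
      obtain ⟨d, hd, -⟩ := hv x h
      exact absurd hd (Finset.notMem_empty d)
    rw [h0]
    exact limP_zero hpp hMp
  | insert d D hd ih =>
    let a : ZMod M → ℤ := fun x => if d • x = 0 then v x else 0
    let b : ZMod M → ℤ := fun x => if d • x = 0 then 0 else v x
    have hab : a + b = v := by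
      funext x
      change (if d • x = 0 then v x else 0) + (if d • x = 0 then 0 else v x) = v x
      split_ifs <;> simp
    have ha0 : a 0 = 0 := by
      change (if d • (0 : ZMod M) = 0 then v 0 else 0) = 0
      rw [hv0, ite_self]
    have ha : ∀ x, a x ≠ 0 → d • x = 0 := by
      intro x hx
      by_contra h
      exact hx (if_neg h)
    have hb0 : b 0 = 0 := by
      change (if d • (0 : ZMod M) = 0 then 0 else v 0) = 0
      rw [hv0, ite_self]
    have hb : ∀ x, b x ≠ 0 → ∃ e ∈ D, e • x = 0 := by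
      intro x hx
      have h1 : ¬ d • x = 0 := fun h => hx (if_pos h)
      have h2 : v x ≠ 0 := fun h => hx (by
        change (if d • x = 0 then 0 else v x) = 0
        rw [if_neg h1, h])
      obtain ⟨e, he, h3⟩ := hv x h2
      rcases Finset.mem_insert.mp he with rfl | he
      · exact absurd h3 h1
      · exact ⟨e, he, h3⟩
    have hcopD : ∀ e ∈ D, Nat.Coprime d e := fun e he => hcop d (Finset.mem_insert_self _ _) e
      (Finset.mem_insert_of_mem he) (by rintro rfl; exact hd he)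
    obtain ⟨hdM, hLP⟩ := hD d (Finset.mem_insert_self _ _)
    have hcop' : ∀ d ∈ D, ∀ e ∈ D, d ≠ e → Nat.Coprime d e := fun d hd e he =>
      hcop d (Finset.mem_insert_of_mem hd) e (Finset.mem_insert_of_mem he)
    have hab' : ∀ t : (ZMod M)ˣ, pair M p f t (a + b) = 0 := by rw [hab]; exact hvb
    have hA : ∀ t : (ZMod M)ˣ, pair M p f t a = 0 :=
      sep_two hB hM hf hp hdM
        (prod_dvd D (fun e he => (hD e (Finset.mem_insert_of_mem he)).1) hcop')
        (Nat.Coprime.prod_right hcopD) ha0 ha (fun x hx => by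
          obtain ⟨e, he, h1⟩ := hb x hx
          obtain ⟨c, hc⟩ := Finset.dvd_prod_of_mem (fun e => e) he
          rw [hc, mul_comm, mul_smul, h1, smul_zero]) hab'
    have hBb : ∀ t : (ZMod M)ˣ, pair M p f t b = 0 := by
      intro t
      have h1 := hab' t
      rw [map_add, hA t, zero_add] at h1
      exact h1
    have : NeZero d := ⟨by
      rintro rfl
      exact NeZero.ne M (zero_dvd_iff.mp hdM)⟩
    have hinc : a ∈ Inc M d := by
      rw [Transfer.sum_ev a]
      refine AddSubgroup.sum_mem _ fun x _ => ?_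
      by_cases hx : a x = 0
      · rw [hx, zero_smul]
        exact zero_mem _
      · refine AddSubgroup.zsmul_mem _ (inc_of_smul hdM ?_ (ha x hx)) _
        rintro rfl
        exact hx ha0
    obtain ⟨w, hw0, hw⟩ := hinc
    have hlimw : LimP d p w := hLP w ⟨hw0, f, hf, pow_of_dvd hdM hp, by
      refine bal_of_push hdM ?_
      rw [hw]
      exact hA⟩
    have h1 := hlimw.push hdM hMp
    rw [hw] at h1
    have h2 := ih (fun e he => hD e (Finset.mem_insert_of_mem he)) hcop' hb0 hb hBb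
    have h3 := h1.add h2
    rwa [hab] at h3

open Multi in
/-- several coprime levels and their doubles -/
theorem lim_multi (hB : StBasic) (hpp : p.Prime) (hM : 1 < M) (hf : 0 < f)
    (hp : (p : ZMod M) ^ f = 1) (D : Finset ℕ) (hD : ∀ d ∈ D, d ∣ M ∧ LimLP d p)
    (hcop : ∀ d ∈ D, ∀ e ∈ D, d ≠ e → Nat.Coprime d e) {v : ZMod M → ℤ} (hv0 : v 0 = 0)
    (hv : ∀ x, v x ≠ 0 → ∃ d ∈ D, d • x = 0 ∨ (Odd d ∧ (2 * d) • x = 0))
    (hvb : ∀ t : (ZMod M)ˣ, pair M p f t v = 0) : LimP M p v := by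
  set L := Lev M (fun x => ∃ d ∈ D, d • x = 0) with hL
  let W : AddSubgroup (ZMod M → ℤ) := Sub M p f ⊔ SS M p f ⊔ L
  have hSW : Sub M p f ≤ W := le_sup_left.trans le_sup_left
  have hZW : SS M p f ≤ W := le_sup_right.trans le_sup_left
  have hLW : L ≤ W := le_sup_right
  have hmem : ∀ x : ZMod M, v x ≠ 0 → ev x ∈ W := by
    intro x hx
    have hx0 : x ≠ 0 := by
      rintro rfl
      exact hx hv0
    obtain ⟨d, hd, h | ⟨hdo, h⟩⟩ := hv x hx
    · exact hLW (lev_ev hx0 ⟨d, hd, h⟩)
    by_cases hc0 : d • x = 0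
    · exact hLW (lev_ev hx0 ⟨d, hd, hc0⟩)
    have h2c : 2 • (d • x) = 0 := by rw [← mul_smul]; exact h
    have h2M : 2 ∣ M := by
      have h1 : addOrderOf (d • x) = 2 := addOrderOf_eq_prime h2c hc0
      rw [← h1]
      exact (addOrderOf_dvd_card).trans (by rw [ZMod.card])
    have hcW : ev (d • x) ∈ W := hZW (ss_mem (ss_of_two hf hp hc0 h2c))
    have hdy : d • (x + d • x) = 0 := by
      rw [smul_add, odd_smul hdo h2c, ← two_smul ℕ (d • x)]
      exact h2c
    have hxy : x + d • x + d • x = x := by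
      rw [add_assoc, ← two_smul ℕ (d • x), h2c, add_zero]
    by_cases hy0 : x + d • x = 0
    · rw [hy0, zero_add] at hxy
      rw [← hxy]
      exact hcW
    have h2y : ((2 : ℕ) : ZMod M) * (x + d • x) ≠ 0 := by
      intro h1
      rw [← nsmul_eq_mul] at h1
      exact hy0 (by rw [← odd_smul hdo h1]; exact hdy)
    have h4 := Red.dh_mem (p := p) (f := f) Nat.prime_two h2M (y := x + d • x) h2y
    have hs2 : ∑ j ∈ range 2, ev (x + d • x + (j : ZMod M) * ((M / 2 : ℕ) : ZMod M)) =
        ev (x + d • x) + ev (x + d • x + ((M / 2 : ℕ) : ZMod M)) := by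
      rw [sum_range_succ, sum_range_one, Nat.cast_zero, zero_mul, add_zero, Nat.cast_one, one_mul]
    have hs1 : ∑ j ∈ range (2 - 1), ev (((j + 1 : ℕ) : ZMod M) * ((M / 2 : ℕ) : ZMod M)) =
        ev ((M / 2 : ℕ) : ZMod M) := by
      rw [show 2 - 1 = 1 from rfl, sum_range_one, zero_add, Nat.cast_one, one_mul]
    rw [hs2, hs1, ← Red.two_torsion h2M h2c hc0, hxy] at h4
    have hyL : ev (x + d • x) ∈ W := hLW (lev_ev hy0 ⟨d, hd, hdy⟩)
    have h2yL : ev (-(((2 : ℕ) : ZMod M) * (x + d • x))) ∈ W :=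
      hLW (lev_ev (neg_ne_zero.mpr h2y) ⟨d, hd, by
        rw [smul_neg, ← nsmul_eq_mul, smul_comm, hdy, smul_zero, neg_zero]⟩)
    have h5 : ev x = (ev (x + d • x) + ev x + ev (-(((2 : ℕ) : ZMod M) * (x + d • x))) +
        ev (d • x)) - ev (x + d • x) - ev (-(((2 : ℕ) : ZMod M) * (x + d • x))) - ev (d • x) := by
      abel
    rw [h5]
    exact sub_mem (sub_mem (sub_mem (hSW h4) hyL) h2yL) hcW
  have hvW : v ∈ W := by
    rw [Transfer.sum_ev v]
    refine AddSubgroup.sum_mem _ fun x _ => ?_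
    by_cases hx : v x = 0
    · rw [hx, zero_smul]
      exact zero_mem _
    · exact AddSubgroup.zsmul_mem _ (hmem x hx) _
  obtain ⟨y, hy, v', hv', hyv⟩ := AddSubgroup.mem_sup.mp hvW
  have hb' : ∀ t : (ZMod M)ˣ, pair M p f t v' = 0 := by
    intro t
    have h1 := hvb t
    rw [← hyv, map_add, pair_ws hB hM hf hp t hy, zero_add] at h1
    exact h1
  rw [← hyv]
  exact (limP_of_ws hM hf hp hy).add (lim_levels hB hpp hM hf hp D hD hcop hv'.1 hv'.2 hb')

end Several

end Pool.Agent.Lib.MP81632f.Lv
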