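import Pool.Agent.Lib.MP_81632f_ag.Lv.Vec

/-!
# Levels: several coprime levels and parities
-/

set_option autoImplicit false

noncomputable section

namespace Pool.Agent.Lib.MP81632f.Lv

open Finset
open Pool.Agent.Lib.MP81632f.Diag
open Crit Two Push TP
open Red (ev)

section Mixed

variable {M p f : ℕ} [NeZero M]

open Multi New in
/-- several coprime levels: levels with the lattice property, and levels with even parities -/
theorem lim_mixed (hB : StBasic) (hCL : StCL) (hTor : StTor) (hpp : p.Prime) (hM : 1 < M)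
    (hf : 0 < f) (hp : (p : ZMod M) ^ f = 1) (G B : Finset ℕ) (hG : ∀ d ∈ G, d ∣ M ∧ LimLP d p)
    (hBd : ∀ d ∈ B, d ∣ M) (hGB : ∀ d ∈ G, ∀ e ∈ B, Nat.Coprime d e)
    (hcopG : ∀ d ∈ G, ∀ e ∈ G, d ≠ e → Nat.Coprime d e)
    (hcopB : ∀ d ∈ B, ∀ e ∈ B, d ≠ e → Nat.Coprime d e) {v : ZMod M → ℤ} (hv0 : v 0 = 0)
    (hv : ∀ x, v x ≠ 0 → (∃ d ∈ G, d • x = 0) ∨ ∃ d ∈ B, d • x = 0)
    (hvb : ∀ t : (ZMod M)ˣ, pair M p f t v = 0)
    (hpar : ∀ d ∈ B, ∀ R : ℕ, Odd R → Squarefree R → R ∣ d → (∀ i : ℕ, ¬ R ∣ p ^ i + 1) →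
      Even (nR M R v)) : LimP M p v := by
  classical
  let a : ZMod M → ℤ := fun x => if ∃ d ∈ G, d • x = 0 then v x else 0
  let b : ZMod M → ℤ := fun x => if ∃ d ∈ G, d • x = 0 then 0 else v x
  have hab : a + b = v := by
    funext x
    change (if ∃ d ∈ G, d • x = 0 then v x else 0) + (if ∃ d ∈ G, d • x = 0 then 0 else v x) = v x
    split_ifs <;> simp
  have ha0 : a 0 = 0 := by
    change (if ∃ d ∈ G, d • (0 : ZMod M) = 0 then v 0 else 0) = 0
    rw [hv0, ite_self]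
  have ha : ∀ x, a x ≠ 0 → ∃ d ∈ G, d • x = 0 := by
    intro x hx
    by_contra h
    exact hx (if_neg h)
  have hb0 : b 0 = 0 := by
    change (if ∃ d ∈ G, d • (0 : ZMod M) = 0 then 0 else v 0) = 0
    rw [hv0, ite_self]
  have hb : ∀ x, b x ≠ 0 → ∃ d ∈ B, d • x = 0 := by
    intro x hx
    have h1 : ¬ ∃ d ∈ G, d • x = 0 := fun h => hx (if_pos h)
    have h2 : v x ≠ 0 := fun h => hx (by
      change (if ∃ d ∈ G, d • x = 0 then 0 else v x) = 0
      rw [if_neg h1, h])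
    exact (hv x h2).resolve_left h1
  have hbv : ∀ x, (¬ ∃ d ∈ G, d • x = 0) → b x = v x := fun x h => if_neg h
  have hkill : ∀ (S : Finset ℕ) (x : ZMod M), (∃ d ∈ S, d • x = 0) → (∏ d ∈ S, d) • x = 0 := by
    rintro S x ⟨d, hd, h1⟩
    obtain ⟨c, hc⟩ := Finset.dvd_prod_of_mem (fun e => e) hd
    rw [hc, mul_comm, mul_smul, h1, smul_zero]
  have hab' : ∀ t : (ZMod M)ˣ, pair M p f t (a + b) = 0 := by rw [hab]; exact hvb
  have hA : ∀ t : (ZMod M)ˣ, pair M p f t a = 0 :=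
    sep_two hB hM hf hp (prod_dvd G (fun e he => (hG e he).1) hcopG)
      (prod_dvd B hBd hcopB)
      (Nat.Coprime.prod_left fun d hd => Nat.Coprime.prod_right fun e he => hGB d hd e he)
      ha0 (fun x hx => hkill G x (ha x hx)) (fun x hx => hkill B x (hb x hx)) hab'
  have hBb : ∀ t : (ZMod M)ˣ, pair M p f t b = 0 := by
    intro t
    have h1 := hab' t
    rw [map_add, hA t, zero_add] at h1
    exact h1
  have h1 : LimP M p a := lim_levels hB hpp hM hf hp G hG hcopG ha0 ha hA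
  have h2 : LimP M p b := by
    refine detect hB hCL hTor hpp ⟨hb0, f, hf, hp, hBb⟩ fun R hR1 hR2 _ hR3 => ?_
    by_cases h3 : ∃ d ∈ B, R ∣ d
    · obtain ⟨d, hd, hRd⟩ := h3
      have h4 : nR M R b = nR M R v := by
        unfold nR
        refine Finset.sum_congr rfl fun x hx => ?_
        rw [mem_filter] at hx
        refine hbv x ?_
        rintro ⟨e, he, h5⟩
        have h6 : R ∣ e := by
          rw [← hx.2.2]
          exact (rad_dvd _).trans (addOrderOf_dvd_of_nsmul_eq_zero h5)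
        have h7 := Nat.dvd_gcd h6 hRd
        rw [hGB e he d hd] at h7
        have h8 := hR3 0
        rw [pow_zero] at h8
        exact h8 (h7.trans (one_dvd _))
      rw [h4]
      exact hpar d hd R hR1 hR2 hRd hR3
    · have h4 : nR M R b = 0 := by
        unfold nR
        refine Finset.sum_eq_zero fun x hx => ?_
        rw [mem_filter] at hx
        by_contra h5
        obtain ⟨d, hd, h6⟩ := hb x h5
        refine h3 ⟨d, hd, ?_⟩
        rw [← hx.2.2]
        exact (rad_dvd _).trans (addOrderOf_dvd_of_nsmul_eq_zero h6)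
      rw [h4]
      exact Even.zero
  have h3 := h1.add h2
  rwa [hab] at h3

/-- the functions of the lattice with even parities -/
def W0 (M p f : ℕ) [NeZero M] : AddSubgroup (ZMod M → ℤ) where
  carrier := {y | y ∈ WS M p f ∧ ∀ R : ℕ, Even (nR M R y)}
  zero_mem' := ⟨zero_mem _, fun R => by
    have h1 : nR M R 0 = 0 := (nRh M R).map_zero
    rw [h1]
    exact Even.zero⟩
  add_mem' := by
    rintro a b ⟨ha, ha'⟩ ⟨hb, hb'⟩
    exact ⟨add_mem ha hb, fun R => by
      rw [nR_add]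
      exact (ha' R).add (hb' R)⟩
  neg_mem' := by
    rintro a ⟨ha, ha'⟩
    refine ⟨neg_mem ha, fun R => ?_⟩
    have h1 : nR M R (-a) = -nR M R a := (nRh M R).map_neg a
    rw [h1]
    exact (ha' R).neg

theorem not_odd_of_two {M : ℕ} {z : ZMod M} (hz : z ≠ 0) (h2 : 2 • z = 0) :
    addOrderOf z = 2 := addOrderOf_eq_prime h2 hz

open Multi in
/-- several coprime levels and their doubles -/
theorem lim_mixed_two (hB : StBasic) (hCL : StCL) (hTor : StTor) (hpp : p.Prime) (hM : 1 < M)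
    (hf : 0 < f) (hp : (p : ZMod M) ^ f = 1) (G B : Finset ℕ) (hG : ∀ d ∈ G, d ∣ M ∧ LimLP d p)
    (hBd : ∀ d ∈ B, d ∣ M) (hGB : ∀ d ∈ G, ∀ e ∈ B, Nat.Coprime d e)
    (hcopG : ∀ d ∈ G, ∀ e ∈ G, d ≠ e → Nat.Coprime d e)
    (hcopB : ∀ d ∈ B, ∀ e ∈ B, d ≠ e → Nat.Coprime d e) {v : ZMod M → ℤ} (hv0 : v 0 = 0)
    (hv : ∀ x, v x ≠ 0 → ∃ d ∈ G ∪ B, d • x = 0 ∨ (Odd d ∧ (2 * d) • x = 0))
    (hvb : ∀ t : (ZMod M)ˣ, pair M p f t v = 0)
    (hpar : ∀ d ∈ B, ∀ R : ℕ, Odd R → Squarefree R → R ∣ d → (∀ i : ℕ, ¬ R ∣ p ^ i + 1) →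
      Even (nR M R v)) : LimP M p v := by
  set L := Lev M (fun x => ∃ d ∈ G ∪ B, d • x = 0) with hL
  let W : AddSubgroup (ZMod M → ℤ) := W0 M p f ⊔ L
  have hSW : W0 M p f ≤ W := le_sup_left
  have hLW : L ≤ W := le_sup_right
  have hmem : ∀ x : ZMod M, v x ≠ 0 → ev x ∈ W := by
    intro x hx
    have hx0 : x ≠ 0 := by
      rintro rfl
      exact hx hv0
    obtain ⟨d, hd, h | ⟨hdo, h⟩⟩ := hv x hx
    · exact hLW (lev_ev hx0 ⟨d, hd, h⟩)
    by_cases hc0 : d • x = 0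
    · exact hLW (lev_ev hx0 ⟨d, hd, hc0⟩)
    have h2c : 2 • (d • x) = 0 := by rw [← mul_smul]; exact h
    have hoc : addOrderOf (d • x) = 2 := addOrderOf_eq_prime h2c hc0
    have h2M : 2 ∣ M := by
      rw [← hoc]
      exact (addOrderOf_dvd_card).trans (by rw [ZMod.card])
    have hnc : ∀ R : ℕ, nR M R (ev (d • x)) = 0 := by
      intro R
      rw [nR_ev, hoc, if_neg]
      exact fun h => absurd h.1 (by decide)
    have hcW : ev (d • x) ∈ W := hSW ⟨(le_sup_right : SS M p f ≤ _)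
      (ss_mem (ss_of_two hf hp hc0 h2c)), fun R => by rw [hnc]; exact Even.zero⟩
    have hdy : d • (x + d • x) = 0 := by
      rw [smul_add, odd_smul hdo h2c, ← two_smul ℕ (d • x)]
      exact h2c
    have hxy : x + d • x + d • x = x := by
      rw [add_assoc, ← two_smul ℕ (d • x), h2c, add_zero]
    by_cases hy0 : x + d • x = 0
    · rw [hy0, zero_add] at hxy
      rw [← hxy]
      exact hcW
    have h2y : ((2 : ℕ) : ZMod M) * (x + d • x) ≠ 0 := by
      intro h1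
      rw [← nsmul_eq_mul] at h1
      exact hy0 (by rw [← odd_smul hdo h1]; exact hdy)
    have h4 := Red.dh_mem (p := p) (f := f) Nat.prime_two h2M (y := x + d • x) h2y
    have hs2 : ∑ j ∈ range 2, ev (x + d • x + (j : ZMod M) * ((M / 2 : ℕ) : ZMod M)) =
        ev (x + d • x) + ev (x + d • x + ((M / 2 : ℕ) : ZMod M)) := by
      rw [sum_range_succ, sum_range_one, Nat.cast_zero, zero_mul, add_zero, Nat.cast_one, one_mul]
    have hs1 : ∑ j ∈ range (2 - 1), ev (((j + 1 : ℕ) : ZMod M) * ((M / 2 : ℕ) : ZMod M)) =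
        ev ((M / 2 : ℕ) : ZMod M) := by
      rw [show 2 - 1 = 1 from rfl, sum_range_one, zero_add, Nat.cast_one, one_mul]
    rw [hs2, hs1, ← Red.two_torsion h2M h2c hc0, hxy] at h4
    -- the parities
    have hyo : Odd (addOrderOf (x + d • x)) :=
      hdo.of_dvd_nat (addOrderOf_dvd_of_nsmul_eq_zero hdy)
    have hx2 : ¬ Odd (addOrderOf x) := by
      intro h6
      have h7 : addOrderOf x ∣ d := by
        have h8 : addOrderOf x ∣ 2 * d := addOrderOf_dvd_of_nsmul_eq_zero h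
        exact (Nat.coprime_two_right.mpr h6).dvd_of_dvd_mul_left h8
      exact hc0 (addOrderOf_dvd_iff_nsmul_eq_zero.mp h7)
    have h2o : addOrderOf (-(((2 : ℕ) : ZMod M) * (x + d • x))) = addOrderOf (x + d • x) := by
      rw [addOrderOf_neg, ← nsmul_eq_mul]
      exact Nat.Coprime.addOrderOf_nsmul (Nat.coprime_two_right.mpr hyo)
    have h6 : ev (x + d • x) + ev x + ev (-(((2 : ℕ) : ZMod M) * (x + d • x))) + ev (d • x) ∈
        W0 M p f := by
      refine ⟨(le_sup_left : Sub M p f ≤ _) h4, fun R => ?_⟩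
      rw [nR_add, nR_add, nR_add, hnc, nR_ev, nR_ev, nR_ev, h2o, add_zero, if_neg (c := Odd (addOrderOf x) ∧ _)
        (fun h => hx2 h.1), add_zero]
      exact ⟨_, rfl⟩
    have hyL : ev (x + d • x) ∈ W := hLW (lev_ev hy0 ⟨d, hd, hdy⟩)
    have h2yL : ev (-(((2 : ℕ) : ZMod M) * (x + d • x))) ∈ W :=
      hLW (lev_ev (neg_ne_zero.mpr h2y) ⟨d, hd, by
        rw [smul_neg, ← nsmul_eq_mul, smul_comm, hdy, smul_zero, neg_zero]⟩)
    have h5 : ev x = (ev (x + d • x) + ev x + ev (-(((2 : ℕ) : ZMod M) * (x + d • x))) +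
        ev (d • x)) - ev (x + d • x) - ev (-(((2 : ℕ) : ZMod M) * (x + d • x))) - ev (d • x) := by
      abel
    rw [h5]
    exact sub_mem (sub_mem (sub_mem (hSW h6) hyL) h2yL) hcW
  have hvW : v ∈ W := by
    rw [Transfer.sum_ev v]
    refine AddSubgroup.sum_mem _ fun x _ => ?_
    by_cases hx : v x = 0
    · rw [hx, zero_smul]
      exact zero_mem _
    · exact AddSubgroup.zsmul_mem _ (hmem x hx) _
  obtain ⟨y, hy, v', hv', hyv⟩ := AddSubgroup.mem_sup.mp hvW
  have hb' : ∀ t : (ZMod M)ˣ, pair M p f t v' = 0 := by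
    intro t
    have h1 := hvb t
    rw [← hyv, map_add, pair_ws hB hM hf hp t hy.1, zero_add] at h1
    exact h1
  rw [← hyv]
  refine (limP_of_ws hM hf hp hy.1).add (lim_mixed hB hCL hTor hpp hM hf hp G B hG hBd hGB hcopG
    hcopB hv'.1 (fun x hx => ?_) hb' fun d hd R h1 h2 h3 h4 => ?_)
  · obtain ⟨d, hd, h1⟩ := hv'.2 x hx
    rcases mem_union.mp hd with h2 | h2
    · exact Or.inl ⟨d, h2, h1⟩
    · exact Or.inr ⟨d, h2, h1⟩
  · have h5 := hpar d hd R h1 h2 h3 h4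
    rw [← hyv, nR_add] at h5
    exact (Int.even_add.mp h5).mp (hy.2 R)

end Mixed

end Pool.Agent.Lib.MP81632f.Lv
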