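import Pool.Agent.Lib.MP_81632f_ag.Lv.Mixed

/-!
# Levels: potential algebraicity for several coprime degrees
-/

set_option autoImplicit false

noncomputable section

namespace Pool.Agent.Lib.MP81632f.Lv

open Finset
open Pool.Agent.Lib.MP81632f.Diag
open Crit Two Push TP
open Red (ev)

section

variable {p : ℕ} [Fact p.Prime] {F : Type} [Field F] [Fintype F] [CharP F p]

/-- **Several coprime degrees**, good ones and ones with even parities. -/
theorem potAlg_mixed (hB : StBasic) (hCL : StCL) (hTor : StTor) (hT : StTrans) (hC : StClose)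
    (hE : StExt) (hCh : StChar) {ψ : AddChar F ℂ} (hψ : ψ ≠ 1) {s : Multiset (MulChar F ℂ)}
    (hs : IsTateSet ψ s) (hev : Even (Multiset.card s)) (D : Finset ℕ)
    (hD : ∀ d ∈ D, (∀ m : ℕ, m ∣ d → LimLP m p) ∨ ∀ R : ℕ, R ∣ d → Odd R → Squarefree R →
      (∀ i : ℕ, ¬ R ∣ p ^ i + 1) → Even (par R s))
    (hcop : ∀ d ∈ D, ∀ e ∈ D, d ≠ e → Nat.Coprime d e)
    (h : ∀ χ ∈ s, ∃ d ∈ D, χ ^ d = 1 ∨ (Odd d ∧ χ ^ (2 * d) = 1)) : PotAlg F s := by
  classical
  obtain ⟨n, -, hcard⟩ := FiniteField.card F p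
  obtain ⟨f, hf⟩ := n
  change Fintype.card F = p ^ f at hcard
  have hq : 1 < Fintype.card F := Fintype.one_lt_card
  have : NeZero (Fintype.card F - 1) := ⟨by omega⟩
  by_cases hM1 : Fintype.card F - 1 = 1
  · rw [empty_of_two hs hM1]
    exact potAlg_zero
  obtain ⟨θ, X, hθ, rfl, h0, hpf, hb⟩ := exists_bal hT hψ hs f hcard
  rw [Multiset.card_map] at hev
  refine potAlg_of hB hC hE hCh θ hθ h0 ?_ hev
  have hpow : ∀ (x : ZMod (Fintype.card F - 1)) (d : ℕ), (θ ^ x.val) ^ d = 1 → d • x = 0 := by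
    intro x d hd
    rw [← pow_mul] at hd
    have h1 := orderOf_dvd_of_pow_eq_one hd
    rw [hθ] at h1
    have h2 := (ZMod.natCast_eq_zero_iff (x.val * d) (Fintype.card F - 1)).mpr h1
    rw [Nat.cast_mul, ZMod.natCast_zmod_val, mul_comm, ← nsmul_eq_mul] at h2
    exact h2
  have hgcd : ∀ (x : ZMod (Fintype.card F - 1)) (d : ℕ), d • x = 0 →
      d.gcd (Fintype.card F - 1) • x = 0 := by
    intro x d hd
    have h1 : addOrderOf x ∣ d.gcd (Fintype.card F - 1) :=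
      Nat.dvd_gcd (addOrderOf_dvd_of_nsmul_eq_zero hd) (order_dvd x)
    exact addOrderOf_dvd_iff_nsmul_eq_zero.mp h1
  have hgcd2 : ∀ (x : ZMod (Fintype.card F - 1)) (d : ℕ), (2 * d) • x = 0 →
      (2 * d.gcd (Fintype.card F - 1)) • x = 0 := by
    intro x d hd
    have h1 : addOrderOf x ∣ (2 * d).gcd (Fintype.card F - 1) :=
      Nat.dvd_gcd (addOrderOf_dvd_of_nsmul_eq_zero hd) (order_dvd x)
    have h2 : (2 * d).gcd (Fintype.card F - 1) ∣ 2 * d.gcd (Fintype.card F - 1) := by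
      rw [Nat.gcd_comm, Nat.gcd_comm d]
      exact (Nat.gcd_mul_right_dvd_mul_gcd _ _ _).trans (Nat.mul_dvd_mul_right (Nat.gcd_dvd_right _ _) _)
    exact addOrderOf_dvd_iff_nsmul_eq_zero.mp (h1.trans h2)
  set D₁ := D.filter fun d => ∀ m : ℕ, m ∣ d → LimLP m p with hD₁
  set D₂ := D.filter fun d => ¬ ∀ m : ℕ, m ∣ d → LimLP m p with hD₂
  have hcop' : ∀ d ∈ D, ∀ e ∈ D, d ≠ e → Nat.Coprime (d.gcd (Fintype.card F - 1))
      (e.gcd (Fintype.card F - 1)) := fun d hd e he hde =>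
    ((hcop d hd e he hde).coprime_dvd_left (Nat.gcd_dvd_left _ _)).coprime_dvd_right
      (Nat.gcd_dvd_left _ _)
  refine lim_mixed_two hB hCL hTor Fact.out (by omega) hf hpf
    (D₁.image fun d => d.gcd (Fintype.card F - 1)) (D₂.image fun d => d.gcd (Fintype.card F - 1))
    ?_ ?_ ?_ ?_ ?_ (Basic.cnt_apply_zero h0) ?_ hb ?_
  · intro d' hd'
    obtain ⟨d, hd, rfl⟩ := mem_image.mp hd'
    exact ⟨Nat.gcd_dvd_right _ _, (mem_filter.mp hd).2 _ (Nat.gcd_dvd_left _ _)⟩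
  · intro d' hd'
    obtain ⟨d, hd, rfl⟩ := mem_image.mp hd'
    exact Nat.gcd_dvd_right _ _
  · intro d' hd' e' he'
    obtain ⟨d, hd, rfl⟩ := mem_image.mp hd'
    obtain ⟨e, he, rfl⟩ := mem_image.mp he'
    refine hcop' d (mem_filter.mp hd).1 e (mem_filter.mp he).1 ?_
    rintro rfl
    exact (mem_filter.mp he).2 (mem_filter.mp hd).2
  · intro d' hd' e' he' hne
    obtain ⟨d, hd, rfl⟩ := mem_image.mp hd'
    obtain ⟨e, he, rfl⟩ := mem_image.mp he'
    refine hcop' d (mem_filter.mp hd).1 e (mem_filter.mp he).1 ?_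
    rintro rfl
    exact hne rfl
  · intro d' hd' e' he' hne
    obtain ⟨d, hd, rfl⟩ := mem_image.mp hd'
    obtain ⟨e, he, rfl⟩ := mem_image.mp he'
    refine hcop' d (mem_filter.mp hd).1 e (mem_filter.mp he).1 ?_
    rintro rfl
    exact hne rfl
  · intro x hx
    have hxX : x ∈ X := by
      by_contra hn
      apply hx
      change ((X.count x : ℕ) : ℤ) = 0
      rw [Multiset.count_eq_zero_of_notMem hn, Nat.cast_zero]
    obtain ⟨d, hd, h1⟩ := h _ (Multiset.mem_map_of_mem _ hxX)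
    refine ⟨d.gcd (Fintype.card F - 1), ?_, ?_⟩
    · rw [mem_union]
      by_cases h2 : ∀ m : ℕ, m ∣ d → LimLP m p
      · exact Or.inl (mem_image_of_mem _ (mem_filter.mpr ⟨hd, h2⟩))
      · exact Or.inr (mem_image_of_mem _ (mem_filter.mpr ⟨hd, h2⟩))
    · rcases h1 with h1 | ⟨h1, h2⟩
      · exact Or.inl (hgcd x d (hpow x d h1))
      · exact Or.inr ⟨h1.of_dvd_nat (Nat.gcd_dvd_left _ _), hgcd2 x d (hpow x (2 * d) h2)⟩
  · intro d' hd' R h1 h2 h3 h4
    obtain ⟨d, hd, rfl⟩ := mem_image.mp hd'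
    have h5 := ((hD d (mem_filter.mp hd).1).resolve_left (mem_filter.mp hd).2) R
      (h3.trans (Nat.gcd_dvd_left _ _)) h1 h2 h4
    rw [nR_cnt hθ]
    exact_mod_cast h5

end

end Pool.Agent.Lib.MP81632f.Lv
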