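import Pool.Agent.Lib.MP_81632f_ag.Lv.VecC

/-!
# Levels: existence of the odd functions, closure of the levels
-/

set_option autoImplicit false

noncomputable section

namespace Pool.Agent.Lib.MP81632f.Lv

open Finset
open Pool.Agent.Lib.MP81632f.Diag
open Crit Two Push TP
open Red (ev)

/-! ### Existence of the odd functions -/

section Exist

variable {p M R₀ : ℕ} [NeZero R₀]

open Classical in
/-- the function given by a character of a subgroup -/
def ofChar (H : Subgroup (ZMod R₀)ˣ) (χ : (ZMod R₀)ˣ → ℤ) (a : ZMod R₀) : ℤ :=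
  if h : IsUnit a then χ ((QuotientGroup.mk h.unit : (ZMod R₀)ˣ ⧸ H).out⁻¹ * h.unit) else 0

theorem ofChar_unit (H : Subgroup (ZMod R₀)ˣ) (χ : (ZMod R₀)ˣ → ℤ) (u : (ZMod R₀)ˣ) :
    ofChar H χ (u : ZMod R₀) = χ ((QuotientGroup.mk u : (ZMod R₀)ˣ ⧸ H).out⁻¹ * u) := by
  unfold ofChar
  rw [dif_pos u.isUnit]
  have h1 : u.isUnit.unit = u := Units.ext rfl
  rw [h1]

omit [NeZero R₀] in
theorem out_mem (H : Subgroup (ZMod R₀)ˣ) (u : (ZMod R₀)ˣ) :
    (QuotientGroup.mk u : (ZMod R₀)ˣ ⧸ H).out⁻¹ * u ∈ H := by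
  rw [← QuotientGroup.eq, QuotientGroup.out_eq']

/-- **Existence.** -/
theorem exists_oddF (hR : Squarefree R₀) {ε : ℕ → ℤ} (H : Subgroup (ZMod R₀)ˣ)
    (χ : (ZMod R₀)ˣ → ℤ) (h1 : ∀ x ∈ H, ∀ y ∈ H, χ (x * y) = χ x * χ y)
    (h2 : ∀ x ∈ H, χ x = 1 ∨ χ x = -1) (hneg : -1 ∈ H) (hχ : χ (-1) = -1)
    (hp : ∃ u ∈ H, (u : ZMod R₀) = p ∧ χ u = 1)
    (hl : ∀ l : ℕ, l.Prime → l ∣ M → ¬ l ∣ R₀ → ∃ u ∈ H, (u : ZMod R₀) = l ∧ χ u = ε l)
    (hprim : ∀ l : ℕ, l.Prime → l ∣ R₀ → ∃ u ∈ H, χ u = -1 ∧ (l : ZMod R₀) * u = l) :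
    OddF p M R₀ (ofChar H χ) ε := by
  have hmul : ∀ h ∈ H, ∀ a : ZMod R₀, ofChar H χ ((h : ZMod R₀) * a) = χ h * ofChar H χ a := by
    intro h hh a
    by_cases ha : IsUnit a
    · obtain ⟨u, rfl⟩ := ha
      rw [← Units.val_mul, ofChar_unit, ofChar_unit]
      have e1 : (QuotientGroup.mk (h * u) : (ZMod R₀)ˣ ⧸ H) = QuotientGroup.mk u := by
        rw [QuotientGroup.eq, mul_inv_rev, mul_assoc, mul_comm h⁻¹ u, ← mul_assoc, inv_mul_cancel,
          one_mul]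
        exact inv_mem hh
      rw [e1, mul_left_comm, h1 h hh _ (out_mem H u)]
    · have ha' : ¬ IsUnit ((h : ZMod R₀) * a) := by
        rw [Units.isUnit_units_mul]
        exact ha
      unfold ofChar
      rw [dif_neg ha, dif_neg ha', mul_zero]
  refine ⟨hR, ?_, ?_, ?_, ?_, ?_, ?_, ?_⟩
  · intro a ha
    unfold ofChar
    rw [dif_neg ha]
  · rintro a ⟨u, rfl⟩
    rw [ofChar_unit]
    rcases h2 _ (out_mem H u) with h | h <;> rw [h]
    · exact odd_one
    · exact odd_neg_one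
  · intro a
    have h3 := hmul (-1) hneg a
    rw [Units.val_neg, Units.val_one, neg_one_mul, hχ, neg_one_mul] at h3
    exact h3
  · intro a
    obtain ⟨u, hu, e1, e2⟩ := hp
    rw [← e1, hmul u hu, e2, one_mul]
  · intro l hlp hlM hlR a
    obtain ⟨u, hu, e1, e2⟩ := hl l hlp hlM hlR
    rw [← e1, hmul u hu, e2]
  · intro l hlp hlM hlR
    obtain ⟨u, hu, -, e2⟩ := hl l hlp hlM hlR
    rw [← e2]
    exact h2 u hu
  · intro l hlp hlR a
    obtain ⟨u, hu, e1, e2⟩ := hprim l hlp hlR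
    rw [← sum_fib (ofChar H χ) hlp hlR a]
    have h3 : ∑ y with (l : ZMod R₀) * y = (l : ZMod R₀) * a, ofChar H χ y =
        ∑ y with (l : ZMod R₀) * y = (l : ZMod R₀) * a, ofChar H χ ((u : ZMod R₀) * y) := by
      refine Finset.sum_bij' (fun y _ => ((u⁻¹ : (ZMod R₀)ˣ) : ZMod R₀) * y)
        (fun y _ => (u : ZMod R₀) * y) ?_ ?_ ?_ ?_ ?_
      · intro y hy
        rw [mem_filter] at hy ⊢
        refine ⟨mem_univ _, ?_⟩
        have h4 : (l : ZMod R₀) * ((u⁻¹ : (ZMod R₀)ˣ) : ZMod R₀) = l := by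
          nth_rewrite 1 [← e2]
          rw [mul_assoc, Units.mul_inv, mul_one]
        rw [← mul_assoc, h4, hy.2]
      · intro y hy
        rw [mem_filter] at hy ⊢
        exact ⟨mem_univ _, by rw [← mul_assoc, e2, hy.2]⟩
      · intro y _
        rw [← mul_assoc, Units.mul_inv, one_mul]
      · intro y _
        rw [← mul_assoc, Units.inv_mul, one_mul]
      · intro y _
        rw [← mul_assoc, Units.mul_inv, one_mul]
    have h4 : ∑ y with (l : ZMod R₀) * y = (l : ZMod R₀) * a, ofChar H χ ((u : ZMod R₀) * y) =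
        -∑ y with (l : ZMod R₀) * y = (l : ZMod R₀) * a, ofChar H χ y := by
      rw [← Finset.sum_neg_distrib]
      exact Finset.sum_congr rfl fun y _ => by rw [hmul u hu, e1, neg_one_mul]
    rw [h4] at h3
    omega

end Exist

/-! ### Closure of the levels -/

section Closure

variable {p : ℕ}

theorem LimLP.dvd (hp : p.Prime) {M N : ℕ} (hMN : M ∣ N) (hN : N ≠ 0) (hNp : N.Coprime p)
    (h : LimLP N p) : LimLP M p := by
  intro hM v hv
  have : NeZero N := ⟨hN⟩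
  have : Fact p.Prime := ⟨hp⟩
  exact LimP.of_push hMN (h _ (hv.push hMN hNp))

/-- **Closure**: the levels `2 ^ a * K₀` determine all levels with the same prime factors. -/
theorem limLP_cl (hB : StBasic) (hCL : StCL) (hTor : StTor) (hp : p.Prime) {K₀ : ℕ} (hK : Odd K₀)
    (hKp : K₀.Coprime p) (h : ∀ a : ℕ, (2 ^ a).Coprime p → LimLP (2 ^ a * K₀) p) {m : ℕ}
    (hm : ∀ l : ℕ, l.Prime → l ∣ m → l ∣ 2 * K₀) : LimLP m p := by
  intro hm0 v hv
  have hmp : m.Coprime p := by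
    obtain ⟨-, f, hf, hpf, -⟩ := hv
    exact coprime_of_pow hf hpf
  obtain ⟨m₁, a, ha, h2m, hm10⟩ := level_form Nat.prime_two (NeZero.pos m)
  have hm1 : Odd m₁ := Nat.odd_iff.mpr (Nat.two_dvd_ne_zero.mp h2m)
  have h2p : (2 ^ a).Coprime p := hmp.coprime_dvd_left (by rw [ha]; exact dvd_mul_left _ _)
  have hm1p : m₁.Coprime p := hmp.coprime_dvd_left (by rw [ha]; exact dvd_mul_right _ _)
  have hK0 : 0 < K₀ := hK.pos
  have hN0 : m₁ * (2 ^ a * K₀) ≠ 0 := by positivity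
  have h1 : LimLP (m₁ * (2 ^ a * K₀)) p := by
    refine limLP_odd hB hCL hTor hp hm1 (fun l hl hlm => ?_) (h a h2p)
    have h3 := hm l hl (hlm.trans (by rw [ha]; exact dvd_mul_right _ _))
    rcases hl.dvd_mul.mp h3 with h4 | h4
    · have h5 : l = 2 := (Nat.prime_dvd_prime_iff_eq hl Nat.prime_two).mp h4
      rw [h5] at hlm
      exact absurd hlm h2m
    · exact h4.mul_left _
  refine LimLP.dvd hp ?_ hN0 (Nat.Coprime.mul_left hm1p (Nat.Coprime.mul_left h2p hKp)) h1 v hv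
  rw [ha]
  exact Nat.mul_dvd_mul_left m₁ (dvd_mul_right _ _)

/-- the vectors of level `2 ^ a * K₀` -/
theorem limLP_K (hB : StBasic) (hCL : StCL) (hTor : StTor) (hp : p.Prime) {K₀ a : ℕ}
    (hK : Odd K₀) (h : ∀ [NeZero (2 ^ a * K₀)] (v : ZMod (2 ^ a * K₀) → ℤ), Bal (2 ^ a * K₀) p v →
      ∑ R ∈ K₀.divisors.erase 1, nR (2 ^ a * K₀) R v • eR R ∈ VecG p hp) :
    LimLP (2 ^ a * K₀) p := by
  refine limLP_of_vec hB hCL hTor hp fun {_} v hv => ?_
  refine vecA_of_sum hp (K₀.divisors.erase 1) (fun R h1 _ h3 h4 => ?_) (h v hv)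
  by_cases h5 : R ∣ 2 ^ a * K₀
  · exfalso
    apply h4
    have h6 : R ∣ K₀ := (Nat.Coprime.pow_right a (Nat.coprime_two_right.mpr h1)).dvd_of_dvd_mul_left h5
    rw [mem_erase, Nat.mem_divisors]
    refine ⟨?_, h6, hK.pos.ne'⟩
    rintro rfl
    exact h3 0 (one_dvd _)
  · rw [nR_of_not h5]
    exact Even.zero

/-- the powers of `2` -/
theorem limLP_two_pow (hB : StBasic) (hCL : StCL) (hTor : StTor) (hp : p.Prime) {m : ℕ}
    (hm : ∀ l : ℕ, l.Prime → l ∣ m → l = 2) : LimLP m p := by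
  refine limLP_cl hB hCL hTor hp (K₀ := 1) odd_one (Nat.coprime_one_left p) (fun a _ => ?_)
    (fun l hl hlm => by rw [hm l hl hlm, mul_one])
  refine limLP_K hB hCL hTor hp odd_one fun {_} v _ => ?_
  rw [Nat.divisors_one, Finset.erase_singleton, Finset.sum_empty]
  exact zero_mem _

end Closure

end Pool.Agent.Lib.MP81632f.Lv
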