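import Pool.Agent.Lib.MP_81632f_ag.Lv.Det

/-!
# Levels: parities of the orders
-/

set_option autoImplicit false

noncomputable section

namespace Pool.Agent.Lib.MP81632f.Lv

open Finset

section Group

variable {G : Type*} [CommGroup G]

/-- `1` if the order of `y` is odd with radical `R`, otherwise `0` -/
def PP (R : ℕ) (y : G) : ℕ := if Odd (orderOf y) ∧ rad (orderOf y) = R then 1 else 0

theorem pp_congr {G' : Type*} [CommGroup G'] (R : ℕ) {y : G} {z : G'} (h : Odd (orderOf y) ↔ Odd (orderOf z))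
    (h' : rad (orderOf y) = rad (orderOf z)) : PP R y = PP R z := by
  unfold PP
  by_cases h1 : Odd (orderOf z) ∧ rad (orderOf z) = R
  · rw [if_pos h1, if_pos ⟨h.mpr h1.1, h'.trans h1.2⟩]
  · rw [if_neg h1, if_neg fun h2 => h1 ⟨h.mp h2.1, h'.symm.trans h2.2⟩]

theorem pp_even (R : ℕ) {y : G} (h : ¬ Odd (orderOf y)) : PP R y = 0 := by
  unfold PP
  rw [if_neg fun h' => h h'.1]

theorem pp_inv (R : ℕ) (y : G) : PP R y⁻¹ = PP R y := by
  unfold PP
  rw [orderOf_inv]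

/-- the order of an `ℓ`-th root -/
theorem order_root {ℓ : ℕ} (hℓ : ℓ.Prime) {y z : G} (h : y ^ ℓ = z) (hz : 0 < orderOf z) :
    orderOf y = orderOf z ∧ ¬ ℓ ∣ orderOf z ∨ orderOf y = ℓ * orderOf z := by
  have hy : 0 < orderOf y := by
    rw [orderOf_pos_iff] at hz ⊢
    rw [← h] at hz
    exact (isOfFinOrder_pow.mp hz).resolve_right hℓ.ne_zero
  have h1 : orderOf z = orderOf y / (orderOf y).gcd ℓ := by
    rw [← h]
    exact orderOf_pow' y hℓ.ne_zero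
  rcases (Nat.dvd_prime hℓ).mp (Nat.gcd_dvd_right (orderOf y) ℓ) with h2 | h2
  · left
    rw [h2, Nat.div_one] at h1
    refine ⟨h1.symm, ?_⟩
    rw [h1]
    intro h3
    have h4 : ℓ ∣ (orderOf y).gcd ℓ := Nat.dvd_gcd h3 (dvd_refl _)
    rw [h2] at h4
    exact hℓ.one_lt.ne' (Nat.dvd_one.mp h4)
  · right
    have h3 : ℓ ∣ orderOf y := by
      rw [← h2]
      exact Nat.gcd_dvd_left _ _
    rw [h2] at h1
    rw [h1, Nat.mul_div_cancel' h3]

/-- **The distribution relation modulo `2`.** -/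
theorem pp_sum (R : ℕ) {ℓ : ℕ} (hℓ : ℓ.Prime) {ρ χ : G} (hρ : orderOf ρ = ℓ)
    (hcyc : ∀ y : G, y ^ ℓ = 1 → ∃ j : ℕ, y = ρ ^ j) (hfin : 0 < orderOf (χ ^ ℓ)) :
    ∑ j ∈ range ℓ, PP R (χ * ρ ^ j) ≡ PP R (χ ^ ℓ) [MOD 2] := by
  set z := χ ^ ℓ with hz
  have hroot : ∀ j : ℕ, (χ * ρ ^ j) ^ ℓ = z := by
    intro j
    rw [mul_pow, ← pow_mul, mul_comm j, pow_mul, ← hρ, pow_orderOf_eq_one, one_pow, mul_one, hρ]
  set n := orderOf z with hn
  by_cases hodd : Odd n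
  swap
  · have h1 : ∀ j ∈ range ℓ, PP R (χ * ρ ^ j) = 0 := by
      intro j _
      refine pp_even R fun h2 => hodd ?_
      refine h2.of_dvd_nat ?_
      rw [hn, ← hroot j]
      exact orderOf_pow_dvd ℓ
    rw [Finset.sum_congr rfl h1, Finset.sum_const_zero, pp_even R hodd]
  by_cases hdvd : ℓ ∣ n
  · have hℓodd : Odd ℓ := hodd.of_dvd_nat hdvd
    have h1 : ∀ j ∈ range ℓ, PP R (χ * ρ ^ j) = PP R z := by
      intro j _
      rcases order_root hℓ (hroot j) hfin with ⟨-, h2⟩ | h2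
      · exact absurd hdvd h2
      · refine pp_congr R ?_ ?_
        · rw [h2]
          exact iff_of_true (hℓodd.mul hodd) hodd
        · rw [h2]
          exact rad_mul hℓ hfin hdvd
    rw [Finset.sum_congr rfl h1, Finset.sum_const, card_range, smul_eq_mul]
    obtain ⟨k, hk⟩ := hℓodd
    rw [hk, Nat.ModEq, add_mul, one_mul, mul_assoc, Nat.mul_add_mod]
  -- the new prime
  have hcop : Nat.Coprime n ℓ := ((Nat.Prime.coprime_iff_not_dvd hℓ).mpr hdvd).symm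
  have hzn : z ^ n = 1 := pow_orderOf_eq_one z
  obtain ⟨a, ha⟩ := hcyc (χ ^ n) (by rw [← pow_mul, mul_comm, pow_mul, ← hz, hzn])
  have : NeZero ℓ := ⟨hℓ.ne_zero⟩
  have : Fact ℓ.Prime := ⟨hℓ⟩
  have hn0 : (n : ZMod ℓ) ≠ 0 := by
    rw [Ne, ZMod.natCast_eq_zero_iff]
    exact hdvd
  -- the index of the element of order `n`
  let j₀ : ℕ := (-(a : ZMod ℓ) / (n : ZMod ℓ)).val
  have hj₀ : j₀ ∈ range ℓ := mem_range.mpr (ZMod.val_lt _)
  have hpow : ∀ j : ℕ, (χ * ρ ^ j) ^ n = ρ ^ (a + j * n) := by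
    intro j
    rw [mul_pow, ha, ← pow_mul, pow_add]
  have h0 : (χ * ρ ^ j₀) ^ n = 1 := by
    rw [hpow, ← orderOf_dvd_iff_pow_eq_one, hρ, ← ZMod.natCast_eq_zero_iff]
    push_cast
    rw [ZMod.natCast_zmod_val]
    field_simp
    ring
  have h1 : ∀ j ∈ range ℓ, j ≠ j₀ → (χ * ρ ^ j) ^ n ≠ 1 := by
    intro j hj hne h2
    apply hne
    rw [hpow, ← orderOf_dvd_iff_pow_eq_one, hρ, ← ZMod.natCast_eq_zero_iff] at h2
    have h3 : (j : ZMod ℓ) = -(a : ZMod ℓ) / (n : ZMod ℓ) := by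
      rw [eq_div_iff hn0]
      push_cast at h2
      linear_combination h2
    change j = (-(a : ZMod ℓ) / (n : ZMod ℓ)).val
    rw [← h3, ZMod.val_natCast_of_lt (mem_range.mp hj)]
  have h2 : PP R (χ * ρ ^ j₀) = PP R z := by
    rcases order_root hℓ (hroot j₀) hfin with ⟨h3, -⟩ | h3
    · exact pp_congr R (by rw [h3]) (by rw [h3])
    · exfalso
      have h4 := orderOf_dvd_of_pow_eq_one h0
      rw [h3] at h4
      have h5 : ℓ * n ≤ n := Nat.le_of_dvd hfin h4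
      have h6 : 2 * n ≤ ℓ * n := Nat.mul_le_mul_right n hℓ.two_le
      have h7 : 0 < n := hfin
      omega
  have h3 : ∀ j ∈ range ℓ, j ≠ j₀ → orderOf (χ * ρ ^ j) = ℓ * n := by
    intro j hj hne
    rcases order_root hℓ (hroot j) hfin with ⟨h4, -⟩ | h4
    · exact absurd (by rw [← hn] at h4; rw [← h4, pow_orderOf_eq_one]) (h1 j hj hne)
    · exact h4
  obtain ⟨c, hc⟩ : ∃ c : ℕ, (∀ j ∈ range ℓ, j ≠ j₀ → PP R (χ * ρ ^ j) = c) ∧
      2 ∣ (ℓ - 1) * c := by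
    by_cases h5 : Odd (ℓ * n) ∧ rad (ℓ * n) = R
    · refine ⟨1, fun j hj hne => ?_, ?_⟩
      · unfold PP
        rw [h3 j hj hne, if_pos h5]
      · rw [mul_one]
        obtain ⟨k, hk⟩ := (Nat.odd_mul.mp h5.1).1
        exact ⟨k, by omega⟩
    · refine ⟨0, fun j hj hne => ?_, by rw [mul_zero]; exact dvd_zero _⟩
      unfold PP
      rw [h3 j hj hne, if_neg h5]
  rw [← Finset.add_sum_erase _ _ hj₀, h2]
  have h4 : ∀ j ∈ (range ℓ).erase j₀, PP R (χ * ρ ^ j) = c := by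
    intro j hj
    rw [mem_erase] at hj
    exact hc.1 j hj.2 hj.1
  rw [Finset.sum_congr rfl h4, Finset.sum_const, Finset.card_erase_of_mem hj₀, card_range,
    smul_eq_mul]
  obtain ⟨k, hk⟩ := hc.2
  rw [hk, Nat.ModEq, Nat.add_mul_mod_self_left]

/-- the sum over the nontrivial powers of `ρ` -/
theorem pp_third (R : ℕ) {ℓ : ℕ} (hℓ : ℓ.Prime) {ρ : G} (hρ : orderOf ρ = ℓ) :
    ∑ j ∈ range (ℓ - 1), PP R (ρ ^ (j + 1)) ≡ 0 [MOD 2] := by
  have h1 : ∀ j ∈ range (ℓ - 1), orderOf (ρ ^ (j + 1)) = ℓ := by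
    intro j hj
    rw [mem_range] at hj
    rw [← hρ]
    refine Nat.Coprime.orderOf_pow ?_
    rw [hρ, Nat.Prime.coprime_iff_not_dvd hℓ]
    intro h
    have := Nat.le_of_dvd (Nat.succ_pos j) h
    omega
  have h2 : ∀ j ∈ range (ℓ - 1), PP R (ρ ^ (j + 1)) = if Odd ℓ ∧ rad ℓ = R then 1 else 0 := by
    intro j hj
    unfold PP
    rw [h1 j hj]
  rw [Finset.sum_congr rfl h2, Finset.sum_const, card_range, smul_eq_mul]
  split_ifs with h
  · obtain ⟨k, hk⟩ := h.1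
    rw [mul_one]
    exact (Nat.modEq_zero_iff_dvd).mpr ⟨k, by omega⟩
  · rw [mul_zero]

end Group

end Pool.Agent.Lib.MP81632f.Lv
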