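import Pool.Agent.Lib.MP_81632f_ag.Lv.Free

/-!
# Levels: a new prime number fixes the torsion elements
-/

set_option autoImplicit false

noncomputable section

namespace Pool.Agent.Lib.MP81632f.Lv

open Finset

/-! ### Sums over cosets -/

section Coset

variable {G A : Type*} [CommGroup G] [Fintype G] [AddCommGroup A] (H : Subgroup G)

noncomputable instance : Fintype (G ⧸ H) := Fintype.ofFinite _

theorem sum_coset (f : G → A) (hf : ∀ h ∈ H, ∀ z, f (h * z) = f z) :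
    ∑ z, f z = Nat.card H • ∑ q : G ⧸ H, f q.out := by
  classical
  have : Fintype H := Fintype.ofFinite _
  rw [← Finset.sum_fiberwise univ (fun z => (QuotientGroup.mk z : G ⧸ H)) f, Finset.smul_sum]
  refine Finset.sum_congr rfl fun q _ => ?_
  have h1 : ∑ z with (QuotientGroup.mk z : G ⧸ H) = q, f z = ∑ h : H, f (h * q.out) := by
    refine (Finset.sum_bij (fun (h : H) _ => (h : G) * q.out) ?_ ?_ ?_ ?_).symm
    · intro h _
      rw [mem_filter]
      refine ⟨mem_univ _, ?_⟩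
      have h2 : (QuotientGroup.mk ((h : G) * q.out) : G ⧸ H) = QuotientGroup.mk q.out := by
        rw [QuotientGroup.eq]
        have h3 : ((h : G) * q.out)⁻¹ * q.out = (h : G)⁻¹ := by
          rw [mul_inv_rev, mul_comm, ← mul_assoc, mul_inv_cancel, one_mul]
        rw [h3]
        exact H.inv_mem h.2
      rw [h2, QuotientGroup.out_eq']
    · intro a _ b _ h
      exact Subtype.ext (mul_right_cancel h)
    · intro z hz
      rw [mem_filter] at hz
      have h2 : (QuotientGroup.mk q.out : G ⧸ H) = QuotientGroup.mk z := by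
        rw [QuotientGroup.out_eq', hz.2]
      rw [QuotientGroup.eq] at h2
      refine ⟨⟨_, h2⟩, mem_univ _, ?_⟩
      change q.out⁻¹ * z * q.out = z
      rw [mul_comm, ← mul_assoc, mul_inv_cancel, one_mul]
    · intro h _
      rfl
  rw [h1, Finset.sum_congr rfl fun (h : H) _ => hf h h.2 q.out, Finset.sum_const, Finset.card_univ,
    Nat.card_eq_fintype_card]

theorem sum_out_mul (f : G → A) (hf : ∀ h ∈ H, ∀ z, f (h * z) = f z) (c : G) :
    ∑ q : G ⧸ H, f (c * q.out) = ∑ q : G ⧸ H, f q.out := by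
  have h1 : ∀ x y : G, (QuotientGroup.mk x : G ⧸ H) = QuotientGroup.mk y → f x = f y := by
    intro x y h
    rw [QuotientGroup.eq] at h
    have h2 := hf _ h x
    rw [← h2]
    congr 1
    rw [mul_comm, mul_inv_cancel_left]
  refine Fintype.sum_equiv (Equiv.mulLeft (QuotientGroup.mk c : G ⧸ H)) _ _ fun q => h1 _ _ ?_
  rw [Equiv.coe_mulLeft, QuotientGroup.out_eq', QuotientGroup.mk_mul, QuotientGroup.out_eq']

end Coset

/-- the map `w ↦ c w` with values in the universal group -/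
def mulE (p : ℕ) (c : ℤ) : FQ →+ V p := lft fun x => e p (c * x)

@[simp] theorem mulE_br (p : ℕ) (c : ℤ) (x : ℚ) : mulE p c (br x) = e p (c * x) := lft_br _ _

section NewPrime

variable {p m r o : ℕ}

/-- the value at `x + z / r` -/
def FF (p r : ℕ) (x : ℚ) (z : (ZMod r)ˣ) : V p := e p (x + (((z : ZMod r).val : ℕ) : ℚ) / r)

/-- congruence modulo `r` -/
theorem cast_div {r : ℕ} (hr : 0 < r) {a b : ℤ} (h : (a : ZMod r) = b) :
    ∃ n : ℤ, (a : ℚ) / r = (b : ℚ) / r + n := by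
  rw [← sub_eq_zero, ← Int.cast_sub, ZMod.intCast_zmod_eq_zero_iff_dvd] at h
  obtain ⟨n, hn⟩ := h
  refine ⟨n, ?_⟩
  have h1 : (r : ℚ) ≠ 0 := by exact_mod_cast hr.ne'
  have h2 : (a : ℚ) - b = r * n := by exact_mod_cast hn
  field_simp
  linarith

theorem good_div_r (hr : 0 < r) (hrp : r.Coprime p) (a : ℤ) : Good p ((a : ℚ) / r) :=
  (Good.int p a).div hr hrp

/-- the value only depends on the class of the numerator -/
theorem ff_eq (hr : 0 < r) (hrp : r.Coprime p) {x : ℚ} (hx : Good p x) {z : (ZMod r)ˣ} {a : ℤ}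
    (h : (z : ZMod r) = a) : FF p r x z = e p (x + (a : ℚ) / r) := by
  have : NeZero r := ⟨hr.ne'⟩
  unfold FF
  obtain ⟨n, hn⟩ := cast_div hr (a := ((z : ZMod r).val : ℤ)) (b := a) (by
    rw [Int.cast_natCast, ZMod.natCast_zmod_val, h])
  refine e_congr (hx.add (good_div_r hr hrp a)) ⟨n, ?_⟩
  rw [Int.cast_natCast] at hn
  rw [hn]
  ring

theorem ff_nat (hr : 0 < r) {x : ℚ} (z : (ZMod r)ˣ) :
    ∃ a : ℕ, (z : ZMod r) = ((a : ℤ) : ZMod r) ∧ FF p r x z = e p (x + ((a : ℤ) : ℚ) / r) := by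
  have : NeZero r := ⟨hr.ne'⟩
  exact ⟨(z : ZMod r).val, by rw [Int.cast_natCast, ZMod.natCast_zmod_val], by
    unfold FF; rw [Int.cast_natCast]⟩

/-- periodicity -/
theorem ff_congr (hr : 0 < r) (hrp : r.Coprime p) {x y : ℚ} (hx : Good p x)
    (h : ∃ n : ℤ, y = x + n) (z : (ZMod r)ˣ) : FF p r y z = FF p r x z := by
  obtain ⟨n, rfl⟩ := h
  unfold FF
  refine e_congr (hx.add ?_) ⟨n, by ring⟩
  have h1 := good_div_r hr hrp ((z : ZMod r).val : ℤ)
  rwa [Int.cast_natCast] at h1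

theorem ff_neg (hr : 0 < r) (hrp : r.Coprime p) {x : ℚ} (hx : Good p x) (z : (ZMod r)ˣ) :
    FF p r (-x) z = -FF p r x (-z) := by
  obtain ⟨a, ha, h1⟩ := ff_nat (p := p) hr (x := -x) z
  have h2 : FF p r x (-z) = e p (x + ((-(a : ℤ) : ℤ) : ℚ) / r) :=
    ff_eq hr hrp hx (by rw [Units.val_neg, ha, Int.cast_neg])
  rw [h1, h2, ← e_neg (hx.add (good_div_r hr hrp _))]
  congr 1
  push_cast
  ring

/-- the unit `p` -/
def up (hrp : r.Coprime p) : (ZMod r)ˣ := ZMod.unitOfCoprime p hrp.symm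

theorem coe_up (hrp : r.Coprime p) : ((up hrp : (ZMod r)ˣ) : ZMod r) = p :=
  ZMod.coe_unitOfCoprime _ _

theorem ff_frob (hr : 0 < r) (hrp : r.Coprime p) {x : ℚ} (hx : Good p x) (n : ℕ) (z : (ZMod r)ˣ) :
    FF p r ((p : ℚ) ^ n * x) (up hrp ^ n * z) = FF p r x z := by
  obtain ⟨a, ha, h1⟩ := ff_nat (p := p) hr (x := x) z
  have h0 : Good p ((p : ℚ) ^ n * x) := by
    have := hx.nat_mul (p ^ n)
    push_cast at this
    exact this
  have h2 : FF p r ((p : ℚ) ^ n * x) (up hrp ^ n * z) =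
      e p ((p : ℚ) ^ n * x + ((((p : ℤ) ^ n * a : ℤ)) : ℚ) / r) :=
    ff_eq hr hrp h0 (by
      rw [Units.val_mul, Units.val_pow_eq_pow_val, coe_up, ha]
      push_cast
      ring)
  rw [h1, h2, ← e_frob_pow (hx.add (good_div_r hr hrp _)) n]
  congr 1
  push_cast
  ring

/-- the subgroup generated by `p ^ o` -/
def HH (o : ℕ) (hrp : r.Coprime p) : Subgroup (ZMod r)ˣ := Subgroup.zpowers (up hrp ^ o)

theorem pow_congr_lev (hm : 0 < m) (ho : p ^ o ≡ 1 [MOD m]) {x : ℚ} (hx : IsLev m x) (n : ℕ) :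
    ∃ k : ℤ, (p : ℚ) ^ (o * n) * x = x + k := by
  obtain ⟨a, ha⟩ := hx
  have h1 : (p ^ (o * n) : ℕ) ≡ 1 [MOD m] := by
    rw [pow_mul]
    simpa using ho.pow n
  have h2 : (m : ℤ) ∣ (p : ℤ) ^ (o * n) - 1 := by
    have := (Nat.modEq_iff_dvd.mp h1.symm)
    push_cast at this
    exact this
  obtain ⟨c, hc⟩ := h2
  refine ⟨c * a, ?_⟩
  have hm0 : (m : ℚ) ≠ 0 := by exact_mod_cast hm.ne'
  have hc' : (p : ℚ) ^ (o * n) - 1 = m * c := by exact_mod_cast hc
  have h3 : (p : ℚ) ^ (o * n) * x - x = c * a := by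
    have h4 : (p : ℚ) ^ (o * n) * x - x = ((p : ℚ) ^ (o * n) - 1) * x := by ring
    rw [h4, hc', ← ha]
    ring
  push_cast
  linarith

theorem ff_hh (hm : 0 < m) (hmp : m.Coprime p) (ho : p ^ o ≡ 1 [MOD m]) (hr : 0 < r)
    (hrp : r.Coprime p) {x : ℚ} (hx : IsLev m x) {h : (ZMod r)ˣ} (hh : h ∈ HH o hrp)
    (z : (ZMod r)ˣ) : FF p r x (h * z) = FF p r x z := by
  have : NeZero r := ⟨hr.ne'⟩
  unfold HH at hh
  rw [← mem_powers_iff_mem_zpowers, Submonoid.mem_powers_iff] at hh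
  obtain ⟨n, rfl⟩ := hh
  have hg := Good.of_lev hm hmp hx
  rw [← ff_frob hr hrp hg (o * n) z, ← pow_mul]
  exact (ff_congr hr hrp hg (pow_congr_lev hm ho hx n) _).symm

/-- the sum over the quotient -/
def psi (o : ℕ) (hrp : r.Coprime p) [NeZero r] (x : ℚ) : V p :=
  ∑ q : (ZMod r)ˣ ⧸ HH o hrp, FF p r x q.out

theorem sum_zmod_val {A : Type*} [AddCommMonoid A] (r : ℕ) [NeZero r] (f : ℕ → A) :
    ∑ z : ZMod r, f z.val = ∑ k ∈ range r, f k := by
  refine Finset.sum_bij (fun z _ => z.val) ?_ ?_ ?_ ?_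
  · intro z _
    exact mem_range.mpr (ZMod.val_lt z)
  · intro a _ b _ h
    exact ZMod.val_injective r h
  · intro k hk
    exact ⟨(k : ZMod r), mem_univ _, ZMod.val_natCast_of_lt (mem_range.mp hk)⟩
  · intro z _
    rfl

theorem sum_units {A : Type*} [AddCommMonoid A] {r : ℕ} [hr : Fact r.Prime] (f : ZMod r → A) :
    ∑ z : ZMod r, f z = f 0 + ∑ u : (ZMod r)ˣ, f u := by
  classical
  rw [← Finset.add_sum_erase univ f (mem_univ 0)]
  congr 1
  refine (Finset.sum_bij (fun (u : (ZMod r)ˣ) _ => (u : ZMod r)) ?_ ?_ ?_ ?_).symm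
  · intro u _
    exact mem_erase.mpr ⟨u.ne_zero, mem_univ _⟩
  · intro a _ b _ h
    exact Units.ext h
  · intro z hz
    exact ⟨Units.mk0 z (mem_erase.mp hz).1, mem_univ _, rfl⟩
  · intro u _
    rfl

/-- the relation for the new prime number -/
theorem e_r_sub [hr : Fact r.Prime] (hrp : r.Coprime p) {x : ℚ} (hx : Good p x) :
    e p (r * x) - e p x = ∑ z : (ZMod r)ˣ, FF p r x z := by
  have h0 : (r : ℚ) ≠ 0 := by exact_mod_cast hr.out.ne_zero
  have h1 := e_dist hr.out hrp (hx.nat_mul r)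
  rw [← h1, ← sum_zmod_val r fun k => e p ((r * x + k) / r), sum_units]
  have h2 : e p ((r * x + (((0 : ZMod r).val : ℕ) : ℚ)) / r) = e p x := by
    congr 1
    rw [ZMod.val_zero]
    field_simp
    simp
  rw [h2, add_sub_cancel_left]
  refine Finset.sum_congr rfl fun z _ => ?_
  unfold FF
  congr 1
  field_simp

theorem psi_card (hm : 0 < m) (hmp : m.Coprime p) (ho : p ^ o ≡ 1 [MOD m]) [hr : Fact r.Prime]
    (hrp : r.Coprime p) {x : ℚ} (hx : IsLev m x) :
    e p (r * x) - e p x = Nat.card (HH o hrp) • psi o hrp x := by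
  rw [e_r_sub hrp (Good.of_lev hm hmp hx)]
  exact sum_coset (HH o hrp) _ fun h hh z => ff_hh hm hmp ho hr.out.pos hrp hx hh z

theorem psi_congr (hrp : r.Coprime p) [NeZero r] {x y : ℚ} (hx : Good p x)
    (h : ∃ n : ℤ, y = x + n) : psi o hrp y = psi o hrp x := by
  unfold psi
  exact Finset.sum_congr rfl fun q _ => ff_congr (NeZero.pos r) hrp hx h _

theorem psi_neg (hm : 0 < m) (hmp : m.Coprime p) (ho : p ^ o ≡ 1 [MOD m]) (hrp : r.Coprime p)
    [NeZero r] {x : ℚ} (hx : IsLev m x) : psi o hrp (-x) = -psi o hrp x := by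
  unfold psi
  rw [← sum_out_mul (HH o hrp) (FF p r x)
    (fun h hh z => ff_hh hm hmp ho (NeZero.pos r) hrp hx hh z) (-1), ← Finset.sum_neg_distrib]
  refine Finset.sum_congr rfl fun q _ => ?_
  rw [ff_neg (NeZero.pos r) hrp (Good.of_lev hm hmp hx), neg_one_mul]

theorem psi_frob_pow (hm : 0 < m) (hmp : m.Coprime p) (ho : p ^ o ≡ 1 [MOD m]) (hrp : r.Coprime p)
    [NeZero r] {x : ℚ} (hx : IsLev m x) (n : ℕ) : psi o hrp ((p : ℚ) ^ n * x) = psi o hrp x := by
  have hx' : IsLev m ((p : ℚ) ^ n * x) := by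
    have := hx.nat_mul (p ^ n)
    push_cast at this
    exact this
  unfold psi
  rw [← sum_out_mul (HH o hrp) (FF p r ((p : ℚ) ^ n * x))
    (fun h hh z => ff_hh hm hmp ho (NeZero.pos r) hrp hx' hh z) (up hrp ^ n)]
  exact Finset.sum_congr rfl fun q _ => ff_frob (NeZero.pos r) hrp (Good.of_lev hm hmp hx) n _

theorem psi_dist (hm : 0 < m) (hmp : m.Coprime p) (ho : p ^ o ≡ 1 [MOD m]) (hrp : r.Coprime p)
    [NeZero r] {l n : ℕ} (hl : l.Prime) (hlr : l.Coprime r) (hln : l * n ∣ m) {x : ℚ}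
    (hx : IsLev n x) : ∑ k ∈ range l, psi o hrp ((x + k) / l) = psi o hrp x := by
  have hlp : l.Coprime p := (hmp.coprime_dvd_left hln).coprime_mul_right
  have hxm : IsLev m x := hx.mono ((dvd_mul_left n l).trans hln)
  have hg := Good.of_lev hm hmp hxm
  have hl0 : (l : ℚ) ≠ 0 := by exact_mod_cast hl.ne_zero
  have hr0 : (r : ℚ) ≠ 0 := by exact_mod_cast NeZero.ne r
  unfold psi
  rw [Finset.sum_comm, ← sum_out_mul (HH o hrp) (FF p r x)
    (fun h hh z => ff_hh hm hmp ho (NeZero.pos r) hrp hxm hh z) (ZMod.unitOfCoprime l hlr)]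
  refine Finset.sum_congr rfl fun q _ => ?_
  obtain ⟨a, ha, -⟩ := ff_nat (p := p) (NeZero.pos r) (x := x) q.out
  have h1 : ∀ k ∈ range l, FF p r ((x + k) / l) q.out =
      e p ((x + ((l * a : ℤ) : ℚ) / r + k) / l) := by
    intro k _
    have hgk : Good p ((x + k) / l) := (hg.add (Good.nat p k)).div hl.pos hlp
    rw [ff_eq (NeZero.pos r) hrp hgk ha]
    congr 1
    push_cast
    field_simp
    ring
  rw [Finset.sum_congr rfl h1, e_dist hl hlp (hg.add (good_div_r (NeZero.pos r) hrp _))]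
  exact (ff_eq (NeZero.pos r) hrp hg (by
    rw [Units.val_mul, ZMod.coe_unitOfCoprime, ha]; push_cast; ring)).symm

theorem psi_pure (hm : 0 < m) (hmp : m.Coprime p) (ho : p ^ o ≡ 1 [MOD m]) (hrp : r.Coprime p)
    [NeZero r] {i n : ℕ} (hn : n ∣ m) (hi : n ∣ p ^ i + 1) {x : ℚ} (hx : IsLev n x) :
    (2 : ℤ) • psi o hrp x = 0 := by
  have hxm : IsLev m x := hx.mono hn
  have h1 := psi_frob_pow hm hmp ho hrp hxm i
  have h2 := psi_neg hm hmp ho hrp hxm
  have h3 : psi o hrp ((p : ℚ) ^ i * x) = psi o hrp (-x) := by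
    refine psi_congr hrp (Good.of_lev hm hmp hxm.neg) ?_
    obtain ⟨a, ha⟩ := hx
    obtain ⟨c, hc⟩ := hi
    refine ⟨c * a, ?_⟩
    have h4 : (p : ℚ) ^ i + 1 = n * c := by exact_mod_cast hc
    have h5 : ((c * a : ℤ) : ℚ) = (n * c) * x := by
      push_cast
      rw [← ha]
      push_cast
      ring
    push_cast at h5 ⊢
    rw [h5, ← h4]
    ring
  rw [h3, h2] at h1
  rw [two_zsmul]
  nth_rewrite 1 [← h1]
  exact neg_add_cancel _

theorem psi_rel (hm : 0 < m) (hmp : m.Coprime p) (ho : p ^ o ≡ 1 [MOD m]) (hrp : r.Coprime p)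
    (hrm : m.Coprime r) [NeZero r] (w : FQ) (hw : Rel p m w) :
    (2 : ℤ) • lft (psi o hrp) w = 0 := by
  cases hw with
  | per x hx =>
    have h1 := psi_congr (o := o) hrp (Good.of_lev hm hmp hx) (y := x + 1) ⟨1, by push_cast; ring⟩
    rw [map_sub, lft_br, lft_br, h1, sub_self, smul_zero]
  | odd x hx =>
    rw [map_add, lft_br, lft_br, psi_neg hm hmp ho hrp hx, neg_add_cancel, smul_zero]
  | frob x hx =>
    have h1 := psi_frob_pow hm hmp ho hrp hx 1
    rw [pow_one] at h1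
    rw [map_sub, lft_br, lft_br, h1, sub_self, smul_zero]
  | dist l n x hl hln hx =>
    have hlr : l.Coprime r := (hrm.coprime_dvd_left hln).coprime_mul_right
    rw [map_sub, map_sum]
    simp only [lft_br]
    rw [psi_dist hm hmp ho hrp hl hlr hln hx, sub_self, smul_zero]
  | pure i n x hn hi hx =>
    rw [lft_br]
    exact psi_pure hm hmp ho hrp hn hi hx

theorem prime_sum (hm : 0 < m) (hmp : m.Coprime p) (ho : p ^ o ≡ 1 [MOD m]) [hr : Fact r.Prime]
    (hrp : r.Coprime p) {w : FQ} (hw : w ∈ LevF m) :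
    mulE p r w - lft (e p) w = Nat.card (HH o hrp) • lft (psi o hrp) w := by
  have h2 := levF_ext (mulE p r - lft (e p))
    ((zsmulAddGroupHom ((Nat.card (HH o hrp) : ℕ) : ℤ)).comp (lft (psi o hrp)))
    (fun x hx => by
      rw [AddMonoidHom.sub_apply, mulE_br, lft_br, AddMonoidHom.comp_apply, lft_br]
      change _ = ((Nat.card (HH o hrp) : ℕ) : ℤ) • psi o hrp x
      rw [natCast_zsmul]
      exact_mod_cast psi_card hm hmp ho hrp hx) hw
  rw [AddMonoidHom.sub_apply, AddMonoidHom.comp_apply] at h2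
  rw [h2, ← natCast_zsmul]
  rfl

/-- **A new prime number fixes the torsion elements** (up to `2`-torsion). -/
theorem prime_fix (hm : 0 < m) (hmp : m.Coprime p) (ho : p ^ o ≡ 1 [MOD m]) (hr : r.Prime)
    (hrp : r.Coprime p) (hrm : m.Coprime r) {w : FQ} (hw : w ∈ LevF m) {k : ℕ}
    (hk : (k : ℤ) • w ∈ R p m) (hkr : k ∣ Nat.card (HH o hrp)) :
    (2 : ℤ) • (mulE p r w - lft (e p) w) = 0 := by
  have : Fact r.Prime := ⟨hr⟩
  obtain ⟨j, hj⟩ := hkr
  have h1 : mulE p r w - lft (e p) w = (j : ℤ) • lft (psi o hrp) ((k : ℤ) • w) := by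
    have h2 := prime_sum hm hmp ho hrp hw
    rw [h2, hj, map_zsmul, smul_smul, ← natCast_zsmul]
    congr 1
    push_cast
    ring
  rw [h1, smul_comm, lft_kill (psi o hrp) 2 (psi_rel hm hmp ho hrp hrm) hk, smul_zero]

theorem prime_fix_two (hm : 0 < m) (hmp : m.Coprime p) (ho : p ^ o ≡ 1 [MOD m]) (hr : r.Prime)
    (hrp : r.Coprime p) (hrm : m.Coprime r) {w : FQ} (hw : w ∈ LevF m) {k : ℕ}
    (hk : (k : ℤ) • w ∈ R p m) (hkr : k * 2 ∣ Nat.card (HH o hrp)) :
    mulE p r w = lft (e p) w := by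
  have : Fact r.Prime := ⟨hr⟩
  obtain ⟨j, hj⟩ := hkr
  have h1 : mulE p r w - lft (e p) w = (j : ℤ) • ((2 : ℤ) • lft (psi o hrp) ((k : ℤ) • w)) := by
    have h2 := prime_sum hm hmp ho hrp hw
    rw [h2, hj, map_zsmul, smul_smul, smul_smul, ← natCast_zsmul]
    congr 1
    push_cast
    ring
  rw [← sub_eq_zero, h1, lft_kill (psi o hrp) 2 (psi_rel hm hmp ho hrp hrm) hk, smul_zero]

end NewPrime

end Pool.Agent.Lib.MP81632f.Lv
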