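import Pool.Agent.Lib.MP_81632f_ag.Lv.Detect

/-!
# Levels: relations between the parities of balanced functions
-/

set_option autoImplicit false

noncomputable section

namespace Pool.Agent.Lib.MP81632f.Lv

open Finset
open Pool.Agent.Lib.MP81632f.Diag
open Crit Two Push TP
open Red (ev)

/-- the value at the fraction `a / n` in lowest terms -/
def gv (R₀ : ℕ) (F : ZMod R₀ → ℤ) (c : ℕ → ℤ) (a : ℤ) (n : ℕ) : ℤ :=
  if R₀ ∣ n then c n * F (a : ZMod R₀) else 0

/-- the functional -/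
def fnl (R₀ : ℕ) (F : ZMod R₀ → ℤ) (c : ℕ → ℤ) (x : ℚ) : ℤ := gv R₀ F c x.num x.den

/-- the hypotheses on `F`: an odd function modulo `R₀` of conductor exactly `R₀`, invariant under
`p`, which the primes `l ∣ M` prime to `R₀` multiply by `ε l = ± 1` -/
structure OddF (p M R₀ : ℕ) (F : ZMod R₀ → ℤ) (ε : ℕ → ℤ) : Prop where
  sq : Squarefree R₀
  unit : ∀ a, ¬ IsUnit a → F a = 0
  odd : ∀ a, IsUnit a → Odd (F a)
  neg : ∀ a, F (-a) = -F a
  frob : ∀ a, F ((p : ZMod R₀) * a) = F a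
  mul : ∀ l : ℕ, l.Prime → l ∣ M → ¬ l ∣ R₀ → ∀ a, F ((l : ZMod R₀) * a) = ε l * F a
  eps : ∀ l : ℕ, l.Prime → l ∣ M → ¬ l ∣ R₀ → ε l = 1 ∨ ε l = -1
  prim : ∀ l : ℕ, l.Prime → l ∣ R₀ → ∀ a : ZMod R₀,
    ∑ k ∈ range l, F (a + (k : ZMod R₀) * ((R₀ / l : ℕ) : ZMod R₀)) = 0

/-- the hypotheses on the weights -/
structure Wts (M R₀ : ℕ) (ε : ℕ → ℤ) (c : ℕ → ℤ) : Prop where
  old : ∀ l n : ℕ, l.Prime → R₀ ∣ n → l ∣ n → l * n ∣ M → l * c (l * n) = c n
  new : ∀ l n : ℕ, l.Prime → R₀ ∣ n → ¬ l ∣ n → l * n ∣ M → (l - 1) * c (l * n) = (1 - ε l) * c n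

section Fnl

variable {p M R₀ : ℕ} {F : ZMod R₀ → ℤ} {ε c : ℕ → ℤ}

theorem fnl_eq {a : ℤ} {n : ℕ} (hn : 0 < n) (h : IsCoprime a (n : ℤ)) :
    fnl R₀ F c ((a : ℚ) / n) = gv R₀ F c a n := by
  have h1 : (a : ℚ) / n = (a : ℚ) / ((n : ℤ) : ℚ) := by rw [Int.cast_natCast]
  have hn' : (0 : ℤ) < n := by exact_mod_cast hn
  have hc : a.natAbs.Coprime (n : ℤ).natAbs := Int.isCoprime_iff_gcd_eq_one.mp h
  have h2 : ((a : ℚ) / n).num = a := by
    rw [h1]
    exact Rat.num_div_eq_of_coprime hn' hc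
  have h3 : (((a : ℚ) / n).den : ℤ) = n := by
    rw [h1]
    exact Rat.den_div_eq_of_coprime hn' hc
  have h4 : ((a : ℚ) / n).den = n := by exact_mod_cast h3
  unfold fnl
  rw [h2, h4]

theorem lowest (x : ℚ) : x = (x.num : ℚ) / x.den ∧ IsCoprime x.num (x.den : ℤ) ∧ 0 < x.den :=
  ⟨(Rat.num_div_den x).symm, Int.isCoprime_iff_gcd_eq_one.mpr x.reduced, x.pos⟩

theorem den_dvd {m : ℕ} {x : ℚ} (h : IsLev m x) : x.den ∣ m := by
  obtain ⟨a, ha⟩ := h
  obtain ⟨h1, h2, h3⟩ := lowest x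
  have h4 : (x.den : ℚ) ≠ 0 := by exact_mod_cast h3.ne'
  have h5 : x.num * (m : ℤ) = a * (x.den : ℤ) := by
    have h6 : (x.num : ℚ) * m = a * x.den := by
      rw [← ha]
      nth_rewrite 2 [h1]
      field_simp
    exact_mod_cast h6
  have h6 : ((x.den : ℕ) : ℤ) ∣ (m : ℤ) := h2.symm.dvd_of_dvd_mul_left ⟨a, by rw [h5, mul_comm]⟩
  exact_mod_cast h6

theorem cast_dvd {n : ℕ} (h : R₀ ∣ n) : ((n : ℤ) : ZMod R₀) = 0 := by
  rw [Int.cast_natCast, ZMod.natCast_eq_zero_iff]
  exact h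

theorem gv_add {a : ℤ} {n : ℕ} (k : ℤ) : gv R₀ F c (a + k * n) n = gv R₀ F c a n := by
  unfold gv
  split_ifs with h
  · rw [Int.cast_add, Int.cast_mul, cast_dvd h, mul_zero, add_zero]
  · rfl

theorem cop_add {a : ℤ} {n : ℕ} (h : IsCoprime a (n : ℤ)) (k : ℤ) :
    IsCoprime (a + k * n) (n : ℤ) := by
  have := IsCoprime.add_mul_right_left h k
  exact this

/-- the terms of the distribution relation -/
theorem dist_term {a : ℤ} {n l : ℕ} (hn : 0 < n) (hl : l.Prime) (h : IsCoprime a (n : ℤ))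
    (k : ℕ) : fnl R₀ F c (((a : ℚ) / n + k) / l) =
      if (l : ℤ) ∣ a + k * n then (if l ∣ n then gv R₀ F c (a + k * n) (l * n) else
        gv R₀ F c ((a + k * n) / l) n) else gv R₀ F c (a + k * n) (l * n) := by
  have hn0 : (n : ℚ) ≠ 0 := by exact_mod_cast hn.ne'
  have hl0 : (l : ℚ) ≠ 0 := by exact_mod_cast hl.ne_zero
  have h1 : ((a : ℚ) / n + k) / l = ((a + k * n : ℤ) : ℚ) / ((l * n : ℕ) : ℚ) := by
    push_cast
    field_simp
  have hc := cop_add h k
  by_cases hd : (l : ℤ) ∣ a + k * n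
  · rw [if_pos hd]
    have hln : ¬ l ∣ n := by
      intro h2
      have h3 : (l : ℤ) ∣ 1 := by
        obtain ⟨u, v, huv⟩ := hc
        rw [← huv]
        exact dvd_add (hd.mul_left u) ((Int.natCast_dvd_natCast.mpr h2).mul_left v)
      have h4 : l ∣ 1 := by exact_mod_cast h3
      exact hl.one_lt.ne' (Nat.dvd_one.mp h4)
    rw [if_neg hln]
    obtain ⟨b, hb⟩ := hd
    rw [hb, Int.mul_ediv_cancel_left _ (by exact_mod_cast hl.ne_zero)]
    rw [h1, hb]
    have h2 : (((l : ℤ) * b : ℤ) : ℚ) / ((l * n : ℕ) : ℚ) = (b : ℚ) / n := by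
      push_cast
      field_simp
    rw [h2]
    refine fnl_eq hn ?_
    rw [hb] at hc
    exact hc.of_mul_left_right
  · rw [if_neg hd, h1]
    refine fnl_eq (Nat.mul_pos hl.pos hn) ?_
    push_cast
    refine IsCoprime.mul_right ?_ hc
    have hlp : Prime (l : ℤ) := Nat.prime_iff_prime_int.mp hl
    exact ((Prime.coprime_iff_not_dvd hlp).mpr hd).symm

/-- exactly one term of a progression is divisible by `l` -/
theorem card_dvd {l : ℕ} (hl : l.Prime) {n : ℕ} (hn : ¬ l ∣ n) (a : ℤ) :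
    ((range l).filter fun k : ℕ => (l : ℤ) ∣ a + k * n).card = 1 := by
  have : Fact l.Prime := ⟨hl⟩
  have : NeZero l := ⟨hl.ne_zero⟩
  have hn0 : (n : ZMod l) ≠ 0 := by rwa [Ne, ZMod.natCast_eq_zero_iff]
  rw [Finset.card_eq_one]
  refine ⟨(-(a : ZMod l) * (n : ZMod l)⁻¹).val, ?_⟩
  ext k
  rw [mem_filter, mem_range, mem_singleton, ← ZMod.intCast_zmod_eq_zero_iff_dvd]
  push_cast
  constructor
  · rintro ⟨h1, h2⟩
    have h3 : (k : ZMod l) = -(a : ZMod l) * (n : ZMod l)⁻¹ := by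
      rw [eq_mul_inv_iff_mul_eq₀ hn0]
      linear_combination h2
    rw [← h3, ZMod.val_natCast, Nat.mod_eq_of_lt h1]
  · rintro rfl
    refine ⟨ZMod.val_lt _, ?_⟩
    rw [ZMod.natCast_zmod_val, inv_mul_cancel_right₀ hn0]
    ring

theorem dvd_of_sq {R₀ l n : ℕ} (hsq : Squarefree R₀) (hd : l ∣ n) (h : R₀ ∣ l * n) :
    R₀ ∣ n := by
  have h1 : R₀ ∣ n ^ 2 := by
    rw [pow_two]
    exact h.trans (Nat.mul_dvd_mul_right hd n)
  exact (hsq.dvd_pow_iff_dvd (by norm_num)).mp h1

theorem dist_all (hF : OddF p M R₀ F ε) (hc : Wts M R₀ ε c) {a : ℤ} {n l : ℕ} (hn : 0 < n)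
    (hl : l.Prime) (hln : l * n ∣ M) (h : IsCoprime a (n : ℤ)) :
    ∑ k ∈ range l, fnl R₀ F c (((a : ℚ) / n + k) / l) = gv R₀ F c a n := by
  rw [Finset.sum_congr rfl fun k _ => dist_term hn hl h k]
  have hlM : l ∣ M := (dvd_mul_right l n).trans hln
  have hR0 : 0 < R₀ := Nat.pos_of_ne_zero hF.sq.ne_zero
  by_cases hd : l ∣ n
  · -- `l` divides `n`
    have h1 : ∀ k ∈ range l, (if (l : ℤ) ∣ a + k * n then (if l ∣ n then
        gv R₀ F c (a + k * n) (l * n) else gv R₀ F c ((a + k * n) / l) n) else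
        gv R₀ F c (a + k * n) (l * n)) = gv R₀ F c (a + k * n) (l * n) := by
      intro k _
      rw [if_pos hd, ite_self]
    rw [Finset.sum_congr rfl h1]
    by_cases hR : R₀ ∣ n
    · have h2 : ∀ k ∈ range l, gv R₀ F c (a + k * n) (l * n) = c (l * n) * F (a : ZMod R₀) := by
        intro k _
        unfold gv
        rw [if_pos (hR.mul_left l), Int.cast_add, Int.cast_mul, cast_dvd hR, mul_zero, add_zero]
      rw [Finset.sum_congr rfl h2, Finset.sum_const, card_range, nsmul_eq_mul, ← mul_assoc,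
        hc.old l n hl hR hd hln]
      unfold gv
      rw [if_pos hR]
    · have h3 : ¬ R₀ ∣ l * n := fun h4 => hR (dvd_of_sq hF.sq hd h4)
      unfold gv
      rw [if_neg hR]
      exact Finset.sum_eq_zero fun k _ => if_neg h3
  · have h1 : ∀ k ∈ range l, (if (l : ℤ) ∣ a + k * n then (if l ∣ n then
        gv R₀ F c (a + k * n) (l * n) else gv R₀ F c ((a + k * n) / l) n) else
        gv R₀ F c (a + k * n) (l * n)) = if (l : ℤ) ∣ a + k * n then
          gv R₀ F c ((a + k * n) / l) n else gv R₀ F c (a + k * n) (l * n) := by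
      intro k _
      rw [if_neg hd]
    rw [Finset.sum_congr rfl h1]
    by_cases hR : R₀ ∣ n
    · -- `l` is prime to `R₀`
      have hlR : ¬ l ∣ R₀ := fun h2 => hd (h2.trans hR)
      have hee : ε l * ε l = 1 := by
        rcases hF.eps l hl hlM hlR with h2 | h2 <;> rw [h2] <;> norm_num
      have h2 : ∀ k ∈ range l, (if (l : ℤ) ∣ a + k * n then
          gv R₀ F c ((a + k * n) / l) n else gv R₀ F c (a + k * n) (l * n)) =
          if (l : ℤ) ∣ a + k * n then c n * (ε l * F (a : ZMod R₀)) else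
            c (l * n) * F (a : ZMod R₀) := by
        intro k _
        unfold gv
        rw [if_pos hR, if_pos (hR.mul_left l)]
        have h4 : ((a + k * n : ℤ) : ZMod R₀) = a := by
          rw [Int.cast_add, Int.cast_mul, cast_dvd hR, mul_zero, add_zero]
        rw [h4]
        split_ifs with h3
        · obtain ⟨b, hb⟩ := h3
          rw [hb, Int.mul_ediv_cancel_left _ (by exact_mod_cast hl.ne_zero)]
          rw [← h4, hb, Int.cast_mul, Int.cast_natCast, hF.mul l hl hlM hlR, ← mul_assoc (ε l),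
            hee, one_mul]
        · rfl
      rw [Finset.sum_congr rfl h2, Finset.sum_ite, Finset.sum_const, Finset.sum_const,
        card_dvd hl hd a]
      have h3 := Finset.card_filter_add_card_filter_not (s := range l)
        (fun k : ℕ => (l : ℤ) ∣ a + k * n)
      rw [card_dvd hl hd a, card_range] at h3
      have h4 : (((range l).filter fun k : ℕ => ¬ (l : ℤ) ∣ a + k * n).card : ℤ) = l - 1 := by
        have h5 : (1 : ℤ) + (((range l).filter fun k : ℕ => ¬ (l : ℤ) ∣ a + k * n).card : ℤ) = l := by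
          exact_mod_cast h3
        linarith
      rw [nsmul_eq_mul, nsmul_eq_mul, h4, Nat.cast_one]
      unfold gv
      rw [if_pos hR]
      linear_combination F (a : ZMod R₀) * hc.new l n hl hR hd hln
    · have h2 : ∀ b : ℤ, gv R₀ F c b n = 0 := fun b => if_neg hR
      rw [h2]
      by_cases hRl : R₀ ∣ l * n
      · have hlR : l ∣ R₀ := by
          by_contra h3
          exact hR ((((Nat.Prime.coprime_iff_not_dvd hl).mpr h3).symm).dvd_of_dvd_mul_left hRl)
        obtain ⟨R₁, rfl⟩ := hlR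
        have hR1 : R₁ ∣ n := Nat.dvd_of_mul_dvd_mul_left hl.pos hRl
        obtain ⟨n₁, rfl⟩ := hR1
        have h3 : ∀ k ∈ range l, (if (l : ℤ) ∣ a + k * (R₁ * n₁ : ℕ) then
            gv (l * R₁) F c ((a + k * (R₁ * n₁ : ℕ)) / l) (R₁ * n₁) else
            gv (l * R₁) F c (a + k * (R₁ * n₁ : ℕ)) (l * (R₁ * n₁))) =
            c (l * (R₁ * n₁)) * F ((a : ZMod (l * R₁)) +
              ((((n₁ : ℤ) * k + 0 : ℤ) : ℤ) : ZMod (l * R₁)) * (R₁ : ZMod (l * R₁))) := by
          intro k _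
          have e1 : ((a + k * (R₁ * n₁ : ℕ) : ℤ) : ZMod (l * R₁)) = (a : ZMod (l * R₁)) +
              ((((n₁ : ℤ) * k + 0 : ℤ) : ℤ) : ZMod (l * R₁)) * (R₁ : ZMod (l * R₁)) := by
            push_cast
            ring
          split_ifs with h4
          · rw [h2, ← e1, hF.unit, mul_zero]
            intro h5
            rw [ZMod.coe_int_isUnit_iff_isCoprime] at h5
            have h6 : IsCoprime (l : ℤ) (a + k * (R₁ * n₁ : ℕ)) := by
              refine h5.of_isCoprime_of_dvd_left ?_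
              push_cast
              exact dvd_mul_right _ _
            have hlp : Prime (l : ℤ) := Nat.prime_iff_prime_int.mp hl
            exact hlp.not_isUnit (h6.isUnit_of_dvd' dvd_rfl h4)
          · unfold gv
            rw [if_pos hRl, e1]
        rw [Finset.sum_congr rfl h3, ← Finset.mul_sum]
        have : NeZero l := ⟨hl.ne_zero⟩
        have : Fact l.Prime := ⟨hl⟩
        have h4 : IsUnit (((n₁ : ℤ) : ℤ) : ZMod l) := by
          rw [Int.cast_natCast, isUnit_iff_ne_zero, Ne, ZMod.natCast_eq_zero_iff]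
          exact fun h5 => hd (h5.mul_left _)
        have h5 := sum_reindex (N := l) (g := fun j : ℤ => F ((a : ZMod (l * R₁)) +
          (j : ZMod (l * R₁)) * (R₁ : ZMod (l * R₁)))) (fun j => by
            congr 1
            push_cast
            have h6 : (l : ZMod (l * R₁)) * R₁ = 0 := by
              rw [← Nat.cast_mul, ZMod.natCast_self]
            linear_combination h6) h4 0
        rw [h5]
        have h6 := hF.prim l hl (dvd_mul_right l R₁) a
        rw [Nat.mul_div_cancel_left _ hl.pos] at h6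
        simp only [Int.cast_natCast]
        rw [h6, mul_zero]
      · exact Finset.sum_eq_zero fun k _ => by
          split_ifs
          · exact h2 _
          · exact if_neg hRl

/-- the functional kills the relations -/
theorem fnl_rel (hF : OddF p M R₀ F ε) (hc : Wts M R₀ ε c) {w : FQ} (hw : Rel p M w)
    (hMp : M.Coprime p) : lft (fnl R₀ F c) w = 0 := by
  cases hw with
  | per x hx =>
    obtain ⟨h1, h2, h3⟩ := lowest x
    rw [map_sub, lft_br, lft_br]
    have e1 : x + 1 = ((x.num + 1 * x.den : ℤ) : ℚ) / x.den := by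
      have h4 : (x.den : ℚ) ≠ 0 := by exact_mod_cast h3.ne'
      nth_rewrite 1 [h1]
      push_cast
      field_simp
    rw [e1, fnl_eq h3 (cop_add h2 1), gv_add]
    exact sub_self _
  | odd x hx =>
    obtain ⟨h1, h2, h3⟩ := lowest x
    rw [map_add, lft_br, lft_br]
    have e1 : -x = ((-x.num : ℤ) : ℚ) / x.den := by
      nth_rewrite 1 [h1]
      push_cast
      ring
    rw [e1, fnl_eq h3 h2.neg_left]
    unfold fnl gv
    split_ifs
    · rw [Int.cast_neg, hF.neg]
      ring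
    · rfl
  | frob x hx =>
    obtain ⟨h1, h2, h3⟩ := lowest x
    rw [map_sub, lft_br, lft_br]
    have h4 : IsCoprime (p : ℤ) (x.den : ℤ) :=
      (Nat.isCoprime_iff_coprime.mpr (hMp.coprime_dvd_left (den_dvd hx))).symm
    have e1 : (p : ℚ) * x = ((p * x.num : ℤ) : ℚ) / x.den := by
      nth_rewrite 1 [h1]
      push_cast
      ring
    rw [e1, fnl_eq h3 (h4.mul_left h2)]
    unfold fnl gv
    split_ifs
    · rw [Int.cast_mul, Int.cast_natCast, hF.frob]
      ring
    · rfl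
  | dist l n x hl hln hx =>
    obtain ⟨h1, h2, h3⟩ := lowest x
    rw [map_sub, map_sum, lft_br]
    have h4 : l * x.den ∣ M := (Nat.mul_dvd_mul_left l (den_dvd hx)).trans hln
    have h5 := dist_all hF hc h3 hl h4 h2
    rw [← h1] at h5
    have h6 : ∑ k ∈ range l, lft (fnl R₀ F c) (br ((x + k) / l)) =
        ∑ k ∈ range l, fnl R₀ F c ((x + k) / l) := Finset.sum_congr rfl fun k _ => lft_br _ _
    rw [h6, h5]
    exact sub_self _
  | pure i n x hn hi hx =>
    obtain ⟨h1, h2, h3⟩ := lowest x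
    rw [lft_br]
    unfold fnl gv
    split_ifs with hR
    · have h4 : (p : ZMod R₀) ^ i = -1 := by
        have h5 : ((p ^ i + 1 : ℕ) : ZMod R₀) = 0 := by
          rw [ZMod.natCast_eq_zero_iff]
          exact hR.trans ((den_dvd hx).trans hi)
        push_cast at h5
        linear_combination h5
      have h5 : ∀ (j : ℕ) (a : ZMod R₀), F ((p : ZMod R₀) ^ j * a) = F a := by
        intro j
        induction j with
        | zero => intro a; rw [pow_zero, one_mul]
        | succ j ih => intro a; rw [pow_succ', mul_assoc, hF.frob, ih]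
      have h6 := h5 i (x.num : ZMod R₀)
      rw [h4, neg_one_mul, hF.neg] at h6
      have h7 : F (x.num : ZMod R₀) = 0 := by omega
      rw [h7, mul_zero]
    · rfl

end Fnl

section Parity

variable {p M R₀ : ℕ} [NeZero M] {F : ZMod R₀ → ℤ} {ε c : ℕ → ℤ}

/-- **The relation between the parities.** -/
theorem rel_even (hTor : StTor) (hF : OddF p M R₀ F ε) (hc : Wts M R₀ ε c) {v : ZMod M → ℤ}
    (hv : Bal M p v) : Even (∑ x with R₀ ∣ addOrderOf x, c (addOrderOf x) * v x) := by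
  obtain ⟨h0, f, hf, hpf, hb⟩ := hv
  have hMp := coprime_of_pow hf hpf
  by_cases hM : M = 1
  · subst hM
    rw [bal_one h0]
    simp
  have hM1 : 1 < M := by
    have := NeZero.pos M
    omega
  obtain ⟨k, hk, h1⟩ := hTor M p f hM1 hf hpf v h0 hb
  have h2 : iota M (((k : ℕ) : ℤ) • v) ∈ R p M := iota_rel h1
  rw [iota_smul] at h2
  have h3 := lft_kill (p := p) (m := M) (fnl R₀ F c) 1
    (fun r hr => by rw [fnl_rel hF hc hr hMp, smul_zero]) h2
  rw [one_smul, map_zsmul, smul_eq_mul] at h3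
  have h4 : lft (fnl R₀ F c) (iota M v) = 0 := by
    rcases mul_eq_zero.mp h3 with h5 | h5
    · exfalso
      have : k = 0 := by exact_mod_cast h5
      omega
    · exact h5
  have h5 : lft (fnl R₀ F c) (iota M v) = ∑ x, v x * fnl R₀ F c (fr M x) := by
    change lft (fnl R₀ F c) (∑ x, v x • br (fr M x)) = _
    rw [map_sum]
    exact Finset.sum_congr rfl fun x _ => by rw [map_zsmul, lft_br, smul_eq_mul]
  rw [h5] at h4
  have h6 : ∀ x : ZMod M, Even ((if R₀ ∣ addOrderOf x then c (addOrderOf x) * v x else 0) -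
      v x * fnl R₀ F c (fr M x)) := by
    intro x
    obtain ⟨a, ha, hac⟩ := fr_lowest x
    rw [ha, fnl_eq (addOrderOf_pos x) hac]
    unfold gv
    split_ifs with hR
    · have h7 : IsUnit (a : ZMod R₀) := by
        rw [ZMod.coe_int_isUnit_iff_isCoprime]
        exact (hac.of_isCoprime_of_dvd_right (by exact_mod_cast hR)).symm
      obtain ⟨t, ht⟩ := hF.odd _ h7
      rw [ht]
      exact ⟨-(v x * c (addOrderOf x) * t), by ring⟩
    · rw [mul_zero, sub_zero]
      exact Even.zero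
  have h7 := Finset.even_sum (s := (univ : Finset (ZMod M))) _ fun x _ => h6 x
  rw [Finset.sum_sub_distrib, h4, sub_zero, ← Finset.sum_filter] at h7
  exact h7

/-- the relation in terms of the numbers `nR` -/
theorem rel_nR (hTor : StTor) (hF : OddF p M R₀ F ε) (hc : Wts M R₀ ε c) (𝓕 : Finset ℕ)
    (h𝓕 : ∀ R ∈ 𝓕, R₀ ∣ R)
    (hodd : ∀ n : ℕ, n ∣ M → R₀ ∣ n → (Odd (c n) ↔ Odd n ∧ rad n ∈ 𝓕)) {v : ZMod M → ℤ}
    (hv : Bal M p v) : Even (∑ R ∈ 𝓕, nR M R v) := by
  have h1 := rel_even hTor hF hc hv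
  have h2 : ∑ R ∈ 𝓕, nR M R v = ∑ x with Odd (addOrderOf x) ∧ rad (addOrderOf x) ∈ 𝓕, v x := by
    unfold nR
    simp only [Finset.sum_filter]
    rw [Finset.sum_comm]
    refine Finset.sum_congr rfl fun x _ => ?_
    by_cases h : Odd (addOrderOf x) ∧ rad (addOrderOf x) ∈ 𝓕
    · rw [if_pos h, Finset.sum_eq_single (rad (addOrderOf x))]
      · rw [if_pos ⟨h.1, rfl⟩]
      · intro R _ hR
        rw [if_neg fun h' => hR h'.2.symm]
      · exact fun h' => absurd h.2 h'
    · rw [if_neg h]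
      refine Finset.sum_eq_zero fun R hR => if_neg fun h' => h ⟨h'.1, by rw [h'.2]; exact hR⟩
  rw [h2]
  have h3 : Even (∑ x : ZMod M, ((if R₀ ∣ addOrderOf x then c (addOrderOf x) * v x else 0) -
      if Odd (addOrderOf x) ∧ rad (addOrderOf x) ∈ 𝓕 then v x else 0)) := by
    refine Finset.even_sum _ fun x _ => ?_
    by_cases hR : R₀ ∣ addOrderOf x
    · rw [if_pos hR]
      have h4 := hodd _ (order_dvd x) hR
      by_cases h5 : Odd (addOrderOf x) ∧ rad (addOrderOf x) ∈ 𝓕
      · rw [if_pos h5]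
        obtain ⟨t, ht⟩ := h4.mpr h5
        rw [ht]
        exact ⟨t * v x, by ring⟩
      · rw [if_neg h5, sub_zero]
        have h6 : ¬ Odd (c (addOrderOf x)) := fun h => h5 (h4.mp h)
        rw [Int.not_odd_iff_even] at h6
        exact h6.mul_right _
    · rw [if_neg hR, if_neg, sub_zero]
      · exact Even.zero
      · rintro ⟨-, h⟩
        exact hR ((h𝓕 _ h).trans (rad_dvd _))
  rw [Finset.sum_sub_distrib, ← Finset.sum_filter, ← Finset.sum_filter] at h3
  have h4 := h1.sub h3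
  rwa [sub_sub_cancel] at h4

end Parity

end Pool.Agent.Lib.MP81632f.Lv
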