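import Pool.Agent.Lib.MP_81632f_ag.Lv.Rel

/-!
# Levels: the standard weights of the relations between the parities
-/

set_option autoImplicit false

noncomputable section

namespace Pool.Agent.Lib.MP81632f.Lv

open Finset
open Pool.Agent.Lib.MP81632f.Diag

section Rad

theorem rad_new {l n : ℕ} (hl : l.Prime) (hn : 0 < n) (hln : ¬ l ∣ n) : rad (l * n) = l * rad n := by
  unfold rad
  rw [Nat.primeFactors_mul hl.ne_zero hn.ne', hl.primeFactors, Finset.prod_union, prod_singleton]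
  rw [Finset.disjoint_singleton_left, Nat.mem_primeFactors]
  exact fun h => hln h.2.1

theorem dvd_rad_iff {l n : ℕ} (hl : l.Prime) (hn : 0 < n) : l ∣ rad n ↔ l ∣ n := by
  constructor
  · exact fun h => h.trans (rad_dvd n)
  · intro h
    exact Finset.dvd_prod_of_mem (fun q => q) (Nat.mem_primeFactors.mpr ⟨hl, h, hn.ne'⟩)

theorem rad_rad (n : ℕ) : rad (rad n) = rad n := rad_of_squarefree (rad_squarefree n)

theorem primeFactors_rad {n : ℕ} (hn : 0 < n) : (rad n).primeFactors = n.primeFactors := by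
  ext l
  rw [Nat.mem_primeFactors, Nat.mem_primeFactors]
  constructor
  · rintro ⟨h1, h2, -⟩
    exact ⟨h1, (dvd_rad_iff h1 hn).mp h2, hn.ne'⟩
  · rintro ⟨h1, h2, -⟩
    exact ⟨h1, (dvd_rad_iff h1 hn).mpr h2, (rad_pos n).ne'⟩

theorem sq_dvd_rad {R n : ℕ} (hR : Squarefree R) (hn : 0 < n) (h : R ∣ n) : R ∣ rad n := by
  rw [← rad_of_squarefree hR]
  exact Finset.prod_dvd_prod_of_subset _ _ _ (Nat.primeFactors_mono h hn.ne')

theorem rad_dvd_rad {m n : ℕ} (hn : 0 < n) (h : m ∣ n) : rad m ∣ rad n :=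
  sq_dvd_rad (rad_squarefree m) hn ((rad_dvd m).trans h)

end Rad

/-- the standard weights -/
def wt (K n : ℕ) : ℕ :=
  if n ∣ K then K / n * rad n * ∏ l ∈ K.primeFactors with ¬ l ∣ n, ((l - 1) / 2) else 0

/-- the radicals of the relation -/
def Fam (R₀ K₀ : ℕ) : Finset ℕ :=
  K₀.divisors.filter fun R => R₀ ∣ R ∧ ∀ l ∈ K₀.primeFactors, l % 4 = 1 → l ∣ R

section Weights

variable {M K L R₀ : ℕ} {ε : ℕ → ℤ}

theorem wt_old (hK : 0 < K) {l n : ℕ} (hl : l.Prime) (hn : l ∣ n) (hd : l * n ∣ K) :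
    l * wt K (l * n) = wt K n := by
  have hnK : n ∣ K := (dvd_mul_left n l).trans hd
  have hn0 : 0 < n := Nat.pos_of_dvd_of_pos hnK hK
  unfold wt
  rw [if_pos hd, if_pos hnK, rad_mul hl hn0 hn]
  have h1 : K / n = l * (K / (l * n)) := by
    obtain ⟨t, ht⟩ := hd
    rw [ht, Nat.mul_div_cancel_left _ (Nat.mul_pos hl.pos hn0)]
    have e1 : l * n * t = n * (l * t) := by ring
    rw [e1, Nat.mul_div_cancel_left _ hn0]
  have h2 : (K.primeFactors.filter fun q => ¬ q ∣ l * n) = K.primeFactors.filter fun q => ¬ q ∣ n := by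
    refine Finset.filter_congr fun q hq => ?_
    rw [not_iff_not, (Nat.prime_of_mem_primeFactors hq).dvd_mul]
    constructor
    · rintro (h | h)
      · exact h.trans hn
      · exact h
    · exact Or.inr
  rw [h1, h2]
  ring

theorem wt_new (hK : 0 < K) (hodd : Odd K) {l n : ℕ} (hl : l.Prime) (hn : ¬ l ∣ n)
    (hd : l * n ∣ K) : (l - 1) * wt K (l * n) = 2 * wt K n := by
  have hnK : n ∣ K := (dvd_mul_left n l).trans hd
  have hlK : l ∣ K := (dvd_mul_right l n).trans hd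
  have hn0 : 0 < n := Nat.pos_of_dvd_of_pos hnK hK
  unfold wt
  rw [if_pos hd, if_pos hnK, rad_new hl hn0 hn]
  have h1 : K / n = l * (K / (l * n)) := by
    obtain ⟨t, ht⟩ := hd
    rw [ht, Nat.mul_div_cancel_left _ (Nat.mul_pos hl.pos hn0)]
    have e1 : l * n * t = n * (l * t) := by ring
    rw [e1, Nat.mul_div_cancel_left _ hn0]
  have h2 : (K.primeFactors.filter fun q => ¬ q ∣ n) =
      insert l (K.primeFactors.filter fun q => ¬ q ∣ l * n) := by
    ext q
    rw [mem_insert, mem_filter, mem_filter]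
    constructor
    · rintro ⟨h3, h4⟩
      by_cases h5 : q = l
      · exact Or.inl h5
      · right
        refine ⟨h3, fun h6 => ?_⟩
        rcases (Nat.prime_of_mem_primeFactors h3).dvd_mul.mp h6 with h7 | h7
        · exact h5 ((Nat.prime_dvd_prime_iff_eq (Nat.prime_of_mem_primeFactors h3) hl).mp h7)
        · exact h4 h7
    · rintro (rfl | ⟨h3, h4⟩)
      · exact ⟨Nat.mem_primeFactors.mpr ⟨hl, hlK, hK.ne'⟩, hn⟩
      · exact ⟨h3, fun h5 => h4 (h5.mul_left l)⟩
  have h3 : l ∉ K.primeFactors.filter fun q => ¬ q ∣ l * n := by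
    rw [mem_filter]
    rintro ⟨-, h4⟩
    exact h4 (dvd_mul_right l n)
  have h4 : l - 1 = 2 * ((l - 1) / 2) := by
    obtain ⟨t, ht⟩ := hodd.of_dvd_nat hlK
    omega
  rw [h1, h2, Finset.prod_insert h3]
  generalize (∏ l_1 ∈ K.primeFactors with ¬ l_1 ∣ l * n, (l_1 - 1) / 2) = P
  generalize K / (l * n) = Q
  generalize rad n = S
  rw [h4]
  have h5 : 2 * ((l - 1) / 2) / 2 = (l - 1) / 2 := by omega
  rw [h5]
  ring

theorem wts_std (hM : M = K * L) (hK : 0 < K) (hodd : Odd K) (hKL : K.Coprime L)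
    (h1 : ∀ l : ℕ, l.Prime → l ∣ L → ¬ l ∣ R₀ → ε l = 1)
    (h2 : ∀ l : ℕ, l.Prime → l ∣ K → ¬ l ∣ R₀ → ε l = -1) :
    Wts M R₀ ε fun n => (wt K n : ℤ) where
  old := by
    intro l n hl hR hln hd
    rw [hM] at hd
    by_cases hnK : n ∣ K
    · have hlK : l ∣ K := hln.trans hnK
      have h3 : l * n ∣ K := Nat.Coprime.dvd_of_dvd_mul_right
        (Nat.Coprime.mul_left (hKL.coprime_dvd_left hlK) (hKL.coprime_dvd_left hnK)) hd
      have h4 := wt_old hK hl hln h3
      change (l : ℤ) * (wt K (l * n) : ℤ) = (wt K n : ℤ)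
      exact_mod_cast h4
    · have h3 : ¬ l * n ∣ K := fun h => hnK ((dvd_mul_left n l).trans h)
      change (l : ℤ) * (wt K (l * n) : ℤ) = (wt K n : ℤ)
      unfold wt
      rw [if_neg h3, if_neg hnK]
      simp
  new := by
    intro l n hl hR hln hd
    rw [hM] at hd
    have hlR : ¬ l ∣ R₀ := fun h => hln (h.trans hR)
    change ((l : ℤ) - 1) * (wt K (l * n) : ℤ) = (1 - ε l) * (wt K n : ℤ)
    by_cases hlK : l ∣ K
    · rw [h2 l hl hlK hlR]
      by_cases hnK : n ∣ K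
      · have h3 : l * n ∣ K := Nat.Coprime.dvd_of_dvd_mul_right
          (Nat.Coprime.mul_left (hKL.coprime_dvd_left hlK) (hKL.coprime_dvd_left hnK)) hd
        have h4 := wt_new hK hodd hl hln h3
        have h5 : ((l - 1 : ℕ) : ℤ) = (l : ℤ) - 1 := by
          rw [Nat.cast_sub hl.one_lt.le, Nat.cast_one]
        rw [← h5]
        have h6 : ((l - 1 : ℕ) : ℤ) * (wt K (l * n) : ℤ) = 2 * (wt K n : ℤ) := by
          exact_mod_cast h4
        rw [h6]
        norm_num
      · have h3 : ¬ l * n ∣ K := fun h => hnK ((dvd_mul_left n l).trans h)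
        unfold wt
        rw [if_neg h3, if_neg hnK]
        simp
    · have hlL : l ∣ L := (hl.dvd_mul.mp ((dvd_mul_right l n).trans hd)).resolve_left hlK
      rw [h1 l hl hlL hlR]
      have h3 : ¬ l * n ∣ K := fun h => hlK ((dvd_mul_right l n).trans h)
      unfold wt
      rw [if_neg h3]
      simp

theorem wts_odd (hM : M = K * L) (hM0 : 0 < M) (hodd : Odd K) (hKL : K.Coprime L)
    (hR₀ : Squarefree R₀) {n : ℕ} (hn : n ∣ M) (hR : R₀ ∣ n) :
    Odd ((wt K n : ℕ) : ℤ) ↔ Odd n ∧ rad n ∈ Fam R₀ (rad K) := by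
  have hK : 0 < K := by
    rcases Nat.eq_zero_or_pos K with h | h
    · rw [h, zero_mul] at hM
      omega
    · exact h
  have hn0 : 0 < n := Nat.pos_of_dvd_of_pos hn hM0
  rw [Int.odd_coe_nat]
  unfold wt
  constructor
  · intro h
    have hnK : n ∣ K := by
      by_contra h1
      rw [if_neg h1] at h
      exact absurd h (by decide)
    rw [if_pos hnK] at h
    refine ⟨hodd.of_dvd_nat hnK, ?_⟩
    unfold Fam
    rw [mem_filter, Nat.mem_divisors]
    refine ⟨⟨rad_dvd_rad hK hnK, (rad_pos K).ne'⟩, sq_dvd_rad hR₀ hn0 hR, ?_⟩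
    intro l hl hl4
    rw [primeFactors_rad hK] at hl
    have hlp := Nat.prime_of_mem_primeFactors hl
    by_contra h1
    rw [dvd_rad_iff hlp hn0] at h1
    have h2 : (l - 1) / 2 ∣ ∏ l ∈ K.primeFactors with ¬ l ∣ n, ((l - 1) / 2) :=
      Finset.dvd_prod_of_mem (fun l => (l - 1) / 2) (mem_filter.mpr ⟨hl, h1⟩)
    have h3 : Odd ((l - 1) / 2) := (h.of_dvd_nat (dvd_mul_left _ _)).of_dvd_nat h2
    obtain ⟨t, ht⟩ := h3
    omega
  · rintro ⟨-, h⟩
    unfold Fam at h
    rw [mem_filter, Nat.mem_divisors] at h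
    obtain ⟨⟨h1, -⟩, -, h2⟩ := h
    have hnL : n.Coprime L := by
      refine Nat.Coprime.symm (Nat.Coprime.symm ?_)
      by_contra h3
      obtain ⟨q, hq, hqn, hqL⟩ := Nat.Prime.not_coprime_iff_dvd.mp h3
      have h4 : q ∣ K := (((dvd_rad_iff hq hn0).mpr hqn).trans h1).trans (rad_dvd K)
      have h5 := Nat.dvd_gcd h4 hqL
      rw [hKL] at h5
      exact hq.one_lt.ne' (Nat.dvd_one.mp h5)
    have hnK : n ∣ K := hnL.dvd_of_dvd_mul_right (by rw [← hM]; exact hn)
    rw [if_pos hnK]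
    refine Odd.mul (Odd.mul (hodd.of_dvd_nat (Nat.div_dvd_of_dvd hnK))
      (hodd.of_dvd_nat ((rad_dvd n).trans hnK))) ?_
    refine Finset.prod_induction _ (fun m : ℕ => Odd m) (fun _ _ => Odd.mul) odd_one ?_
    intro l hl
    rw [mem_filter] at hl
    have hlp := Nat.prime_of_mem_primeFactors hl.1
    have h3 : ¬ l % 4 = 1 := by
      intro h4
      refine hl.2 ((dvd_rad_iff hlp hn0).mp (h2 l ?_ h4))
      rw [primeFactors_rad hK]
      exact hl.1
    have h4 : Odd l := hodd.of_dvd_nat (Nat.dvd_of_mem_primeFactors hl.1)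
    obtain ⟨t, ht⟩ := h4
    refine ⟨(l - 3) / 4, ?_⟩
    omega

/-- **The standard relation.** -/
theorem rel_std {p : ℕ} [NeZero M] {F : ZMod R₀ → ℤ} (hTor : StTor) (hM : M = K * L) (hodd : Odd K)
    (hKL : K.Coprime L) (hF : OddF p M R₀ F ε)
    (h1 : ∀ l : ℕ, l.Prime → l ∣ L → ¬ l ∣ R₀ → ε l = 1)
    (h2 : ∀ l : ℕ, l.Prime → l ∣ K → ¬ l ∣ R₀ → ε l = -1) {v : ZMod M → ℤ}
    (hv : Bal M p v) : Even (∑ R ∈ Fam R₀ (rad K), nR M R v) := by
  have hM0 : 0 < M := NeZero.pos M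
  have hK : 0 < K := by
    rcases Nat.eq_zero_or_pos K with h | h
    · rw [h, zero_mul] at hM
      omega
    · exact h
  refine rel_nR hTor hF (wts_std hM hK hodd hKL h1 h2) _ ?_ ?_ hv
  · intro R hR
    unfold Fam at hR
    rw [mem_filter] at hR
    exact hR.2.1
  · intro n hn hR
    exact wts_odd hM hM0 hodd hKL hF.sq hn hR

end Weights

end Pool.Agent.Lib.MP81632f.Lv
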