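import Mathlib

/-!
# Prime ideals of residue degree one from ring homomorphisms

Let `K` be a number field and `g` a monic polynomial over `𝓞 K` that is irreducible over `K`.  There
is a number field `F` and a bound `B` such that for every prime number `r > B` and every finite set
`P` of pairs `(φ, y)`, `φ : 𝓞 K →+* ZMod r` and `y` a root of `φ g`, there are at least `|P|` ideals
of norm `r` of `𝓞 F`.
-/

set_option autoImplicit false

noncomputable section

namespace Pool.Agent.Lib.MP81632f.Lv.SplitAux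

open Finset NumberField Polynomial

/-- extension of a homomorphism from a subring of finite index -/
theorem exists_extend {R S k : Type*} [CommRing R] [CommRing S] [IsDomain S] [CharZero S] [Field k]
    (i : R →+* S) (hi : Function.Injective i) (N : ℕ) (hN0 : N ≠ 0)
    (hN : ∀ x : S, ∃ y : R, i y = (N : S) * x) (φ : R →+* k) (hNk : (N : k) ≠ 0) :
    ∃ ψ : S →+* k, ∀ y : R, ψ (i y) = φ y := by
  choose f hf using hN
  have hNS : (N : S) ≠ 0 := by exact_mod_cast hN0
  have h1 : f 1 = (N : R) := hi (by rw [hf]; simp)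
  have h0 : f 0 = 0 := hi (by rw [hf]; simp)
  have hadd : ∀ a b, f (a + b) = f a + f b := fun a b => hi (by rw [map_add, hf, hf, hf]; ring)
  have hmul : ∀ a b, (N : R) * f (a * b) = f a * f b := fun a b =>
    hi (by rw [map_mul, map_mul, hf, hf, hf, map_natCast]; ring)
  have hi' : ∀ y, f (i y) = (N : R) * y := fun y => hi (by rw [hf, map_mul, map_natCast])
  refine ⟨{ toFun := fun x => φ (f x) / N
            map_one' := ?_
            map_mul' := ?_
            map_zero' := ?_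
            map_add' := ?_ }, ?_⟩
  · rw [h1, map_natCast, div_self hNk]
  · intro a b
    have := congrArg φ (hmul a b)
    rw [map_mul, map_mul, map_natCast] at this
    field_simp
    linear_combination this
  · simp [h0]
  · intro a b
    simp only [hadd, map_add]
    ring
  · intro y
    change φ (f (i y)) / N = φ y
    rw [hi', map_mul, map_natCast]
    field_simp

/-- a subgroup of the ring of integers containing a multiple of every element -/
theorem exists_multiple {F : Type*} [Field F] [NumberField F] (A : AddSubgroup (𝓞 F))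
    (h : ∀ x : 𝓞 F, ∃ n : ℤ, n ≠ 0 ∧ n • x ∈ A) :
    ∃ N : ℕ, N ≠ 0 ∧ ∀ x : 𝓞 F, (N : ℤ) • x ∈ A := by
  classical
  choose n hn0 hn using fun j => h (RingOfIntegers.basis F j)
  set m : ℤ := ∏ j, n j with hm
  have hm0 : m ≠ 0 := Finset.prod_ne_zero_iff.2 fun j _ => hn0 j
  have hmb : ∀ j, m • RingOfIntegers.basis F j ∈ A := by
    intro j
    obtain ⟨c, hc⟩ := Finset.dvd_prod_of_mem n (Finset.mem_univ j)
    rw [← hm] at hc
    rw [hc, mul_comm, mul_smul]
    exact A.zsmul_mem (hn j) c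
  have hmx : ∀ x : 𝓞 F, m • x ∈ A := by
    intro x
    rw [← (RingOfIntegers.basis F).sum_repr x, Finset.smul_sum]
    refine A.sum_mem fun j _ => ?_
    rw [smul_comm]
    exact A.zsmul_mem (hmb j) _
  refine ⟨m.natAbs, Int.natAbs_ne_zero.2 hm0, fun x => ?_⟩
  rcases Int.natAbs_eq m with hh | hh
  · rw [← hh]
    exact hmx x
  · have h3 : ((m.natAbs : ℕ) : ℤ) = -m := by omega
    rw [h3, neg_smul]
    exact A.neg_mem (hmx x)

/-- MAIN LEMMA. -/
theorem main {K : Type} [Field K] [NumberField K] (g : (𝓞 K)[X]) (hg : g.Monic)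
    (hirr : Irreducible (g.map (algebraMap (𝓞 K) K))) :
    ∃ (F : Type) (_ : Field F) (_ : NumberField F) (B : ℕ), ∀ r : ℕ, r.Prime → B < r →
      ∀ P : Finset ((𝓞 K →+* ZMod r) × ZMod r), (∀ z ∈ P, g.eval₂ z.1 z.2 = 0) →
      ∃ S : Finset (Ideal (𝓞 F)), P.card ≤ S.card ∧ ∀ I ∈ S, Ideal.absNorm I = r := by
  classical
  set gK : K[X] := g.map (algebraMap (𝓞 K) K) with hgK
  have hgKm : gK.Monic := hg.map _
  have : Fact (Irreducible gK) := ⟨hirr⟩
  let F := AdjoinRoot gK
  have : FiniteDimensional K F := hgKm.finite_adjoinRoot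
  have : NumberField F := NumberField.of_module_finite K F
  let R := AdjoinRoot g
  -- the root is integral
  have hroot : IsIntegral ℤ (AdjoinRoot.root gK) := by
    have h1 : IsIntegral (𝓞 K) (AdjoinRoot.root gK) := by
      refine ⟨g, hg, ?_⟩
      have := AdjoinRoot.eval₂_root gK
      rw [hgK, eval₂_map] at this
      exact this
    exact isIntegral_trans _ h1
  let b : 𝓞 F := ⟨AdjoinRoot.root gK, hroot⟩
  have hcomp : (algebraMap (𝓞 F) F).comp (algebraMap (𝓞 K) (𝓞 F)) =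
      (AdjoinRoot.of gK).comp (algebraMap (𝓞 K) K) := rfl
  have heval : ∀ f : (𝓞 K)[X], algebraMap (𝓞 F) F (f.eval₂ (algebraMap (𝓞 K) (𝓞 F)) b) =
      AdjoinRoot.mk gK (f.map (algebraMap (𝓞 K) K)) := by
    intro f
    rw [hom_eval₂, hcomp]
    change eval₂ ((AdjoinRoot.of gK).comp (algebraMap (𝓞 K) K)) (AdjoinRoot.root gK) f = _
    rw [← eval₂_map, ← AdjoinRoot.aeval_eq, aeval_def]
    rfl
  have hFinj : Function.Injective (algebraMap (𝓞 F) F) := RingOfIntegers.coe_injective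
  let i : R →+* 𝓞 F := AdjoinRoot.lift (algebraMap (𝓞 K) (𝓞 F)) b (by
    apply hFinj
    rw [heval, map_zero]
    exact AdjoinRoot.mk_self)
  have hiF : ∀ f : (𝓞 K)[X], algebraMap (𝓞 F) F (i (AdjoinRoot.mk g f)) =
      AdjoinRoot.mk gK (f.map (algebraMap (𝓞 K) K)) := by
    intro f
    rw [← heval]
    rfl
  have hi : Function.Injective i := by
    rw [injective_iff_map_eq_zero]
    intro y hy
    obtain ⟨f, rfl⟩ := AdjoinRoot.mk_surjective y
    have h1 := hiF f
    rw [hy, map_zero, eq_comm, AdjoinRoot.mk_eq_zero, hgK,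
      map_dvd_map _ RingOfIntegers.coe_injective hg] at h1
    exact AdjoinRoot.mk_eq_zero.2 h1
  -- integral multiples
  have hmult : ∀ z : F, ∃ n : ℤ, n ≠ 0 ∧ ∃ y : R, algebraMap (𝓞 F) F (i y) = n • z := by
    intro z
    obtain ⟨f, rfl⟩ := AdjoinRoot.mk_surjective z
    induction f using Polynomial.induction_on' with
    | add f₁ f₂ h₁ h₂ =>
      obtain ⟨n₁, hn₁, y₁, hy₁⟩ := h₁
      obtain ⟨n₂, hn₂, y₂, hy₂⟩ := h₂
      refine ⟨n₁ * n₂, mul_ne_zero hn₁ hn₂, (n₂ : R) * y₁ + (n₁ : R) * y₂, ?_⟩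
      rw [map_add, map_mul, map_mul, map_intCast, map_intCast, map_add, map_mul, map_mul,
        map_intCast, map_intCast, hy₁, hy₂, map_add]
      simp only [zsmul_eq_mul]
      push_cast
      ring
    | monomial k a =>
      obtain ⟨n, hn, hint⟩ := ((IsFractionRing.isAlgebraic_iff ℤ ℚ K).2
        (Algebra.IsAlgebraic.isAlgebraic a)).exists_integral_multiple
      obtain ⟨c, hc⟩ : ∃ c : 𝓞 K, algebraMap (𝓞 K) K c = n • a := ⟨⟨n • a, hint⟩, rfl⟩
      refine ⟨n, hn, AdjoinRoot.mk g (monomial k c), ?_⟩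
      rw [hiF, ← map_zsmul (AdjoinRoot.mk gK)]
      congr 1
      rw [map_monomial, smul_monomial, hc]
  obtain ⟨N, hN0, hN⟩ := exists_multiple (F := F) i.range.toAddSubgroup (by
    intro x
    obtain ⟨n, hn, y, hy⟩ := hmult (algebraMap (𝓞 F) F x)
    refine ⟨n, hn, y, hFinj ?_⟩
    rw [map_zsmul]
    exact hy)
  have hN' : ∀ x : 𝓞 F, ∃ y : R, i y = (N : 𝓞 F) * x := by
    intro x
    obtain ⟨y, hy⟩ := hN x
    refine ⟨y, ?_⟩
    rw [hy]
    simp
  refine ⟨F, inferInstance, inferInstance, N, ?_⟩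
  intro r hr hBr P hP
  have : Fact r.Prime := ⟨hr⟩
  have hNr : (N : ZMod r) ≠ 0 := by
    rw [Ne, ZMod.natCast_eq_zero_iff]
    exact fun h => absurd (Nat.le_of_dvd (Nat.pos_of_ne_zero hN0) h) (by omega)
  have hex : ∀ z : P, ∃ ψ : 𝓞 F →+* ZMod r,
      ψ.comp (algebraMap (𝓞 K) (𝓞 F)) = z.1.1 ∧ ψ b = z.1.2 := by
    intro z
    obtain ⟨ψ, hψ⟩ := exists_extend i hi N hN0 hN'
      (AdjoinRoot.lift z.1.1 z.1.2 (hP z.1 z.2)) hNr
    refine ⟨ψ, ?_, ?_⟩
    · ext x
      have h1 := hψ (AdjoinRoot.of g x)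
      rw [AdjoinRoot.lift_of, AdjoinRoot.lift_of] at h1
      exact h1
    · have h1 := hψ (AdjoinRoot.root g)
      rw [AdjoinRoot.lift_root, AdjoinRoot.lift_root] at h1
      exact h1
  choose ψ hψ using hex
  refine ⟨Finset.univ.image fun z : P => RingHom.ker (ψ z), ?_, ?_⟩
  · rw [Finset.card_image_of_injective, Finset.card_univ, Fintype.card_coe]
    intro z z' h
    have h1 : ψ z = ψ z' := ZMod.ringHom_eq_of_ker_eq _ _ h
    have h2 := hψ z
    have h3 := hψ z'
    rw [h1] at h2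
    exact Subtype.ext (Prod.ext (h2.1.symm.trans h3.1) (h2.2.symm.trans h3.2))
  · intro I hI
    obtain ⟨z, -, rfl⟩ := Finset.mem_image.1 hI
    rw [Ideal.absNorm_apply, Submodule.cardQuot_apply,
      Nat.card_congr (RingHom.quotientKerEquivOfSurjective (ZMod.ringHom_surjective (ψ z))).toEquiv]
    exact Nat.card_zmod r

/-- homomorphisms from the ring of integers of a cyclotomic field to `ZMod r` -/
theorem cyc_hom {n : ℕ} [NeZero n] {K : Type} [Field K] [NumberField K]
    [IsCyclotomicExtension {n} ℚ K] {ζ : K} (hζ : IsPrimitiveRoot ζ n) (r : ℕ) [Fact r.Prime]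
    (x : ZMod r) (hx : IsPrimitiveRoot x n) :
    ∃ φ : 𝓞 K →+* ZMod r, φ hζ.toInteger = x := by
  have h1 : (minpoly ℤ hζ.integralPowerBasis.gen).aeval x = 0 := by
    rw [hζ.integralPowerBasis_gen]
    have h2 : minpoly ℤ hζ.toInteger = cyclotomic n ℤ := by
      rw [cyclotomic_eq_minpoly hζ (NeZero.pos n)]
      exact (minpoly.algebraMap_eq RingOfIntegers.coe_injective hζ.toInteger).symm
    rw [h2, aeval_def, ← eval_map, map_cyclotomic]
    exact hx.isRoot_cyclotomic (NeZero.pos n)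
  refine ⟨(hζ.integralPowerBasis.lift x h1 : 𝓞 K →ₐ[ℤ] ZMod r), ?_⟩
  have h3 := hζ.integralPowerBasis.lift_gen x h1
  rw [hζ.integralPowerBasis_gen] at h3
  exact h3

/-- number of pairs of a homomorphism from the ring of integers of the cyclotomic field and an
`e`-th root of the image of `a` -/
theorem count {n : ℕ} [NeZero n] {K : Type} [Field K] [NumberField K]
    [IsCyclotomicExtension {n} ℚ K] {ζ : K} (hζ : IsPrimitiveRoot ζ n) (r : ℕ) [Fact r.Prime]
    (x : ZMod r) (hx : IsPrimitiveRoot x n) (e : ℕ) (w : ZMod r) (hw : IsPrimitiveRoot w e)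
    (he : 0 < e) (a : 𝓞 K) (ha : ∀ φ : 𝓞 K →+* ZMod r, φ a ≠ 0)
    (hy : ∀ φ : 𝓞 K →+* ZMod r, ∃ y, y ^ e = φ a) :
    ∃ P : Finset ((𝓞 K →+* ZMod r) × ZMod r), P.card = n.totient * e ∧
      ∀ z ∈ P, z.2 ^ e = z.1 a := by
  classical
  have hex : ∀ x' : ZMod r, ∃ φ : 𝓞 K →+* ZMod r, IsPrimitiveRoot x' n → φ hζ.toInteger = x' := by
    intro x'
    by_cases hx' : IsPrimitiveRoot x' n
    · obtain ⟨φ, hφ⟩ := cyc_hom hζ r x' hx'
      exact ⟨φ, fun _ => hφ⟩
    · obtain ⟨φ, hφ⟩ := cyc_hom hζ r x hx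
      exact ⟨φ, fun h => absurd h hx'⟩
  choose φ hφ using hex
  have hmem : ∀ z : (_ : ZMod r) × ZMod r, z ∈ (primitiveRoots n (ZMod r)).sigma
      (fun x' => (nthRoots e (φ x' a)).toFinset) ↔
      (IsPrimitiveRoot z.1 n ∧ z.2 ^ e = φ z.1 a) := by
    intro z
    rw [Finset.mem_sigma, mem_primitiveRoots (NeZero.pos n), Multiset.mem_toFinset,
      mem_nthRoots he]
  refine ⟨((primitiveRoots n (ZMod r)).sigma
    (fun x' => (nthRoots e (φ x' a)).toFinset)).image (fun z => (φ z.1, z.2)), ?_, ?_⟩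
  · rw [Finset.card_image_of_injOn, Finset.card_sigma]
    · have h1 : ∀ x' ∈ primitiveRoots n (ZMod r), (nthRoots e (φ x' a)).toFinset.card = e := by
        intro x' _
        rw [Multiset.toFinset_card_of_nodup (hw.nthRoots_nodup (ha _)), hw.card_nthRoots,
          if_pos (hy _)]
      rw [Finset.sum_congr rfl h1, Finset.sum_const, hx.card_primitiveRoots, smul_eq_mul]
    · intro z hz z' hz' h
      have h1 := (hmem z).1 hz
      have h2 := (hmem z').1 hz'
      have h3 : φ z.1 = φ z'.1 := congrArg Prod.fst h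
      have h4 : z.2 = z'.2 := congrArg Prod.snd h
      have h5 : z.1 = z'.1 := by rw [← hφ z.1 h1.1, ← hφ z'.1 h2.1, h3]
      exact Sigma.ext h5 (heq_of_eq h4)
  · intro z hz
    obtain ⟨z', hz', rfl⟩ := Finset.mem_image.1 hz
    exact ((hmem z').1 hz').2

/-- a primitive `n`-th root of unity modulo `r`, `n ∣ r - 1` -/
theorem exists_root (r n : ℕ) [Fact r.Prime] (hn : n ∣ r - 1) :
    ∃ x : ZMod r, IsPrimitiveRoot x n := by
  obtain ⟨g, hg⟩ := IsCyclic.exists_generator (α := (ZMod r)ˣ)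
  have h1 : orderOf g = r - 1 := by
    rw [orderOf_eq_card_of_forall_mem_zpowers hg, Nat.card_eq_fintype_card, ZMod.card_units]
  obtain ⟨c, hc⟩ := hn
  have hr : 1 < r := (Fact.out : r.Prime).one_lt
  have hg' : IsPrimitiveRoot (g : ZMod r) (r - 1) := by
    rw [← h1, ← orderOf_units]
    exact IsPrimitiveRoot.orderOf _
  exact ⟨(g : ZMod r) ^ c, hg'.pow (by omega) (by rw [hc, mul_comm])⟩

/-- `e`-th powers modulo `r`, `e ∣ r - 1` -/
theorem exists_pow (r e : ℕ) [Fact r.Prime] (he : e ∣ r - 1) (a : ZMod r) (ha : a ≠ 0)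
    (h : a ^ ((r - 1) / e) = 1) : ∃ y : ZMod r, y ^ e = a := by
  obtain ⟨g, hg⟩ := IsCyclic.exists_generator (α := (ZMod r)ˣ)
  have h1 : orderOf g = r - 1 := by
    rw [orderOf_eq_card_of_forall_mem_zpowers hg, Nat.card_eq_fintype_card, ZMod.card_units]
  obtain ⟨c, hc⟩ := he
  have hr : 1 < r := (Fact.out : r.Prime).one_lt
  have he0 : 0 < e := Nat.pos_of_ne_zero (by rintro rfl; omega)
  have hc0 : 0 < c := Nat.pos_of_ne_zero (by rintro rfl; omega)
  obtain ⟨k, hk⟩ := (mem_powers_iff_mem_zpowers.2 (hg (Units.mk0 a ha)))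
  have hk' : (g : ZMod r) ^ k = a := by
    have := congrArg Units.val hk
    simpa using this
  have h2 : g ^ (k * c) = 1 := by
    apply Units.ext
    rw [Units.val_pow_eq_pow_val, pow_mul, hk']
    rw [hc, Nat.mul_div_cancel_left c he0] at h
    simpa using h
  have h3 : e * c ∣ k * c := by
    rw [← hc, ← h1]
    exact orderOf_dvd_of_pow_eq_one h2
  obtain ⟨j, hj⟩ := Nat.dvd_of_mul_dvd_mul_right hc0 h3
  exact ⟨(g : ZMod r) ^ j, by rw [← pow_mul, mul_comm, ← hj, hk']⟩

end Pool.Agent.Lib.MP81632f.Lv.SplitAux
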