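import Pool.Agent.Lib.MP_81632f_ag.Lv.Stmts
import Pool.Agent.Lib.MP_81632f_ag.Lv.SplitAux

/-!
# CL-B: the field of the `q ^ T`-th roots of unity and of the `q`-th roots of `p`

No element of the cyclotomic field `K` of the `q ^ T`-th roots of unity, `q` odd, has `q`-th power
`p` (the Galois group is commutative, complex conjugation and a twist by a root of unity); so
`X ^ q - p` is irreducible over `K`, and `SplitAux.main` gives the prime ideals.
-/

set_option autoImplicit false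

noncomputable section

namespace Pool.Agent.Lib.MP81632f.Lv.SplitB

open Finset NumberField Polynomial

/-- a rational number has no `q`-th power equal to the prime number `p` -/
theorem rat_no_root (p q : ℕ) (hp : p.Prime) (hq : 1 < q) (c : ℚ) : c ^ q ≠ (p : ℚ) := by
  intro h
  have : Fact p.Prime := ⟨hp⟩
  have hc : c ≠ 0 := by
    rintro rfl
    rw [zero_pow (by omega)] at h
    exact hp.ne_zero (by exact_mod_cast h.symm)
  have h1 := congrArg (padicValRat p) h
  rw [padicValRat.pow, padicValRat.self hp.one_lt] at h1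
  have h2 : (q : ℤ) ∣ 1 := ⟨_, h1.symm⟩
  have h3 := Int.le_of_dvd one_pos h2
  omega

/-- no element of the cyclotomic field has `q`-th power `p` -/
theorem no_root (p q T : ℕ) (hp : p.Prime) (hq : q.Prime) (hq2 : q ≠ 2) (hT : 0 < T)
    {K : Type} [Field K] [NumberField K] [NeZero (q ^ T)] [IsCyclotomicExtension {q ^ T} ℚ K]
    (b : K) : b ^ q ≠ (p : K) := by
  intro hb
  have hqpos := hq.pos
  have hqodd : Odd q := hq.odd_of_ne_two hq2
  have hb0 : b ≠ 0 := by
    rintro rfl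
    rw [zero_pow hq.ne_zero] at hb
    exact hp.ne_zero (by exact_mod_cast hb.symm)
  have : NeZero q := ⟨hq.ne_zero⟩
  have hζ := IsCyclotomicExtension.zeta_spec (q ^ T) ℚ K
  set ζ := IsCyclotomicExtension.zeta (q ^ T) ℚ K with hζdef
  have hω : IsPrimitiveRoot (ζ ^ q ^ (T - 1)) q :=
    hζ.pow (pow_pos hq.pos T) (by rw [← pow_succ, Nat.sub_add_cancel hT])
  set ω := ζ ^ q ^ (T - 1) with hωdef
  have hω0 : ω ≠ 0 := hω.ne_zero hq.ne_zero
  have hωq : ω ^ q = 1 := hω.pow_eq_one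
  have hirr : Irreducible (cyclotomic (q ^ T) ℚ) := cyclotomic.irreducible_rat (NeZero.pos _)
  have hgal : IsGalois ℚ K := IsCyclotomicExtension.isGalois {q ^ T} ℚ K
  have hcomm : ∀ σ τ : Gal(K/ℚ), σ * τ = τ * σ := by
    intro σ τ
    apply (IsCyclotomicExtension.autEquivPow K hirr).injective
    rw [map_mul, map_mul, mul_comm]
  -- complex conjugation
  have hζi : IsPrimitiveRoot ζ⁻¹ (q ^ T) := hζ.inv
  obtain ⟨τ, hτ⟩ : ∃ τ : Gal(K/ℚ), τ ζ = ζ⁻¹ :=
    ⟨IsCyclotomicExtension.fromZetaAut hζi hirr, IsCyclotomicExtension.fromZetaAut_spec hζi hirr⟩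
  have hτω : τ ω = ω⁻¹ := by rw [hωdef, map_pow, hτ, inv_pow]
  -- action on `b'`
  have hact : ∀ (c : K), c ^ q = p → ∀ σ : Gal(K/ℚ), ∃ i : ℕ, σ c = ω ^ i * c := by
    intro c hc σ
    have hc0 : c ≠ 0 := by
      rintro rfl
      rw [zero_pow hq.ne_zero] at hc
      exact hp.ne_zero (by exact_mod_cast hc.symm)
    have h1 : (σ c / c) ^ q = 1 := by
      rw [div_pow, ← map_pow, hc, map_natCast, div_self]
      exact_mod_cast hp.ne_zero
    obtain ⟨i, -, hi⟩ := hω.eq_pow_of_pow_eq_one h1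
    exact ⟨i, by rw [hi, div_mul_cancel₀ _ hc0]⟩
  obtain ⟨k, hk⟩ := hact b hb τ
  obtain ⟨s, hs⟩ := hqodd
  -- `b' = ω ^ (k (s + 1)) b` is fixed by `τ`
  obtain ⟨c, hc, hτc⟩ : ∃ c : K, c ^ q = p ∧ τ c = c := by
    refine ⟨ω ^ (k * (s + 1)) * b, ?_, ?_⟩
    · rw [mul_pow, ← pow_mul, mul_comm _ q, pow_mul, hωq, one_pow, one_mul, hb]
    · rw [map_mul, map_pow, hτω, hk, inv_pow]
      have h2 : ω ^ (k * (s + 1)) * ω ^ (k * (s + 1)) = ω ^ k := by
        rw [← pow_add, show k * (s + 1) + k * (s + 1) = k + q * k by rw [hs]; ring, pow_add,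
          pow_mul, hωq, one_pow, mul_one]
      rw [← h2]
      have h3 : ω ^ (k * (s + 1)) ≠ 0 := pow_ne_zero _ hω0
      field_simp
  -- `c` is fixed by everything
  have hfix : ∀ σ : Gal(K/ℚ), σ c = c := by
    intro σ
    obtain ⟨i, hi⟩ := hact c hc σ
    have hc0 : c ≠ 0 := by
      rintro rfl
      rw [zero_pow hq.ne_zero] at hc
      exact hp.ne_zero (by exact_mod_cast hc.symm)
    have h1 : τ (σ c) = σ (τ c) := by
      have := congrArg (fun f : Gal(K/ℚ) => f c) (hcomm τ σ)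
      exact this
    rw [hτc, hi, map_mul, map_pow, hτω, hτc, inv_pow] at h1
    have h2 : ω ^ (2 * i) = 1 := by
      have h3 : (ω ^ i)⁻¹ = ω ^ i := mul_right_cancel₀ hc0 h1
      have h4 : ω ^ i ≠ 0 := pow_ne_zero _ hω0
      rw [two_mul, pow_add]
      nth_rewrite 1 [← h3]
      exact inv_mul_cancel₀ h4
    have h5 : q ∣ 2 * i := (hω.pow_eq_one_iff_dvd _).1 h2
    have h6 : q ∣ i := by
      rcases hq.dvd_mul.1 h5 with h | h
      · exact absurd ((Nat.prime_dvd_prime_iff_eq hq Nat.prime_two).1 h) hq2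
      · exact h
    rw [hi, (hω.pow_eq_one_iff_dvd _).2 h6, one_mul]
  obtain ⟨d, hd⟩ := (IsGalois.mem_range_algebraMap_iff_fixed c).2 hfix
  apply rat_no_root p q hp hq.one_lt d
  apply (algebraMap ℚ K).injective
  rw [map_pow, hd, hc, map_natCast]

end Pool.Agent.Lib.MP81632f.Lv.SplitB

namespace Pool.Agent.Lib.MP81632f.Lv

open Finset NumberField Polynomial

theorem stSplit : StSplit := by
  intro p q T hp hq hq2 hT
  have : NeZero (q ^ T) := ⟨(pow_pos hq.pos T).ne'⟩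
  let K := CyclotomicField (q ^ T) ℚ
  have : NeZero ((q ^ T : ℕ) : ℚ) := ⟨by exact_mod_cast (pow_pos hq.pos T).ne'⟩
  have : IsCyclotomicExtension {q ^ T} ℚ K := CyclotomicField.isCyclotomicExtension _ _
  have hζ := IsCyclotomicExtension.zeta_spec (q ^ T) ℚ K
  have hKirr : Irreducible ((X ^ q - C (p : 𝓞 K) : (𝓞 K)[X]).map (algebraMap (𝓞 K) K)) := by
    rw [Polynomial.map_sub, Polynomial.map_pow, map_X, map_C, map_natCast]
    exact X_pow_sub_C_irreducible_of_prime hq (SplitB.no_root p q T hp hq hq2 hT)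
  obtain ⟨F, hF, hFn, B, hB⟩ := SplitAux.main (K := K) (X ^ q - C (p : 𝓞 K))
    (monic_X_pow_sub_C _ hq.ne_zero) hKirr
  refine ⟨F, hF, hFn, B + p, ?_⟩
  intro r hr hBr hr1 hpr
  have : Fact r.Prime := ⟨hr⟩
  have hr2 : 1 < r := hr.one_lt
  have hdvd : q ^ T ∣ r - 1 := (Nat.modEq_iff_dvd' hr2.le).1 hr1.symm
  have hqr : q ∣ r - 1 := (dvd_pow_self q hT.ne').trans hdvd
  have hp0 : (p : ZMod r) ≠ 0 := by
    rw [Ne, ZMod.natCast_eq_zero_iff]
    exact fun h => absurd (Nat.le_of_dvd hp.pos h) (by omega)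
  obtain ⟨x, hx⟩ := SplitAux.exists_root r (q ^ T) hdvd
  obtain ⟨w, hw⟩ := SplitAux.exists_root r q hqr
  obtain ⟨y, hy⟩ := SplitAux.exists_pow r q hqr (p : ZMod r) hp0 hpr
  obtain ⟨P, hP, hPz⟩ := SplitAux.count hζ r x hx q w hw hq.pos (p : 𝓞 K)
    (fun φ => by rw [map_natCast]; exact hp0) (fun φ => ⟨y, by rw [map_natCast]; exact hy⟩)
  obtain ⟨S, hS1, hS2⟩ := hB r hr (by omega) P (fun z hz => by
    rw [eval₂_sub, eval₂_pow, eval₂_X, eval₂_C, hPz z hz, sub_self])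
  exact ⟨S, by rw [← hP.trans (mul_comm _ _)]; exact hS1, hS2⟩

end Pool.Agent.Lib.MP81632f.Lv
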