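import Pool.Agent.Lib.MP_81632f_ag.Lv.Stmts

/-!
# Levels: primes which split completely (shared part of CL-B and CL-C)

Let `F` be a number field, Galois over `ℚ` and generated by roots of a monic polynomial `g` with
integer coefficients.  For all large primes `r` such that `g` splits modulo `r` there are
`[F : ℚ]` ideals of norm `r` in `F`.
-/

set_option autoImplicit false

noncomputable section

namespace Pool.Agent.Lib.MP81632f.Lv

open Polynomial NumberField

namespace SplitAux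

section Gen

variable {F : Type} [Field F] [NumberField F]

/-- denominators -/
theorem exists_den (s : Set (𝓞 F)) (x : F)
    (hx : x ∈ Algebra.adjoin ℚ ((fun y : 𝓞 F => (y : F)) '' s)) :
    ∃ N : ℕ, 0 < N ∧ ∃ z ∈ Algebra.adjoin ℤ s, algebraMap (𝓞 F) F z = N * x := by
  induction hx using Algebra.adjoin_induction with
  | mem x hx =>
    obtain ⟨y, hy, rfl⟩ := hx
    exact ⟨1, one_pos, y, Algebra.subset_adjoin hy, by simp⟩
  | algebraMap c =>
    refine ⟨c.den, c.den_pos, algebraMap ℤ (𝓞 F) c.num, Subalgebra.algebraMap_mem _ _, ?_⟩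
    have h1 : (c.den : ℚ) * c = c.num := by
      rw [mul_comm]
      exact Rat.mul_den_eq_num c
    have h2 := congrArg (algebraMap ℚ F) h1
    rw [map_mul, map_natCast, map_intCast] at h2
    rw [h2]
    simp
  | add x y _ _ hx hy =>
    obtain ⟨N, hN, z, hz, hzx⟩ := hx
    obtain ⟨N', hN', z', hz', hzx'⟩ := hy
    refine ⟨N * N', Nat.mul_pos hN hN', N' * z + N * z', ?_, ?_⟩
    · exact Subalgebra.add_mem _ (Subalgebra.mul_mem _ (Subalgebra.natCast_mem _ _) hz)
        (Subalgebra.mul_mem _ (Subalgebra.natCast_mem _ _) hz')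
    · rw [map_add, map_mul, map_mul, map_natCast, map_natCast, hzx, hzx']
      push_cast
      ring
  | mul x y _ _ hx hy =>
    obtain ⟨N, hN, z, hz, hzx⟩ := hx
    obtain ⟨N', hN', z', hz', hzx'⟩ := hy
    refine ⟨N * N', Nat.mul_pos hN hN', z * z', Subalgebra.mul_mem _ hz hz', ?_⟩
    rw [map_mul, hzx, hzx']
    push_cast
    ring

/-- a common denominator -/
theorem exists_den' (s : Set (𝓞 F))
    (h : Algebra.adjoin ℚ ((fun y : 𝓞 F => (y : F)) '' s) = ⊤) :
    ∃ N : ℕ, 0 < N ∧ ∀ x : 𝓞 F, (N : 𝓞 F) * x ∈ Algebra.adjoin ℤ s := by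
  classical
  obtain ⟨t, ht⟩ := (Module.Finite.fg_top : (⊤ : Submodule ℤ (𝓞 F)).FG)
  have h1 : ∀ x : 𝓞 F, ∃ N : ℕ, 0 < N ∧ (N : 𝓞 F) * x ∈ Algebra.adjoin ℤ s := by
    intro x
    obtain ⟨N, hN, z, hz, hzx⟩ := exists_den s (x : F) (by rw [h]; exact Algebra.mem_top)
    refine ⟨N, hN, ?_⟩
    have : z = (N : 𝓞 F) * x := by
      apply RingOfIntegers.ext
      change algebraMap (𝓞 F) F z = algebraMap (𝓞 F) F _
      rw [hzx, map_mul, map_natCast]
    rwa [← this]
  choose n hn0 hn using h1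
  refine ⟨∏ x ∈ t, n x, Finset.prod_pos fun x _ => hn0 x, fun x => ?_⟩
  have hx : x ∈ Submodule.span ℤ (t : Set (𝓞 F)) := by
    rw [ht]
    exact Submodule.mem_top
  induction hx using Submodule.span_induction with
  | mem x hx =>
    obtain ⟨m, hm⟩ : n x ∣ ∏ x ∈ t, n x := Finset.dvd_prod_of_mem n hx
    rw [hm]
    push_cast
    rw [mul_comm (n x : 𝓞 F), mul_assoc]
    exact Subalgebra.mul_mem _ (Subalgebra.natCast_mem _ _) (hn x)
  | zero =>
    rw [mul_zero]
    exact Subalgebra.zero_mem _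
  | add x y _ _ hx hy =>
    rw [mul_add]
    exact Subalgebra.add_mem _ hx hy
  | smul a x _ hx =>
    rw [mul_smul_comm]
    exact Subalgebra.smul_mem _ hx a

/-- homomorphisms to a prime field are determined by their kernels -/
theorem ker_inj {R : Type*} [CommRing R] {r : ℕ} [Fact r.Prime] (h h' : R →+* ZMod r)
    (hk : RingHom.ker h = RingHom.ker h') : h = h' := by
  ext x
  have h1 : x - ((h x).val : R) ∈ RingHom.ker h := by
    rw [RingHom.mem_ker, map_sub, map_natCast, ZMod.natCast_zmod_val, sub_self]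
  rw [hk, RingHom.mem_ker, map_sub, map_natCast, ZMod.natCast_zmod_val, sub_eq_zero] at h1
  exact h1.symm

theorem absNorm_ker {r : ℕ} [Fact r.Prime] (h : 𝓞 F →+* ZMod r) :
    Ideal.absNorm (RingHom.ker h) = r := by
  rw [Ideal.absNorm_apply, Submodule.cardQuot_apply,
    Nat.card_congr (RingHom.quotientKerEquivOfSurjective (ZMod.ringHom_surjective h)).toEquiv,
    Nat.card_zmod]

end Gen

/-- **Primes which split completely.** -/
theorem splitGen (F : Type) [Field F] [NumberField F] [IsGalois ℚ F] (g : ℤ[X]) (hg : g.Monic)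
    (hgen : Algebra.adjoin ℚ (g.rootSet F) = ⊤) :
    ∃ B : ℕ, ∀ r : ℕ, r.Prime → B < r → (g.map (Int.castRingHom (ZMod r))).Splits →
      ∃ S : Finset (Ideal (𝓞 F)), Module.finrank ℚ F ≤ S.card ∧
        ∀ P ∈ S, Ideal.absNorm P = r := by
  classical
  -- the integral roots
  set s : Set (𝓞 F) := g.rootSet (𝓞 F) with hs
  have hsim : (fun y : 𝓞 F => (y : F)) '' s = g.rootSet F := by
    ext x
    constructor
    · rintro ⟨y, hy, rfl⟩
      rw [hs, hg.mem_rootSet] at hy
      rw [hg.mem_rootSet, ← map_zero (algebraMap (𝓞 F) F), ← hy]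
      exact aeval_algebraMap_apply F y g
    · intro hx
      rw [hg.mem_rootSet] at hx
      have hint : IsIntegral ℤ x := ⟨g, hg, by rwa [← aeval_def]⟩
      obtain ⟨y, rfl⟩ : ∃ y : 𝓞 F, algebraMap (𝓞 F) F y = x := ⟨⟨x, hint⟩, rfl⟩
      refine ⟨y, ?_, rfl⟩
      rw [hs, hg.mem_rootSet]
      apply FaithfulSMul.algebraMap_injective (𝓞 F) F
      rw [← aeval_algebraMap_apply F y g, map_zero]
      exact hx
  have hsfin : s.Finite := Polynomial.rootSet_finite g (𝓞 F)
  obtain ⟨N, hN0, hN⟩ := exists_den' s (by rw [hsim]; exact hgen)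
  -- the bound
  set U : Finset (𝓞 F) := hsfin.toFinset with hU
  refine ⟨N + ∑ x ∈ U, ∑ y ∈ U, Ideal.absNorm (Ideal.span {x - y}), fun r hr hB hsp => ?_⟩
  have : Fact r.Prime := ⟨hr⟩
  -- a maximal ideal above `r`
  have hne : Ideal.span {(r : 𝓞 F)} ≠ ⊤ := by
    intro h
    have h1 := congrArg Ideal.absNorm h
    rw [Ideal.absNorm_top, Ideal.absNorm_span_singleton] at h1
    have h2 : Algebra.norm ℤ (r : 𝓞 F) = (r : ℤ) ^ Module.finrank ℤ (𝓞 F) := by
      have := Algebra.norm_algebraMap (S := 𝓞 F) (r : ℤ)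
      rwa [map_natCast] at this
    rw [h2, Int.natAbs_pow, Int.natAbs_natCast, RingOfIntegers.rank] at h1
    have h3 : 0 < Module.finrank ℚ F := Module.finrank_pos
    have h4 := Nat.one_lt_pow h3.ne' hr.one_lt
    omega
  obtain ⟨P, hPm, hPr⟩ := Ideal.exists_le_maximal _ hne
  have hrP : (r : 𝓞 F) ∈ P := hPr (Ideal.mem_span_singleton_self _)
  let _ : Field (𝓞 F ⧸ P) := Ideal.Quotient.field P
  have hr0 : (r : 𝓞 F ⧸ P) = 0 := by
    rw [← map_natCast (Ideal.Quotient.mk P), Ideal.Quotient.eq_zero_iff_mem]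
    exact hrP
  have hchar : CharP (𝓞 F ⧸ P) r := (CharP.charP_iff_prime_eq_zero hr).2 hr0
  set ι : ZMod r →+* 𝓞 F ⧸ P := ZMod.castHom (dvd_refl r) (𝓞 F ⧸ P) with hι
  set f : 𝓞 F →+* 𝓞 F ⧸ P := Ideal.Quotient.mk P with hf
  -- the image of the generators
  have hroot : ∀ α ∈ s, f α ∈ ι.range := by
    intro α hα
    rw [hs, hg.mem_rootSet] at hα
    have h1 : eval (f α) ((g.map (Int.castRingHom (ZMod r))).map ι) = 0 := by
      rw [Polynomial.map_map, RingHom.ext_int (ι.comp (Int.castRingHom (ZMod r)))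
        (Int.castRingHom (𝓞 F ⧸ P)), eval_map]
      have h2 := congrArg f hα
      rw [aeval_def, hom_eval₂, map_zero] at h2
      rw [← h2]
      congr 1
    rw [hsp.eq_prod_roots_of_monic (hg.map _), Polynomial.map_multiset_prod, Multiset.map_map,
      eval_multiset_prod, Multiset.prod_eq_zero_iff, Multiset.mem_map] at h1
    obtain ⟨q, hq, hq0⟩ := h1
    rw [Multiset.mem_map] at hq
    obtain ⟨a, -, rfl⟩ := hq
    refine ⟨a, ?_⟩
    simp only [Function.comp_apply, Polynomial.map_sub, map_X, map_C, eval_sub, eval_X,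
      eval_C] at hq0
    exact (sub_eq_zero.1 hq0).symm
  have hadj : ∀ z ∈ Algebra.adjoin ℤ s, f z ∈ ι.range := by
    intro z hz
    induction hz using Algebra.adjoin_induction with
    | mem x hx => exact hroot x hx
    | algebraMap c =>
      refine ⟨(c : ZMod r), ?_⟩
      rw [map_intCast, eq_intCast, map_intCast]
    | add x y _ _ hx hy => rw [map_add]; exact Subring.add_mem _ hx hy
    | mul x y _ _ hx hy => rw [map_mul]; exact Subring.mul_mem _ hx hy
  have hNr : (N : ZMod r) ≠ 0 := by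
    intro h
    rw [ZMod.natCast_eq_zero_iff] at h
    have := Nat.le_of_dvd hN0 h
    omega
  have hsurj : Function.Surjective ι := by
    intro y
    obtain ⟨x, rfl⟩ := Ideal.Quotient.mk_surjective y
    obtain ⟨a, ha⟩ := hadj _ (hN x)
    refine ⟨(N : ZMod r)⁻¹ * a, ?_⟩
    rw [map_mul, ha, map_mul, map_natCast, ← mul_assoc, ← map_natCast ι N, ← map_mul,
      inv_mul_cancel₀ hNr, map_one, one_mul]
  let e : ZMod r ≃+* 𝓞 F ⧸ P := RingEquiv.ofBijective ι ⟨ι.injective, hsurj⟩
  let h : 𝓞 F →+* ZMod r := (e.symm : 𝓞 F ⧸ P →+* ZMod r).comp f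
  have hker : ∀ x, h x = 0 → x ∈ P := by
    intro x hx
    have h1 : e.symm (f x) = 0 := hx
    rw [map_eq_zero_iff _ e.symm.injective] at h1
    exact Ideal.Quotient.eq_zero_iff_mem.1 h1
  have hPle : P ≤ RingHom.ker h := by
    intro x hx
    rw [RingHom.mem_ker]
    change e.symm (f x) = 0
    rw [hf, Ideal.Quotient.eq_zero_iff_mem.2 hx, map_zero]
  have hPeq : P = RingHom.ker h := le_antisymm hPle fun x hx => hker x hx
  have hPn : Ideal.absNorm P = r := by
    rw [hPeq]
    exact absNorm_ker h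
  -- the roots are different modulo `P`
  have hdiff : ∀ α ∈ s, ∀ β ∈ s, h α = h β → α = β := by
    intro α hα β hβ hab
    by_contra hne
    have h1 : α - β ∈ P := hker _ (by rw [map_sub, hab, sub_self])
    have h2 : r ∣ Ideal.absNorm (Ideal.span {α - β}) := by
      rw [← hPn]
      apply Ideal.absNorm_dvd_absNorm_of_le
      rw [Ideal.span_singleton_le_iff_mem]
      exact h1
    have h3 : Ideal.absNorm (Ideal.span {α - β}) ≠ 0 := by
      rw [Ne, Ideal.absNorm_eq_zero_iff, Ideal.span_singleton_eq_bot, sub_eq_zero]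
      exact hne
    have h4 := Nat.le_of_dvd (Nat.pos_of_ne_zero h3) h2
    have h5 : Ideal.absNorm (Ideal.span {α - β}) ≤ ∑ y ∈ U, Ideal.absNorm (Ideal.span {α - y}) :=
      Finset.single_le_sum (f := fun y => Ideal.absNorm (Ideal.span {α - y}))
        (fun _ _ => Nat.zero_le _) (by rw [hU, Set.Finite.mem_toFinset]; exact hβ)
    have h6 : ∑ y ∈ U, Ideal.absNorm (Ideal.span {α - y}) ≤
        ∑ x ∈ U, ∑ y ∈ U, Ideal.absNorm (Ideal.span {x - y}) :=
      Finset.single_le_sum (f := fun x => ∑ y ∈ U, Ideal.absNorm (Ideal.span {x - y}))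
        (fun _ _ => Nat.zero_le _) (by rw [hU, Set.Finite.mem_toFinset]; exact hα)
    omega
  -- the conjugates
  let cj : (F ≃ₐ[ℚ] F) → (𝓞 F →+* 𝓞 F) := fun σ =>
    (RingOfIntegers.mapRingEquiv (σ : F ≃+* F) : 𝓞 F ≃+* 𝓞 F)
  have hcj : ∀ σ (x : 𝓞 F), ((cj σ x : 𝓞 F) : F) = σ (x : F) := fun σ x => rfl
  have hcjs : ∀ σ, ∀ α ∈ s, cj σ α ∈ s := by
    intro σ α hα
    rw [hs, hg.mem_rootSet] at hα ⊢
    have h2 := congrArg (cj σ) hα
    rw [aeval_def, hom_eval₂, map_zero] at h2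
    rw [aeval_def, ← h2]
    congr 1
    exact RingHom.ext_int _ _
  have hinj : Function.Injective fun σ : F ≃ₐ[ℚ] F => RingHom.ker (h.comp (cj σ)) := by
    intro σ τ hστ
    have h1 := ker_inj _ _ hστ
    have h2 : ∀ α ∈ s, cj σ α = cj τ α := fun α hα =>
      hdiff _ (hcjs σ α hα) _ (hcjs τ α hα) (RingHom.congr_fun h1 α)
    have h3 : (σ : F →ₐ[ℚ] F) = (τ : F →ₐ[ℚ] F) := by
      refine AlgHom.ext_of_adjoin_eq_top hgen fun x hx => ?_
      rw [← hsim] at hx
      obtain ⟨α, hα, rfl⟩ := hx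
      change σ (α : F) = τ (α : F)
      rw [← hcj, ← hcj, h2 α hα]
    ext x
    exact DFunLike.congr_fun h3 x
  refine ⟨Finset.univ.image fun σ : F ≃ₐ[ℚ] F => RingHom.ker (h.comp (cj σ)), ?_, ?_⟩
  · rw [Finset.card_image_of_injective _ hinj, Finset.card_univ, ← Nat.card_eq_fintype_card,
      IsGalois.card_aut_eq_finrank]
  · intro Q hQ
    obtain ⟨σ, -, rfl⟩ := Finset.mem_image.1 hQ
    exact absNorm_ker _

end SplitAux

end Pool.Agent.Lib.MP81632f.Lv
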