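import Pool.Agent.Lib.MP_81632f_ag.Lv.SplitGen

/-!
# Levels: the field of the `2 ^ T`-th roots of unity and the eighth roots of `2` (CL-C)
-/

set_option autoImplicit false

noncomputable section

namespace Pool.Agent.Lib.MP81632f.Lv

open Polynomial NumberField

namespace SplitTwoAux

/-- splitting of `X ^ n - c` modulo `r` -/
theorem splits_zmod {r n : ℕ} [Fact r.Prime] (hn : n ∣ r - 1) (c : ZMod r)
    (h : c ^ ((r - 1) / n) = 1) : (X ^ n - C c : (ZMod r)[X]).Splits := by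
  have hr : r.Prime := Fact.out
  have hr1 : 0 < r - 1 := by
    have := hr.one_lt
    omega
  obtain ⟨m, hm⟩ := hn
  have hn0 : 0 < n := by
    rcases Nat.eq_zero_or_pos n with h0 | h0
    · rw [h0, zero_mul] at hm
      omega
    · exact h0
  have hm0 : 0 < m := by
    rcases Nat.eq_zero_or_pos m with h0 | h0
    · rw [h0, mul_zero] at hm
      omega
    · exact h0
  have hdiv : (r - 1) / n = m := by
    rw [hm, Nat.mul_div_cancel_left _ hn0]
  rw [hdiv] at h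
  have hc : c ≠ 0 := by
    rintro rfl
    rw [zero_pow hm0.ne'] at h
    exact zero_ne_one h
  obtain ⟨g, hg⟩ := IsCyclic.exists_generator (α := (ZMod r)ˣ)
  have hord : orderOf g = n * m := by
    rw [orderOf_eq_card_of_forall_mem_zpowers hg, Nat.card_eq_fintype_card, ZMod.card_units_eq_totient,
      Nat.totient_prime hr, hm]
  have hgp : IsPrimitiveRoot g (n * m) := hord ▸ IsPrimitiveRoot.orderOf g
  have hζ : IsPrimitiveRoot (((g ^ m : (ZMod r)ˣ)) : ZMod r) n := by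
    rw [IsPrimitiveRoot.coe_units_iff]
    exact hgp.pow (Nat.mul_pos hn0 hm0) (mul_comm n m)
  obtain ⟨k, hk⟩ : ∃ k : ℕ, g ^ k = Units.mk0 c hc :=
    (Submonoid.mem_powers_iff _ _).1 (mem_powers_iff_mem_zpowers.2 (hg (Units.mk0 c hc)))
  have h1 : g ^ (k * m) = 1 := by
    rw [pow_mul, hk]
    ext
    rw [Units.val_pow_eq_pow_val, Units.val_mk0, h, Units.val_one]
  have h2 : n * m ∣ k * m := (hgp.pow_eq_one_iff_dvd _).1 h1
  obtain ⟨j, hj⟩ := (Nat.mul_dvd_mul_iff_right hm0).1 h2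
  refine X_pow_sub_C_splits_of_isPrimitiveRoot hζ (α := ((g ^ j : (ZMod r)ˣ) : ZMod r)) ?_
  rw [← Units.val_pow_eq_pow_val, ← pow_mul, mul_comm, ← hj, hk, Units.val_mk0]

section Degree

variable {F : Type} [Field F] [NumberField F] [IsGalois ℚ F]

open IntermediateField

/-- conjugation -/
theorem exists_aut {n k : ℕ} (hn : 0 < n) {ζ : F} (hζ : IsPrimitiveRoot ζ n)
    (hk : k.Coprime n) : ∃ σ : F ≃ₐ[ℚ] F, σ ζ = ζ ^ k := by
  have h : IsConjRoot ℚ (ζ ^ k) ζ :=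
    (cyclotomic_eq_minpoly_rat (hζ.pow_of_coprime k hk) hn).symm.trans
      (cyclotomic_eq_minpoly_rat hζ hn)
  exact h.exists_algEquiv

omit [IsGalois ℚ F] in
theorem comm_of_mem {σ τ : F ≃ₐ[ℚ] F} {ζ : F} (h : σ (τ ζ) = τ (σ ζ)) {c : F} (hc : c ∈ ℚ⟮ζ⟯) :
    σ (τ c) = τ (σ c) := by
  induction hc using IntermediateField.adjoin_induction with
  | mem x hx =>
    rw [Set.mem_singleton_iff] at hx
    rw [hx, h]
  | algebraMap x => simp only [AlgEquiv.commutes]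
  | add x y _ _ hx hy => simp only [map_add, hx, hy]
  | inv x _ hx => simp only [map_inv₀, hx]
  | mul x y _ _ hx hy => simp only [map_mul, hx, hy]

/-- the fourth root of `2` is not in the cyclotomic field -/
theorem not_mem {T : ℕ} (hT : 3 ≤ T) {ζ : F} (hζ : IsPrimitiveRoot ζ (2 ^ T)) {c : F}
    (hc : c ^ 4 = 2) : c ∉ ℚ⟮ζ⟯ := by
  intro hmem
  obtain ⟨t, rfl⟩ : ∃ t, T = t + 3 := ⟨T - 3, by omega⟩
  have hpos : 0 < 2 ^ (t + 3) := by positivity
  -- an eighth root of unity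
  obtain ⟨w, hw⟩ : ∃ w : F, w = ζ ^ (2 ^ t) := ⟨_, rfl⟩
  have hwp : IsPrimitiveRoot w 8 := by
    rw [hw]
    exact hζ.pow hpos (by rw [pow_add]; norm_num)
  have hw8 : w ^ 8 = 1 := hwp.pow_eq_one
  have hw0 : w ≠ 0 := hwp.ne_zero (by norm_num)
  have hw4 : w ^ 4 = -1 := by
    have h1 : (w ^ 4 - 1) * (w ^ 4 + 1) = 0 := by linear_combination hw8
    rcases mul_eq_zero.1 h1 with h2 | h2
    · exact absurd (sub_eq_zero.1 h2) (hwp.pow_ne_one_of_pos_of_lt (by norm_num) (by norm_num))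
    · exact eq_neg_of_add_eq_zero_left h2
  -- `√2`
  obtain ⟨ρ, hρ⟩ : ∃ ρ : F, ρ = w - w ^ 3 := ⟨_, rfl⟩
  have hρ2 : ρ ^ 2 = 2 := by
    rw [hρ]
    linear_combination (w ^ 2 - 2) * hw4
  have hc2 : c ^ 2 = ρ ∨ c ^ 2 = -ρ := by
    have h1 : (c ^ 2 - ρ) * (c ^ 2 + ρ) = 0 := by linear_combination hc - hρ2
    rcases mul_eq_zero.1 h1 with h2 | h2
    · exact Or.inl (sub_eq_zero.1 h2)
    · exact Or.inr (eq_neg_of_add_eq_zero_left h2)
  have hc0 : c ≠ 0 := by
    rintro rfl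
    norm_num at hc
  -- the automorphisms
  have h5 : Nat.Coprime 5 (2 ^ (t + 3)) := Nat.Coprime.pow_right _ (by norm_num)
  have hm1 : Nat.Coprime (2 ^ (t + 3) - 1) (2 ^ (t + 3)) := by
    have : 2 ^ (t + 3) = (2 ^ (t + 3) - 1) + 1 := by omega
    conv_rhs => rw [this]
    simp
  obtain ⟨σ, hσ⟩ := exists_aut hpos hζ h5
  obtain ⟨τ, hτ⟩ := exists_aut hpos hζ hm1
  have hζ0 : ζ ≠ 0 := hζ.ne_zero hpos.ne'
  have hτ' : τ ζ = ζ⁻¹ := by
    apply eq_inv_of_mul_eq_one_left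
    rw [hτ, ← pow_succ, Nat.sub_add_cancel hpos, hζ.pow_eq_one]
  have hσw : σ w = -w := by
    rw [hw, map_pow, hσ, ← pow_mul, mul_comm 5, pow_mul, ← hw]
    linear_combination w * hw4
  have hτw : τ w = -w ^ 3 := by
    rw [hw, map_pow, hτ', inv_pow, ← hw]
    symm
    apply eq_inv_of_mul_eq_one_left
    linear_combination -hw4
  have hσρ : σ ρ = -ρ := by
    rw [hρ, map_sub, map_pow, hσw]
    ring
  have hτρ : τ ρ = ρ := by
    rw [hρ, map_sub, map_pow, hτw]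
    linear_combination (w ^ 5 - w) * hw4
  -- the images of `c`
  have hσc : σ c = w ^ 2 * c ∨ σ c = -(w ^ 2 * c) := by
    have h1 : (σ c) ^ 2 = -c ^ 2 := by
      rw [← map_pow]
      rcases hc2 with h | h
      · rw [h, hσρ]
      · rw [h, map_neg, hσρ]
    have h2 : (σ c - w ^ 2 * c) * (σ c + w ^ 2 * c) = 0 := by
      linear_combination h1 - c ^ 2 * hw4
    rcases mul_eq_zero.1 h2 with h3 | h3
    · exact Or.inl (sub_eq_zero.1 h3)
    · exact Or.inr (eq_neg_of_add_eq_zero_left h3)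
  have hτc : τ c = c ∨ τ c = -c := by
    have h1 : (τ c) ^ 2 = c ^ 2 := by
      rw [← map_pow]
      rcases hc2 with h | h
      · rw [h, hτρ]
      · rw [h, map_neg, hτρ]
    exact sq_eq_sq_iff_eq_or_eq_neg.1 h1
  have hτw2 : τ (w ^ 2) = -w ^ 2 := by
    rw [map_pow, hτw]
    linear_combination w ^ 2 * hw4
  have hcomm := comm_of_mem (σ := σ) (τ := τ) (ζ := ζ) (by rw [hσ, hτ, map_pow, map_pow, hσ, hτ,
    ← pow_mul, ← pow_mul, mul_comm]) hmem
  have hfin : w ^ 2 * c = 0 := by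
    have h2 : (2 : F) ≠ 0 := two_ne_zero
    rcases hσc with h | h <;> rcases hτc with h' | h'
    · rw [h', h, map_mul, hτw2, h'] at hcomm
      apply mul_left_cancel₀ h2
      linear_combination hcomm
    · rw [h', map_neg, h, map_mul, hτw2, h'] at hcomm
      apply mul_left_cancel₀ h2
      linear_combination -hcomm
    · rw [h', h, map_neg, map_mul, hτw2, h'] at hcomm
      apply mul_left_cancel₀ h2
      linear_combination -hcomm
    · rw [h', map_neg, h, map_neg, map_mul, hτw2, h'] at hcomm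
      apply mul_left_cancel₀ h2
      linear_combination hcomm
  rcases mul_eq_zero.1 hfin with h | h
  · exact pow_ne_zero 2 hw0 h
  · exact hc0 h

/-- the degree over the cyclotomic field -/
theorem four_le {T : ℕ} (hT : 3 ≤ T) {ζ : F} (hζ : IsPrimitiveRoot ζ (2 ^ T)) {b : F}
    (hb : b ^ 8 = 2) : 4 ≤ (minpoly ℚ⟮ζ⟯ b).natDegree := by
  by_contra hlt
  rw [not_le] at hlt
  have hb2 : b ^ 2 ∉ ℚ⟮ζ⟯ := not_mem hT hζ (by rw [← pow_mul, hb])
  have hb0 : b ≠ 0 := by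
    rintro rfl
    norm_num at hb
  have hint : IsIntegral ℚ⟮ζ⟯ b := Algebra.IsIntegral.isIntegral b
  obtain ⟨t, rfl⟩ : ∃ t, T = t + 3 := ⟨T - 3, by omega⟩
  obtain ⟨w, hw⟩ : ∃ w : F, w = ζ ^ (2 ^ t) := ⟨_, rfl⟩
  have hwp : IsPrimitiveRoot w 8 := by
    rw [hw]
    exact hζ.pow (by positivity) (by rw [pow_add]; norm_num)
  have hwK : w ∈ ℚ⟮ζ⟯ := by
    rw [hw]
    exact pow_mem (mem_adjoin_simple_self ℚ ζ) _
  -- the minimal polynomial
  set m := (minpoly ℚ⟮ζ⟯ b).map (algebraMap ℚ⟮ζ⟯ F) with hm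
  have hmm : m.Monic := (minpoly.monic hint).map _
  have hdeg : m.natDegree = (minpoly ℚ⟮ζ⟯ b).natDegree := natDegree_map _
  have hspl : m.Splits := Normal.splits (inferInstance : Normal ℚ⟮ζ⟯ F) b
  have hroots : ∀ x ∈ m.roots, x ^ 8 = 2 := by
    intro x hx
    have h1 : minpoly ℚ⟮ζ⟯ b ∣ X ^ 8 - C 2 := minpoly.dvd _ _ (by
      rw [map_sub, map_pow, aeval_X, aeval_C, hb, map_ofNat, sub_self])
    have h2 : m ∣ (X ^ 8 - C 2 : (ℚ⟮ζ⟯)[X]).map (algebraMap ℚ⟮ζ⟯ F) := Polynomial.map_dvd _ h1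
    have h3 := (isRoot_of_mem_roots hx).dvd h2
    rw [IsRoot, eval_map, eval₂_sub, eval₂_pow, eval₂_X, eval₂_C, map_ofNat, sub_eq_zero] at h3
    exact h3
  have hcoef := hspl.coeff_zero_eq_prod_roots_of_monic hmm
  have hcard := hspl.natDegree_eq_card_roots
  set d := m.natDegree with hd
  have hprod : m.roots.prod ^ 8 = 2 ^ d := by
    have h1 : m.roots.map (fun x => x ^ 8) = m.roots.map (fun _ => (2 : F)) :=
      Multiset.map_congr rfl hroots
    have h2 := congrArg Multiset.prod h1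
    rw [Multiset.prod_map_pow, Multiset.map_id', Multiset.map_const', Multiset.prod_replicate,
      ← hcard] at h2
    exact h2
  have hpow : (m.coeff 0) ^ 8 = (b ^ d) ^ 8 := by
    rw [hcoef, mul_pow, hprod, ← pow_mul, ← pow_mul, mul_comm d 8, pow_mul b 8 d, hb, pow_mul]
    norm_num
  have hbd : b ^ d ≠ 0 := pow_ne_zero _ hb0
  -- `b ^ d` is in the cyclotomic field
  have hv : (m.coeff 0 / b ^ d) ^ 8 = 1 := by
    rw [div_pow, hpow, div_self (pow_ne_zero _ hbd)]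
  obtain ⟨i, -, hi⟩ := hwp.eq_pow_of_pow_eq_one hv
  have hcK : m.coeff 0 ∈ ℚ⟮ζ⟯ := by
    rw [hm, coeff_map]
    exact ((minpoly ℚ⟮ζ⟯ b).coeff 0).2
  have hbK : b ^ d ∈ ℚ⟮ζ⟯ := by
    have h1 : b ^ d = m.coeff 0 * (w ^ i)⁻¹ := by
      have h2 : w ^ i ≠ 0 := pow_ne_zero _ (hwp.ne_zero (by norm_num))
      rw [eq_mul_inv_iff_mul_eq₀ h2, hi, mul_div_cancel₀ _ hbd]
    rw [h1]
    exact mul_mem hcK (inv_mem (pow_mem hwK i))
  have hd0 : 0 < d := by
    rw [hdeg]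
    exact minpoly.natDegree_pos hint
  rw [← hdeg] at hlt
  have hb1 : b ∉ ℚ⟮ζ⟯ := fun h => hb2 (pow_mem h 2)
  interval_cases hdd : d
  · exact hb1 (by rwa [pow_one] at hbK)
  · exact hb2 hbK
  · apply hb1
    have h1 : b = (b ^ 3) ^ 3 * (2 : F)⁻¹ := by
      have h2 : (2 : F) ≠ 0 := two_ne_zero
      rw [eq_mul_inv_iff_mul_eq₀ h2]
      linear_combination -b * hb
    rw [h1]
    exact mul_mem (pow_mem hbK 3) (inv_mem (ofNat_mem _ 2))

end Degree

theorem exists_field_aux (g : ℤ[X]) (hg : g.Monic) (E : Type) [hE : Field E] [hA : Algebra ℚ E]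
    (hs : IsSplittingField ℚ E (g.map (Int.castRingHom ℚ))) (hfd : FiniteDimensional ℚ E)
    (hn : Normal ℚ E) :
    ∃ (F : Type) (_ : Field F) (_ : NumberField F), IsGalois ℚ F ∧
      Algebra.adjoin ℚ (g.rootSet F) = ⊤ ∧ (g.map (Int.castRingHom F)).Splits := by
  have hc : CharZero E := algebraRat.charZero E
  obtain rfl : hA = DivisionRing.toRatAlgebra := Subsingleton.elim _ _
  refine ⟨E, hE, ⟨⟩, ⟨⟩, ?_, ?_⟩
  · have h1 := hs.adjoin_rootSet
    have h2 : g.rootSet E = (g.map (Int.castRingHom ℚ)).rootSet E := by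
      ext x
      rw [hg.mem_rootSet, (hg.map _).mem_rootSet]
      have h3 : aeval x (g.map (Int.castRingHom ℚ)) = aeval x g := aeval_map_algebraMap ℚ x g
      rw [h3]
    rw [h2]
    exact h1
  · have h1 := hs.splits
    rw [Polynomial.map_map] at h1
    rwa [RingHom.ext_int (Int.castRingHom E) ((algebraMap ℚ E).comp (Int.castRingHom ℚ))]

/-- the splitting field -/
theorem exists_field (g : ℤ[X]) (hg : g.Monic) :
    ∃ (F : Type) (_ : Field F) (_ : NumberField F), IsGalois ℚ F ∧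
      Algebra.adjoin ℚ (g.rootSet F) = ⊤ ∧ (g.map (Int.castRingHom F)).Splits :=
  @exists_field_aux g hg (g.map (Int.castRingHom ℚ)).SplittingField _ _
    (Polynomial.IsSplittingField.splittingField _) inferInstance
    (Polynomial.SplittingField.instNormal _)

end SplitTwoAux

open SplitTwoAux in
/-- CL-C -/
theorem stSplitTwo : StSplitTwo := by
  intro T hT
  have hpos : 0 < 2 ^ T := by positivity
  set g : ℤ[X] := (X ^ (2 ^ T) - C 1) * (X ^ 8 - C 2) with hgdef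
  have hg : g.Monic :=
    (monic_X_pow_sub_C 1 hpos.ne').mul (monic_X_pow_sub_C 2 (by norm_num))
  have hgmap : ∀ (R : Type) [CommRing R], g.map (Int.castRingHom R) =
      (X ^ (2 ^ T) - C 1) * (X ^ 8 - C 2) := by
    intro R _
    rw [hgdef, Polynomial.map_mul, Polynomial.map_sub, Polynomial.map_sub, Polynomial.map_pow,
      Polynomial.map_pow, map_X, map_C, map_C, map_one, map_ofNat]
  obtain ⟨F, hFd, hNF, hGal, hgen, hspl⟩ := exists_field g hg
  obtain ⟨B, hB⟩ := SplitAux.splitGen F g hg hgen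
  refine ⟨F, hFd, hNF, B, fun r hr hBr hmod h2 => ?_⟩
  have : Fact r.Prime := ⟨hr⟩
  have hdvd : 2 ^ T ∣ r - 1 := (Nat.modEq_iff_dvd' hr.one_lt.le).1 hmod.symm
  have hdvd8 : 8 ∣ r - 1 := by
    refine dvd_trans ?_ hdvd
    have : (8 : ℕ) = 2 ^ 3 := by norm_num
    rw [this]
    exact Nat.pow_dvd_pow 2 hT
  obtain ⟨S, hS, hS'⟩ := hB r hr hBr (by
    rw [hgmap]
    exact (splits_zmod hdvd 1 (one_pow _)).mul (splits_zmod hdvd8 2 h2))
  refine ⟨S, le_trans ?_ hS, hS'⟩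
  -- the degree
  rw [hgmap] at hspl
  have hne : (X ^ (2 ^ T) - C 1) * (X ^ 8 - C 2) ≠ (0 : F[X]) := by
    rw [← hgmap]
    exact (hg.map _).ne_zero
  obtain ⟨ζ, hζ⟩ : ∃ ζ : F, IsPrimitiveRoot ζ (2 ^ T) := by
    have h1 : (cyclotomic (2 ^ T) F).Splits := hspl.of_dvd hne
      (Dvd.dvd.mul_right (by rw [C_1]; exact cyclotomic.dvd_X_pow_sub_one _ _) _)
    obtain ⟨ζ, hζ⟩ := h1.exists_eval_eq_zero (by
      rw [degree_cyclotomic]
      have := Nat.totient_pos.2 hpos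
      exact_mod_cast this.ne')
    have : NeZero ((2 ^ T : ℕ) : F) := ⟨by exact_mod_cast hpos.ne'⟩
    exact ⟨ζ, isRoot_cyclotomic_iff.1 hζ⟩
  obtain ⟨b, hb⟩ : ∃ b : F, b ^ 8 = 2 := by
    have h1 : (X ^ 8 - C 2 : F[X]).Splits := hspl.of_dvd hne (dvd_mul_left _ _)
    obtain ⟨b, hb⟩ := h1.exists_eval_eq_zero (by
      rw [degree_X_pow_sub_C (by norm_num)]
      norm_num)
    rw [eval_sub, eval_pow, eval_X, eval_C, sub_eq_zero] at hb
    exact ⟨b, hb⟩
  have h1 := Module.finrank_mul_finrank ℚ (IntermediateField.adjoin ℚ {ζ}) F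
  have h3 : Module.finrank ℚ (IntermediateField.adjoin ℚ {ζ}) = (2 ^ T).totient := by
    rw [IntermediateField.adjoin.finrank (Algebra.IsIntegral.isIntegral ζ),
      ← cyclotomic_eq_minpoly_rat hζ hpos, natDegree_cyclotomic]
  have h4 := four_le hT hζ hb
  have h5 := minpoly.natDegree_le (A := IntermediateField.adjoin ℚ {ζ}) b
  rw [h3] at h1
  rw [← h1, mul_comm]
  exact Nat.mul_le_mul_left _ (h4.trans h5)

end Pool.Agent.Lib.MP81632f.Lv
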