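import Pool.Agent.Lib.MP_81632f_ag.Lv.Prime

/-!
# Levels: sums of periodic functions, iterated distribution relations
-/

set_option autoImplicit false

noncomputable section

namespace Pool.Agent.Lib.MP81632f.Lv

open Finset

section Periodic

variable {A : Type*} [AddCommMonoid A]

theorem per_eq {g : ℤ → A} {N : ℕ} (h : ∀ n, g (n + N) = g n) {a b : ℤ}
    (hab : (a : ZMod N) = b) : g a = g b := by
  rw [← sub_eq_zero, ← Int.cast_sub, ZMod.intCast_zmod_eq_zero_iff_dvd] at hab
  obtain ⟨c, hc⟩ := hab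
  have h1 : ∀ (n : ℤ) (k : ℕ), g (n + N * k) = g n := by
    intro n k
    induction k with
    | zero => simp
    | succ k ih =>
      have e1 : n + N * ((k + 1 : ℕ) : ℤ) = n + N * k + N := by push_cast; ring
      rw [e1, h, ih]
  obtain ⟨k, rfl | rfl⟩ := c.eq_nat_or_neg
  · have e1 : a = b + N * k := by linarith
    rw [e1, h1]
  · have e1 : b = a + N * k := by linarith
    rw [e1, h1]

/-- reindexing of a sum of a periodic function -/
theorem sum_reindex {g : ℤ → A} {N : ℕ} [NeZero N] (h : ∀ n, g (n + N) = g n) {c : ℤ}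
    (hc : IsUnit (c : ZMod N)) (s : ℤ) :
    ∑ k ∈ range N, g (c * k + s) = ∑ k ∈ range N, g k := by
  have h1 : ∀ (c s : ℤ), ∑ k ∈ range N, g (c * k + s) =
      ∑ z : ZMod N, g ((((c : ZMod N) * z + s).val : ℕ) : ℤ) := by
    intro c s
    rw [← sum_zmod_val N fun k => g (c * k + s)]
    refine Finset.sum_congr rfl fun z _ => per_eq h ?_
    push_cast
    rw [ZMod.natCast_zmod_val, ZMod.natCast_zmod_val]
  have h2 := h1 1 0
  simp only [Int.cast_one, one_mul, Int.cast_zero, add_zero] at h2
  rw [h1, h2]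
  obtain ⟨u, hu⟩ := hc
  refine Fintype.sum_equiv ((Units.mulLeft u).trans (Equiv.addRight (s : ZMod N))) _ _ fun z => ?_
  simp only [Equiv.trans_apply, Units.mulLeft_apply, Equiv.coe_addRight, hu]

theorem sum_range_mul (a b : ℕ) (f : ℕ → A) :
    ∑ N ∈ range (a * b), f N = ∑ k ∈ range a, ∑ n ∈ range b, f (k + a * n) := by
  induction b with
  | zero => simp
  | succ b ih =>
    rw [Nat.mul_succ, Finset.sum_range_add, ih]
    simp only [Finset.sum_range_succ, Finset.sum_add_distrib]
    congr 1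
    exact Finset.sum_congr rfl fun k _ => by rw [add_comm]

end Periodic

theorem e_dist_pow {p q : ℕ} (hq : q.Prime) (hqp : q.Coprime p) {x : ℚ} (hx : Good p x) (j : ℕ) :
    ∑ k ∈ range (q ^ j), e p ((x + k) / (q ^ j : ℕ)) = e p x := by
  have hq0 : (q : ℚ) ≠ 0 := by exact_mod_cast hq.ne_zero
  induction j with
  | zero => simp
  | succ j ih =>
    have h1 : q ^ (j + 1) = q ^ j * q := pow_succ q j
    rw [h1, sum_range_mul, ← ih]
    refine Finset.sum_congr rfl fun k _ => ?_
    have h2 : Good p ((x + k) / ((q ^ j : ℕ) : ℚ)) :=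
      (hx.add (Good.nat p k)).div (pow_pos hq.pos j) (hqp.pow_left j)
    rw [← e_dist hq hqp h2]
    refine Finset.sum_congr rfl fun n _ => ?_
    congr 1
    push_cast
    field_simp
    ring

end Pool.Agent.Lib.MP81632f.Lv
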