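import Pool.Agent.Lib.MP_81632f_ag.Lv.FamP

/-!
# Levels: odd functions given by tables
-/

set_option autoImplicit false

noncomputable section

namespace Pool.Agent.Lib.MP81632f.Lv

open Finset
open Pool.Agent.Lib.MP81632f.Diag

/-- the function given by a table -/
def tabF (R₀ : ℕ) (T : List ℤ) (a : ZMod R₀) : ℤ := T.getD a.val 0

/-- the conditions on the table at `a` -/
def ckA (R₀ c : ℕ) (T : List ℤ) (E : List (ℕ × ℤ)) (a : ℕ) : Bool :=
  (if Nat.gcd a R₀ = 1 then decide (T.getD a 0 % 2 = 1) else decide (T.getD a 0 = 0)) &&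
  decide (T.getD ((R₀ - a) % R₀) 0 = -T.getD a 0) && decide (T.getD (c * a % R₀) 0 = T.getD a 0) &&
  E.all fun x => decide (T.getD (x.1 * a % R₀) 0 = x.2 * T.getD a 0)

/-- the condition on the sums over the cosets of the subgroup of order `l` -/
def ckL (R₀ : ℕ) (T : List ℤ) (l : ℕ) : Bool :=
  decide (l < 2) || decide (¬ l ∣ R₀) || (List.range R₀).all fun a =>
    decide (((List.range l).map fun k => T.getD ((a + k * (R₀ / l)) % R₀) 0).sum = 0)

/-- the conditions on the table -/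
def ckT (R₀ c : ℕ) (T : List ℤ) (E : List (ℕ × ℤ)) : Bool :=
  decide (0 < R₀) && ((List.range (R₀ + 1)).all fun d => decide (d < 2) || decide (¬ d * d ∣ R₀)) &&
  ((List.range R₀).all fun a => ckA R₀ c T E a) && ((List.range (R₀ + 1)).all fun l => ckL R₀ T l) &&
  E.all fun x => decide (x.2 = 1) || decide (x.2 = -1)

theorem oddF_tab {p M R₀ c : ℕ} {T : List ℤ} {E : List (ℕ × ℤ)} {ε : ℕ → ℤ}
    (h : ckT R₀ c T E = true) (hc : (p : ZMod R₀) = c)
    (hE : ∀ l : ℕ, l.Prime → l ∣ M → ¬ l ∣ R₀ → (l, ε l) ∈ E) : OddF p M R₀ (tabF R₀ T) ε := by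
  simp only [ckT, Bool.and_eq_true, decide_eq_true_eq, List.all_eq_true, List.mem_range,
    Bool.or_eq_true] at h
  obtain ⟨⟨⟨⟨h0, hsq⟩, hA⟩, hL⟩, hEE⟩ := h
  have : NeZero R₀ := ⟨h0.ne'⟩
  have hA' : ∀ a < R₀, (if Nat.gcd a R₀ = 1 then T.getD a 0 % 2 = 1 else T.getD a 0 = 0) ∧
      T.getD ((R₀ - a) % R₀) 0 = -T.getD a 0 ∧ T.getD (c * a % R₀) 0 = T.getD a 0 ∧
      ∀ x ∈ E, T.getD (x.1 * a % R₀) 0 = x.2 * T.getD a 0 := by
    intro a ha
    have h1 := hA a ha
    simp only [ckA, Bool.and_eq_true, decide_eq_true_eq, List.all_eq_true] at h1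
    obtain ⟨⟨⟨h2, h3⟩, h4⟩, h5⟩ := h1
    refine ⟨?_, h3, h4, h5⟩
    split_ifs at h2 ⊢ with h6
    · exact of_decide_eq_true h2
    · exact of_decide_eq_true h2
  have hco : ∀ a : ZMod R₀, IsUnit a ↔ Nat.gcd a.val R₀ = 1 := by
    intro a
    conv_lhs => rw [← ZMod.natCast_zmod_val a]
    exact ZMod.isUnit_iff_coprime _ _
  have hmul : ∀ (n : ℕ) (a : ZMod R₀), ((n : ZMod R₀) * a).val = n * a.val % R₀ := by
    intro n a
    conv_lhs => rw [← ZMod.natCast_zmod_val a]
    rw [← Nat.cast_mul, ZMod.val_natCast]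
  refine ⟨?_, ?_, ?_, ?_, ?_, ?_, ?_, ?_⟩
  · refine sqf_of (fun d hd hdd => ?_) h0
    rcases hsq d hd with h1 | h1
    · have h2 : d ≠ 0 := by
        rintro rfl
        rw [zero_mul, zero_dvd_iff] at hdd
        omega
      omega
    · exact absurd hdd h1
  · intro a ha
    rw [hco] at ha
    have h1 := (hA' a.val (ZMod.val_lt a)).1
    rwa [if_neg ha] at h1
  · intro a ha
    rw [hco] at ha
    have h1 := (hA' a.val (ZMod.val_lt a)).1
    rw [if_pos ha] at h1
    exact Int.odd_iff.mpr h1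
  · intro a
    have h1 := (hA' a.val (ZMod.val_lt a)).2.1
    unfold tabF
    have h2 : (-a).val = (R₀ - a.val) % R₀ := by
      have h3 : (-a) = ((R₀ - a.val : ℕ) : ZMod R₀) := by
        rw [Nat.cast_sub (ZMod.val_lt a).le, ZMod.natCast_self, ZMod.natCast_zmod_val, zero_sub]
      rw [h3, ZMod.val_natCast]
    rw [h2, h1]
  · intro a
    have h1 := (hA' a.val (ZMod.val_lt a)).2.2.1
    unfold tabF
    rw [hc, hmul, h1]
  · intro l hl hlM hlR a
    have h1 := (hA' a.val (ZMod.val_lt a)).2.2.2 _ (hE l hl hlM hlR)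
    unfold tabF
    rw [hmul]
    exact h1
  · intro l hl hlM hlR
    have h1 := hEE _ (hE l hl hlM hlR)
    exact h1
  · intro l hl hlR a
    have h1 := hL l (by
      have := Nat.le_of_dvd h0 hlR
      omega)
    simp only [ckL, Bool.or_eq_true, decide_eq_true_eq, List.all_eq_true, List.mem_range] at h1
    rcases h1 with (h2 | h2) | h2
    · have := hl.two_le
      omega
    · exact absurd hlR h2
    · have h3 := h2 a.val (ZMod.val_lt a)
      rw [sum_list, ← h3]
      congr 1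
      refine List.map_congr_left fun k _ => ?_
      unfold tabF
      congr 1
      conv_lhs => rw [← ZMod.natCast_zmod_val a]
      rw [← Nat.cast_mul, ← Nat.cast_add, ZMod.val_natCast]

end Pool.Agent.Lib.MP81632f.Lv
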