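import Pool.Agent.Lib.MP_81632f_ag.Lv.Stmts
import Pool.Agent.Lib.MP_81632f_ag.Diag.Rank
import Pool.Agent.Lib.MP_81632f_ag.Diag.Basic

/-!
# Levels: the rank of the group of distributions (TOR)

A function on `ℤ/M` with zero pairings with all sawtooth functions is a torsion element modulo the
relations.  A function `h` with the relations is decomposed by the Dirichlet characters modulo `M`;
the component of `χ` is determined by its value at `M / N`, `N` the conductor of `χ`, and the
component of the sawtooth function is not zero, by the nonvanishing of the generalised Bernoulli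
numbers.
-/

set_option autoImplicit false

noncomputable section

namespace Pool.Agent.Lib.MP81632f.Lv

namespace Tor

open Finset Diag Diag.Basic

variable {M : ℕ} [NeZero M]

/-! ### Units -/

theorem exists_unit (x : ZMod M) :
    ∃ u : (ZMod M)ˣ, x = u * ((M / addOrderOf x : ℕ) : ZMod M) := by
  have hM0 : M ≠ 0 := NeZero.ne M
  set g := M.gcd x.val with hg
  have hord : addOrderOf x = M / g := by
    conv_lhs => rw [← ZMod.natCast_zmod_val x]
    exact ZMod.addOrderOf_coe _ hM0
  have hgM : g ∣ M := Nat.gcd_dvd_left _ _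
  have hg0 : 0 < g := Nat.gcd_pos_of_pos_left _ (Nat.pos_of_ne_zero hM0)
  rw [hord, Nat.div_div_self hgM hM0]
  obtain ⟨b, hb⟩ : g ∣ x.val := Nat.gcd_dvd_right _ _
  have hcop : Nat.Coprime b (M / g) := by
    have h := Nat.coprime_div_gcd_div_gcd (m := M) (n := x.val) hg0
    rw [← hg, hb, Nat.mul_div_cancel_left _ hg0] at h
    exact h.symm
  have hdM : M / g ∣ M := Nat.div_dvd_of_dvd hgM
  obtain ⟨u, hu⟩ := ZMod.unitsMap_surjective hdM (ZMod.unitOfCoprime b hcop)
  refine ⟨u, ?_⟩
  have h1 : (((u : ZMod M).val : ℕ) : ZMod (M / g)) = (b : ZMod (M / g)) := by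
    have h := congrArg (fun z : (ZMod (M / g))ˣ => (z : ZMod (M / g))) hu
    simp only [ZMod.unitsMap_val, ZMod.coe_unitOfCoprime] at h
    rw [← h, ZMod.cast_eq_val]
  rw [ZMod.natCast_eq_natCast_iff] at h1
  have h2 : (u : ZMod M).val * g ≡ b * g [MOD M] := by
    have h := h1.mul_right' g
    rwa [Nat.div_mul_cancel hgM] at h
  have h3 := (ZMod.natCast_eq_natCast_iff _ _ _).mpr h2
  rw [Nat.cast_mul, Nat.cast_mul, ZMod.natCast_zmod_val] at h3
  rw [h3]
  conv_lhs => rw [← ZMod.natCast_zmod_val x, hb]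
  push_cast
  ring

theorem exists_conj {x y : ZMod M} (h : addOrderOf x = addOrderOf y) :
    ∃ t : (ZMod M)ˣ, y = t * x := by
  obtain ⟨u, hu⟩ := exists_unit x
  obtain ⟨w, hw⟩ := exists_unit y
  refine ⟨w * u⁻¹, ?_⟩
  rw [← h] at hw
  calc y = w * ((M / addOrderOf x : ℕ) : ZMod M) := hw
    _ = ((w * u⁻¹ : (ZMod M)ˣ) : ZMod M) * (u * ((M / addOrderOf x : ℕ) : ZMod M)) := by
      rw [Units.val_mul, mul_assoc, Units.inv_mul_cancel_left]
    _ = ((w * u⁻¹ : (ZMod M)ˣ) : ZMod M) * x := by rw [← hu]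

omit [NeZero M] in
theorem addOrderOf_dvd (x : ZMod M) : addOrderOf x ∣ M := by
  rw [addOrderOf_dvd_iff_nsmul_eq_zero, nsmul_eq_mul, CharP.cast_eq_zero, zero_mul]

/-- `t z = z` if and only if `t = 1` modulo the order of `z` -/
theorem mul_eq_self_iff (z : ZMod M) (t : (ZMod M)ˣ) :
    (t : ZMod M) * z = z ↔ (addOrderOf z : ℤ) ∣ ((t : ZMod M).val : ℤ) - 1 := by
  rw [addOrderOf_dvd_iff_zsmul_eq_zero, zsmul_eq_mul]
  push_cast
  rw [ZMod.natCast_zmod_val, sub_mul, one_mul, sub_eq_zero]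

theorem unitsMap_eq_one_iff {d : ℕ} (hd : d ∣ M) (t : (ZMod M)ˣ) :
    ZMod.unitsMap hd t = 1 ↔ (d : ℤ) ∣ ((t : ZMod M).val : ℤ) - 1 := by
  rw [← ZMod.intCast_zmod_eq_zero_iff_dvd]
  push_cast
  rw [sub_eq_zero, Units.ext_iff, ZMod.unitsMap_val, Units.val_one, ZMod.cast_eq_val]

theorem chi_one (χ : DirichletCharacter ℂ M) {z : ZMod M} (hz : χ.conductor ∣ addOrderOf z)
    {t : (ZMod M)ˣ} (ht : (t : ZMod M) * z = z) : χ t = 1 := by
  have h1 := (mul_eq_self_iff z t).mp ht
  have h2 : ZMod.unitsMap χ.conductor_dvd_level t = 1 := by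
    rw [unitsMap_eq_one_iff]
    exact dvd_trans (Int.natCast_dvd_natCast.mpr hz) h1
  have h3 := (DirichletCharacter.factorsThrough_iff_ker_unitsMap χ.conductor_dvd_level).mp
    χ.factorsThrough_conductor (MonoidHom.mem_ker.mpr h2)
  rw [MonoidHom.mem_ker] at h3
  rw [← MulChar.coe_toUnitHom, h3, Units.val_one]

theorem exists_chi_ne (χ : DirichletCharacter ℂ M) {z : ZMod M}
    (hz : ¬ χ.conductor ∣ addOrderOf z) : ∃ t : (ZMod M)ˣ, (t : ZMod M) * z = z ∧ χ t ≠ 1 := by
  by_contra hcon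
  push Not at hcon
  apply hz
  apply DirichletCharacter.conductor_dvd_of_mem_conductorSet
  rw [DirichletCharacter.mem_conductorSet_iff,
    DirichletCharacter.factorsThrough_iff_ker_unitsMap (addOrderOf_dvd z)]
  intro t ht
  rw [MonoidHom.mem_ker, unitsMap_eq_one_iff] at ht
  have h1 := hcon t ((mul_eq_self_iff z t).mpr ht)
  rw [MonoidHom.mem_ker]
  apply Units.ext
  rw [MulChar.coe_toUnitHom, h1, Units.val_one]

/-! ### Eigenfunctions -/

theorem uniq (χ : DirichletCharacter ℂ M) (g : ZMod M → ℂ)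
    (hg : ∀ (u : (ZMod M)ˣ) (x : ZMod M), g (u * x) = χ u * g x)
    (hd : ∀ l : ℕ, l.Prime → l ∣ M → ∀ x : ZMod M,
      ∑ y with (l : ZMod M) * y = (l : ZMod M) * x, g y = g ((l : ZMod M) * x))
    (h0 : g ((M / χ.conductor : ℕ) : ZMod M) = 0) (x : ZMod M) : g x = 0 := by
  have key : ∀ n : ℕ, ∀ x : ZMod M, addOrderOf x = n → g x = 0 := by
    intro n
    induction n using Nat.strong_induction_on with
    | _ n ih =>
      intro x hx
      by_cases hN : χ.conductor ∣ n
      · by_cases hNn : χ.conductor = n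
        · obtain ⟨u, hu⟩ := exists_unit x
          rw [hu, hg, hx, ← hNn, h0, mul_zero]
        · have hn0 : 0 < n := hx ▸ addOrderOf_pos x
          obtain ⟨k, hk⟩ := hN
          have hk1 : k ≠ 1 := fun h => hNn (by rw [hk, h, mul_one])
          obtain ⟨l, hl, hlk⟩ := Nat.exists_prime_and_dvd hk1
          have hln : l ∣ n := hk ▸ (hlk.mul_left _)
          have hlM : l ∣ M := hln.trans (hx ▸ addOrderOf_dvd x)
          have hlx : addOrderOf ((l : ZMod M) * x) = n / l := by
            rw [← nsmul_eq_mul, addOrderOf_nsmul_of_dvd hl.ne_zero (hx ▸ hln), hx]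
          have hlt : n / l < n := Nat.div_lt_self hn0 hl.one_lt
          have hcl : χ.conductor ∣ addOrderOf ((l : ZMod M) * x) := by
            rw [hlx, hk, Nat.mul_div_assoc _ hlk]
            exact dvd_mul_right _ _
          have h1 := hd l hl hlM x
          rw [ih _ hlt _ hlx] at h1
          have h2 : ∀ y : ZMod M, (l : ZMod M) * y = (l : ZMod M) * x →
              g y = if addOrderOf y = n then g x else 0 := by
            intro y hy
            have hy1 : addOrderOf y ∣ n := by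
              rw [addOrderOf_dvd_iff_nsmul_eq_zero]
              have e1 : n • y = (n / l) • ((l : ZMod M) * y) := by
                rw [← nsmul_eq_mul, ← mul_nsmul', Nat.div_mul_cancel hln]
              have e2 : n • x = (n / l) • ((l : ZMod M) * x) := by
                rw [← nsmul_eq_mul, ← mul_nsmul', Nat.div_mul_cancel hln]
              rw [e1, hy, ← e2, ← hx, addOrderOf_nsmul_eq_zero]
            by_cases hyn : addOrderOf y = n
            · rw [if_pos hyn]
              obtain ⟨t, ht⟩ := exists_conj (hx.trans hyn.symm)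
              have h3 : (t : ZMod M) * ((l : ZMod M) * x) = (l : ZMod M) * x := by
                rw [mul_left_comm, ← ht, hy]
              rw [ht, hg, chi_one χ hcl h3, one_mul]
            · rw [if_neg hyn]
              exact ih _ (lt_of_le_of_ne (Nat.le_of_dvd hn0 hy1) hyn) y rfl
          rw [sum_congr rfl (fun y hy => h2 y (mem_filter.mp hy).2), ← sum_filter, sum_const,
            nsmul_eq_mul, mul_eq_zero] at h1
          rcases h1 with h1 | h1
          · exfalso
            rw [Nat.cast_eq_zero, card_eq_zero] at h1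
            have h4 : x ∈ (univ.filter (fun y : ZMod M => (l : ZMod M) * y = (l : ZMod M) * x)).filter
                (fun y => addOrderOf y = n) := by simp [hx]
            rw [h1] at h4
            exact absurd h4 (notMem_empty _)
          · exact h1
      · rw [← hx] at hN
        obtain ⟨t, ht, ht1⟩ := exists_chi_ne χ hN
        have h1 := hg t x
        rw [ht] at h1
        have h2 : (χ t - 1) * g x = 0 := by rw [sub_mul, one_mul, ← h1, sub_self]
        exact (mul_eq_zero.mp h2).resolve_left (sub_ne_zero.mpr ht1)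
  exact key _ x rfl

/-- functions with the relations -/
structure IsRel (p : ℕ) (h : ZMod M → ℂ) : Prop where
  neg : ∀ x, h (-x) = - h x
  frob : ∀ x, h ((p : ZMod M) * x) = h x
  dist : ∀ l : ℕ, l.Prime → l ∣ M → ∀ x : ZMod M,
    ∑ y with (l : ZMod M) * y = (l : ZMod M) * x, h y = h ((l : ZMod M) * x)

/-- the component of a character -/
def proj (χ : DirichletCharacter ℂ M) (h : ZMod M → ℂ) (x : ZMod M) : ℂ :=
  ∑ t : (ZMod M)ˣ, χ⁻¹ t * h (t * x)

theorem proj_unit (χ : DirichletCharacter ℂ M) (h : ZMod M → ℂ) (u : (ZMod M)ˣ) (x : ZMod M) :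
    proj χ h (u * x) = χ u * proj χ h x := by
  unfold proj
  rw [mul_sum]
  refine Fintype.sum_equiv (Equiv.mulRight u) _ _ fun t => ?_
  rw [Equiv.coe_mulRight]
  rw [Units.val_mul, map_mul, Four.inv_apply χ u, ← mul_assoc (t : ZMod M)]
  have := Four.chi_ne χ u
  field_simp

theorem proj_neg (χ : DirichletCharacter ℂ M) {p : ℕ} {h : ZMod M → ℂ} (hh : IsRel p h)
    (x : ZMod M) : proj χ h (-x) = - proj χ h x := by
  unfold proj
  rw [← sum_neg_distrib]
  refine sum_congr rfl fun t _ => ?_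
  rw [mul_neg, hh.neg, mul_neg]

theorem proj_frob (χ : DirichletCharacter ℂ M) {p : ℕ} {h : ZMod M → ℂ} (hh : IsRel p h)
    (x : ZMod M) : proj χ h ((p : ZMod M) * x) = proj χ h x := by
  unfold proj
  refine sum_congr rfl fun t _ => ?_
  rw [mul_left_comm, hh.frob]

theorem sum_fibre_unit (h : ZMod M → ℂ) (l : ℕ) (t : (ZMod M)ˣ) (x : ZMod M) :
    ∑ y with (l : ZMod M) * y = (l : ZMod M) * x, h (t * y) =
      ∑ y with (l : ZMod M) * y = (l : ZMod M) * (t * x), h y := by
  refine sum_bij (fun y _ => (t : ZMod M) * y) ?_ ?_ ?_ ?_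
  · intro y hy
    simp only [mem_filter, mem_univ, true_and] at hy ⊢
    rw [mul_left_comm, hy, mul_left_comm]
  · intro a _ b _ hab
    exact t.isUnit.mul_left_cancel hab
  · intro y hy
    simp only [mem_filter, mem_univ, true_and] at hy
    refine ⟨(↑t⁻¹ : ZMod M) * y, ?_, ?_⟩
    · simp only [mem_filter, mem_univ, true_and]
      rw [mul_left_comm, hy, mul_left_comm, Units.inv_mul_cancel_left]
    · rw [Units.mul_inv_cancel_left]
  · intro y _
    rfl

theorem proj_dist (χ : DirichletCharacter ℂ M) {p : ℕ} {h : ZMod M → ℂ} (hh : IsRel p h)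
    (l : ℕ) (hl : l.Prime) (hlM : l ∣ M) (x : ZMod M) :
    ∑ y with (l : ZMod M) * y = (l : ZMod M) * x, proj χ h y = proj χ h ((l : ZMod M) * x) := by
  unfold proj
  rw [sum_comm]
  refine sum_congr rfl fun t _ => ?_
  rw [← mul_sum, sum_fibre_unit, hh.dist l hl hlM, mul_left_comm (t : ZMod M)]

omit [NeZero M] in
theorem inv_neg_one (χ : DirichletCharacter ℂ M) (hodd : χ.Odd) : χ⁻¹.Odd := by
  have h := Four.inv_apply χ (-1)
  rw [Units.val_neg, Units.val_one, hodd] at h
  rw [DirichletCharacter.Odd, h]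
  norm_num

/-- the components of two functions with relations are proportional -/
theorem proj_eq (χ : DirichletCharacter ℂ M) {p : ℕ} {h s : ZMod M → ℂ} (hh : IsRel p h)
    (hs : IsRel p s) (hs0 : proj χ s ((M / χ.conductor : ℕ) : ZMod M) ≠ 0) :
    ∃ c : ℂ, ∀ x, proj χ h x = c * proj χ s x := by
  set m : ZMod M := ((M / χ.conductor : ℕ) : ZMod M) with hm
  refine ⟨proj χ h m / proj χ s m, fun x => ?_⟩
  have h1 := uniq χ (fun x => proj χ h x - proj χ h m / proj χ s m * proj χ s x) ?_ ?_ ?_ x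
  · exact sub_eq_zero.mp h1
  · intro u x
    simp only [proj_unit]
    ring
  · intro l hl hlM x
    simp only [sum_sub_distrib, ← mul_sum]
    rw [proj_dist χ hh l hl hlM, proj_dist χ hs l hl hlM]
  · simp only [← hm]
    rw [div_mul_cancel₀ _ hs0, sub_self]

/-! ### The sawtooth function -/

/-- the sawtooth function, with value `0` at `0` -/
def saw0 (M p f : ℕ) (x : ZMod M) : ℂ := if x = 0 then 0 else (saw M p f 1 x : ℂ)

omit [NeZero M] in
theorem saw0_eq (p f : ℕ) (x : ZMod M) :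
    saw0 M p f x = (saw M p f 1 x : ℂ) + if x = 0 then (f : ℂ) * M else 0 := by
  unfold saw0
  by_cases hx : x = 0
  · rw [if_pos hx, if_pos hx, hx]
    unfold saw
    simp
  · rw [if_neg hx, if_neg hx, add_zero]

theorem sum_saw_fibre {p f l : ℕ} (hf : 0 < f) (hp : (p : ZMod M) ^ f = 1) (hl : l.Prime)
    (hlM : l ∣ M) (x : ZMod M) :
    ∑ y with (l : ZMod M) * y = (l : ZMod M) * x, saw M p f 1 y = saw M p f 1 ((l : ZMod M) * x) := by
  have hM : M = l * (M / l) := (Nat.mul_div_cancel' hlM).symm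
  simp only [saw_eq]
  rw [sum_comm]
  refine sum_congr rfl fun j _ => ?_
  have hu : IsUnit ((p : ZMod M) ^ j * 1) := ((isUnit_p hf hp).pow j).mul isUnit_one
  have h1 := sum_fib_unit hM hl.pos q hu x
  have h2 := sum_fib hM hl.pos (fun y => q ((p : ZMod M) ^ j * 1 * y)) x
  have h3 := sum_q_fib hM hl.pos ((p : ZMod M) ^ j * 1 * x)
  unfold fib at h2
  rw [h2, h1, h3, mul_left_comm]

theorem isRel_saw0 {p f : ℕ} (hf : 0 < f) (hp : (p : ZMod M) ^ f = 1) :
    IsRel p (saw0 M p f) := by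
  have hpu := isUnit_p hf hp
  refine ⟨fun x => ?_, fun x => ?_, fun l hl hlM x => ?_⟩
  · unfold saw0
    by_cases hx : x = 0
    · simp [hx]
    · rw [if_neg (neg_ne_zero.mpr hx), if_neg hx, saw_neg hf hp isUnit_one hx]
      push_cast
      ring
  · unfold saw0
    rw [saw_p hp]
    have h1 : (p : ZMod M) * x = 0 ↔ x = 0 := hpu.mul_right_eq_zero
    simp only [h1]
  · simp only [saw0_eq]
    rw [sum_add_distrib, ← Int.cast_sum, sum_saw_fibre hf hp hl hlM]
    congr 1
    rw [sum_ite_eq' (univ.filter fun y : ZMod M => (l : ZMod M) * y = (l : ZMod M) * x) 0]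
    simp only [mem_filter, mem_univ, true_and, mul_zero, eq_comm]

theorem proj_saw0_ne {p f : ℕ} (hL : StLval) (_hM : 1 < M) (hf : 0 < f) (hp : (p : ZMod M) ^ f = 1)
    (χ : DirichletCharacter ℂ M) (hodd : χ.Odd) (hχ : χ p = 1) :
    proj χ (saw0 M p f) ((M / χ.conductor : ℕ) : ZMod M) ≠ 0 := by
  intro h0
  have hz : ∀ x, proj χ (saw0 M p f) x = 0 :=
    uniq χ (proj χ (saw0 M p f)) (proj_unit χ _) (proj_dist χ (isRel_saw0 hf hp)) h0
  obtain ⟨u, hu⟩ := isUnit_p hf hp
  let L : ((ZMod M)ˣ → ℂ) →ₗ[ℂ] ℂ :=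
    ∑ t : (ZMod M)ˣ, (χ⁻¹ t) • (LinearMap.proj t : ((ZMod M)ˣ → ℂ) →ₗ[ℂ] ℂ)
  have hL' : ∀ φ, L φ = ∑ t : (ZMod M)ˣ, χ⁻¹ t * φ t := by
    intro φ
    simp [L, LinearMap.sum_apply]
  have hW : ∀ x : ZMod M, x ≠ 0 →
      (fun t : (ZMod M)ˣ => (saw M p f t x : ℂ)) ∈ LinearMap.ker L := by
    intro x hx
    rw [LinearMap.mem_ker, hL', ← hz x]
    unfold proj
    refine sum_congr rfl fun t _ => ?_
    congr 1
    unfold saw0
    rw [if_neg (unit_mul_ne t.isUnit hx), Four.saw_mul]
  have h1 := RankAux.mem_of_saw hL p f hf u hu (LinearMap.ker L) hW χ⁻¹ (inv_neg_one χ hodd)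
    (by rw [Four.inv_apply, hu, hχ, inv_one])
  rw [LinearMap.mem_ker, hL'] at h1
  have h2 : ∀ t : (ZMod M)ˣ, χ⁻¹ (t : ZMod M) * χ⁻¹⁻¹ (t : ZMod M) = 1 := by
    intro t
    rw [Four.inv_apply, inv_inv, inv_mul_cancel₀ (Four.chi_ne χ t)]
  rw [sum_congr rfl fun t _ => h2 t, sum_const, nsmul_eq_mul, mul_one, Nat.cast_eq_zero,
    card_eq_zero] at h1
  exact absurd h1 univ_nonempty.ne_empty

/-! ### The main statement -/

/-- the pairing with a function with the relations vanishes -/
theorem pairing {p f : ℕ} (hL : StLval) (hM : 1 < M) (hf : 0 < f) (hp : (p : ZMod M) ^ f = 1)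
    (h : ZMod M → ℂ) (hh : IsRel p h) (v : ZMod M → ℤ) (hv0 : v 0 = 0)
    (hv : ∀ t : (ZMod M)ˣ, ∑ x, v x * saw M p f t x = 0) :
    ∑ x, (v x : ℂ) * h x = 0 := by
  have hv' : ∀ t : (ZMod M)ˣ, ∑ x, (v x : ℂ) * saw0 M p f (t * x) = 0 := by
    intro t
    have h1 := congrArg (fun z : ℤ => (z : ℂ)) (hv t)
    push_cast at h1
    rw [← h1]
    refine sum_congr rfl fun x _ => ?_
    by_cases hx : x = 0
    · rw [hx, hv0]; simp
    · unfold saw0
      rw [if_neg (unit_mul_ne t.isUnit hx), Four.saw_mul p f (t : ZMod M)]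
  have hs : ∀ χ : DirichletCharacter ℂ M, ∑ x, (v x : ℂ) * proj χ (saw0 M p f) x = 0 := by
    intro χ
    unfold proj
    simp only [mul_sum]
    rw [sum_comm]
    refine sum_eq_zero fun t _ => ?_
    have h1 : ∀ x : ZMod M, (v x : ℂ) * (χ⁻¹ (t : ZMod M) * saw0 M p f (t * x)) =
        χ⁻¹ (t : ZMod M) * ((v x : ℂ) * saw0 M p f (t * x)) := fun x => by ring
    rw [sum_congr rfl fun x _ => h1 x, ← mul_sum, hv' t, mul_zero]
  have hc : ∀ χ : DirichletCharacter ℂ M, ∑ x, (v x : ℂ) * proj χ h x = 0 := by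
    intro χ
    by_cases hz : ∀ x, proj χ h x = 0
    · exact sum_eq_zero fun x _ => by rw [hz x, mul_zero]
    · push Not at hz
      obtain ⟨x0, hx0⟩ := hz
      have hodd : χ.Odd := by
        have h1 := proj_unit χ h (-1) x0
        rw [Units.val_neg, Units.val_one, neg_one_mul, proj_neg χ hh] at h1
        rw [DirichletCharacter.Odd]
        have h2 : (χ (-1) + 1) * proj χ h x0 = 0 := by rw [add_mul, one_mul, ← h1]; ring
        exact eq_neg_of_add_eq_zero_left ((mul_eq_zero.mp h2).resolve_right hx0)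
      have hχp : χ p = 1 := by
        obtain ⟨u, hu⟩ := isUnit_p hf hp
        have h1 := proj_unit χ h u x0
        rw [hu, proj_frob χ hh] at h1
        have h2 : (χ p - 1) * proj χ h x0 = 0 := by rw [sub_mul, one_mul, ← h1, sub_self]
        exact sub_eq_zero.mp ((mul_eq_zero.mp h2).resolve_right hx0)
      obtain ⟨c, hc⟩ := proj_eq χ hh (isRel_saw0 hf hp) (proj_saw0_ne hL hM hf hp χ hodd hχp)
      have h1 : ∀ x : ZMod M, (v x : ℂ) * proj χ h x =
          c * ((v x : ℂ) * proj χ (saw0 M p f) x) := fun x => by rw [hc x]; ring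
      rw [sum_congr rfl fun x _ => h1 x, ← mul_sum, hs χ, mul_zero]
  -- inversion
  have hinv : ∀ x, ∑ χ : DirichletCharacter ℂ M, proj χ h x = (M.totient : ℂ) * h x := by
    intro x
    unfold proj
    rw [sum_comm]
    have h1 : ∀ t : (ZMod M)ˣ, ∑ χ : DirichletCharacter ℂ M, χ⁻¹ (t : ZMod M) * h (t * x) =
        (if t = 1 then (M.totient : ℂ) else 0) * h (t * x) := by
      intro t
      rw [← sum_mul]
      congr 1
      have h2 := DirichletCharacter.sum_char_inv_mul_char_eq ℂ (n := M) (a := (t : ZMod M))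
        t.isUnit (1 : ZMod M)
      simp only [map_one, mul_one] at h2
      have h3 : ∀ χ : DirichletCharacter ℂ M, χ⁻¹ (t : ZMod M) = χ (t : ZMod M)⁻¹ := by
        intro χ
        rw [ZMod.inv_coe_unit, MulChar.inv_apply]
        simp
      rw [sum_congr rfl fun χ _ => h3 χ, h2]
      simp only [Units.val_eq_one]
    rw [sum_congr rfl fun t _ => h1 t]
    simp only [ite_mul, zero_mul, sum_ite_eq', mem_univ, if_true, Units.val_one, one_mul]
  have h1 : (M.totient : ℂ) * ∑ x, (v x : ℂ) * h x = 0 := by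
    rw [mul_sum]
    have h2 : ∀ x, (M.totient : ℂ) * ((v x : ℂ) * h x) =
        ∑ χ : DirichletCharacter ℂ M, (v x : ℂ) * proj χ h x := by
      intro x
      rw [← mul_sum, hinv x]
      ring
    rw [sum_congr rfl fun x _ => h2 x, sum_comm]
    exact sum_eq_zero fun χ _ => hc χ
  have h2 : (M.totient : ℂ) ≠ 0 := by
    exact_mod_cast (Nat.totient_pos.mpr (NeZero.pos M)).ne'
  exact (mul_eq_zero.mp h1).resolve_left h2

omit [NeZero M] in
theorem mem_span (L : AddSubgroup (ZMod M → ℤ)) (w : ZMod M → ℚ)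
    (hw : w ∈ Submodule.span ℚ ((fun (v : ZMod M → ℤ) (x : ZMod M) => (v x : ℚ)) '' (L : Set _))) :
    ∃ k : ℕ, 0 < k ∧ ∃ v ∈ L, ∀ x, (k : ℚ) * w x = v x := by
  induction hw using Submodule.span_induction with
  | mem w hw =>
    obtain ⟨v, hv, rfl⟩ := hw
    exact ⟨1, one_pos, v, hv, fun x => by simp⟩
  | zero => exact ⟨1, one_pos, 0, L.zero_mem, fun x => by simp⟩
  | add a b _ _ ha hb =>
    obtain ⟨k, hk, v, hv, hkv⟩ := ha
    obtain ⟨k', hk', v', hv', hkv'⟩ := hb
    refine ⟨k * k', Nat.mul_pos hk hk', k' • v + k • v',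
      L.add_mem (L.nsmul_mem hv _) (L.nsmul_mem hv' _), fun x => ?_⟩
    have e1 := hkv x
    have e2 := hkv' x
    simp only [Pi.add_apply, nsmul_eq_mul, Pi.mul_apply, Pi.natCast_apply]
    push_cast
    rw [← e1, ← e2]
    ring
  | smul a w _ hw =>
    obtain ⟨k, hk, v, hv, hkv⟩ := hw
    refine ⟨k * a.den, Nat.mul_pos hk a.den_pos, a.num • v, L.zsmul_mem hv _, fun x => ?_⟩
    have e1 := hkv x
    simp only [Pi.smul_apply, smul_eq_mul]
    push_cast
    rw [← e1]
    have e2 : (a.den : ℚ) * a = a.num := by rw [mul_comm]; exact Rat.mul_den_eq_num a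
    rw [← e2]
    ring

end Tor

open Tor Finset Diag in
theorem stTor (_hB : StBasic) (hL : StLval) : StTor := by
  intro M p f _ hM hf hp v hv0 hv
  set w : ZMod M → ℚ := fun x => (v x : ℚ) with hw
  by_cases hmem : w ∈ Submodule.span ℚ
      ((fun (v : ZMod M → ℤ) (x : ZMod M) => (v x : ℚ)) '' ((RelZ M p : AddSubgroup _) : Set _))
  · obtain ⟨k, hk, v', hv', h⟩ := mem_span _ w hmem
    refine ⟨k, hk, ?_⟩
    have h1 : (k : ℤ) • v = v' := by
      funext x
      have h2 : (k : ℚ) * (v x : ℚ) = (v' x : ℚ) := h x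
      simp only [Pi.smul_apply, smul_eq_mul]
      exact_mod_cast h2
    rw [h1]
    exact hv'
  · exfalso
    obtain ⟨φ, hφ, hker⟩ := Submodule.exists_le_ker_of_notMem hmem
    have hφs : ∀ v : ZMod M → ℚ, φ v = ∑ x, v x * φ (Pi.single x 1) := by
      intro v
      conv_lhs => rw [pi_eq_sum_univ' v]
      rw [map_sum]
      refine sum_congr rfl fun x _ => ?_
      rw [map_smul, smul_eq_mul]
    have hrel : ∀ v ∈ RelZ M p, ∑ x, (v x : ℚ) * φ (Pi.single x 1) = 0 := by
      intro v hv
      rw [← hφs (fun x => (v x : ℚ))]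
      exact hker (Submodule.subset_span ⟨v, hv, rfl⟩)
    have hsum1 : ∀ (g : ZMod M → ℚ) (x : ZMod M),
        ∑ y, ((Pi.single x (1 : ℤ) : ZMod M → ℤ) y : ℚ) * g y = g x := by
      intro g x
      rw [sum_eq_single x]
      · simp
      · intro y _ hy
        simp [hy]
      · intro h
        exact absurd (mem_univ x) h
    set g : ZMod M → ℚ := fun x => φ (Pi.single x 1) with hg
    have hgn : ∀ x, g (-x) = - g x := by
      intro x
      have h1 := hrel _ (AddSubgroup.subset_closure (Or.inl (Or.inl (Or.inr ⟨x, rfl⟩))))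
      simp only [Pi.add_apply, Int.cast_add, add_mul, sum_add_distrib] at h1
      rw [hsum1 g, hsum1 g] at h1
      linarith
    have hgp : ∀ x, g ((p : ZMod M) * x) = g x := by
      intro x
      have h1 := hrel _ (AddSubgroup.subset_closure (Or.inl (Or.inr ⟨x, rfl⟩)))
      simp only [Pi.sub_apply, Int.cast_sub, sub_mul, sum_sub_distrib] at h1
      rw [hsum1 g, hsum1 g] at h1
      linarith
    have hgd : ∀ l : ℕ, l.Prime → l ∣ M → ∀ x : ZMod M,
        ∑ y with (l : ZMod M) * y = (l : ZMod M) * x, g y = g ((l : ZMod M) * x) := by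
      intro l hl hlM x
      have h1 := hrel _ (AddSubgroup.subset_closure (Or.inr ⟨l, x, hl, hlM, rfl⟩))
      simp only [Pi.sub_apply, Finset.sum_apply, Int.cast_sub, Int.cast_sum, sub_mul,
        sum_sub_distrib, sum_mul] at h1
      rw [sum_comm, hsum1 g, sum_congr rfl fun y _ => hsum1 g y] at h1
      linarith
    have h1 := pairing hL hM hf hp (fun x => ((g x : ℚ) : ℂ)) ⟨?_, ?_, ?_⟩ v hv0 hv
    · apply hφ
      rw [hφs w]
      have h2 : ((∑ x, w x * g x : ℚ) : ℂ) = 0 := by
        rw [← h1]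
        push_cast
        refine sum_congr rfl fun x _ => ?_
        rw [hw]
        push_cast
        rfl
      exact_mod_cast h2
    · intro x
      rw [hgn x]
      push_cast
      rfl
    · intro x
      rw [hgp x]
    · intro l hl hlM x
      rw [← hgd l hl hlM x]
      push_cast
      rfl

end Pool.Agent.Lib.MP81632f.Lv
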