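import Pool.Agent.Lib.MP_81632f_ag.Lv.Act

/-!
# Levels: the torsion of the universal group
-/

set_option autoImplicit false

noncomputable section

namespace Pool.Agent.Lib.MP81632f.Lv

open Finset

section Fix

variable {p m : ℕ}

theorem unit_coprime (u : (ZMod m)ˣ) : IsCoprime (((u : ZMod m).val : ℕ) : ℤ) (m : ℤ) :=
  Nat.isCoprime_iff_coprime.mpr (ZMod.val_coe_unit_coprime u)

theorem fix_mul (hm : 0 < m) (hmp : m.Coprime p) {w : FQ} (hw : w ∈ LevF m) {c d : ℤ}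
    (hc : IsCoprime c (m : ℤ)) (h2 : mulE p d w = lft (e p) w) :
    mulE p (c * d) w = mulE p c w := by
  have h3 : lft (e p) (mulF d w - w) = 0 := by rw [map_sub, ← mulE_eq, h2, sub_self]
  have h4 := mulE_zero_of hm hmp hc (sub_mem (mulF_mem d hw) hw) h3
  rw [map_sub, sub_eq_zero] at h4
  rw [mulE_mul, h4]

/-- the units which fix `w` -/
def fixG (hm : 0 < m) (hmp : m.Coprime p) {w : FQ} (hw : w ∈ LevF m) : Subgroup (ZMod m)ˣ where
  carrier := {u | mulE p (((u : ZMod m).val : ℕ) : ℤ) w = lft (e p) w}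
  one_mem' := by
    have : NeZero m := ⟨hm.ne'⟩
    change mulE p ((((1 : (ZMod m)ˣ) : ZMod m).val : ℕ) : ℤ) w = lft (e p) w
    rw [← mulE_one p w]
    refine mulE_congr hm hmp ?_ hw
    rw [← ZMod.intCast_zmod_eq_zero_iff_dvd]
    push_cast
    rw [ZMod.natCast_zmod_val, sub_self]
  mul_mem' := by
    intro u v hu hv
    have : NeZero m := ⟨hm.ne'⟩
    change mulE p ((((u * v : (ZMod m)ˣ) : ZMod m).val : ℕ) : ℤ) w = lft (e p) w
    have h1 := fix_mul hm hmp hw (unit_coprime u) hv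
    rw [hu] at h1
    rw [← h1]
    refine mulE_congr hm hmp ?_ hw
    rw [← ZMod.intCast_zmod_eq_zero_iff_dvd]
    push_cast
    rw [ZMod.natCast_zmod_val, ZMod.natCast_zmod_val, ZMod.natCast_zmod_val, sub_self]
  inv_mem' := by
    intro u hu
    have : NeZero m := ⟨hm.ne'⟩
    change mulE p ((((u⁻¹ : (ZMod m)ˣ) : ZMod m).val : ℕ) : ℤ) w = lft (e p) w
    have h1 := fix_mul hm hmp hw (unit_coprime u⁻¹) hu
    rw [← h1, ← mulE_one p w]
    refine mulE_congr hm hmp ?_ hw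
    rw [← ZMod.intCast_zmod_eq_zero_iff_dvd]
    push_cast
    rw [ZMod.natCast_zmod_val, ZMod.natCast_zmod_val, Units.inv_mul, sub_self]

theorem mem_fixG (hm : 0 < m) (hmp : m.Coprime p) {w : FQ} (hw : w ∈ LevF m) {u : (ZMod m)ˣ}
    {c : ℤ} (hc : (u : ZMod m) = c) : u ∈ fixG hm hmp hw ↔ mulE p c w = lft (e p) w := by
  have : NeZero m := ⟨hm.ne'⟩
  change mulE p (((u : ZMod m).val : ℕ) : ℤ) w = lft (e p) w ↔ _
  have h1 : mulE p (((u : ZMod m).val : ℕ) : ℤ) w = mulE p c w := by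
    refine mulE_congr hm hmp ?_ hw
    rw [← ZMod.intCast_zmod_eq_zero_iff_dvd]
    push_cast
    rw [ZMod.natCast_zmod_val, hc, sub_self]
  rw [h1]

end Fix

theorem dvd_of_mul {q s o K : ℕ} (hq : q.Prime) (ho : 0 < o) (h : q ^ (s + o) ∣ o * K) :
    q ^ s ∣ K := by
  rcases Nat.eq_zero_or_pos K with hK | hK
  · rw [hK]
    exact dvd_zero _
  · rw [hq.pow_dvd_iff_le_factorization hK.ne']
    rw [hq.pow_dvd_iff_le_factorization (Nat.mul_pos ho hK).ne',
      Nat.factorization_mul ho.ne' hK.ne', Finsupp.add_apply] at h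
    have h1 := Nat.factorization_lt q ho.ne'
    omega

theorem card_hh {p q r s o : ℕ} (hq : q.Prime) (ho : 0 < o) (hr : r.Prime) (hrp : r.Coprime p)
    (h : q ^ (s + o) ∣ orderOf (p : ZMod r)) : q ^ s ∣ Nat.card (HH o hrp) := by
  have : Fact r.Prime := ⟨hr⟩
  unfold HH
  rw [Nat.card_zpowers]
  refine dvd_of_mul hq ho ?_
  have h1 : orderOf (p : ZMod r) = orderOf (up hrp) := by
    rw [← coe_up hrp, orderOf_units]
  rw [h1] at h
  refine h.trans (orderOf_dvd_of_pow_eq_one ?_)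
  rw [pow_mul, pow_orderOf_eq_one]

/-- the classes of the prime numbers given by `StCL` generate the classes which are `1` modulo
`q ^ v` -/
theorem gen_fix (hCL : StCL) {p q m' v T : ℕ} (hp : p.Prime) (hq : q.Prime) (hm' : 0 < m')
    (hqm : ¬ q ∣ m') (hmp : (m' * q ^ v).Coprime p) {w : FQ} (hw : w ∈ LevF (m' * q ^ v))
    (h : ∀ r : ℕ, r.Prime → r ≠ p → r.Coprime m' → q ^ T ∣ orderOf (p : ZMod r) →
      r ≡ 1 [MOD q ^ v] → mulE p r w = lft (e p) w) {c : ℤ}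
    (hc : IsCoprime c ((m' * q ^ v : ℕ) : ℤ)) (hcv : ((q ^ v : ℕ) : ℤ) ∣ c - 1) :
    mulE p c w = lft (e p) w := by
  classical
  have hpos : 0 < m' * q ^ v := Nat.mul_pos hm' (pow_pos hq.pos v)
  have : NeZero m' := ⟨hm'.ne'⟩
  have : NeZero (m' * q ^ v) := ⟨hpos.ne'⟩
  have hm'p : p.Coprime m' := (hmp.coprime_dvd_left (dvd_mul_right m' _)).symm
  have hd1 : m' ∣ m' * q ^ v := dvd_mul_right _ _
  have hd2 : q ^ v ∣ m' * q ^ v := dvd_mul_left _ _
  let H : Subgroup (ZMod m')ˣ := Subgroup.map (ZMod.unitsMap hd1)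
    (fixG hpos hmp hw ⊓ (ZMod.unitsMap hd2).ker)
  have hH : H = ⊤ := by
    by_contra hne
    obtain ⟨r, u, hr, hrp, hur, huH, hord⟩ := hCL p q m' (T + v) hp hq hqm hm'p H hne
    apply huH
    have : Fact r.Prime := ⟨hr⟩
    have hrcop : r.Coprime m' := by
      rw [← ZMod.isUnit_iff_coprime, ← hur]
      exact u.isUnit
    have hpr : p.Coprime r := (Nat.coprime_primes hp hr).mpr (Ne.symm hrp)
    have hdvd : q ^ (T + v) ∣ r - 1 := by
      refine hord.trans ?_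
      have h1 : (p : ZMod r) ≠ 0 := by
        rw [Ne, ZMod.natCast_eq_zero_iff]
        exact fun h => hrp ((Nat.prime_dvd_prime_iff_eq hr hp).mp h)
      exact orderOf_dvd_of_pow_eq_one (ZMod.pow_card_sub_one_eq_one h1)
    have hr1 : r ≡ 1 [MOD q ^ v] :=
      ((Nat.modEq_iff_dvd' hr.one_le).mpr ((pow_dvd_pow q (Nat.le_add_left v T)).trans hdvd)).symm
    have hrv : r.Coprime (q ^ v) := by
      have := hr1.gcd_eq
      rw [Nat.Coprime, this, Nat.gcd_one_left]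
    have hrm : r.Coprime (m' * q ^ v) := hrcop.mul_right hrv
    refine ⟨ZMod.unitOfCoprime r hrm, ⟨?_, ?_⟩, ?_⟩
    · refine (mem_fixG hpos hmp hw (c := (r : ℤ)) ?_).mpr
        (h r hr hrp hrcop ((pow_dvd_pow q (Nat.le_add_right T v)).trans hord) hr1)
      rw [ZMod.coe_unitOfCoprime, Int.cast_natCast]
    · change ZMod.unitsMap hd2 (ZMod.unitOfCoprime r hrm) = 1
      apply Units.ext
      rw [ZMod.unitsMap_val, ZMod.coe_unitOfCoprime, Units.val_one, ZMod.cast_natCast hd2]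
      have := (ZMod.natCast_eq_natCast_iff _ _ _).mpr hr1
      rwa [Nat.cast_one] at this
    · apply Units.ext
      rw [ZMod.unitsMap_val, ZMod.coe_unitOfCoprime, ZMod.cast_natCast hd1, hur]
  -- the class of `c`
  have hcu : IsUnit (c : ZMod m') := by
    rw [ZMod.coe_int_isUnit_iff_isCoprime]
    exact (hc.of_isCoprime_of_dvd_right (by exact_mod_cast hd1)).symm
  obtain ⟨u, hu⟩ := hcu
  have huH : u ∈ H := by rw [hH]; exact Subgroup.mem_top u
  obtain ⟨t, ⟨ht1, ht2⟩, ht3⟩ := huH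
  have h1 := (mem_fixG hpos hmp hw (u := t) (c := (((t : ZMod (m' * q ^ v)).val : ℕ) : ℤ)) (by
    rw [Int.cast_natCast, ZMod.natCast_zmod_val])).mp ht1
  rw [← h1]
  refine mulE_congr hpos hmp ?_ hw
  have e1 : ((m' : ℕ) : ℤ) ∣ c - (((t : ZMod (m' * q ^ v)).val : ℕ) : ℤ) := by
    rw [← ZMod.intCast_zmod_eq_zero_iff_dvd]
    push_cast
    rw [← hu, ← ht3, ZMod.unitsMap_val, ZMod.cast_eq_val, sub_self]
  have e2 : ((q ^ v : ℕ) : ℤ) ∣ c - (((t : ZMod (m' * q ^ v)).val : ℕ) : ℤ) := by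
    have h2 : ((q ^ v : ℕ) : ℤ) ∣ (((t : ZMod (m' * q ^ v)).val : ℕ) : ℤ) - 1 := by
      have ht2' : ZMod.unitsMap hd2 t = 1 := ht2
      have h3 := congrArg (fun z : (ZMod (q ^ v))ˣ => (z : ZMod (q ^ v))) ht2'
      simp only [ZMod.unitsMap_val, ZMod.cast_eq_val, Units.val_one] at h3
      rw [← ZMod.intCast_zmod_eq_zero_iff_dvd]
      push_cast
      rw [h3, sub_self]
    have h3 : c - (((t : ZMod (m' * q ^ v)).val : ℕ) : ℤ) =
        (c - 1) - ((((t : ZMod (m' * q ^ v)).val : ℕ) : ℤ) - 1) := by ring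
    rw [h3]
    exact dvd_sub hcv h2
  have hcop : IsCoprime ((m' : ℕ) : ℤ) ((q ^ v : ℕ) : ℤ) :=
    Nat.isCoprime_iff_coprime.mpr (((Nat.Prime.coprime_iff_not_dvd hq).mpr hqm).symm.pow_right v)
  have h4 := hcop.mul_dvd e1 e2
  push_cast at h4 ⊢
  exact h4

end Pool.Agent.Lib.MP81632f.Lv
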