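import Pool.Agent.Lib.MP_81632f_ag.Lv.Tors

/-!
# Levels: no odd torsion, `2` kills the torsion, descent at odd prime numbers
-/

set_option autoImplicit false

noncomputable section

namespace Pool.Agent.Lib.MP81632f.Lv

open Finset

/-- the level in the form `m' q ^ v` -/
theorem level_form {m q : ℕ} (hq : q.Prime) (hm : 0 < m) :
    ∃ m' v : ℕ, m = m' * q ^ v ∧ ¬ q ∣ m' ∧ 0 < m' := by
  obtain ⟨v, m', hm', rfl⟩ := Nat.exists_eq_pow_mul_and_not_dvd hm.ne' q hq.ne_one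
  refine ⟨m', v, mul_comm _ _, hm', ?_⟩
  rcases Nat.eq_zero_or_pos m' with h | h
  · rw [h, mul_zero] at hm
    exact absurd hm (lt_irrefl 0)
  · exact h

/-- an integer which is `-1` modulo `m'` and `1` modulo `q ^ v` -/
theorem exists_tau {m' q : ℕ} (hq : q.Prime) (hqm : ¬ q ∣ m') (v : ℕ) :
    ∃ c : ℤ, (m' : ℤ) ∣ c + 1 ∧ ((q ^ v : ℕ) : ℤ) ∣ c - 1 ∧ IsCoprime c (q : ℤ) ∧
      IsCoprime c ((m' * q ^ v : ℕ) : ℤ) := by
  have hcop : IsCoprime ((m' : ℕ) : ℤ) ((q ^ (v + 1) : ℕ) : ℤ) :=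
    Nat.isCoprime_iff_coprime.mpr
      (((Nat.Prime.coprime_iff_not_dvd hq).mpr hqm).symm.pow_right (v + 1))
  obtain ⟨a, b, hab⟩ := hcop
  have h1 : (m' : ℤ) ∣ (a * m' - b * (q ^ (v + 1) : ℕ)) + 1 :=
    ⟨2 * a, by push_cast at hab ⊢; linear_combination -hab⟩
  have h2 : ((q ^ (v + 1) : ℕ) : ℤ) ∣ (a * m' - b * (q ^ (v + 1) : ℕ)) - 1 :=
    ⟨-2 * b, by push_cast at hab ⊢; linear_combination hab⟩
  have h3 : IsCoprime (a * m' - b * (q ^ (v + 1) : ℕ)) (q : ℤ) := by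
    obtain ⟨t, ht⟩ := h2
    refine ⟨1, -((q ^ v : ℕ) : ℤ) * t, ?_⟩
    push_cast at ht ⊢
    linear_combination ht
  have h4 : IsCoprime (a * m' - b * (q ^ (v + 1) : ℕ)) (m' : ℤ) := by
    obtain ⟨t, ht⟩ := h1
    exact ⟨-1, t, by linear_combination -ht⟩
  refine ⟨_, h1, ?_, h3, ?_⟩
  · refine Dvd.dvd.trans ?_ h2
    exact_mod_cast pow_dvd_pow q (Nat.le_succ v)
  · push_cast at h3 h4 ⊢
    exact h4.mul_right h3.pow_right

/-- the sum with the conjugate under `tau` -/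
theorem tau_zero {p q m' v s : ℕ} (hp : p.Prime) (hq : q.Prime) (hm' : 0 < m')
    (hqm : ¬ q ∣ m') (hmp : (m' * q ^ v).Coprime p) {c : ℤ} (hc1 : (m' : ℤ) ∣ c + 1)
    (hcq : IsCoprime c (q : ℤ)) {w : FQ} (hw : w ∈ LevF (m' * q ^ v))
    (hk : ((q ^ s : ℕ) : ℤ) • w ∈ R p (m' * q ^ v)) :
    (2 : ℤ) • (lft (e p) w + mulE p c w) = 0 ∧ (q = 2 → lft (e p) w + mulE p c w = 0) := by
  by_cases hqp : q = p
  · have hv : v = 0 := by
      by_contra hv
      have h1 : (q ^ v).Coprime p := hmp.coprime_dvd_left (dvd_mul_left _ _)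
      rw [hqp] at h1
      have h2 := h1.coprime_dvd_left (dvd_pow_self p hv)
      rw [Nat.coprime_self] at h2
      exact hp.one_lt.ne' h2
    subst hv
    have h0 : lft (e p) w + mulE p c w = 0 := by
      have hpos : 0 < m' * q ^ 0 := by simpa using hm'
      have h1 : mulE p c w = mulE p (-1) w := by
        refine mulE_congr hpos hmp ?_ hw
        rw [sub_neg_eq_add]
        simpa using hc1
      rw [h1, mulE_neg_one hpos hmp hw, add_neg_cancel]
    rw [h0]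
    exact ⟨smul_zero _, fun _ => rfl⟩
  · exact tower_tau hp.one_lt hq ((Nat.coprime_primes hq hp).mpr hqp) hm'
      (hmp.coprime_dvd_left (dvd_mul_right m' _))
      (((Nat.Prime.coprime_iff_not_dvd hq).mpr hqm).symm) hc1 hcq hw hk

theorem p_pow_totient {p m : ℕ} (hmp : m.Coprime p) : p ^ m.totient ≡ 1 [MOD m] :=
  Nat.ModEq.pow_totient hmp.symm

theorem odd_step (hCL : StCL) {p q m : ℕ} (hp : p.Prime) (hq : q.Prime) (hq2 : q ≠ 2)
    (hm : 0 < m) (hmp : m.Coprime p) {w : FQ} (hw : w ∈ LevF m) (h : (q : ℤ) • w ∈ Rinf p) :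
    w ∈ Rinf p := by
  obtain ⟨n, hn, hnp, hmn, h1⟩ := mem_rinf_level h hm hmp
  obtain ⟨n', v, rfl, hqn, hn'⟩ := level_form hq hn
  have hwn := levF_mono hmn hw
  obtain ⟨c, hc1, hc2, hc3, hc4⟩ := exists_tau hq hqn v
  have h1' : ((q ^ 1 : ℕ) : ℤ) • w ∈ R p (n' * q ^ v) := by rwa [pow_one]
  have h2 := (tau_zero hp hq hn' hqn hnp hc1 hc3 hwn h1').1
  have h3 : mulE p c ((2 : ℤ) • w) = lft (e p) ((2 : ℤ) • w) := by
    refine gen_fix (T := 1 + (n' * q ^ v).totient) hCL hp hq hn' hqn hnp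
      (AddSubgroup.zsmul_mem _ hwn 2) ?_ hc4 hc2
    intro r hr hrp hrn hord hrv
    have hrp' : r.Coprime p := (Nat.coprime_primes hr hp).mpr hrp
    have hrcop : (n' * q ^ v).Coprime r := by
      refine Nat.Coprime.mul_left hrn.symm ?_
      have := hrv.gcd_eq
      rw [Nat.Coprime, Nat.gcd_comm, this, Nat.gcd_one_left]
    have h4 := prime_fix hn hnp (p_pow_totient hnp) hr hrp' hrcop hwn h1
      (by
        have := card_hh hq (Nat.totient_pos.mpr hn) hr hrp' hord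
        rwa [pow_one] at this)
    rw [map_zsmul, map_zsmul, ← sub_eq_zero, ← zsmul_sub]
    exact h4
  rw [map_zsmul, map_zsmul] at h3
  rw [zsmul_add, h3, ← zsmul_add, ← two_zsmul, smul_smul] at h2
  have h5 : (q : ℤ) • lft (e p) w = 0 := by
    rw [← map_zsmul]
    exact lft_eq_zero.mpr h
  have hcop : IsCoprime (q : ℤ) (2 * 2) := by
    have h6 : Nat.Coprime q 4 := by
      have h7 : Nat.Coprime q 2 := (Nat.coprime_primes hq Nat.prime_two).mpr hq2
      exact h7.pow_right 2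
    exact_mod_cast Nat.isCoprime_iff_coprime.mpr h6
  obtain ⟨a, b, hab⟩ := hcop
  rw [← lft_eq_zero]
  have h8 : lft (e p) w = (a * q + b * (2 * 2)) • lft (e p) w := by rw [hab, one_zsmul]
  rw [h8, add_zsmul, mul_smul, mul_smul, h5, h2, smul_zero, smul_zero, add_zero]

/-- **No odd torsion.** -/
theorem no_odd (hCL : StCL) {p m : ℕ} (hp : p.Prime) (hm : 0 < m) (hmp : m.Coprime p) (k : ℕ)
    (hk : Odd k) : ∀ {w : FQ}, w ∈ LevF m → (k : ℤ) • w ∈ Rinf p → w ∈ Rinf p := by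
  induction k using Nat.strong_induction_on with
  | _ k ih =>
    intro w hw h
    by_cases h1 : k = 1
    · subst h1
      simpa using h
    have hq := Nat.minFac_prime h1
    obtain ⟨k', hk'⟩ := Nat.minFac_dvd k
    set q := k.minFac with hqdef
    have hk0 : k ≠ 0 := by
      rintro rfl
      exact absurd hk (by decide)
    have hodd : Odd q ∧ Odd k' := by
      rw [hk', Nat.odd_mul] at hk
      exact hk
    have hq2 : q ≠ 2 := by
      rintro h2
      rw [h2] at hodd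
      exact absurd hodd.1 (by decide)
    have hlt : k' < k := by
      have hk'0 : 0 < k' := Nat.pos_of_ne_zero (by rintro rfl; exact hk0 (by rw [hk', mul_zero]))
      rw [hk']
      exact (Nat.lt_mul_iff_one_lt_left hk'0).mpr hq.one_lt
    refine ih k' hlt hodd.2 hw ?_
    refine odd_step hCL hp hq hq2 hm hmp (AddSubgroup.zsmul_mem _ hw _) ?_
    rw [smul_smul]
    have h3 : (q : ℤ) * (k' : ℤ) = (k : ℤ) := by exact_mod_cast hk'.symm
    rw [h3]
    exact h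

/-- the torsion elements -/
def IsTor (p : ℕ) (w : FQ) : Prop := ∃ k : ℕ, 0 < k ∧ (k : ℤ) • w ∈ Rinf p

theorem tor_pow (hCL : StCL) {p m : ℕ} (hp : p.Prime) (hm : 0 < m) (hmp : m.Coprime p) {w : FQ}
    (hw : w ∈ LevF m) (h : IsTor p w) : ∃ s : ℕ, ((2 ^ s : ℕ) : ℤ) • w ∈ Rinf p := by
  obtain ⟨k, hk, h1⟩ := h
  obtain ⟨s, k', hk', rfl⟩ := Nat.exists_eq_two_pow_mul_odd hk.ne'
  refine ⟨s, no_odd hCL hp hm hmp k' hk' (AddSubgroup.zsmul_mem _ hw _) ?_⟩
  rw [smul_smul]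
  have h3 : (k' : ℤ) * ((2 ^ s : ℕ) : ℤ) = ((2 ^ s * k' : ℕ) : ℤ) := by push_cast; ring
  rw [h3]
  exact h1

/-- **The units which are `1` modulo the power of `2` fix the torsion elements.** -/
theorem fix_two (hCL : StCL) {p m : ℕ} (hp : p.Prime) (hm : 0 < m) (hmp : m.Coprime p) {w : FQ}
    (hw : w ∈ LevF m) (h : IsTor p w) {v : ℕ} (hv : m = (m / 2 ^ v) * 2 ^ v)
    (hodd : Odd (m / 2 ^ v)) {c : ℤ} (hc : IsCoprime c (m : ℤ))
    (hcv : ((2 ^ v : ℕ) : ℤ) ∣ c - 1) : mulE p c w = lft (e p) w := by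
  obtain ⟨s, h1⟩ := tor_pow hCL hp hm hmp hw h
  obtain ⟨n, hn, hnp, hmn, h2⟩ := mem_rinf_level h1 hm hmp
  obtain ⟨n', v', rfl, hqn, hn'⟩ := level_form Nat.prime_two hn
  have hwn := levF_mono hmn hw
  set m' := m / 2 ^ v with hm'
  have hm'0 : 0 < m' := hodd.pos
  have hm'n : m' ∣ n' := by
    have h3 : m' ∣ n' * 2 ^ v' := (Dvd.intro _ hv.symm).trans hmn
    have h4 : Nat.Coprime m' (2 ^ v') := (Nat.coprime_two_right.mpr hodd).pow_right v'
    exact h4.dvd_of_dvd_mul_right h3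
  -- a unit `c'` modulo `n`, equal to `c` modulo `m'` and to `1` modulo `2 ^ v'`
  have hcm' : IsCoprime c (m' : ℤ) := by
    refine hc.of_isCoprime_of_dvd_right ?_
    rw [hv]
    push_cast
    exact Dvd.intro _ rfl
  obtain ⟨d, hd1, hd2⟩ := exists_lift hn' hm'n hcm'
  have hcop : IsCoprime ((n' : ℕ) : ℤ) ((2 ^ v' : ℕ) : ℤ) :=
    Nat.isCoprime_iff_coprime.mpr
      (((Nat.Prime.coprime_iff_not_dvd Nat.prime_two).mpr hqn).symm.pow_right v')
  obtain ⟨a, b, hab⟩ := hcop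
  set c' : ℤ := d * (b * (2 ^ v' : ℕ)) + a * n' with hc'
  have e1 : (n' : ℤ) ∣ c' - d := ⟨a * (1 - d), by rw [hc']; linear_combination d * hab⟩
  have e2 : ((2 ^ v' : ℕ) : ℤ) ∣ c' - 1 := ⟨b * (d - 1), by rw [hc']; linear_combination hab⟩
  have e3 : IsCoprime c' (n' : ℤ) := by
    obtain ⟨t, ht⟩ := e1
    have h5 : c' = d + n' * t := by linarith
    rw [h5]
    exact (IsCoprime.add_mul_left_left_iff).mpr hd2
  have e4 : IsCoprime c' ((2 ^ v' : ℕ) : ℤ) := by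
    obtain ⟨t, ht⟩ := e2
    exact ⟨1, -t, by linear_combination ht⟩
  have e5 : IsCoprime c' ((n' * 2 ^ v' : ℕ) : ℤ) := by
    push_cast at e4 ⊢
    exact e3.mul_right e4
  have h3 : mulE p c' w = lft (e p) w := by
    refine gen_fix (T := (s + 1) + (n' * 2 ^ v').totient) hCL hp Nat.prime_two hn' hqn hnp
      hwn ?_ e5 e2
    intro r hr hrp hrn hord hrv
    have hrp' : r.Coprime p := (Nat.coprime_primes hr hp).mpr hrp
    have hrcop : (n' * 2 ^ v').Coprime r := by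
      refine Nat.Coprime.mul_left hrn.symm ?_
      have := hrv.gcd_eq
      rw [Nat.Coprime, Nat.gcd_comm, this, Nat.gcd_one_left]
    refine prime_fix_two hn hnp (p_pow_totient hnp) hr hrp' hrcop hwn h2 ?_
    have := card_hh Nat.prime_two (Nat.totient_pos.mpr hn) hr hrp' hord
    rwa [pow_succ] at this
  rw [← h3]
  refine mulE_congr hm hmp ?_ hw
  have f1 : (m' : ℤ) ∣ c - c' := by
    have h6 : c - c' = -((d - c) + (c' - d)) := by ring
    rw [h6]
    exact (dvd_add hd1 ((show (m' : ℤ) ∣ n' by exact_mod_cast hm'n).trans e1)).neg_right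
  have hvv : 2 ^ v ∣ 2 ^ v' := by
    have h6 : 2 ^ v ∣ n' * 2 ^ v' := (Dvd.intro_left m' hv.symm).trans hmn
    have h7 : Nat.Coprime (2 ^ v) n' :=
      ((Nat.Prime.coprime_iff_not_dvd Nat.prime_two).mpr hqn).pow_left v
    exact h7.dvd_of_dvd_mul_left h6
  have f2 : ((2 ^ v : ℕ) : ℤ) ∣ c - c' := by
    have h6 : c - c' = (c - 1) - (c' - 1) := by ring
    rw [h6]
    exact dvd_sub hcv ((show ((2 ^ v : ℕ) : ℤ) ∣ ((2 ^ v' : ℕ) : ℤ) by
      exact_mod_cast hvv).trans e2)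
  have hcop2 : IsCoprime ((m' : ℕ) : ℤ) ((2 ^ v : ℕ) : ℤ) :=
    Nat.isCoprime_iff_coprime.mpr ((Nat.coprime_two_right.mpr hodd).pow_right v)
  have h8 := hcop2.mul_dvd f1 f2
  rw [hv]
  push_cast at h8 ⊢
  exact h8

/-- **`2` kills the torsion.** -/
theorem two_tors (hCL : StCL) {p m : ℕ} (hp : p.Prime) (hm : 0 < m) (hmp : m.Coprime p) {w : FQ}
    (hw : w ∈ LevF m) (h : IsTor p w) : (2 : ℤ) • w ∈ Rinf p := by
  obtain ⟨s, h1⟩ := tor_pow hCL hp hm hmp hw h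
  obtain ⟨n, hn, hnp, hmn, h2⟩ := mem_rinf_level h1 hm hmp
  obtain ⟨n', v', rfl, hqn, hn'⟩ := level_form Nat.prime_two hn
  have hwn := levF_mono hmn hw
  obtain ⟨c, hc1, hc2, hc3, hc4⟩ := exists_tau Nat.prime_two hqn v'
  have hodd : Odd n' := Nat.odd_iff.mpr (Nat.two_dvd_ne_zero.mp hqn)
  have hdiv : n' * 2 ^ v' / 2 ^ v' = n' := Nat.mul_div_cancel _ (by positivity)
  have h3 := fix_two hCL hp hn hnp hwn h (v := v') (by rw [hdiv]) (by rw [hdiv]; exact hodd)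
    hc4 hc2
  have h4 := (tau_zero hp Nat.prime_two hn' hqn hnp hc1 hc3 hwn h2).2 rfl
  rw [h3, ← two_zsmul, ← map_zsmul] at h4
  exact lft_eq_zero.mp h4

end Pool.Agent.Lib.MP81632f.Lv
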