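import Pool.Agent.Lib.MP_81632f_ag.Lv.Sums

/-!
# Levels: the tower of the levels `m' q ^ c`
-/

set_option autoImplicit false

noncomputable section

namespace Pool.Agent.Lib.MP81632f.Lv

open Finset

/-- the exact power of `q` in the denominator is `q ^ c` -/
def ExLev (q m' c : ℕ) (y : ℚ) : Prop := ∃ a : ℤ, y * ((m' * q ^ c : ℕ) : ℚ) = a ∧ ¬ (q : ℤ) ∣ a

/-- powers of `p` which are `1` exactly modulo `q ^ c` -/
def TH (p q m' c₀ : ℕ) : Prop :=
  1 ≤ c₀ ∧ ∀ c, c₀ ≤ c → ∃ o : ℕ, p ^ o ≡ 1 [MOD m' * q ^ c] ∧ ¬ p ^ o ≡ 1 [MOD q ^ (c + 1)]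

section Tower

variable {p q m' c₀ : ℕ}

theorem ExLev.isLev {c : ℕ} {y : ℚ} (h : ExLev q m' c y) : IsLev (m' * q ^ c) y := by
  obtain ⟨a, ha, -⟩ := h
  exact ⟨a, ha⟩

theorem ExLev.div (hq : 0 < q) {c : ℕ} {y : ℚ} (h : ExLev q m' c y) :
    ExLev q m' (c + 1) (y / q) := by
  obtain ⟨a, ha, h1⟩ := h
  refine ⟨a, ?_, h1⟩
  have hq0 : (q : ℚ) ≠ 0 := by exact_mod_cast hq.ne'
  rw [← ha]
  push_cast
  field_simp
  ring

theorem ExLev.add_int {c : ℕ} (hc : 1 ≤ c) {y : ℚ} (h : ExLev q m' c y) (n : ℤ) :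
    ExLev q m' c (y + n) := by
  obtain ⟨a, ha, h1⟩ := h
  refine ⟨a + n * (m' * q ^ c : ℕ), ?_, fun h2 => h1 ?_⟩
  · rw [add_mul, ha]
    push_cast
    ring
  · have h3 : (q : ℤ) ∣ n * (m' * q ^ c : ℕ) := by
      refine Dvd.dvd.mul_left ?_ n
      have : q ∣ m' * q ^ c := Dvd.dvd.mul_left (dvd_pow_self q (by omega)) m'
      exact_mod_cast this
    exact (dvd_add_left h3).mp h2

/-- one step of the tower -/
theorem tower_step (hq : q.Prime) (hm' : 0 < m') (hqm : m'.Coprime q) {c o : ℕ} (hc : 1 ≤ c)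
    (ho : p ^ o ≡ 1 [MOD m' * q ^ c]) (ho' : ¬ p ^ o ≡ 1 [MOD q ^ (c + 1)]) {y : ℚ}
    (hy : ExLev q m' c y) (n : ℤ) :
    ∃ (j : ℕ) (N : ℤ), (p : ℚ) ^ (o * j) * (y / q) = (y + n) / q + N := by
  have : Fact q.Prime := ⟨hq⟩
  obtain ⟨a, ha, haq⟩ := hy
  have hq0 : (q : ℚ) ≠ 0 := by exact_mod_cast hq.ne_zero
  -- `p ^ o = 1 + m' q ^ c u`
  obtain ⟨u, hu⟩ : ∃ u : ℤ, (p : ℤ) ^ o = 1 + (m' * q ^ c : ℕ) * u := by
    have h1 := (Nat.modEq_iff_dvd.mp ho.symm)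
    obtain ⟨u, hu⟩ := h1
    refine ⟨u, ?_⟩
    push_cast at hu ⊢
    linarith
  have huq : ¬ (q : ℤ) ∣ u := by
    rintro ⟨t, rfl⟩
    apply ho'
    refine (Nat.modEq_iff_dvd.mpr ?_).symm
    refine ⟨m' * t, ?_⟩
    push_cast at hu ⊢
    rw [pow_succ]
    linear_combination hu
  -- powers
  have hpow : ∀ j : ℕ, ∃ s : ℤ, (p : ℤ) ^ (o * j) = 1 + (m' * q ^ c : ℕ) * (u * s) ∧
      (q : ℤ) ∣ s - j := by
    intro j
    induction j with
    | zero => exact ⟨0, by simp, by simp⟩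
    | succ j ih =>
      obtain ⟨s, hs, hsj⟩ := ih
      refine ⟨s * (p : ℤ) ^ o + 1, ?_, ?_⟩
      · rw [Nat.mul_succ, pow_add, hs]
        linear_combination hu
      · have h1 : (q : ℤ) ∣ (p : ℤ) ^ o - 1 := by
          have h2 : (q : ℤ) ∣ (m' * q ^ c : ℕ) := by
            have : q ∣ m' * q ^ c := Dvd.dvd.mul_left (dvd_pow_self q (by omega)) m'
            exact_mod_cast this
          have h3 : (p : ℤ) ^ o - 1 = (m' * q ^ c : ℕ) * u := by linarith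
          rw [h3]
          exact h2.mul_right u
        have h4 : s * (p : ℤ) ^ o + 1 - ((j + 1 : ℕ) : ℤ) = s * ((p : ℤ) ^ o - 1) + (s - j) := by
          push_cast
          ring
        rw [h4]
        exact dvd_add (h1.mul_left s) hsj
  -- the choice of `j`
  have hunit : IsUnit ((u * a : ℤ) : ZMod q) := by
    rw [isUnit_iff_ne_zero]
    intro h
    rw [ZMod.intCast_zmod_eq_zero_iff_dvd] at h
    rcases (Nat.prime_iff_prime_int.mp hq).dvd_or_dvd h with h | h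
    · exact huq h
    · exact haq h
  obtain ⟨j, hj⟩ : ∃ j : ℕ, (q : ℤ) ∣ u * a * j - n := by
    obtain ⟨v, hv⟩ := hunit
    refine ⟨((v⁻¹ : (ZMod q)ˣ) * (n : ZMod q) : ZMod q).val, ?_⟩
    rw [← ZMod.intCast_zmod_eq_zero_iff_dvd]
    push_cast
    rw [ZMod.natCast_zmod_val]
    push_cast at hv
    rw [← hv, mul_inv_cancel_left₀ v.ne_zero, sub_self]
  obtain ⟨s, hs, hsj⟩ := hpow j
  have h5 : (q : ℤ) ∣ u * a * s - n := by
    have h6 : u * a * s - n = u * a * (s - j) + (u * a * j - n) := by ring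
    rw [h6]
    exact dvd_add (hsj.mul_left _) hj
  obtain ⟨N, hN⟩ := h5
  refine ⟨j, N, ?_⟩
  have hs' : (p : ℚ) ^ (o * j) = 1 + ((m' * q ^ c : ℕ) : ℚ) * (u * s) := by exact_mod_cast hs
  have hN' : (u : ℚ) * a * s - n = q * N := by exact_mod_cast hN
  rw [hs']
  have h7 : ((m' * q ^ c : ℕ) : ℚ) * (u * s) * y = u * a * s := by
    rw [← ha]; ring
  field_simp
  linear_combination h7 + hN'

/-- the value at `y / q ^ i` only depends on `y` modulo `1` -/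
theorem tower_per (hq : q.Prime) (hqp : q.Coprime p) (hm' : 0 < m') (hmp : m'.Coprime p)
    (hqm : m'.Coprime q) (hT : TH p q m' c₀) (i : ℕ) : ∀ {c : ℕ}, c₀ ≤ c → ∀ {y : ℚ},
    ExLev q m' c y → ∀ n : ℤ, e p ((y + n) / (q ^ i : ℕ)) = e p (y / (q ^ i : ℕ)) := by
  have hq0 : (q : ℚ) ≠ 0 := by exact_mod_cast hq.ne_zero
  have good : ∀ {c : ℕ} {y : ℚ}, ExLev q m' c y → Good p y := fun h =>
    Good.of_lev (Nat.mul_pos hm' (pow_pos hq.pos _)) (Nat.Coprime.mul_left hmp (hqp.pow_left _))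
      h.isLev
  induction i with
  | zero =>
    intro c hc y hy n
    simp only [pow_zero, Nat.cast_one, div_one]
    exact e_add_int (good hy) n
  | succ i ih =>
    intro c hc y hy n
    obtain ⟨h0, hT'⟩ := hT
    obtain ⟨o, ho, ho'⟩ := hT' c hc
    obtain ⟨j, N, hj⟩ := tower_step hq hm' hqm (h0.trans hc) ho ho' hy n
    have h1 : ExLev q m' (c + 1) ((y + n) / q) := (hy.add_int (h0.trans hc) n).div hq.pos
    have h2 := ih (by omega : c₀ ≤ c + 1) h1 N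
    rw [← hj] at h2
    have h3 : (p : ℚ) ^ (o * j) * (y / q) / ((q ^ i : ℕ) : ℚ) =
        (p : ℚ) ^ (o * j) * (y / ((q ^ (i + 1) : ℕ) : ℚ)) := by
      push_cast
      field_simp
      ring
    have h4 : (y + n) / q / ((q ^ i : ℕ) : ℚ) = (y + n) / ((q ^ (i + 1) : ℕ) : ℚ) := by
      push_cast
      field_simp
      ring
    have h5 : Good p (y / ((q ^ (i + 1) : ℕ) : ℚ)) :=
      (good hy).div (pow_pos hq.pos _) (hqp.pow_left _)
    rw [h3, h4, e_frob_pow h5] at h2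
    exact h2.symm

/-- divisibility in the tower -/
theorem tower_mul (hq : q.Prime) (hqp : q.Coprime p) (hm' : 0 < m') (hmp : m'.Coprime p)
    (hqm : m'.Coprime q) (hT : TH p q m' c₀) {c : ℕ} (hc : c₀ ≤ c) {y : ℚ}
    (hy : ExLev q m' c y) (i : ℕ) : (q ^ i : ℕ) • e p (y / (q ^ i : ℕ)) = e p y := by
  have hg : Good p y := Good.of_lev (Nat.mul_pos hm' (pow_pos hq.pos c))
    (Nat.Coprime.mul_left hmp (hqp.pow_left c)) hy.isLev
  rw [← e_dist_pow hq hqp hg i]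
  have h1 : ∀ k ∈ range (q ^ i), e p ((y + k) / (q ^ i : ℕ)) = e p (y / (q ^ i : ℕ)) := by
    intro k _
    exact_mod_cast tower_per hq hqp hm' hmp hqm hT i hc hy k
  rw [Finset.sum_congr rfl h1, Finset.sum_const, card_range]

/-- the exact level of a number of level `m' q ^ v` -/
theorem exists_exLev (hq0 : q ≠ 0) {v : ℕ} {x : ℚ} (hx : IsLev (m' * q ^ v) x)
    (hx' : ¬ IsLev m' x) : ∃ a, 1 ≤ a ∧ a ≤ v ∧ ExLev q m' a x := by
  induction v with
  | zero =>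
    rw [pow_zero, mul_one] at hx
    exact absurd hx hx'
  | succ v ih =>
    by_cases h : IsLev (m' * q ^ v) x
    · obtain ⟨a, h1, h2, h3⟩ := ih h
      exact ⟨a, h1, h2.trans (Nat.le_succ v), h3⟩
    · obtain ⟨b, hb⟩ := hx
      refine ⟨v + 1, by omega, le_rfl, b, hb, ?_⟩
      rintro ⟨t, rfl⟩
      apply h
      refine ⟨t, ?_⟩
      have hq0' : (q : ℚ) ≠ 0 := by exact_mod_cast hq0
      have h1 : (q : ℚ) * (x * ((m' * q ^ v : ℕ) : ℚ)) = q * t := by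
        push_cast at hb ⊢
        rw [← hb]
        ring
      exact mul_left_cancel₀ hq0' h1

end Tower

end Pool.Agent.Lib.MP81632f.Lv
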