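import Pool.Agent.Lib.MP_81632f_ag.Lv.Tower

/-!
# Levels: the function `tpsi`
-/

set_option autoImplicit false

noncomputable section

namespace Pool.Agent.Lib.MP81632f.Lv

open Finset

/-! ### Levels -/

theorem isLev_add_int_iff {m : ℕ} {x : ℚ} {n : ℤ} : IsLev m (x + n) ↔ IsLev m x := by
  constructor
  · intro h
    have h1 := h.add_int (-n)
    push_cast at h1
    rwa [add_neg_cancel_right] at h1
  · exact fun h => h.add_int n

theorem isLev_neg_iff {m : ℕ} {x : ℚ} : IsLev m (-x) ↔ IsLev m x := by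
  constructor
  · intro h
    have h1 := h.neg
    rwa [neg_neg] at h1
  · exact fun h => h.neg

theorem isLev_mul_iff {m' q v : ℕ} {x : ℚ} (hx : IsLev (m' * q ^ v) x) {c : ℤ}
    (hc : IsCoprime c (q : ℤ)) : IsLev m' (c * x) ↔ IsLev m' x := by
  constructor
  · rintro ⟨a, ha⟩
    obtain ⟨b, hb⟩ := hx
    obtain ⟨s, t, hst⟩ := (hc.pow_right (n := v))
    refine ⟨s * a + t * b, ?_⟩
    have h1 : (s : ℚ) * c + t * (q : ℚ) ^ v = 1 := by exact_mod_cast hst
    push_cast at hb ⊢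
    rw [← ha, ← hb]
    linear_combination (-(x * m')) * h1
  · exact fun h => h.int_mul c

theorem ExLev.div_pow {q m' : ℕ} (hq : 0 < q) {c : ℕ} {y : ℚ} (h : ExLev q m' c y) (j : ℕ) :
    ExLev q m' (c + j) (y / (q ^ j : ℕ)) := by
  induction j with
  | zero => simpa using h
  | succ j ih =>
    have h1 := ih.div hq
    have hq0 : (q : ℚ) ≠ 0 := by exact_mod_cast hq.ne'
    have h2 : y / ((q ^ (j + 1) : ℕ) : ℚ) = y / ((q ^ j : ℕ) : ℚ) / q := by
      push_cast
      field_simp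
      ring
    rw [h2, ← add_assoc]
    exact h1

open Classical in
/-- a `q ^ i`-th part of the element `x` whose denominator is divisible by `q` -/
def tpsi (p q m' C i : ℕ) (x : ℚ) : V p :=
  if IsLev m' x then 0 else ∑ n ∈ range (q ^ C), e p ((x + n) / (q ^ (C + i) : ℕ))

section

variable {p q m' C i v : ℕ}

theorem tpsi_of_lev {x : ℚ} (hx : IsLev m' x) : tpsi p q m' C i x = 0 := by
  unfold tpsi
  rw [if_pos hx]

theorem tpsi_of_not {x : ℚ} (hx : ¬ IsLev m' x) :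
    tpsi p q m' C i x = ∑ n ∈ range (q ^ C), e p ((x + n) / (q ^ (C + i) : ℕ)) := by
  unfold tpsi
  rw [if_neg hx]

/-- the assumptions on the tower -/
structure TD (p q m' C i : ℕ) : Prop where
  hq : q.Prime
  hqp : q.Coprime p
  hm' : 0 < m'
  hmp : m'.Coprime p
  hqm : m'.Coprime q
  hT : TH p q m' C
  hi : q ^ i ≡ 1 [MOD m']

variable (D : TD p q m' C i)

include D

theorem TD.hq0 : (q : ℚ) ≠ 0 := by exact_mod_cast D.hq.ne_zero

theorem TD.good {x : ℚ} (hx : IsLev (m' * q ^ v) x) : Good p x :=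
  Good.of_lev (Nat.mul_pos D.hm' (pow_pos D.hq.pos v))
    (Nat.Coprime.mul_left D.hmp (D.hqp.pow_left v)) hx

/-- periodicity at the top of the tower -/
theorem TD.per {x : ℚ} (hx : IsLev (m' * q ^ v) x) (hx' : ¬ IsLev m' x) (j : ℕ) (n : ℤ) :
    e p ((x + (n + q ^ C : ℤ)) / (q ^ (C + j) : ℕ)) = e p ((x + n) / (q ^ (C + j) : ℕ)) := by
  have hq0 := D.hq0
  obtain ⟨a, ha1, -, ha⟩ := exists_exLev (q := q) D.hq.ne_zero hx hx'
  have h1 : ExLev q m' (a + C) ((x + n) / (q ^ C : ℕ)) := (ha.add_int ha1 n).div_pow D.hq.pos C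
  have h2 := tower_per D.hq D.hqp D.hm' D.hmp D.hqm D.hT j (by omega : C ≤ a + C) h1 1
  have h3 : (x + ((n + q ^ C : ℤ) : ℚ)) / ((q ^ (C + j) : ℕ) : ℚ) =
      ((x + n) / ((q ^ C : ℕ) : ℚ) + ((1 : ℤ) : ℚ)) / ((q ^ j : ℕ) : ℚ) := by
    push_cast
    rw [pow_add]
    field_simp
    ring
  have h4 : (x + n) / ((q ^ (C + j) : ℕ) : ℚ) = (x + n) / ((q ^ C : ℕ) : ℚ) / ((q ^ j : ℕ) : ℚ) := by
    push_cast
    rw [pow_add]
    field_simp
  rw [h3, h4]
  exact h2

/-- the summands as a function on the integers -/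
theorem TD.reindex {x : ℚ} (hx : IsLev (m' * q ^ v) x) (hx' : ¬ IsLev m' x) {c : ℤ}
    (hc : IsCoprime c (q : ℤ)) (s : ℤ) :
    ∑ n ∈ range (q ^ C), e p ((x + ((c * n + s : ℤ) : ℚ)) / (q ^ (C + i) : ℕ)) =
      ∑ n ∈ range (q ^ C), e p ((x + n) / (q ^ (C + i) : ℕ)) := by
  have : NeZero (q ^ C) := ⟨(pow_pos D.hq.pos C).ne'⟩
  have h1 := sum_reindex (N := q ^ C)
    (g := fun n : ℤ => e p ((x + (n : ℚ)) / ((q ^ (C + i) : ℕ) : ℚ)))
    (fun n => by
      have h2 := D.per hx hx' i n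
      push_cast at h2 ⊢
      exact h2) (c := c) (by
        rw [ZMod.coe_int_isUnit_iff_isCoprime]
        push_cast
        exact (hc.pow_right).symm) s
  simp only [Int.cast_natCast] at h1
  exact h1

theorem TD.tpsi_add_int {x : ℚ} (hx : IsLev (m' * q ^ v) x) (n : ℤ) :
    tpsi p q m' C i (x + n) = tpsi p q m' C i x := by
  by_cases hx' : IsLev m' x
  · rw [tpsi_of_lev hx', tpsi_of_lev (hx'.add_int n)]
  · rw [tpsi_of_not hx', tpsi_of_not (fun h => hx' (isLev_add_int_iff.mp h)),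
      ← D.reindex hx hx' (c := 1) isCoprime_one_left n]
    refine Finset.sum_congr rfl fun k _ => ?_
    congr 1
    push_cast
    ring

theorem TD.tpsi_neg {x : ℚ} (hx : IsLev (m' * q ^ v) x) :
    tpsi p q m' C i (-x) = -tpsi p q m' C i x := by
  by_cases hx' : IsLev m' x
  · rw [tpsi_of_lev hx', tpsi_of_lev hx'.neg, neg_zero]
  · rw [tpsi_of_not hx', tpsi_of_not (fun h => hx' (isLev_neg_iff.mp h)),
      ← D.reindex hx hx' (c := -1) (isCoprime_one_left.neg_left) 0, ← Finset.sum_neg_distrib]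
    refine Finset.sum_congr rfl fun k _ => ?_
    have hg : Good p ((x + ((-1 * k + 0 : ℤ) : ℚ)) / ((q ^ (C + i) : ℕ) : ℚ)) :=
      (D.good (hx.add_int _)).div (pow_pos D.hq.pos _) (D.hqp.pow_left _)
    rw [← e_neg hg]
    congr 1
    push_cast
    ring

theorem TD.tpsi_frob {x : ℚ} (hx : IsLev (m' * q ^ v) x) (j : ℕ) :
    tpsi p q m' C i ((p : ℚ) ^ j * x) = tpsi p q m' C i x := by
  have hcop : IsCoprime ((p : ℤ) ^ j) (q : ℤ) :=
    (Nat.isCoprime_iff_coprime.mpr D.hqp.symm).pow_left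
  have h0 : ((p : ℚ) ^ j * x) = (((p : ℤ) ^ j : ℤ) : ℚ) * x := by push_cast; ring
  by_cases hx' : IsLev m' x
  · rw [tpsi_of_lev hx', tpsi_of_lev (by rw [h0]; exact hx'.int_mul _)]
  · have hx'' : ¬ IsLev m' ((p : ℚ) ^ j * x) := fun h => hx' ((isLev_mul_iff hx hcop).mp (h0 ▸ h))
    have hx1 : IsLev (m' * q ^ v) ((p : ℚ) ^ j * x) := by rw [h0]; exact hx.int_mul _
    rw [tpsi_of_not hx', tpsi_of_not hx'', ← D.reindex hx1 hx'' hcop 0]
    refine Finset.sum_congr rfl fun k _ => ?_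
    have hg : Good p ((x + k) / ((q ^ (C + i) : ℕ) : ℚ)) :=
      (D.good (hx.add_nat _)).div (pow_pos D.hq.pos _) (D.hqp.pow_left _)
    rw [← e_frob_pow hg j]
    congr 1
    push_cast
    ring

/-- `q ^ i` times -/
theorem TD.tpsi_mul {x : ℚ} (hx : IsLev (m' * q ^ v) x) (hx' : ¬ IsLev m' x) :
    (q ^ i : ℕ) • tpsi p q m' C i x = e p x := by
  have hq0 := D.hq0
  obtain ⟨a, ha1, -, ha⟩ := exists_exLev (q := q) D.hq.ne_zero hx hx'
  rw [tpsi_of_not hx', Finset.smul_sum, ← e_dist_pow D.hq D.hqp (D.good hx) C]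
  refine Finset.sum_congr rfl fun k _ => ?_
  have h1 : ExLev q m' (a + C) ((x + k) / (q ^ C : ℕ)) := by
    exact_mod_cast (ha.add_int ha1 k).div_pow D.hq.pos C
  rw [← tower_mul D.hq D.hqp D.hm' D.hmp D.hqm D.hT (by omega : C ≤ a + C) h1 i]
  congr 2
  push_cast
  rw [pow_add]
  field_simp

theorem TD.lq {l n : ℕ} (hl : l.Prime) (hlq : l ≠ q) (hln : l * n ∣ m' * q ^ v) : l ∣ m' := by
  have h1 : l ∣ m' * q ^ v := (Dvd.intro n rfl).trans hln
  rcases (Nat.Prime.dvd_mul hl).mp h1 with h | h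
  · exact h
  · exact absurd ((Nat.prime_dvd_prime_iff_eq hl D.hq).mp (hl.dvd_of_dvd_pow h)) hlq

theorem TD.tpsi_dist {l n : ℕ} (hl : l.Prime) (hlq : l ≠ q) (hln : l * n ∣ m' * q ^ v) {x : ℚ}
    (hx : IsLev n x) : ∑ k ∈ range l, tpsi p q m' C i ((x + k) / l) = tpsi p q m' C i x := by
  have hq0 := D.hq0
  have hlm : l ∣ m' := D.lq hl hlq hln
  have hlp : l.Coprime p := D.hmp.coprime_dvd_left hlm
  have hl0 : (l : ℚ) ≠ 0 := by exact_mod_cast hl.ne_zero
  have hxm : IsLev (m' * q ^ v) x := hx.mono ((dvd_mul_left n l).trans hln)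
  have hxk : ∀ k : ℤ, IsLev (m' * q ^ v) ((x + k) / l) := fun k =>
    ((hx.add_int k).div hl.ne_zero).mono hln
  have hlc : IsCoprime (l : ℤ) (q : ℤ) :=
    Nat.isCoprime_iff_coprime.mpr ((Nat.coprime_primes hl D.hq).mpr hlq)
  have hiff : ∀ k : ℤ, IsLev m' ((x + k) / l) ↔ IsLev m' x := by
    intro k
    have h1 : ((l : ℤ) : ℚ) * ((x + k) / l) = x + k := by
      push_cast
      field_simp
    rw [← isLev_mul_iff (hxk k) hlc, h1]
    exact isLev_add_int_iff
  by_cases hx' : IsLev m' x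
  · rw [tpsi_of_lev hx']
    refine Finset.sum_eq_zero fun k _ => tpsi_of_lev ?_
    exact_mod_cast (hiff k).mpr hx'
  -- the function on the integers
  let f : ℤ → V p := fun N => e p ((x + N) / (l * (q ^ (C + i) : ℕ)))
  have hf : ∀ N : ℤ, f (N + (l * q ^ C : ℕ)) = f N := by
    intro N
    have h1 := D.per (hxk N) (fun h => hx' ((hiff N).mp h)) i 0
    have e1 : (x + ((N + ((l * q ^ C : ℕ) : ℤ) : ℤ) : ℚ)) / (l * ((q ^ (C + i) : ℕ) : ℚ)) =
        ((x + N) / l + ((0 + q ^ C : ℤ) : ℚ)) / ((q ^ (C + i) : ℕ) : ℚ) := by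
      push_cast
      field_simp
      ring
    have e2 : (x + N) / (l * ((q ^ (C + i) : ℕ) : ℚ)) =
        ((x + N) / l + ((0 : ℤ) : ℚ)) / ((q ^ (C + i) : ℕ) : ℚ) := by
      push_cast
      field_simp
      ring
    change e p _ = e p _
    rw [e1, e2]
    exact h1
  have hL : ∑ k ∈ range l, tpsi p q m' C i ((x + k) / l) =
      ∑ N ∈ range (l * q ^ C), f (N : ℕ) := by
    rw [sum_range_mul]
    refine Finset.sum_congr rfl fun k _ => ?_
    have h1 : ¬ IsLev m' ((x + (k : ℚ)) / l) := fun h => hx' ((hiff k).mp (by exact_mod_cast h))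
    rw [tpsi_of_not h1]
    refine Finset.sum_congr rfl fun n _ => ?_
    change e p _ = e p _
    congr 1
    push_cast
    field_simp
    ring
  have hR : tpsi p q m' C i x = ∑ N ∈ range (l * q ^ C), f (N : ℕ) := by
    rw [tpsi_of_not hx', mul_comm l, sum_range_mul]
    refine Finset.sum_congr rfl fun n _ => ?_
    have hg : Good p ((x + n) / ((q ^ (C + i) : ℕ) : ℚ)) :=
      (D.good (hxm.add_nat _)).div (pow_pos D.hq.pos _) (D.hqp.pow_left _)
    rw [← e_dist hl hlp hg]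
    refine Finset.sum_congr rfl fun k _ => ?_
    have h1 : ((x + n) / ((q ^ (C + i) : ℕ) : ℚ) + k) / l =
        (x + ((n + q ^ C * (q ^ i * k) : ℤ) : ℚ)) / (l * ((q ^ (C + i) : ℕ) : ℚ)) := by
      push_cast
      rw [pow_add]
      field_simp
      ring
    rw [h1]
    change f (n + q ^ C * (q ^ i * k)) = f ((n + q ^ C * k : ℕ) : ℤ)
    refine per_eq hf ?_
    rw [ZMod.intCast_eq_intCast_iff_dvd_sub]
    have h2 : (l : ℤ) ∣ (q : ℤ) ^ i - 1 := by
      have h3 := Nat.modEq_iff_dvd.mp (D.hi.of_dvd hlm).symm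
      push_cast at h3
      exact h3
    obtain ⟨t, ht⟩ := h2
    refine ⟨-(t * k), ?_⟩
    push_cast
    linear_combination (-(q ^ C * k : ℤ)) * ht
  rw [hL, hR]

theorem TD.tpsi_dist_q {n : ℕ} (hln : q * n ∣ m' * q ^ v) {x : ℚ}
    (hx : IsLev n x) (hx' : ¬ IsLev m' x) :
    ∑ k ∈ range q, tpsi p q m' C i ((x + k) / q) = tpsi p q m' C i x := by
  have hq0 := D.hq0
  have hxm : IsLev (m' * q ^ v) x := hx.mono ((dvd_mul_left n q).trans hln)
  obtain ⟨a, ha1, -, ha⟩ := exists_exLev (q := q) D.hq.ne_zero hxm hx'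
  have h1 : ∀ k : ℕ, ¬ IsLev m' ((x + (k : ℚ)) / q) := by
    intro k h
    apply hx'
    have h2 := h.int_mul q
    have h3 : ((q : ℤ) : ℚ) * ((x + k) / q) = x + ((k : ℤ) : ℚ) := by
      push_cast
      field_simp
    rw [h3] at h2
    exact isLev_add_int_iff.mp h2
  let f : ℕ → V p := fun N => e p ((x + N) / (q ^ (C + (i + 1)) : ℕ))
  have hL : ∑ k ∈ range q, tpsi p q m' C i ((x + k) / q) =
      ∑ N ∈ range (q * q ^ C), f N := by
    rw [sum_range_mul]
    refine Finset.sum_congr rfl fun k _ => ?_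
    rw [tpsi_of_not (h1 k)]
    refine Finset.sum_congr rfl fun n _ => ?_
    change e p _ = e p _
    congr 1
    rw [show q ^ (C + (i + 1)) = q ^ (C + i) * q from pow_succ q (C + i)]
    push_cast
    field_simp
    ring
  rw [hL, mul_comm q, sum_range_mul, tpsi_of_not hx']
  refine Finset.sum_congr rfl fun n _ => ?_
  have h2 : ∀ k ∈ range q, f (n + q ^ C * k) = f n := by
    intro k _
    have hper : ∀ N : ℤ, e p ((x + ((N + (q ^ C : ℕ) : ℤ) : ℚ)) / ((q ^ (C + (i + 1)) : ℕ) : ℚ)) =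
        e p ((x + N) / ((q ^ (C + (i + 1)) : ℕ) : ℚ)) := by
      intro N
      have h3 := D.per hxm hx' (i + 1) N
      push_cast at h3 ⊢
      exact h3
    have h4 := per_eq (g := fun N : ℤ => e p ((x + N) / ((q ^ (C + (i + 1)) : ℕ) : ℚ))) hper
      (a := ((n + q ^ C * k : ℕ) : ℤ)) (b := (n : ℤ)) (by
        rw [ZMod.intCast_eq_intCast_iff_dvd_sub]
        exact ⟨-k, by push_cast; ring⟩)
    change e p _ = e p _
    push_cast at h4 ⊢
    exact h4
  rw [Finset.sum_congr rfl h2, Finset.sum_const, card_range]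
  have h5 : ExLev q m' (a + (C + i)) ((x + n) / (q ^ (C + i) : ℕ)) := by
    exact_mod_cast (ha.add_int ha1 n).div_pow D.hq.pos (C + i)
  have h6 := tower_mul D.hq D.hqp D.hm' D.hmp D.hqm D.hT (by omega : C ≤ a + (C + i)) h5 1
  rw [pow_one] at h6
  rw [← h6]
  change q • e p _ = q • e p _
  congr 2
  rw [show q ^ (C + (i + 1)) = q ^ (C + i) * q from pow_succ q (C + i)]
  push_cast
  field_simp

end

end Pool.Agent.Lib.MP81632f.Lv
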