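import Pool.Agent.Lib.MP_81632f_ag.Lv.Tower2

/-!
# Levels: torsion elements in the tower
-/

set_option autoImplicit false

noncomputable section

namespace Pool.Agent.Lib.MP81632f.Lv

open Finset

/-! ### Existence of the data -/

theorem val_step {q : ℕ} (hq : q.Prime) {x u : ℤ} {c : ℕ} (hc : 2 ≤ c)
    (hx : x - 1 = (q : ℤ) ^ c * u) (hu : ¬ (q : ℤ) ∣ u) :
    ∃ u' : ℤ, x ^ q - 1 = (q : ℤ) ^ (c + 1) * u' ∧ ¬ (q : ℤ) ∣ u' := by
  have h1 : (q : ℤ) ^ 2 ∣ x - 1 := by
    rw [hx]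
    exact (pow_dvd_pow _ hc).mul_right u
  have h2 : (q : ℤ) ^ 2 ∣ ∑ i ∈ range q, x ^ i - q := by
    have h3 : ∑ i ∈ range q, x ^ i - (q : ℤ) = ∑ i ∈ range q, (x ^ i - 1) := by
      rw [Finset.sum_sub_distrib]
      simp
    rw [h3]
    refine Finset.dvd_sum fun i _ => h1.trans ?_
    have := sub_dvd_pow_sub_pow x 1 i
    rwa [one_pow] at this
  obtain ⟨t, ht⟩ := h2
  refine ⟨u * (1 + q * t), ?_, fun h => ?_⟩
  · have h3 := mul_geom_sum x q
    rw [← h3, hx]
    have h4 : ∑ i ∈ range q, x ^ i = q + (q : ℤ) ^ 2 * t := by linarith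
    rw [h4]
    ring
  · rcases (Nat.prime_iff_prime_int.mp hq).dvd_or_dvd h with h | h
    · exact hu h
    · have h5 : (q : ℤ) ∣ 1 := (dvd_add_left (Dvd.intro t rfl)).mp h
      have h6 : (q : ℕ) ∣ 1 := by exact_mod_cast h5
      exact hq.one_lt.ne' (Nat.dvd_one.mp h6)

theorem th_exists {p q m' : ℕ} (hp : 1 < p) (hq : q.Prime) (hqp : q.Coprime p) (hm' : 0 < m')
    (hmp : m'.Coprime p) (hqm : m'.Coprime q) : ∃ C, TH p q m' C := by
  set o₀ := (m' * q ^ 2).totient with ho₀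
  have hpos : 0 < m' * q ^ 2 := Nat.mul_pos hm' (pow_pos hq.pos 2)
  have h1 : p ^ o₀ ≡ 1 [MOD m' * q ^ 2] :=
    Nat.ModEq.pow_totient (Nat.Coprime.mul_right hmp.symm (hqp.symm.pow_right 2))
  have ho0 : o₀ ≠ 0 := (Nat.totient_pos.mpr hpos).ne'
  have hx1 : (p : ℤ) ^ o₀ - 1 ≠ 0 := by
    have h2 : 1 < p ^ o₀ := Nat.one_lt_pow ho0 hp
    have h3 : (1 : ℤ) < (p : ℤ) ^ o₀ := by exact_mod_cast h2
    linarith
  -- the exact power of `q`
  obtain ⟨c, u, hu, hcu⟩ : ∃ (c : ℕ) (u : ℤ), ¬ (q : ℤ) ∣ u ∧ (p : ℤ) ^ o₀ - 1 = (q : ℤ) ^ c * u := by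
    have hf : FiniteMultiplicity (q : ℤ) ((p : ℤ) ^ o₀ - 1) := by
      rw [Int.finiteMultiplicity_iff]
      exact ⟨by simpa using hq.one_lt.ne', hx1⟩
    obtain ⟨u, hu, hu'⟩ := hf.exists_eq_pow_mul_and_not_dvd
    exact ⟨_, u, hu', hu⟩
  have hc2 : 2 ≤ c := by
    by_contra hc
    have h3 : ((m' * q ^ 2 : ℕ) : ℤ) ∣ (p : ℤ) ^ o₀ - 1 := by
      have h4 := Nat.modEq_iff_dvd.mp h1.symm
      push_cast at h4 ⊢
      exact h4
    have h4 : (q : ℤ) ^ 2 ∣ (q : ℤ) ^ c * u := by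
      rw [← hcu]
      refine Dvd.dvd.trans ?_ h3
      push_cast
      exact dvd_mul_left _ _
    obtain ⟨d, hd⟩ : ∃ d, 2 = c + (d + 1) := ⟨1 - c, by omega⟩
    rw [hd, pow_add, mul_dvd_mul_iff_left (pow_ne_zero c (by exact_mod_cast hq.ne_zero))] at h4
    exact hu ((dvd_pow_self _ (Nat.succ_ne_zero d)).trans h4)
  have key : ∀ j : ℕ, ∃ u : ℤ, (p : ℤ) ^ (o₀ * q ^ j) - 1 = (q : ℤ) ^ (c + j) * u ∧
      ¬ (q : ℤ) ∣ u := by
    intro j
    induction j with
    | zero => exact ⟨u, by simpa using hcu, hu⟩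
    | succ j ih =>
      obtain ⟨u, hu1, hu2⟩ := ih
      obtain ⟨u', h3, h4⟩ := val_step hq (by omega : 2 ≤ c + j) hu1 hu2
      refine ⟨u', ?_, h4⟩
      rw [pow_succ, ← mul_assoc, pow_mul _ (o₀ * q ^ j) q, h3]
      rfl
  refine ⟨c, by omega, fun c' hc' => ?_⟩
  obtain ⟨j, rfl⟩ : ∃ j, c' = c + j := ⟨c' - c, by omega⟩
  obtain ⟨u, hu1, hu2⟩ := key j
  refine ⟨o₀ * q ^ j, ?_, fun h => hu2 ?_⟩
  · rw [← Nat.modEq_and_modEq_iff_modEq_mul (hqm.pow_right _)]
    constructor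
    · have h3 : p ^ o₀ ≡ 1 [MOD m'] := h1.of_mul_right _
      rw [pow_mul]
      simpa using h3.pow (q ^ j)
    · refine (Nat.modEq_iff_dvd.mpr ?_).symm
      refine ⟨u, ?_⟩
      push_cast
      exact hu1
  · have h3 := Nat.modEq_iff_dvd.mp h.symm
    push_cast at h3
    rw [hu1, pow_succ, mul_dvd_mul_iff_left (pow_ne_zero _ (by exact_mod_cast hq.ne_zero))] at h3
    exact h3

theorem td_exists {p q m' : ℕ} (hp : 1 < p) (hq : q.Prime) (hqp : q.Coprime p) (hm' : 0 < m')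
    (hmp : m'.Coprime p) (hqm : m'.Coprime q) (s : ℕ) : ∃ C i, s ≤ i ∧ TD p q m' C i := by
  obtain ⟨C, hC⟩ := th_exists hp hq hqp hm' hmp hqm
  refine ⟨C, m'.totient * s, ?_, hq, hqp, hm', hmp, hqm, hC, ?_⟩
  · exact Nat.le_mul_of_pos_left s (Nat.totient_pos.mpr hm')
  · rw [pow_mul]
    simpa using (Nat.ModEq.pow_totient hqm.symm).pow s

/-! ### The symmetrised function -/

section

variable {p q m' C i v : ℕ}

/-- `x ↦ tpsi x + tpsi (c x)` -/
def tps2 (p q m' C i : ℕ) (c : ℤ) (x : ℚ) : V p := tpsi p q m' C i x + tpsi p q m' C i (c * x)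

variable (D : TD p q m' C i)

include D

theorem TD.tpsi_pure {j n : ℕ} (hn : n ∣ m' * q ^ v) (hj : n ∣ p ^ j + 1) {x : ℚ}
    (hx : IsLev n x) : (2 : ℤ) • tpsi p q m' C i x = 0 := by
  have hxm : IsLev (m' * q ^ v) x := hx.mono hn
  have h1 := D.tpsi_frob hxm j
  have h2 := D.tpsi_neg hxm
  have h3 : tpsi p q m' C i ((p : ℚ) ^ j * x) = tpsi p q m' C i (-x) := by
    obtain ⟨a, ha⟩ := hx
    obtain ⟨c, hc⟩ := hj
    rw [← D.tpsi_add_int hxm.neg (c * a)]
    congr 1
    have h4 : (p : ℚ) ^ j + 1 = n * c := by exact_mod_cast hc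
    push_cast
    rw [← ha]
    linear_combination h4 * x
  rw [h3, h2] at h1
  rw [two_zsmul]
  nth_rewrite 1 [← h1]
  exact neg_add_cancel _

theorem TD.tps2_rel {c : ℤ} (hc1 : (m' : ℤ) ∣ c + 1) (hcq : IsCoprime c (q : ℤ)) (w : FQ)
    (hw : Rel p (m' * q ^ v) w) : (2 : ℤ) • lft (tps2 p q m' C i c) w = 0 := by
  have hq0 := D.hq0
  cases hw with
  | per x hx =>
    have h1 := D.tpsi_add_int hx 1
    have h2 := D.tpsi_add_int (hx.int_mul c) c
    have h3 : (c : ℚ) * x + c = c * (x + 1) := by ring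
    rw [h3] at h2
    rw [Int.cast_one] at h1
    rw [map_sub, lft_br, lft_br]
    unfold tps2
    rw [h1, h2, sub_self, smul_zero]
  | odd x hx =>
    have h1 := D.tpsi_neg hx
    have h2 := D.tpsi_neg (hx.int_mul c)
    rw [map_add, lft_br, lft_br]
    unfold tps2
    rw [mul_neg, h1, h2]
    have h3 : -tpsi p q m' C i x + -tpsi p q m' C i (c * x) +
        (tpsi p q m' C i x + tpsi p q m' C i (c * x)) = 0 := by abel
    rw [h3, smul_zero]
  | frob x hx =>
    have h1 := D.tpsi_frob hx 1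
    have h2 := D.tpsi_frob (hx.int_mul c) 1
    have h3 : (p : ℚ) ^ 1 * (c * x) = c * (p * x) := by ring
    rw [h3] at h2
    rw [pow_one] at h1
    rw [map_sub, lft_br, lft_br]
    unfold tps2
    rw [h1, h2, sub_self, smul_zero]
  | dist l n x hl hln hx =>
    have hl0 : (l : ℚ) ≠ 0 := by exact_mod_cast hl.ne_zero
    have hxk : ∀ (y : ℚ), IsLev n y → ∀ k : ℤ, IsLev (m' * q ^ v) ((y + k) / l) := fun y hy k =>
      ((hy.add_int k).div hl.ne_zero).mono hln
    -- the periodic functions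
    have hg : ∀ (y : ℚ), IsLev n y → ∀ k : ℤ, tpsi p q m' C i ((y + ((k + (l : ℤ) : ℤ) : ℚ)) / l) =
        tpsi p q m' C i ((y + k) / l) := by
      intro y hy k
      rw [← D.tpsi_add_int (hxk y hy k) 1]
      congr 1
      push_cast
      field_simp
      ring
    have : NeZero l := ⟨hl.ne_zero⟩
    rw [map_sub, map_sum]
    simp only [lft_br]
    unfold tps2
    rw [Finset.sum_add_distrib]
    by_cases hlq : l = q
    · subst hlq
      have hxm : IsLev (m' * l ^ v) x := hx.mono ((dvd_mul_left n l).trans hln)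
      by_cases hx' : IsLev m' x
      · -- the exceptional relation
        rw [tpsi_of_lev hx', tpsi_of_lev (hx'.int_mul c), add_zero, sub_zero]
        obtain ⟨s, hs⟩ : ∃ s : ℤ, ((c : ℚ) + 1) * x = s := by
          obtain ⟨a, ha⟩ := hx'
          obtain ⟨t, ht⟩ := hc1
          refine ⟨t * a, ?_⟩
          have h4 : (c : ℚ) + 1 = m' * t := by exact_mod_cast ht
          rw [h4]
          push_cast
          rw [← ha]
          ring
        have h1 : ∀ k ∈ range l, tpsi p l m' C i (c * ((x + k) / l)) =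
            -tpsi p l m' C i ((x + (((-c) * (k : ℤ) + (-s) : ℤ) : ℚ)) / l) := by
          intro k _
          rw [← D.tpsi_neg (hxk x hx _)]
          congr 1
          push_cast
          field_simp
          linear_combination hs
        rw [Finset.sum_congr rfl h1, Finset.sum_neg_distrib]
        have h2 := sum_reindex (N := l) (g := fun k : ℤ => tpsi p l m' C i ((x + (k : ℚ)) / l))
          (hg x hx) (c := -c) (by
            rw [ZMod.coe_int_isUnit_iff_isCoprime]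
            exact (hcq.neg_left).symm) (-s)
        beta_reduce at h2
        rw [h2]
        simp only [Int.cast_natCast, add_neg_cancel, smul_zero]
      · have hcx : ¬ IsLev m' ((c : ℚ) * x) := fun h => hx' ((isLev_mul_iff hxm hcq).mp h)
        have h1 := D.tpsi_dist_q hln hx hx'
        have h2 := D.tpsi_dist_q hln (hx.int_mul c) hcx
        have h3 : ∀ k ∈ range l, tpsi p l m' C i (c * ((x + k) / l)) =
            tpsi p l m' C i ((c * x + ((c * (k : ℤ) + 0 : ℤ) : ℚ)) / l) := by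
          intro k _
          congr 1
          push_cast
          field_simp
          ring
        have h4 := sum_reindex (N := l) (g := fun k : ℤ => tpsi p l m' C i ((c * x + (k : ℚ)) / l))
          (hg (c * x) (hx.int_mul c)) (c := c) (by
            rw [ZMod.coe_int_isUnit_iff_isCoprime]
            exact hcq.symm) 0
        beta_reduce at h4
        simp only [Int.cast_natCast] at h4
        rw [Finset.sum_congr rfl h3, h4, h1, h2, sub_self, smul_zero]
    · have hlm : l ∣ m' := D.lq hl hlq hln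
      have hcl : IsCoprime (l : ℤ) c := by
        have h1 : (l : ℤ) ∣ c + 1 := dvd_trans (by exact_mod_cast hlm) hc1
        obtain ⟨t, ht⟩ := h1
        exact ⟨t, -1, by linear_combination -ht⟩
      have h1 := D.tpsi_dist hl hlq hln hx
      have h2 := D.tpsi_dist hl hlq hln (hx.int_mul c)
      have h3 : ∀ k ∈ range l, tpsi p q m' C i (c * ((x + k) / l)) =
          tpsi p q m' C i ((c * x + ((c * (k : ℤ) + 0 : ℤ) : ℚ)) / l) := by
        intro k _
        congr 1
        push_cast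
        field_simp
        ring
      have h4 := sum_reindex (N := l) (g := fun k : ℤ => tpsi p q m' C i ((c * x + (k : ℚ)) / l))
        (hg (c * x) (hx.int_mul c)) (c := c) (by
          rw [ZMod.coe_int_isUnit_iff_isCoprime]
          exact hcl) 0
      beta_reduce at h4
      simp only [Int.cast_natCast] at h4
      rw [Finset.sum_congr rfl h3, h4, h1, h2, sub_self, smul_zero]
  | pure j n x hn hj hx =>
    rw [lft_br]
    unfold tps2
    rw [zsmul_add, D.tpsi_pure hn hj hx, D.tpsi_pure hn hj (hx.int_mul c), add_zero]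

theorem TD.tau_sum {c : ℤ} (hc1 : (m' : ℤ) ∣ c + 1) (hcq : IsCoprime c (q : ℤ)) {w : FQ}
    (hw : w ∈ LevF (m' * q ^ v)) :
    lft (e p) w + mulE p c w = ((q ^ i : ℕ) : ℤ) • lft (tps2 p q m' C i c) w := by
  have h2 := levF_ext (lft (e p) + mulE p c)
    ((zsmulAddGroupHom ((q ^ i : ℕ) : ℤ)).comp (lft (tps2 p q m' C i c)))
    (fun x hx => by
      rw [AddMonoidHom.add_apply, mulE_br, lft_br, AddMonoidHom.comp_apply, lft_br]
      change _ = ((q ^ i : ℕ) : ℤ) • tps2 p q m' C i c x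
      unfold tps2
      rw [zsmul_add, natCast_zsmul, natCast_zsmul]
      by_cases hx' : IsLev m' x
      · rw [tpsi_of_lev hx', tpsi_of_lev (hx'.int_mul c), smul_zero, add_zero]
        have hg : Good p x := D.good hx
        obtain ⟨s, hs⟩ : ∃ s : ℤ, (c : ℚ) * x = -x + s := by
          obtain ⟨a, ha⟩ := hx'
          obtain ⟨t, ht⟩ := hc1
          refine ⟨t * a, ?_⟩
          have h4 : (c : ℚ) + 1 = m' * t := by exact_mod_cast ht
          push_cast
          rw [← ha]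
          linear_combination h4 * x
        rw [hs, e_add_int hg.neg, e_neg hg, add_neg_cancel]
      · have hcx : ¬ IsLev m' ((c : ℚ) * x) := fun h => hx' ((isLev_mul_iff hx hcq).mp h)
        rw [D.tpsi_mul hx hx', D.tpsi_mul (hx.int_mul c) hcx]) hw
  rw [AddMonoidHom.add_apply, AddMonoidHom.comp_apply] at h2
  exact h2

end

/-- **The tower lemma**. -/
theorem tower_tau {p q m' v s : ℕ} (hp : 1 < p) (hq : q.Prime) (hqp : q.Coprime p) (hm' : 0 < m')
    (hmp : m'.Coprime p) (hqm : m'.Coprime q) {c : ℤ} (hc1 : (m' : ℤ) ∣ c + 1)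
    (hcq : IsCoprime c (q : ℤ)) {w : FQ} (hw : w ∈ LevF (m' * q ^ v))
    (hk : ((q ^ s : ℕ) : ℤ) • w ∈ R p (m' * q ^ v)) :
    (2 : ℤ) • (lft (e p) w + mulE p c w) = 0 ∧ (q = 2 → lft (e p) w + mulE p c w = 0) := by
  obtain ⟨C, i, hi, D⟩ := td_exists hp hq hqp hm' hmp hqm (s + 1)
  have h1 := D.tau_sum hc1 hcq hw
  have h2 := lft_kill (tps2 p q m' C i c) 2 (D.tps2_rel hc1 hcq) hk
  obtain ⟨d, rfl⟩ : ∃ d, i = s + 1 + d := ⟨i - (s + 1), by omega⟩
  rw [map_zsmul] at h2
  constructor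
  · have h3 : ((q ^ (s + 1 + d) : ℕ) : ℤ) = ((q ^ (d + 1) : ℕ) : ℤ) * ((q ^ s : ℕ) : ℤ) := by
      push_cast
      ring
    rw [h1, h3, mul_smul, smul_comm, h2, smul_zero]
  · rintro rfl
    have h3 : ((2 ^ (s + 1 + d) : ℕ) : ℤ) = ((2 ^ d : ℕ) : ℤ) * (2 * ((2 ^ s : ℕ) : ℤ)) := by
      push_cast
      ring
    rw [h1, h3, mul_smul, mul_smul, h2, smul_zero]

end Pool.Agent.Lib.MP81632f.Lv
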