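import Pool.Agent.Lib.MP_81632f_ag.Lv.Iff
import Pool.Agent.Lib.MP_81632f_ag.Lv.RelW

/-!
# Levels: the vectors of the parities of the functions in the lattice
-/

set_option autoImplicit false

noncomputable section

namespace Pool.Agent.Lib.MP81632f.Lv

open Finset
open Pool.Agent.Lib.MP81632f.Diag
open Crit Two Push TP
open Red (ev)

section Hom

variable {M N : ℕ} [NeZero M] [NeZero N]

/-- `nR` as a homomorphism -/
def nRh (M : ℕ) [NeZero M] (R : ℕ) : (ZMod M → ℤ) →+ ℤ where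
  toFun := nR M R
  map_zero' := by simp [nR]
  map_add' := nR_add R

theorem nR_ev (R : ℕ) (x : ZMod M) :
    nR M R (ev x) = if Odd (addOrderOf x) ∧ rad (addOrderOf x) = R then 1 else 0 := by
  unfold nR
  rw [Finset.sum_filter, Finset.sum_eq_single x]
  · split_ifs
    · change (Pi.single x 1 : ZMod M → ℤ) x = 1
      rw [Pi.single_eq_same]
    · rfl
  · intro y _ hy
    have h1 : (ev x : ZMod M → ℤ) y = 0 := Pi.single_eq_of_ne hy _
    rw [h1, ite_self]
  · exact fun h => absurd (mem_univ x) h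

theorem order_inc (h : M ∣ N) (x : ZMod M) : addOrderOf (inc N M x) = addOrderOf x :=
  addOrderOf_injective (incHom h) (inc_inj h) x

theorem nR_push (h : M ∣ N) (R : ℕ) (v : ZMod M → ℤ) : nR N R (push N M v) = nR M R v := by
  have h1 : v = ∑ x, v x • ev x := Transfer.sum_ev v
  have h2 : nRh N R (push N M v) = nRh M R v := by
    rw [h1]
    simp only [map_sum, map_zsmul, push_ev]
    refine Finset.sum_congr rfl fun x _ => ?_
    congr 1
    change nR N R (ev (inc N M x)) = nR M R (ev x)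
    rw [nR_ev, nR_ev, order_inc h]
  exact h2

/-- the radicals which do not divide the level do not occur -/
theorem nR_of_not {R : ℕ} (h : ¬ R ∣ M) (v : ZMod M → ℤ) : nR M R v = 0 := by
  unfold nR
  rw [Finset.filter_eq_empty_iff.mpr, Finset.sum_empty]
  rintro x - ⟨-, h5⟩
  apply h
  rw [← h5]
  exact (rad_dvd _).trans (order_dvd x)

end Hom

/-- the vectors of the parities of the functions in the lattice -/
def VecA (p : ℕ) (c : ℕ → ℤ) : Prop :=
  ∃ (N : ℕ) (_ : NeZero N) (z : ZMod N → ℤ), N.Coprime p ∧ z 0 = 0 ∧ LimP N p z ∧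
    ∀ R : ℕ, Odd R → Squarefree R → (∀ i : ℕ, ¬ R ∣ p ^ i + 1) → Even (nR N R z - c R)

/-- the unit vectors -/
def eR (R₀ : ℕ) : ℕ → ℤ := fun R => if R = R₀ then 1 else 0

section VecA

variable {p : ℕ}

theorem VecA.congr {c c' : ℕ → ℤ} (h : VecA p c) (h' : ∀ R : ℕ, Odd R → Squarefree R →
    (∀ i : ℕ, ¬ R ∣ p ^ i + 1) → Even (c R - c' R)) : VecA p c' := by
  obtain ⟨N, hN, z, hNp, hz0, hz, h1⟩ := h
  refine ⟨N, hN, z, hNp, hz0, hz, fun R h2 h3 h4 => ?_⟩
  have h5 := (h1 R h2 h3 h4).add (h' R h2 h3 h4)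
  rwa [sub_add_sub_cancel] at h5

theorem bal_of_limP (hB : StBasic) {N : ℕ} [NeZero N] {z : ZMod N → ℤ} (hNp : N.Coprime p)
    (hz0 : z 0 = 0) (hz : LimP N p z) : Bal N p z := by
  obtain ⟨g, hg, hpg⟩ : ∃ g : ℕ, 0 < g ∧ (p : ZMod N) ^ g = 1 := by
    refine ⟨N.totient, Nat.totient_pos.mpr (NeZero.pos N), ?_⟩
    have h1 := (ZMod.natCast_eq_natCast_iff _ _ _).mpr (Nat.ModEq.pow_totient hNp.symm)
    rwa [Nat.cast_pow, Nat.cast_one] at h1
  exact ⟨hz0, g, hg, hpg, fun t => pair_of_limP hB hz hpg t⟩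

theorem Bal.push {M N : ℕ} [NeZero M] [NeZero N] (h : M ∣ N) (hNp : N.Coprime p)
    {v : ZMod M → ℤ} (hv : Bal M p v) : Bal N p (Push.push N M v) := by
  obtain ⟨h0, f, hf, hpf, hb⟩ := hv
  obtain ⟨g, hg, hpg⟩ : ∃ g : ℕ, 0 < g ∧ (p : ZMod N) ^ g = 1 := by
    refine ⟨N.totient, Nat.totient_pos.mpr (NeZero.pos N), ?_⟩
    have h1 := (ZMod.natCast_eq_natCast_iff _ _ _).mpr (Nat.ModEq.pow_totient hNp.symm)
    rwa [Nat.cast_pow, Nat.cast_one] at h1
  refine ⟨push_zero' h h0, g, hg, hpg, fun u => ?_⟩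
  rw [pair_push h]
  have hpm : (p : ZMod M) ^ g = 1 := pow_of_dvd h hpg
  have h2 : (f : ℤ) * pair M p g (ZMod.unitsMap h u) v =
      (g : ℤ) * pair M p f (ZMod.unitsMap h u) v := by
    change (f : ℤ) * ∑ x, v x * saw M p g _ x = (g : ℤ) * ∑ x, v x * saw M p f _ x
    rw [Finset.mul_sum, Finset.mul_sum]
    refine Finset.sum_congr rfl fun x _ => ?_
    have h3 := Transfer.saw_mul hpf ((ZMod.unitsMap h u : (ZMod M)ˣ) : ZMod M) x g
    have h4 := Transfer.saw_mul hpm ((ZMod.unitsMap h u : (ZMod M)ˣ) : ZMod M) x f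
    rw [mul_comm f g, h3] at h4
    linear_combination (-v x) * h4
  rw [hb, mul_zero] at h2
  rcases mul_eq_zero.mp h2 with h3 | h3
  · exfalso
    have : f = 0 := by exact_mod_cast h3
    omega
  · rw [h3, mul_zero]

theorem Bal.sub {M : ℕ} [NeZero M] {v w : ZMod M → ℤ} (hv : Bal M p v) (hw : Bal M p w) :
    Bal M p (v - w) := by
  obtain ⟨h0, f, hf, hpf, hb⟩ := hv
  obtain ⟨h0', g, hg, hpg, hb'⟩ := hw
  refine ⟨by rw [Pi.sub_apply, h0, h0', sub_zero], f, hf, hpf, fun u => ?_⟩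
  rw [map_sub, hb u, zero_sub, neg_eq_zero]
  have h2 : (g : ℤ) * pair M p f u w = (f : ℤ) * pair M p g u w := by
    change (g : ℤ) * ∑ x, w x * saw M p f _ x = (f : ℤ) * ∑ x, w x * saw M p g _ x
    rw [Finset.mul_sum, Finset.mul_sum]
    refine Finset.sum_congr rfl fun x _ => ?_
    have h3 := Transfer.saw_mul hpg (u : ZMod M) x f
    have h4 := Transfer.saw_mul hpf (u : ZMod M) x g
    rw [mul_comm g f, h3] at h4
    linear_combination (-w x) * h4
  rw [hb', mul_zero] at h2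
  rcases mul_eq_zero.mp h2 with h3 | h3
  · exfalso
    have : g = 0 := by exact_mod_cast h3
    omega
  · exact h3

/-- the group of the vectors -/
def VecG (p : ℕ) (hp : p.Prime) : AddSubgroup (ℕ → ℤ) where
  carrier := {c | VecA p c}
  zero_mem' := ⟨1, inferInstance, 0, Nat.coprime_one_left _, rfl,
    limP_zero hp (Nat.coprime_one_left _), fun R _ _ _ => by simp [nR]⟩
  add_mem' := by
    rintro c c' ⟨N, hN, z, hNp, hz0, hz, h1⟩ ⟨N', hN', z', hNp', hz0', hz', h1'⟩
    have : NeZero (N * N') := ⟨Nat.mul_ne_zero hN.out hN'.out⟩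
    have hNN : (N * N').Coprime p := Nat.Coprime.mul_left hNp hNp'
    refine ⟨N * N', this, Push.push (N * N') N z + Push.push (N * N') N' z', hNN, ?_, ?_, ?_⟩
    · rw [Pi.add_apply, push_zero' (dvd_mul_right N N') hz0, push_zero' (dvd_mul_left N' N) hz0',
        add_zero]
    · exact (hz.push (dvd_mul_right N N') hNN).add (hz'.push (dvd_mul_left N' N) hNN)
    · intro R h2 h3 h4
      rw [nR_add, nR_push (dvd_mul_right N N'), nR_push (dvd_mul_left N' N)]
      have h5 := (h1 R h2 h3 h4).add (h1' R h2 h3 h4)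
      have h6 : nR N R z + nR N' R z' - (c + c') R = nR N R z - c R + (nR N' R z' - c' R) := by
        rw [Pi.add_apply]
        ring
      rw [h6]
      exact h5
  neg_mem' := by
    rintro c ⟨N, hN, z, hNp, hz0, hz, h1⟩
    have : Fact p.Prime := ⟨hp⟩
    refine ⟨N, hN, -z, hNp, by rw [Pi.neg_apply, hz0, neg_zero], hz.neg, fun R h2 h3 h4 => ?_⟩
    have h5 : nR N R (-z) = -nR N R z := (nRh N R).map_neg z
    rw [h5, Pi.neg_apply, ← neg_sub_neg, neg_neg, neg_neg, ← neg_sub]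
    exact (h1 R h2 h3 h4).neg

/-- **Balanced functions whose vector of parities is in the group.** -/
theorem limP_of_vecA (hB : StBasic) (hCL : StCL) (hTor : StTor) (hp : p.Prime) {M : ℕ} [NeZero M]
    {v : ZMod M → ℤ} (hv : Bal M p v) (h : VecA p fun R => nR M R v) : LimP M p v := by
  obtain ⟨N, hN, z, hNp, hz0, hz, h1⟩ := h
  have hMp : M.Coprime p := by
    obtain ⟨-, f, hf, hpf, -⟩ := hv
    exact coprime_of_pow hf hpf
  have : NeZero (M * N) := ⟨Nat.mul_ne_zero (NeZero.ne M) hN.out⟩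
  have hMN : (M * N).Coprime p := Nat.Coprime.mul_left hMp hNp
  have h2 : Bal (M * N) p (Push.push (M * N) M v - Push.push (M * N) N z) :=
    (hv.push (dvd_mul_right M N) hMN).sub
      ((bal_of_limP hB hNp hz0 hz).push (dvd_mul_left N M) hMN)
  have h3 := detect hB hCL hTor hp h2 (fun R hR1 hR2 _ hR3 => by
    have h4 : nR (M * N) R (Push.push (M * N) M v - Push.push (M * N) N z) =
        nR M R v - nR N R z := by
      rw [← nR_push (dvd_mul_right M N) R v, ← nR_push (dvd_mul_left N M) R z]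
      exact (nRh (M * N) R).map_sub _ _
    rw [h4, ← neg_sub]
    exact (h1 R hR1 hR2 hR3).neg)
  have h4 := h3.add (hz.push (dvd_mul_left N M) hMN)
  rw [sub_add_cancel] at h4
  have : Fact p.Prime := ⟨hp⟩
  exact LimP.of_push (dvd_mul_right M N) h4

theorem vecA_of_limP {N : ℕ} [NeZero N] {z : ZMod N → ℤ} (hNp : N.Coprime p)
    (hz0 : z 0 = 0) (hz : LimP N p z) : VecA p fun R => nR N R z :=
  ⟨N, inferInstance, z, hNp, hz0, hz, fun R _ _ _ => by rw [sub_self]; exact Even.zero⟩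

/-- **Levels whose vectors of parities are in the group.** -/
theorem limLP_of_vec (hB : StBasic) (hCL : StCL) (hTor : StTor) (hp : p.Prime) {M : ℕ}
    (h : ∀ [NeZero M] (v : ZMod M → ℤ), Bal M p v → VecA p fun R => nR M R v) : LimLP M p := by
  intro hM v hv
  exact limP_of_vecA hB hCL hTor hp hv (h v hv)

/-- vectors with finite support -/
theorem vecA_of_sum (hp : p.Prime) {c : ℕ → ℤ} (S : Finset ℕ)
    (hS : ∀ R : ℕ, Odd R → Squarefree R → (∀ i : ℕ, ¬ R ∣ p ^ i + 1) → R ∉ S → Even (c R))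
    (h : ∑ R ∈ S, c R • eR R ∈ VecG p hp) : VecA p c := by
  refine VecA.congr (c := ∑ R ∈ S, c R • eR R) h fun R h1 h2 h3 => ?_
  rw [Finset.sum_apply]
  have h4 : ∀ R' ∈ S, (c R' • eR R') R = if R = R' then c R' else 0 := by
    intro R' _
    rw [Pi.smul_apply, smul_eq_mul]
    unfold eR
    split_ifs <;> simp
  rw [Finset.sum_congr rfl h4, Finset.sum_ite_eq]
  by_cases h5 : R ∈ S
  · rw [if_pos h5, sub_self]
    exact Even.zero
  · rw [if_neg h5, zero_sub]
    exact (hS R h1 h2 h3 h5).neg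

/-- the unit vectors of pure radicals -/
theorem eR_pure (hp : p.Prime) {R₀ i : ℕ} (h : R₀ ∣ p ^ i + 1) : eR R₀ ∈ VecG p hp := by
  refine VecA.congr (c := 0) (zero_mem (VecG p hp)) fun R _ _ h3 => ?_
  have h4 : R ≠ R₀ := by
    rintro rfl
    exact h3 i h
  unfold eR
  rw [if_neg h4, Pi.zero_apply, sub_zero]
  exact Even.zero

theorem even_smul_mem (hp : p.Prime) {n : ℤ} (hn : Even n) (R₀ : ℕ) : n • eR R₀ ∈ VecG p hp := by
  refine VecA.congr (c := 0) (zero_mem (VecG p hp)) fun R _ _ _ => ?_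
  rw [Pi.smul_apply, Pi.zero_apply, zero_sub, smul_eq_mul]
  exact (hn.mul_right _).neg

end VecA

end Pool.Agent.Lib.MP81632f.Lv
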