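import Pool.Agent.Lib.MP_81632f_ag.Lv.Vec

/-!
# Levels: explicit vectors of parities
-/

set_option autoImplicit false

noncomputable section

namespace Pool.Agent.Lib.MP81632f.Lv

open Finset
open Pool.Agent.Lib.MP81632f.Diag
open Crit Two Push TP
open Red (ev)

/-- one nonzero number, or three nonzero numbers with sum zero, modulo `M` -/
def atomL (M : ℕ) : List ℕ → Bool
  | [a] => decide (¬ M ∣ a)
  | [a, b, c] => decide (¬ M ∣ a) && decide (¬ M ∣ b) && decide (¬ M ∣ c) && decide (M ∣ a + b + c)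
  | _ => false

/-- the sawtooth sum of a number -/
def sawN (M c f t x : ℕ) : ℤ :=
  ((List.range f).map fun j => 2 * (((c ^ j * t * x) % M : ℕ) : ℤ) - M).sum

/-- balanced sums of two atoms, for the primes `≡ c` modulo `M` -/
def ck (M c f : ℕ) (A B : List ℕ) : Bool :=
  atomL M A && atomL M B && decide (c ^ f % M = 1 % M) && decide (0 < f) &&
  ((List.range M).all fun t => !(Nat.gcd t M == 1) ||
    (((A ++ B).map fun x => sawN M c f t x).sum == 0))

/-- the vector of the parities of a list -/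
def vecL (M : ℕ) (X : List ℕ) : ℕ → ℤ :=
  (X.map fun x => if Odd (M / M.gcd x) then eR (rad (M / M.gcd x)) else 0).sum

section

variable {M p c f : ℕ} [NeZero M]

omit [NeZero M] in
theorem atomL_spec {A : List ℕ} (h : atomL M A = true) :
    IsAtomZ ((A.map fun x : ℕ => (x : ZMod M) : List (ZMod M)) : Multiset (ZMod M)) := by
  match A, h with
  | [a], h =>
    simp only [atomL, decide_eq_true_eq] at h
    refine Or.inl ⟨(a : ZMod M), ?_, rfl⟩
    rwa [Ne, ZMod.natCast_eq_zero_iff]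
  | [a, b, c], h =>
    simp only [atomL, Bool.and_eq_true, decide_eq_true_eq] at h
    obtain ⟨⟨⟨h1, h2⟩, h3⟩, h4⟩ := h
    refine Or.inr ⟨a, b, c, ?_, ?_, ?_, ?_, rfl⟩
    · rwa [Ne, ZMod.natCast_eq_zero_iff]
    · rwa [Ne, ZMod.natCast_eq_zero_iff]
    · rwa [Ne, ZMod.natCast_eq_zero_iff]
    · rw [← Nat.cast_add, ← Nat.cast_add, ZMod.natCast_eq_zero_iff]
      exact h4

theorem sum_list (f : ℕ) (g : ℕ → ℤ) : ∑ j ∈ range f, g j = ((List.range f).map g).sum := rfl

omit [NeZero M] in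
theorem sawN_spec (hc : (p : ZMod M) = c) (t x : ℕ) :
    sawN M c f t x = saw M p f (t : ZMod M) (x : ZMod M) := by
  unfold sawN saw
  rw [sum_list]
  congr 1
  refine List.map_congr_left fun j _ => ?_
  rw [hc, ← Nat.cast_pow, ← Nat.cast_mul, ← Nat.cast_mul, ZMod.val_natCast]

theorem ck_bal {A B : List ℕ} (h : ck M c f A B = true) (hc : (p : ZMod M) = c) :
    IsAtomZ ((A.map fun x : ℕ => (x : ZMod M) : List (ZMod M)) : Multiset (ZMod M)) ∧
    IsAtomZ ((B.map fun x : ℕ => (x : ZMod M) : List (ZMod M)) : Multiset (ZMod M)) ∧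
    (p : ZMod M) ^ f = 1 ∧ 0 < f ∧
    BalM M p f (((A.map fun x : ℕ => (x : ZMod M) : List (ZMod M)) : Multiset (ZMod M)) +
      ((B.map fun x : ℕ => (x : ZMod M) : List (ZMod M)) : Multiset (ZMod M))) := by
  simp only [ck, Bool.and_eq_true, decide_eq_true_eq, List.all_eq_true, List.mem_range,
    Bool.or_eq_true, Bool.not_eq_true', beq_eq_false_iff_ne, beq_iff_eq] at h
  obtain ⟨⟨⟨⟨h1, h2⟩, h3⟩, h4⟩, h5⟩ := h
  refine ⟨atomL_spec h1, atomL_spec h2, ?_, h4, fun t => ?_⟩
  · rw [hc, ← Nat.cast_pow, ← Nat.cast_one, ZMod.natCast_eq_natCast_iff]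
    exact h3
  · have h6 := (h5 (t : ZMod M).val (ZMod.val_lt _)).resolve_left (by
      rw [ne_eq, not_not]
      exact ZMod.val_coe_unit_coprime t)
    rw [Multiset.coe_add, ← List.map_append, Multiset.map_coe, Multiset.sum_coe, List.map_map,
      ← h6]
    congr 1
    refine List.map_congr_left fun x _ => ?_
    rw [sawN_spec hc, ZMod.natCast_zmod_val]
    rfl

theorem vecL_spec (X : List ℕ) (R : ℕ) :
    nR M R (cnt ((X.map fun x : ℕ => (x : ZMod M) : List (ZMod M)) : Multiset (ZMod M))) =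
      vecL M X R := by
  unfold vecL
  induction X with
  | nil =>
    rw [List.map_nil, List.map_nil, List.sum_nil, Multiset.coe_nil, Basic.cnt_zero]
    exact (nRh M R).map_zero
  | cons a s ih =>
    rw [List.map_cons, List.map_cons, List.sum_cons, ← Multiset.cons_coe, Basic.cnt_cons, nR_add,
      ih, Pi.add_apply]
    congr 1
    have h1 : nR M R (Pi.single (a : ZMod M) 1) = _ := nR_ev R (a : ZMod M)
    rw [h1, ZMod.addOrderOf_coe a (NeZero.ne M)]
    by_cases h : Odd (M / M.gcd a)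
    · rw [if_pos h]
      unfold eR
      by_cases h' : R = rad (M / M.gcd a)
      · rw [if_pos h', if_pos ⟨h, h'.symm⟩]
      · rw [if_neg h', if_neg fun h'' => h' h''.2.symm]
    · rw [if_neg h, if_neg fun h'' => h h''.1]
      rfl

/-- **Explicit vectors.** -/
theorem vec_ck (hp : p.Prime) (hM : 1 < M) (hMp : M.Coprime p) {A B : List ℕ}
    (h : ck M c f A B = true) (hc : (p : ZMod M) = c) : vecL M (A ++ B) ∈ VecG p hp := by
  obtain ⟨hA, hB, hpf, hf, hb⟩ := ck_bal h hc
  have h1 := limP_of_ws (v := cnt ((((A ++ B).map fun x : ℕ => (x : ZMod M)) : List (ZMod M)) :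
    Multiset (ZMod M))) hM hf hpf (by
      refine (le_sup_left : Sub M p f ≤ _) (AddSubgroup.subset_closure ⟨_, Or.inl
        ⟨_, _, hA, hB, rfl, hb⟩, ?_⟩)
      rw [Multiset.coe_add, ← List.map_append])
  have h2 := vecA_of_limP hMp (Basic.cnt_apply_zero (by
    rw [List.map_append, ← Multiset.coe_add, Multiset.mem_add, not_or]
    exact ⟨Basic.atom_zero hA, Basic.atom_zero hB⟩)) h1
  refine VecA.congr h2 fun R _ _ _ => ?_
  rw [vecL_spec, sub_self]
  exact Even.zero

/-- sets which are balanced for all primes -/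
theorem vec_gen (hp : p.Prime) (hM : 1 < M) (hMp : M.Coprime p) {A B : List ℕ}
    (h : ck M 1 1 A B = true) : vecL M (A ++ B) ∈ VecG p hp := by
  have hc : (((1 : ℕ) : ℕ) : ZMod M) = ((1 : ℕ) : ZMod M) := rfl
  obtain ⟨hA, hB, -, -, hb⟩ := ck_bal (p := 1) h hc
  obtain ⟨g, hg, hpg⟩ : ∃ g : ℕ, 0 < g ∧ (p : ZMod M) ^ g = 1 := by
    refine ⟨M.totient, Nat.totient_pos.mpr (NeZero.pos M), ?_⟩
    have h1 := (ZMod.natCast_eq_natCast_iff _ _ _).mpr (Nat.ModEq.pow_totient hMp.symm)
    rwa [Nat.cast_pow, Nat.cast_one] at h1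
  have hb' : BalM M p g (((A.map fun x : ℕ => (x : ZMod M) : List (ZMod M)) : Multiset (ZMod M)) +
      ((B.map fun x : ℕ => (x : ZMod M) : List (ZMod M)) : Multiset (ZMod M))) := by
    intro t
    have hu : IsUnit (p : ZMod M) := (ZMod.isUnit_iff_coprime p M).mpr hMp.symm
    obtain ⟨u, hu⟩ := hu
    have e1 : ∀ x : ZMod M, saw M p g (t : ZMod M) x =
        ∑ j ∈ range g, saw M 1 1 ((u ^ j * t : (ZMod M)ˣ) : ZMod M) x := by
      intro x
      unfold saw
      refine Finset.sum_congr rfl fun j _ => ?_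
      rw [Finset.sum_range_one, pow_zero, one_mul, Units.val_mul, Units.val_pow_eq_pow_val, hu]
    have e2 : (fun x => saw M p g (t : ZMod M) x) =
        fun x => ∑ j ∈ range g, saw M 1 1 ((u ^ j * t : (ZMod M)ˣ) : ZMod M) x := funext e1
    rw [e2, Multiset.sum_map_sum]
    exact Finset.sum_eq_zero fun j _ => hb (u ^ j * t)
  have h1 := limP_of_ws (v := cnt ((((A ++ B).map fun x : ℕ => (x : ZMod M)) : List (ZMod M)) :
    Multiset (ZMod M))) hM hg hpg (by
      refine (le_sup_left : Sub M p g ≤ _) (AddSubgroup.subset_closure ⟨_, Or.inl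
        ⟨_, _, hA, hB, rfl, hb'⟩, ?_⟩)
      rw [Multiset.coe_add, ← List.map_append])
  have h2 := vecA_of_limP hMp (Basic.cnt_apply_zero (by
    rw [List.map_append, ← Multiset.coe_add, Multiset.mem_add, not_or]
    exact ⟨Basic.atom_zero hA, Basic.atom_zero hB⟩)) h1
  refine VecA.congr h2 fun R _ _ _ => ?_
  rw [vecL_spec, sub_self]
  exact Even.zero

end

/-! ### Evaluation -/

theorem rad_of {n r k : ℕ} (hr : Squarefree r) (h1 : r ∣ n) (h2 : n ∣ r ^ k) : rad n = r := by
  have hr0 : 0 < r := Nat.pos_of_ne_zero hr.ne_zero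
  have hn0 : 0 < n := Nat.pos_of_dvd_of_pos h2 (pow_pos hr0 k)
  refine Nat.dvd_antisymm ?_ (sq_dvd_rad hr hn0 h1)
  have h3 : rad n ∣ r ^ k := (rad_dvd n).trans h2
  by_cases hk : k = 0
  · subst hk
    rw [pow_zero] at h3
    exact h3.trans (one_dvd r)
  · exact ((rad_squarefree n).dvd_pow_iff_dvd hk).mp h3

/-- squarefree numbers by a computation -/
theorem sqf_of {n : ℕ} (h : ∀ d < n + 1, d * d ∣ n → d = 1) (hn : 0 < n) : Squarefree n := by
  intro d hd
  have h1 : d ≤ n := Nat.le_of_dvd hn ((dvd_mul_right d d).trans hd)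
  exact Nat.isUnit_iff.mpr (h d (by omega) hd)

/-- the odd orders of the elements of a list -/
def oddO (M : ℕ) (X : List ℕ) : List ℕ := (X.map fun x => M / M.gcd x).filter fun n => n % 2 == 1

theorem vecL_eq (M : ℕ) (X : List ℕ) : vecL M X = ((oddO M X).map fun n => eR (rad n)).sum := by
  unfold vecL oddO
  induction X with
  | nil => rfl
  | cons a s ih =>
    rw [List.map_cons, List.map_cons, List.sum_cons, ih]
    by_cases h : Odd (M / M.gcd a)
    · rw [if_pos h, List.filter_cons_of_pos (by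
        rw [beq_iff_eq]
        exact Nat.odd_iff.mp h), List.map_cons, List.sum_cons]
    · rw [if_neg h, zero_add, List.filter_cons_of_neg (by
        rw [beq_iff_eq]
        exact fun h' => h (Nat.odd_iff.mpr h'))]

/-! ### The vectors for all primes -/

section Generic

variable {p : ℕ}

theorem rad_prime {q : ℕ} (hq : q.Prime) : rad q = q := rad_of_squarefree hq.squarefree

theorem cop_of {p : ℕ} (hp : p.Prime) {M : ℕ} (h : ∀ q ∈ M.primeFactors, p ≠ q) (hM : M ≠ 0) :
    M.Coprime p := by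
  by_contra h1
  obtain ⟨q, hq, hqM, hqp⟩ := Nat.Prime.not_coprime_iff_dvd.mp h1
  exact h q (Nat.mem_primeFactors.mpr ⟨hq, hqM, hM⟩) ((Nat.prime_dvd_prime_iff_eq hq hp).mp hqp).symm

theorem e3_mem (hp : p.Prime) (h3 : p ≠ 3) : eR 3 ∈ VecG p hp := by
  by_cases h2 : p = 2
  · subst h2
    exact eR_pure hp (i := 1) (by norm_num)
  have hMp : (12 : ℕ).Coprime p := by
    have e1 : (12 : ℕ) = 2 ^ 2 * 3 := by norm_num
    rw [e1]
    exact Nat.Coprime.mul_left (((Nat.coprime_primes Nat.prime_two hp).mpr (Ne.symm h2)).pow_left 2)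
      ((Nat.coprime_primes Nat.prime_three hp).mpr (Ne.symm h3))
  have h := vec_gen (M := 12) hp (by norm_num) hMp (A := [4, 3, 5]) (B := [9, 9, 6]) (by decide)
  rw [vecL_eq, show oddO 12 ([4, 3, 5] ++ [9, 9, 6]) = [3] by decide, List.map_cons, List.map_nil,
    List.sum_cons, List.sum_nil, add_zero, rad_prime Nat.prime_three] at h
  exact h

theorem e5_mem (hp : p.Prime) (h5 : p ≠ 5) : eR 5 ∈ VecG p hp := by
  by_cases h2 : p = 2
  · subst h2
    exact eR_pure hp (i := 2) (by norm_num)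
  have hMp : (20 : ℕ).Coprime p := by
    have e1 : (20 : ℕ) = 2 ^ 2 * 5 := by norm_num
    rw [e1]
    exact Nat.Coprime.mul_left (((Nat.coprime_primes Nat.prime_two hp).mpr (Ne.symm h2)).pow_left 2)
      ((Nat.coprime_primes Nat.prime_five hp).mpr (Ne.symm h5))
  have h := vec_gen (M := 20) hp (by norm_num) hMp (A := [1, 1, 18]) (B := [4, 17, 19]) (by decide)
  rw [vecL_eq, show oddO 20 ([1, 1, 18] ++ [4, 17, 19]) = [5] by decide, List.map_cons,
    List.map_nil, List.sum_cons, List.sum_nil, add_zero, rad_prime Nat.prime_five] at h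
  exact h

theorem e7_21_mem (hp : p.Prime) (h3 : p ≠ 3) (h7 : p ≠ 7) : eR 7 + eR 21 ∈ VecG p hp := by
  have hMp : (21 : ℕ).Coprime p := by
    have e1 : (21 : ℕ) = 3 * 7 := by norm_num
    rw [e1]
    exact Nat.Coprime.mul_left ((Nat.coprime_primes Nat.prime_three hp).mpr (Ne.symm h3))
      ((Nat.coprime_primes (by norm_num) hp).mpr (Ne.symm h7))
  have h := vec_gen (M := 21) hp (by norm_num) hMp (A := [1, 1, 19]) (B := [4, 18, 20]) (by decide)
  have h21 : rad 21 = 21 := rad_of_squarefree (sqf_of (by decide) (by norm_num))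
  rw [vecL_eq, show oddO 21 ([1, 1, 19] ++ [4, 18, 20]) = [21, 21, 21, 21, 7, 21] by decide] at h
  simp only [List.map_cons, List.map_nil, List.sum_cons, List.sum_nil, h21,
    rad_prime (show Nat.Prime 7 by norm_num)] at h
  have h4 : eR 21 + (eR 21 + (eR 21 + (eR 21 + (eR 7 + (eR 21 + 0))))) =
    (eR 7 + eR 21) + (4 : ℤ) • eR 21 := by
    funext R
    simp only [Pi.add_apply, Pi.smul_apply, Pi.zero_apply, smul_eq_mul]
    ring
  rw [h4] at h
  have h5 := sub_mem h (even_smul_mem hp (n := 4) (by decide) 21)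
  rwa [add_sub_cancel_right] at h5

theorem e3_33_mem (hp : p.Prime) (h3 : p ≠ 3) (h11 : p ≠ 11) : eR 3 + eR 33 ∈ VecG p hp := by
  by_cases h2 : p = 2
  · subst h2
    exact add_mem (eR_pure hp (i := 1) (by norm_num)) (eR_pure hp (i := 5) (by norm_num))
  have hMp : (66 : ℕ).Coprime p := by
    have e1 : (66 : ℕ) = 2 * (3 * 11) := by norm_num
    rw [e1]
    exact Nat.Coprime.mul_left ((Nat.coprime_primes Nat.prime_two hp).mpr (Ne.symm h2))
      (Nat.Coprime.mul_left ((Nat.coprime_primes Nat.prime_three hp).mpr (Ne.symm h3))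
      ((Nat.coprime_primes (by norm_num) hp).mpr (Ne.symm h11)))
  have h := vec_gen (M := 66) hp (by norm_num) hMp (A := [1, 3, 62]) (B := [25, 44, 63]) (by decide)
  have h33 : rad 33 = 33 := rad_of_squarefree (sqf_of (by decide) (by norm_num))
  rw [vecL_eq, show oddO 66 ([1, 3, 62] ++ [25, 44, 63]) = [33, 3] by decide] at h
  simp only [List.map_cons, List.map_nil, List.sum_cons, List.sum_nil, h33,
    rad_prime Nat.prime_three, add_zero] at h
  rwa [add_comm]

end Generic

end Pool.Agent.Lib.MP81632f.Lv
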